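import Pool.Agent.Lib.MP_09cbbd_sw.Defs

/-!
# A general pair gas: splitting of the one-particle factor
-/

set_option autoImplicit false

namespace Pool.Agent.SquareWell.ModA

open MeasureTheory Finset

variable {X : Type} [MeasurableSpace X] (m : Measure X) (ψ : X → X → ENNReal)

set_option linter.unusedSectionVars false

/-- Product of the pair factors over ordered pairs. -/
noncomputable def Pr {ι : Type} [Fintype ι] [DecidableEq ι] (x : ι → X) : ENNReal :=
  ∏ i, ∏ j, if i = j then 1 else ψ (x i) (x j)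

/-- Weight of a configuration. -/
noncomputable def Gw {ι : Type} [Fintype ι] [DecidableEq ι] (f : X → ENNReal) (x : ι → X) :
    ENNReal := (∏ i, f (x i)) * Pr ψ x

/-- Factor of a new particle. -/
noncomputable def Pu {ι : Type} [Fintype ι] (u : ι → X) (y : X) : ENNReal :=
  ∏ i, ψ (u i) y * ψ y (u i)

/-- Grand-canonical partition function. -/
noncomputable def Xg (f : X → ENNReal) : ENNReal :=
  ∑' n : ℕ, ((n.factorial : ENNReal))⁻¹ * ∫⁻ x : Fin n → X, Gw ψ f x ∂(Measure.pi fun _ => m)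

theorem Pr_congr {ι κ : Type} [Fintype ι] [DecidableEq ι] [Fintype κ] [DecidableEq κ] (e : ι ≃ κ)
    (x : κ → X) : Pr ψ (fun i => x (e i)) = Pr ψ x := by
  unfold Pr
  rw [← e.prod_comp]
  refine prod_congr rfl fun i _ => ?_
  rw [← e.prod_comp]
  refine prod_congr rfl fun j _ => ?_
  by_cases h : i = j
  · subst h; simp
  · rw [if_neg h, if_neg fun hh => h (e.injective hh)]

theorem Gw_congr {ι κ : Type} [Fintype ι] [DecidableEq ι] [Fintype κ] [DecidableEq κ] (e : ι ≃ κ)
    (f : X → ENNReal) (x : κ → X) : Gw ψ f (fun i => x (e i)) = Gw ψ f x := by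
  unfold Gw
  rw [Pr_congr ψ e x, e.prod_comp fun k => f (x k)]

theorem Pu_congr {ι κ : Type} [Fintype ι] [Fintype κ] (e : ι ≃ κ) (x : κ → X) (y : X) :
    Pu ψ (fun i => x (e i)) y = Pu ψ x y := by
  unfold Pu
  exact e.prod_comp fun k => ψ (x k) y * ψ y (x k)

variable {ψ}

theorem measurable_Pr (hψ : Measurable fun p : X × X => ψ p.1 p.2) {ι : Type} [Fintype ι]
    [DecidableEq ι] : Measurable fun x : ι → X => Pr ψ x := by
  unfold Pr
  refine Finset.measurable_prod _ fun i _ => Finset.measurable_prod _ fun j _ => ?_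
  by_cases h : i = j
  · simp only [h, if_true]; exact measurable_const
  · simp only [h, if_false]
    have h1 : Measurable fun x : ι → X => (x i, x j) :=
      (measurable_pi_apply i).prodMk (measurable_pi_apply j)
    exact hψ.comp h1

theorem measurable_Gw (hψ : Measurable fun p : X × X => ψ p.1 p.2) {f : X → ENNReal}
    (hf : Measurable f) {ι : Type} [Fintype ι] [DecidableEq ι] :
    Measurable fun x : ι → X => Gw ψ f x := by
  unfold Gw
  exact (Finset.measurable_prod _ fun i _ => hf.comp (measurable_pi_apply i)).mul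
    (measurable_Pr hψ)

theorem measurable_Pu2 (hψ : Measurable fun p : X × X => ψ p.1 p.2) {ι : Type} [Fintype ι] :
    Measurable fun p : (ι → X) × X => Pu ψ p.1 p.2 := by
  unfold Pu
  refine Finset.measurable_prod _ fun i _ => ?_
  have h1 : Measurable fun p : (ι → X) × X => (p.1 i, p.2) :=
    ((measurable_pi_apply i).comp measurable_fst).prodMk measurable_snd
  have h2 : Measurable fun p : (ι → X) × X => (p.2, p.1 i) :=
    measurable_snd.prodMk ((measurable_pi_apply i).comp measurable_fst)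
  exact (hψ.comp h1).mul (hψ.comp h2)

/-- Jointly measurable version. -/
theorem measurable_Gw2 (hψ : Measurable fun p : X × X => ψ p.1 p.2) {Y : Type} [MeasurableSpace Y]
    {f : Y → X → ENNReal} (hf : Measurable fun p : Y × X => f p.1 p.2) {ι : Type} [Fintype ι]
    [DecidableEq ι] : Measurable fun p : Y × (ι → X) => Gw ψ (f p.1) p.2 := by
  unfold Gw
  refine (Finset.measurable_prod _ fun i _ => ?_).mul ((measurable_Pr hψ).comp measurable_snd)
  exact hf.comp (measurable_fst.prodMk ((measurable_pi_apply i).comp measurable_snd))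

theorem measurable_Xg [SigmaFinite m] (hψ : Measurable fun p : X × X => ψ p.1 p.2) {Y : Type}
    [MeasurableSpace Y] {f : Y → X → ENNReal} (hf : Measurable fun p : Y × X => f p.1 p.2) :
    Measurable fun y => Xg m ψ (f y) := by
  unfold Xg
  refine Measurable.tsum fun n => Measurable.const_mul ?_ _
  exact Measurable.lintegral_prod_right' (measurable_Gw2 hψ hf)

/-- Splitting of the pair factors. -/
theorem Pr_split {ι : Type} [Fintype ι] [DecidableEq ι] (p : ι → Prop) [DecidablePred p]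
    (x : ι → X) :
    Pr ψ x = Pr ψ (fun i : {i // p i} => x i) * ((∏ j : {i // ¬ p i},
      Pu ψ (fun i : {i // p i} => x i) (x j)) * Pr ψ (fun i : {i // ¬ p i} => x i)) := by
  have h1 : ∀ F : ι → ENNReal, ∏ i, F i = (∏ i : {i // p i}, F i) * ∏ i : {i // ¬ p i}, F i :=
    fun F => (Fintype.prod_subtype_mul_prod_subtype p F).symm
  unfold Pr Pu
  rw [h1]
  have h2 : ∀ i : {i // p i}, (∏ j, if (i : ι) = j then 1 else ψ (x i) (x j)) =
      (∏ j : {i // p i}, if i = j then 1 else ψ (x i) (x j)) * ∏ j : {i // ¬ p i}, ψ (x i) (x j) := by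
    intro i
    rw [h1]
    congr 1
    · refine prod_congr rfl fun j _ => ?_
      by_cases h : i = j
      · subst h; simp
      · rw [if_neg h, if_neg fun hh => h (Subtype.ext hh)]
    · refine prod_congr rfl fun j _ => ?_
      rw [if_neg]
      intro hh
      exact j.2 (hh ▸ i.2)
  have h3 : ∀ i : {i // ¬ p i}, (∏ j, if (i : ι) = j then 1 else ψ (x i) (x j)) =
      (∏ j : {i // p i}, ψ (x i) (x j)) * ∏ j : {i // ¬ p i}, if i = j then 1 else ψ (x i) (x j) := by
    intro i
    rw [h1]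
    congr 1
    · refine prod_congr rfl fun j _ => ?_
      rw [if_neg]
      intro hh
      exact i.2 (hh ▸ j.2)
    · refine prod_congr rfl fun j _ => ?_
      by_cases h : i = j
      · subst h; simp
      · rw [if_neg h, if_neg fun hh => h (Subtype.ext hh)]
  rw [prod_congr rfl fun i _ => h2 i, prod_congr rfl fun i _ => h3 i, prod_mul_distrib,
    prod_mul_distrib]
  simp only [prod_mul_distrib]
  rw [prod_comm (s := (univ : Finset {i // p i})) (t := (univ : Finset {i // ¬ p i}))]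
  ring

variable (ψ)

/-- Two kinds of particles. -/
noncomputable def JG (ι κ : Type) [Fintype ι] [DecidableEq ι] [Fintype κ] [DecidableEq κ]
    (f1 f2 : X → ENNReal) : ENNReal :=
  ∫⁻ u : ι → X, Gw ψ f1 u * ∫⁻ v : κ → X, Gw ψ (fun y => f2 y * Pu ψ u y) v
    ∂(Measure.pi fun _ => m) ∂(Measure.pi fun _ => m)

theorem lint_congr [SigmaFinite m] {ι κ : Type} [Fintype ι] [Fintype κ] (e : ι ≃ κ)
    (F : (κ → X) → ENNReal) :
    ∫⁻ x : ι → X, F (fun k => x (e.symm k)) ∂(Measure.pi fun _ => m) =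
      ∫⁻ x : κ → X, F x ∂(Measure.pi fun _ => m) := by
  have h := measurePreserving_piCongrLeft (fun _ : κ => m) e
  rw [← h.lintegral_comp_emb (MeasurableEquiv.piCongrLeft _ e).measurableEmbedding]
  refine lintegral_congr fun x => ?_
  congr 1
  funext k
  obtain ⟨i, rfl⟩ := e.surjective k
  rw [e.symm_apply_apply]
  exact (Equiv.piCongrLeft_apply_apply (fun _ : κ => X) e x i).symm

theorem JG_congr [SigmaFinite m] {ι ι' κ κ' : Type} [Fintype ι] [DecidableEq ι] [Fintype κ]
    [DecidableEq κ] [Fintype ι'] [DecidableEq ι'] [Fintype κ'] [DecidableEq κ'] (e : ι ≃ ι')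
    (f : κ ≃ κ') (f1 f2 : X → ENNReal) : JG m ψ ι κ f1 f2 = JG m ψ ι' κ' f1 f2 := by
  unfold JG
  rw [← lint_congr m e]
  refine lintegral_congr fun u => ?_
  have h1 : Gw ψ f1 (fun k => u (e.symm k)) = Gw ψ f1 u := Gw_congr ψ e.symm f1 u
  have h2 : ∀ y, Pu ψ (fun k => u (e.symm k)) y = Pu ψ u y := fun y => Pu_congr ψ e.symm u y
  simp only [h1, h2]
  rw [← lint_congr m f]
  congr 1
  refine lintegral_congr fun v => ?_
  exact (Gw_congr ψ f.symm _ v).symm

theorem JG_inst {ι κ : Type} (i1 i1' : Fintype ι) (i2 i2' : DecidableEq ι) (j1 j1' : Fintype κ)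
    (j2 j2' : DecidableEq κ) (f1 f2 : X → ENNReal) :
    @JG X _ m ψ ι κ i1 i2 j1 j2 f1 f2 = @JG X _ m ψ ι κ i1' i2' j1' j2' f1 f2 := by
  rw [Subsingleton.elim i1 i1', Subsingleton.elim i2 i2', Subsingleton.elim j1 j1',
    Subsingleton.elim j2 j2']

variable {ψ}

theorem piece [SigmaFinite m] (hψ : Measurable fun p : X × X => ψ p.1 p.2) {f1 f2 : X → ENNReal}
    (h1 : Measurable f1) (h2 : Measurable f2) (ι : Type) [Fintype ι] [DecidableEq ι]
    (p : ι → Prop) [DecidablePred p] :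
    ∫⁻ x : ι → X, (∏ i ∈ univ.filter p, f1 (x i)) * (∏ i ∈ univ.filter (fun i => ¬ p i), f2 (x i)) *
      Pr ψ x ∂(Measure.pi fun _ => m) = JG m ψ {i // p i} {i // ¬ p i} f1 f2 := by
  have hmp := measurePreserving_piEquivPiSubtypeProd (fun _ : ι => m) p
  obtain ⟨F, hF⟩ : ∃ F : ({i // p i} → X) × ({i // ¬ p i} → X) → ENNReal,
      F = fun q => Gw ψ f1 q.1 * Gw ψ (fun y => f2 y * Pu ψ q.1 y) q.2 := ⟨_, rfl⟩
  have hFm : Measurable F := by
    rw [hF]
    refine ((measurable_Gw hψ h1).comp measurable_fst).mul ?_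
    refine measurable_Gw2 (Y := {i // p i} → X) (f := fun u y => f2 y * Pu ψ u y) hψ ?_
    exact (h2.comp measurable_snd).mul (measurable_Pu2 hψ)
  have e1 : ∀ x : ι → X, (∏ i ∈ univ.filter p, f1 (x i)) *
      (∏ i ∈ univ.filter (fun i => ¬ p i), f2 (x i)) * Pr ψ x =
      F (MeasurableEquiv.piEquivPiSubtypeProd (fun _ : ι => X) p x) := by
    intro x
    have a1 : ∏ i ∈ univ.filter p, f1 (x i) = ∏ i : {i // p i}, f1 (x i) :=
      prod_subtype _ (by simp) fun i => f1 (x i)
    have a2 : ∏ i ∈ univ.filter (fun i => ¬ p i), f2 (x i) = ∏ i : {i // ¬ p i}, f2 (x i) :=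
      prod_subtype _ (by simp) fun i => f2 (x i)
    rw [hF, Pr_split p x, a1, a2]
    simp only [Gw, prod_mul_distrib]
    change _ = (∏ i : {i // p i}, f1 (x i)) * Pr ψ (fun i : {i // p i} => x i) *
      ((∏ i : {i // ¬ p i}, f2 (x i)) * (∏ j : {i // ¬ p i},
        Pu ψ (fun i : {i // p i} => x i) (x j)) * Pr ψ (fun i : {i // ¬ p i} => x i))
    ring
  rw [lintegral_congr e1, hmp.lintegral_comp hFm, lintegral_prod _ hFm.aemeasurable]
  unfold JG
  refine lintegral_congr fun u => ?_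
  rw [hF]
  simp only
  rw [lintegral_const_mul]
  exact (measurable_Gw2 (Y := {i // p i} → X) (f := fun u y => f2 y * Pu ψ u y) hψ
    ((h2.comp measurable_snd).mul (measurable_Pu2 hψ))).comp (measurable_const.prodMk measurable_id)

theorem Gw_union [SigmaFinite m] (hψ : Measurable fun p : X × X => ψ p.1 p.2)
    {f1 f2 : X → ENNReal} (h1 : Measurable f1) (h2 : Measurable f2) (N : ℕ) :
    ∫⁻ x : Fin N → X, Gw ψ (fun y => f1 y + f2 y) x ∂(Measure.pi fun _ => m) =
      ∑ k ∈ range (N + 1), (N.choose k : ENNReal) * JG m ψ (Fin k) (Fin (N - k)) f1 f2 := by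
  have e1 : ∀ x : Fin N → X, Gw ψ (fun y => f1 y + f2 y) x = ∑ A : Finset (Fin N),
      (∏ i ∈ A, f1 (x i)) * (∏ i ∈ univ \ A, f2 (x i)) * Pr ψ x := by
    intro x
    unfold Gw
    rw [prod_add, sum_mul, powerset_univ]
  have hm : ∀ A : Finset (Fin N), Measurable fun x : Fin N → X =>
      (∏ i ∈ A, f1 (x i)) * (∏ i ∈ univ \ A, f2 (x i)) * Pr ψ x := fun A =>
    ((Finset.measurable_prod _ fun i _ => h1.comp (measurable_pi_apply _)).mul
      (Finset.measurable_prod _ fun i _ => h2.comp (measurable_pi_apply _))).mul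
      (measurable_Pr hψ)
  have h3 : ∀ A : Finset (Fin N), ∫⁻ x : Fin N → X, (∏ i ∈ A, f1 (x i)) *
      (∏ i ∈ univ \ A, f2 (x i)) * Pr ψ x ∂(Measure.pi fun _ => m) =
      JG m ψ (Fin A.card) (Fin (N - A.card)) f1 f2 := by
    intro A
    have g0 := piece m hψ h1 h2 (Fin N) (fun i => i ∈ A)
    have b1 : univ.filter (fun i => i ∈ A) = A := by ext; simp
    have b2 : univ.filter (fun i => ¬ i ∈ A) = univ \ A := by ext; simp
    rw [b1, b2] at g0
    rw [g0]
    have c1 : Fintype.card {i // i ∈ A} = A.card := Fintype.card_coe A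
    have c2 : Fintype.card {i // ¬ i ∈ A} = N - A.card := by
      have h5 := Fintype.card_subtype_compl (fun i => i ∈ A)
      rw [c1, Fintype.card_fin] at h5
      exact h5
    have g := JG_congr m ψ (Fintype.equivFinOfCardEq c1) (Fintype.equivFinOfCardEq c2) f1 f2
    exact (JG_inst m ψ _ _ _ _ _ _ _ _ _ _).trans g
  rw [lintegral_congr e1, lintegral_finsetSum _ fun A _ => hm A, sum_congr rfl fun A _ => h3 A]
  have h4 := sum_powerset_apply_card (x := (univ : Finset (Fin N)))
    (fun k => JG m ψ (Fin k) (Fin (N - k)) f1 f2)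
  rw [card_univ, Fintype.card_fin, powerset_univ] at h4
  rw [h4]
  refine sum_congr rfl fun k _ => ?_
  rw [nsmul_eq_mul]

/-- Adding a one-particle factor. -/
theorem Xg_add [SigmaFinite m] (hψ : Measurable fun p : X × X => ψ p.1 p.2)
    {f1 f2 : X → ENNReal} (h1 : Measurable f1) (h2 : Measurable f2) :
    Xg m ψ (fun y => f1 y + f2 y) = ∑' k : ℕ, ((k.factorial : ENNReal))⁻¹ *
      ∫⁻ u : Fin k → X, Gw ψ f1 u * Xg m ψ (fun y => f2 y * Pu ψ u y)
        ∂(Measure.pi fun _ => m) := by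
  have h3 : ∀ N : ℕ, ((N.factorial : ENNReal))⁻¹ *
      ∫⁻ x : Fin N → X, Gw ψ (fun y => f1 y + f2 y) x ∂(Measure.pi fun _ => m) =
      ∑ p ∈ antidiagonal N, ((p.1.factorial : ENNReal))⁻¹ *
        (((p.2.factorial : ENNReal))⁻¹ * JG m ψ (Fin p.1) (Fin p.2) f1 f2) := by
    intro N
    rw [Gw_union m hψ h1 h2, mul_sum, Finset.Nat.sum_antidiagonal_eq_sum_range_succ
      (fun k l => ((k.factorial : ENNReal))⁻¹ *
        (((l.factorial : ENNReal))⁻¹ * JG m ψ (Fin k) (Fin l) f1 f2))]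
    refine sum_congr rfl fun k hk => ?_
    have hk' : k ≤ N := by have := mem_range.1 hk; omega
    have e2 : ((N.factorial : ENNReal))⁻¹ * (N.choose k : ENNReal) =
        ((k.factorial : ENNReal))⁻¹ * (((N - k).factorial : ENNReal))⁻¹ := by
      have h5 : ((N.choose k : ℕ) : ENNReal) * k.factorial * (N - k).factorial = N.factorial := by
        exact_mod_cast Nat.choose_mul_factorial_mul_factorial hk'
      have n1 : ((k.factorial : ℕ) : ENNReal) ≠ 0 := by exact_mod_cast k.factorial_ne_zero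
      have n2 : (((N - k).factorial : ℕ) : ENNReal) ≠ 0 := by
        exact_mod_cast (N - k).factorial_ne_zero
      have n3 : ((N.choose k : ℕ) : ENNReal) ≠ 0 := by
        exact_mod_cast (Nat.choose_pos hk').ne'
      have t1 : ((k.factorial : ℕ) : ENNReal) ≠ ⊤ := ENNReal.natCast_ne_top _
      have t2 : (((N - k).factorial : ℕ) : ENNReal) ≠ ⊤ := ENNReal.natCast_ne_top _
      have t3 : ((N.choose k : ℕ) : ENNReal) ≠ ⊤ := ENNReal.natCast_ne_top _
      rw [← h5, ENNReal.mul_inv (Or.inr t2) (Or.inr n2), ENNReal.mul_inv (Or.inl n3) (Or.inl t3)]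
      calc ((N.choose k : ℕ) : ENNReal)⁻¹ * ((k.factorial : ℕ) : ENNReal)⁻¹ *
            (((N - k).factorial : ℕ) : ENNReal)⁻¹ * ((N.choose k : ℕ) : ENNReal)
          = (((N.choose k : ℕ) : ENNReal)⁻¹ * ((N.choose k : ℕ) : ENNReal)) *
            (((k.factorial : ℕ) : ENNReal)⁻¹ * (((N - k).factorial : ℕ) : ENNReal)⁻¹) := by ring
        _ = _ := by rw [ENNReal.inv_mul_cancel n3 t3, one_mul]
    calc ((N.factorial : ENNReal))⁻¹ * ((N.choose k : ENNReal) * JG m ψ (Fin k) (Fin (N - k)) f1 f2)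
        = (((N.factorial : ENNReal))⁻¹ * (N.choose k : ENNReal)) *
          JG m ψ (Fin k) (Fin (N - k)) f1 f2 := by ring
      _ = _ := by rw [e2]; ring
  have h6 : Xg m ψ (fun y => f1 y + f2 y) = ∑' k : ℕ, ∑' l : ℕ, ((k.factorial : ENNReal))⁻¹ *
        (((l.factorial : ENNReal))⁻¹ * JG m ψ (Fin k) (Fin l) f1 f2) := by
    unfold Xg
    rw [tsum_congr h3]
    obtain ⟨f, hf⟩ : ∃ f : ℕ × ℕ → ENNReal, f = fun p => ((p.1.factorial : ENNReal))⁻¹ *
          (((p.2.factorial : ENNReal))⁻¹ * JG m ψ (Fin p.1) (Fin p.2) f1 f2) := ⟨_, rfl⟩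
    have h5 : ∑' N : ℕ, ∑ p ∈ antidiagonal N, f p = ∑' k : ℕ, ∑' l : ℕ, f (k, l) := by
      have e1 : ∀ N : ℕ, ∑ p ∈ antidiagonal N, f p = ∑' x : antidiagonal N, f x := by
        intro N
        rw [tsum_fintype, ← Finset.sum_coe_sort]
      rw [tsum_congr e1]
      have e2 := (ENNReal.tsum_sigma' (fun s : (Σ N : ℕ, antidiagonal N) => f s.2)).symm
      rw [e2]
      have e3 := (Finset.HasAntidiagonal.sigmaAntidiagonalEquivProd (A := ℕ)).tsum_eq f
      refine Eq.trans ?_ (e3.trans (ENNReal.tsum_prod' (f := f)))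
      rfl
    rw [hf] at h5
    rw [h5]
  rw [h6]
  refine tsum_congr fun k => ?_
  rw [ENNReal.tsum_mul_left]
  congr 1
  have hpm : Measurable fun q : (Fin k → X) × X => f2 q.2 * Pu ψ q.1 q.2 :=
    (h2.comp measurable_snd).mul (measurable_Pu2 hψ)
  have hl : ∀ l : ℕ, Measurable fun u : Fin k → X =>
      ∫⁻ v : Fin l → X, Gw ψ (fun y => f2 y * Pu ψ u y) v ∂(Measure.pi fun _ => m) := fun l =>
    Measurable.lintegral_prod_right' (measurable_Gw2 (Y := Fin k → X)
      (f := fun u y => f2 y * Pu ψ u y) hψ hpm)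
  have e4 : ∀ l : ℕ, ((l.factorial : ENNReal))⁻¹ * JG m ψ (Fin k) (Fin l) f1 f2 =
      ∫⁻ u : Fin k → X, ((l.factorial : ENNReal))⁻¹ * (Gw ψ f1 u *
        ∫⁻ v : Fin l → X, Gw ψ (fun y => f2 y * Pu ψ u y) v ∂(Measure.pi fun _ => m))
        ∂(Measure.pi fun _ => m) := by
    intro l
    have hh : Measurable fun u : Fin k → X => Gw ψ f1 u *
        ∫⁻ v : Fin l → X, Gw ψ (fun y => f2 y * Pu ψ u y) v ∂(Measure.pi fun _ => m) :=
      (measurable_Gw hψ h1).mul (hl l)
    rw [lintegral_const_mul _ hh]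
    rfl
  have hh : ∀ l : ℕ, Measurable fun u : Fin k → X => ((l.factorial : ENNReal))⁻¹ * (Gw ψ f1 u *
        ∫⁻ v : Fin l → X, Gw ψ (fun y => f2 y * Pu ψ u y) v ∂(Measure.pi fun _ => m)) := fun l =>
    ((measurable_Gw hψ h1).mul (hl l)).const_mul _
  rw [tsum_congr e4, ← lintegral_tsum fun l => (hh l).aemeasurable]
  refine lintegral_congr fun u => ?_
  unfold Xg
  rw [← ENNReal.tsum_mul_left]
  refine tsum_congr fun l => ?_
  ring

theorem Xg_zero : Xg m ψ (fun _ => 0) = 1 := by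
  unfold Xg
  rw [tsum_eq_single 0]
  · have e : ∀ x : Fin 0 → X, Gw ψ (fun _ => 0) x = 1 := fun x => by simp [Gw, Pr]
    simp [e]
  · intro N hN
    have e : ∀ x : Fin N → X, Gw ψ (fun _ => 0) x = 0 := fun x => by
      unfold Gw
      rw [prod_eq_zero (mem_univ (⟨0, by omega⟩ : Fin N)) rfl, zero_mul]
    simp [e]

end Pool.Agent.SquareWell.ModA
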