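import Pool.Agent.Lib.MP_09cbbd_sw.Defs
import Pool.Agent.Lib.MP_09cbbd_mp_h27.PsTopo

/-!
# Cutting a configuration along its large contours
-/

set_option autoImplicit false

namespace Pool.Agent.SquareWell

open Finset Pool.Agent.StableGas

variable {d : ℕ}

/-- The sites at distance at most `r` from `Λ`. -/
noncomputable def fatr (r : ℕ) (Λ : Finset (Zd d)) : Finset (Zd d) :=
  Λ.biUnion fun x => Fintype.piFinset fun k => Finset.Icc (x k - r) (x k + r)

/-- The bad sites: neither all sites near are dense nor all sites near are almost empty. -/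
noncomputable def bad (r : ℕ) (Λ : Finset (Zd d)) (D V : Zd d → Prop) : Finset (Zd d) := by
  classical exact (fatr r Λ).filter fun i => (∃ j, near r i j ∧ ¬ D j) ∧ ∃ j, near r i j ∧ ¬ V j

/-- The finite components of the complement of `G`, with `G`. -/
noncomputable def fill (G : Finset (Zd d)) : Finset (Zd d) := G ∪ (VV G).biUnion id

/-- `L` is the union of the large contours, `Y` is the dense region outside `L`. -/
structure Cut (r : ℕ) (Λ : Finset (Zd d)) (D V : Zd d → Prop) (s : ℕ) (L Y : Finset (Zd d)) :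
    Prop where
  mem_L : ∀ x, x ∈ L ↔ x ∈ bad r Λ D V ∧ s ≤ (fill (comp (bad r Λ D V) x)).card
  Y_sub : Y ⊆ Λ
  Y_disj : Disjoint Y L
  nearY : ∀ i ∈ Y, ∀ j, j ∉ Y → near r i j → D i ∧ D j ∧ j ∈ L
  nearW : ∀ i, i ∉ Y → i ∉ L → ∀ j, (j ∈ Y ∨ j ∈ L) → near r i j → V i ∧ V j ∧ j ∈ L
  uniq : ∀ X : Finset (Zd d), Cl L X → (∀ i ∈ X, ∀ j ∈ L, j ∈ Nb i → D j) → X ⊆ Y
  small : ∀ D' V' : Finset (Zd d), (∀ i, i ∈ D' ↔ D i) → (∀ i ∈ Λ, i ∈ V' ↔ V i) →
    (Y \ D').card + ((Λ \ (Y ∪ L)) \ V').card ≤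
      ∑ G ∈ ((bad r Λ D V).image (comp (bad r Λ D V))).filter (fun G => (fill G).card < s),
        (fill G).card
  size : ∀ D' V' : Finset (Zd d), (∀ i, i ∈ D' ↔ D i) → (∀ i ∈ fatr r Λ, i ∈ V' ↔ V i) →
    L.card ≤ (2 * r + 1) ^ d * (((L ∩ D').filter fun i => ∃ j ∈ Nb i, j ∈ L ∧ j ∈ V').card +
      ((L \ D') \ V').card)

namespace Topo

/-! ## Boxes -/

/-- The box `[a, b)^d`. -/
noncomputable def cb (d : ℕ) (a b : ℤ) : Finset (Zd d) := Fintype.piFinset fun _ => Finset.Ico a b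

theorem mem_cb {a b : ℤ} {x : Zd d} : x ∈ cb d a b ↔ ∀ k, a ≤ x k ∧ x k < b := by
  simp [cb, Fintype.mem_piFinset]

theorem NConn_cb (hd : 2 ≤ d) (a b : ℤ) : NConn (cb d a b) := by
  intro P hP x hx y hy hPx
  have hout : ∀ (z : Zd d) (k : Fin d), ¬ (a ≤ z k ∧ z k < b) → z ∉ cb d a b := by
    intro z k hk hz
    exact hk (mem_cb.1 hz k)
  have mv : ∀ (u v : Zd d) (k : Fin d), ¬ (a ≤ u k ∧ u k < b) → u k = v k → P u → P v := by
    intro u v k hk huv hPu
    have h1 := conn_all (fun z => P (Function.update z k (u k))) (by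
      intro z z' hzz hPz
      have o1 : Function.update z k (u k) ∉ cb d a b := hout _ k (by simpa using hk)
      have o2 : Function.update z' k (u k) ∉ cb d a b := hout _ k (by simpa using hk)
      obtain ⟨i, hi⟩ := hzz
      by_cases hik : i = k
      · have e : Function.update z k (u k) = Function.update z' k (u k) := by
          funext j
          by_cases hj : j = k
          · subst hj; simp
          · rw [Function.update_of_ne hj, Function.update_of_ne hj]
            have hji : j ≠ i := fun hh => hj (hh.trans hik)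
            rcases hi with rfl | rfl
            · simp [ee_ne hji]
            · simp [ee_ne hji]
        rw [← e]
        exact hPz
      · refine hP _ o1 _ o2 ⟨i, ?_⟩ hPz
        have hki : k ≠ i := fun hh => hik hh.symm
        rcases hi with rfl | rfl
        · left
          funext j
          by_cases hj : j = k
          · subst hj; simp [ee_ne hki]
          · simp [Function.update_of_ne hj]
        · right
          funext j
          by_cases hj : j = k
          · subst hj; simp [ee_ne hki]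
          · simp [Function.update_of_ne hj]) u (by simpa using hPu) v
    rwa [huv, Function.update_eq_self] at h1
  have hex : ∀ z : Zd d, z ∉ cb d a b → ∃ k, ¬ (a ≤ z k ∧ z k < b) := by
    intro z hz
    rw [mem_cb] at hz
    push Not at hz
    obtain ⟨k, hk⟩ := hz
    exact ⟨k, fun hh => absurd (hk hh.1) (by omega)⟩
  have hother : ∀ k : Fin d, ∃ j : Fin d, j ≠ k := by
    intro k
    by_cases h0 : k = ⟨0, by omega⟩
    · exact ⟨⟨1, by omega⟩, fun hh => by rw [h0] at hh; simp at hh⟩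
    · exact ⟨⟨0, by omega⟩, fun hh => h0 hh.symm⟩
  obtain ⟨k, hk⟩ := hex x hx
  obtain ⟨l, hl⟩ := hex y hy
  have step1 : ∀ j : Fin d, j ≠ k → P (Function.update x j (a - 1)) := by
    intro j hj
    exact mv x _ k hk (by rw [Function.update_of_ne hj.symm]) hPx
  have step2 : ∀ j : Fin d, ∀ z : Zd d, z j = a - 1 → P z := by
    intro j z hz
    by_cases hj : j = k
    · obtain ⟨i, hi⟩ := hother k
      have h1 := step1 i hi
      have h2 : P (Function.update (Function.update x i (a - 1)) k (a - 1)) := by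
        refine mv _ _ i ?_ ?_ h1
        · simp
        · rw [Function.update_of_ne hi]
      refine mv _ z k ?_ ?_ h2
      · simp
      · rw [Function.update_self, ← hj, hz]
    · refine mv _ z j ?_ ?_ (step1 j hj)
      · simp
      · rw [Function.update_self, hz]
  obtain ⟨i, hi⟩ := hother l
  have h3 := step2 i (Function.update y i (a - 1)) (by simp)
  refine mv _ y l ?_ ?_ h3
  · rw [Function.update_of_ne hi.symm]; exact hl
  · rw [Function.update_of_ne hi.symm]

theorem exists_cb (A : Finset (Zd d)) : ∃ n : ℤ, A ⊆ cb d (-n) n := by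
  classical
  refine ⟨∑ x ∈ A, ∑ k, |x k| + 1, fun x hx => mem_cb.2 fun k => ?_⟩
  have h1 : |x k| ≤ ∑ k, |x k| :=
    single_le_sum (f := fun k => |x k|) (fun _ _ => abs_nonneg _) (mem_univ k)
  have h2 : ∑ k, |x k| ≤ ∑ x ∈ A, ∑ k, |x k| :=
    single_le_sum (f := fun x : Zd d => ∑ k, |x k|)
      (fun x _ => sum_nonneg fun _ _ => abs_nonneg _) hx
  have h3 := abs_le.1 (h1.trans h2)
  constructor <;> omega

/-- A locally constant property is constant far away. -/
theorem exists_far (hd : 2 ≤ d) {A : Finset (Zd d)} (P : Zd d → Prop)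
    (hP : ∀ x ∉ A, ∀ y ∉ A, Adj x y → (P x → P y)) :
    ∃ (B : Finset (Zd d)) (ν : Prop), ∀ x ∉ B, (P x ↔ ν) := by
  obtain ⟨n, hn⟩ := exists_cb A
  obtain ⟨x0, hx0⟩ := exists_notMem (by omega : 1 ≤ d) (cb d (-n) n)
  have h1 := NConn_cb hd (-n) n P fun x hx y hy hxy =>
    hP x (fun h => hx (hn h)) y (fun h => hy (hn h)) hxy
  exact ⟨cb d (-n) n, P x0, fun x hx => ⟨h1 x hx x0 hx0, h1 x0 hx0 x hx⟩⟩

/-! ## Filling -/

theorem mem_fill (hd : 2 ≤ d) {G : Finset (Zd d)} {x : Zd d} :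
    x ∈ fill G ↔ x ∈ G ∨ ∃ W, Cl G W ∧ x ∈ W := by
  unfold fill
  rw [mem_union, mem_biUnion]
  refine or_congr Iff.rfl ⟨?_, ?_⟩
  · rintro ⟨W, hW, hx⟩
    exact ⟨W, (mem_VV hd).1 hW, hx⟩
  · rintro ⟨W, hW, hx⟩
    exact ⟨W, (mem_VV hd).2 hW, hx⟩

/-- Outside the filled contour a locally constant property has its value at infinity. -/
theorem far_fill (hd : 2 ≤ d) {G : Finset (Zd d)} (P : Zd d → Prop)
    (hP : ∀ x ∉ fill G, ∀ y ∉ fill G, Adj x y → (P x → P y)) :
    ∃ ν : Prop, ∀ x ∉ fill G, (P x ↔ ν) := by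
  classical
  obtain ⟨B, ν, hν⟩ := exists_far hd P hP
  refine ⟨ν, fun x hx => ?_⟩
  by_contra hcon
  obtain ⟨Q, hQ⟩ : ∃ Q : Finset (Zd d), Q = (B \ fill G).filter fun u => ¬ (P u ↔ ν) := ⟨_, rfl⟩
  have mQ : ∀ u, u ∈ Q ↔ u ∉ fill G ∧ ¬ (P u ↔ ν) := by
    intro u
    rw [hQ, mem_filter, mem_sdiff]
    constructor
    · rintro ⟨⟨-, h1⟩, h2⟩; exact ⟨h1, h2⟩
    · rintro ⟨h1, h2⟩
      refine ⟨⟨?_, h1⟩, h2⟩
      by_contra hB
      exact h2 (hν u hB)
  have hC : Cl G Q := by
    refine ⟨fun u hu huG => ((mQ u).1 hu).1 ((mem_fill hd).2 (Or.inl huG)), ?_⟩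
    intro u hu y hy huy
    obtain ⟨h1, h2⟩ := (mQ u).1 hu
    have h3 : y ∉ fill G := by
      intro hyf
      rcases (mem_fill hd).1 hyf with h | ⟨W, hW, hyW⟩
      · exact hy h
      · refine h1 ((mem_fill hd).2 (Or.inr ⟨W, hW, ?_⟩))
        exact hW.2 y hyW u (fun h => h1 ((mem_fill hd).2 (Or.inl h))) huy.symm
    refine (mQ y).2 ⟨h3, fun h4 => h2 ?_⟩
    rw [← h4]
    exact ⟨hP u h1 y h3 huy, hP y h3 u h1 huy.symm⟩
  exact hx ((mem_fill hd).2 (Or.inr ⟨Q, hC, (mQ x).2 ⟨hx, hcon⟩⟩))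

theorem NConn_fill (hd : 2 ≤ d) (G : Finset (Zd d)) : NConn (fill G) := by
  intro P hP x hx y hy hPx
  obtain ⟨ν, hν⟩ := far_fill hd P hP
  exact (hν y hy).2 ((hν x hx).1 hPx)

/-! ## Removing contours -/

theorem exists_T (hd : 2 ≤ d) {B : Finset (Zd d)} (g : Zd d → Prop)
    (hg : ∀ u ∉ B, ∀ v ∉ B, v ∈ Nb u → (g u ↔ g v)) :
    ∀ R : Finset (Finset (Zd d)), (∀ G ∈ R, ∃ x ∈ B, G = comp B x) →
      ∃ T : Zd d → Prop, (∀ u, (u ∉ B ∨ ∃ G ∈ R, u ∈ G) → ∀ v, (v ∉ B ∨ ∃ G ∈ R, v ∈ G) →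
        v ∈ Nb u → (T u ↔ T v)) ∧
        ∀ u, u ∉ B → (∀ G ∈ R, u ∉ fill G) → (T u ↔ g u) := by
  classical
  intro R
  induction R using Finset.induction_on with
  | empty =>
    intro _
    refine ⟨g, ?_, fun u _ _ => Iff.rfl⟩
    intro u hu v hv huv
    refine hg u ?_ v ?_ huv
    · rcases hu with h | ⟨G, hG, -⟩
      · exact h
      · exact absurd hG (notMem_empty _)
    · rcases hv with h | ⟨G, hG, -⟩
      · exact h
      · exact absurd hG (notMem_empty _)
  | insert G R _ ih =>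
    intro hR
    obtain ⟨TR, ha, hb⟩ := ih fun H hH => hR H (mem_insert_of_mem hH)
    obtain ⟨x, hx, hGx⟩ := hR G (mem_insert_self _ _)
    have hS : SConn G := by rw [hGx]; exact sconn_comp hx
    have hfat : ∀ u ∈ fat G, u ∉ G → u ∉ B := by
      intro u hu huG huB
      rw [hGx] at hu huG
      exact notMem_fat_comp huB huG hu
    obtain ⟨T1, h1, h2⟩ := labels hS TR fun u hu v hv huf hvf huv =>
      ha u (Or.inl (hfat u huf hu)) v (Or.inl (hfat v hvf hv)) huv
    have hGf : ∀ u ∈ G, u ∈ fill G := fun u hu => (mem_fill hd).2 (Or.inl hu)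
    obtain ⟨ν, hν⟩ := far_fill hd (G := G) T1 fun u hu v hv huv =>
      h1 u (fun h => hu (hGf u h)) v (fun h => hv (hGf v h)) huv
    obtain ⟨T, hT⟩ : ∃ T : Zd d → Prop,
      T = fun u => (u ∈ G ∧ ν) ∨ (u ∉ G ∧ (TR u ↔ (T1 u ↔ ν))) := ⟨_, rfl⟩
    have tin : ∀ u ∈ G, (T u ↔ ν) := by
      intro u hu
      rw [hT]
      simp [hu]
    have tout : ∀ u, u ∉ G → (T u ↔ (TR u ↔ (T1 u ↔ ν))) := by
      intro u hu
      rw [hT]
      simp [hu]
    have tfat : ∀ u, u ∉ G → u ∈ fat G → (T u ↔ ν) := by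
      intro u hu huf
      rw [tout u hu]
      have h3 := h2 u hu huf
      tauto
    have hkeep : ∀ u, u ∉ G → (u ∉ B ∨ ∃ H ∈ insert G R, u ∈ H) → (u ∉ B ∨ ∃ H ∈ R, u ∈ H) := by
      rintro u hu (h | ⟨H, hH, huH⟩)
      · exact Or.inl h
      · rw [mem_insert] at hH
        rcases hH with rfl | hH
        · exact absurd huH hu
        · exact Or.inr ⟨H, hH, huH⟩
    refine ⟨T, ?_, ?_⟩
    · intro u hu v hv huv
      by_cases huG : u ∈ G
      · rw [tin u huG]
        by_cases hvG : v ∈ G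
        · rw [tin v hvG]
        · rw [tfat v hvG (mem_fat.2 ⟨u, huG, huv⟩)]
      · by_cases hvG : v ∈ G
        · rw [tin v hvG, tfat u huG (mem_fat.2 ⟨v, hvG, Nb_symm huv⟩)]
        · by_cases hc : ∃ c ∈ G, Corner u v c
          · obtain ⟨c, hcG, hc⟩ := hc
            rw [tfat u huG (mem_fat.2 ⟨c, hcG, hc.mem huv (corner_left u v)⟩),
              tfat v hvG (mem_fat.2 ⟨c, hcG, hc.mem huv (corner_right u v)⟩)]
          · push Not at hc
            have h3 : T1 u ↔ T1 v := by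
              by_contra hcon
              obtain ⟨z, z', hz, hz', hzz, h4, h5⟩ := cube_path huv {w | T1 u ↔ T1 w}
                (Iff.rfl) hcon
              have hzG : z ∉ G := fun h => hc z h hz
              have hzG' : z' ∉ G := fun h => hc z' h hz'
              apply h5
              have h6 : T1 u ↔ T1 z := h4
              exact h6.trans ⟨h1 z hzG z' hzG' hzz, h1 z' hzG' z hzG hzz.symm⟩
            rw [tout u huG, tout v hvG, h3, ha u (hkeep u huG hu) v (hkeep v hvG hv) huv]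
    · intro u hu hf
      have huf := hf G (mem_insert_self _ _)
      have huG : u ∉ G := fun h => huf (hGf u h)
      rw [tout u huG, hν u huf, hb u hu fun H hH => hf H (mem_insert_of_mem hH)]
      simp

/-! ## Paths -/

/-- `z` lies in the box spanned by `i` and `j`. -/
def Btw (i j z : Zd d) : Prop := ∀ k, min (i k) (j k) ≤ z k ∧ z k ≤ max (i k) (j k)

theorem near_self (r : ℕ) (i : Zd d) : near r i i := fun k => by simp

theorem near_symm {r : ℕ} {i j : Zd d} (h : near r i j) : near r j i := fun k => by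
  rw [abs_sub_comm]; exact h k

theorem near_Nb {r : ℕ} (hr : 1 ≤ r) {i j : Zd d} (h : j ∈ Nb i) : near r i j := by
  intro k
  have := mem_Nb.1 h k
  rw [abs_le]
  constructor <;> omega

theorem Btw.near {r : ℕ} {i j z b : Zd d} (h : Btw i j z) (h1 : near r i b) (h2 : near r j b) :
    near r z b := by
  intro k
  have g1 := abs_le.1 (h1 k)
  have g2 := abs_le.1 (h2 k)
  have g3 := h k
  rw [abs_le]
  rcases le_total (i k) (j k) with h4 | h4
  · rw [min_eq_left h4, max_eq_right h4] at g3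
    constructor <;> omega
  · rw [min_eq_right h4, max_eq_left h4] at g3
    constructor <;> omega

theorem path (i j : Zd d) (Q : Zd d → Prop) (hi : Q i) (hj : ¬ Q j) :
    ∃ z z', Btw i j z ∧ Btw i j z' ∧ Adj z z' ∧ Q z ∧ ¬ Q z' := by
  classical
  have main : ∀ (n : ℕ) (z : Zd d), Btw i j z → Q z → ∑ k, (j k - z k).natAbs ≤ n →
      ∃ z z', Btw i j z ∧ Btw i j z' ∧ Adj z z' ∧ Q z ∧ ¬ Q z' := by
    intro n
    induction n with
    | zero =>
      intro z hz hQ hn
      exfalso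
      apply hj
      have h1 : z = j := by
        funext k
        have h2 := single_le_sum (f := fun k => (j k - z k).natAbs) (fun _ _ => Nat.zero_le _)
          (mem_univ k)
        omega
      rw [← h1]
      exact hQ
    | succ n ih =>
      intro z hz hQ hn
      by_cases hzj : ∃ k, z k ≠ j k
      · obtain ⟨k, hk⟩ := hzj
        obtain ⟨c, hc, hc2, hc3⟩ : ∃ c : ℤ, (c = z k + 1 ∨ c = z k - 1) ∧
            (j k - c).natAbs + 1 = (j k - z k).natAbs ∧
            (min (i k) (j k) ≤ c ∧ c ≤ max (i k) (j k)) := by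
          have h1 := hz k
          rcases lt_or_gt_of_ne hk with h2 | h2
          · exact ⟨z k + 1, Or.inl rfl, by omega, by omega, by omega⟩
          · exact ⟨z k - 1, Or.inr rfl, by omega, by omega, by omega⟩
        have hb : Btw i j (Function.update z k c) := by
          intro l
          by_cases hl : l = k
          · subst hl; rw [Function.update_self]; exact hc3
          · rw [Function.update_of_ne hl]; exact hz l
        by_cases hQ' : Q (Function.update z k c)
        · refine ih _ hb hQ' ?_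
          have h3 : ∑ l, (j l - Function.update z k c l).natAbs < ∑ l, (j l - z l).natAbs := by
            apply sum_lt_sum
            · intro l _
              by_cases hl : l = k
              · subst hl; simp only [Function.update_self]; omega
              · rw [Function.update_of_ne hl]
            · refine ⟨k, mem_univ _, ?_⟩
              simp only [Function.update_self]
              omega
          omega
        · exact ⟨z, _, hz, hb, adj_update hc, hQ, hQ'⟩
      · push Not at hzj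
        exact absurd (by rw [← funext hzj]; exact hQ) hj
  exact main _ i (fun k => ⟨min_le_left _ _, le_max_left _ _⟩) hi le_rfl

/-! ## Bad sites -/

theorem mem_fatr {r : ℕ} {Λ : Finset (Zd d)} {u : Zd d} :
    u ∈ fatr r Λ ↔ ∃ x ∈ Λ, near r x u := by
  unfold fatr near
  rw [mem_biUnion]
  refine exists_congr fun x => and_congr Iff.rfl ?_
  rw [Fintype.mem_piFinset]
  refine forall_congr' fun k => ?_
  rw [Finset.mem_Icc, abs_le]
  constructor
  · rintro ⟨h1, h2⟩
    constructor <;> linarith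
  · rintro ⟨h1, h2⟩
    constructor <;> linarith

theorem mem_bad {r : ℕ} {Λ : Finset (Zd d)} {D V : Zd d → Prop} (hV : ∀ i, i ∉ Λ → V i)
    {i : Zd d} : i ∈ bad r Λ D V ↔ (∃ j, near r i j ∧ ¬ D j) ∧ ∃ j, near r i j ∧ ¬ V j := by
  classical
  unfold bad
  rw [mem_filter]
  refine ⟨fun h => h.2, fun h => ⟨?_, h⟩⟩
  obtain ⟨-, j, hj, hVj⟩ := h
  refine mem_fatr.2 ⟨j, ?_, near_symm hj⟩
  by_contra hcon
  exact hVj (hV j hcon)

end Topo

open Topo in
theorem exists_cut (hd : 2 ≤ d) {r : ℕ} (hr : 1 ≤ r) {Λ : Finset (Zd d)} (hΛ : NConn Λ)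
    {D V : Zd d → Prop} (hD : ∀ i, D i → i ∈ Λ) (hV : ∀ i, i ∉ Λ → V i)
    (hDV : ∀ i, D i → ¬ V i) (s : ℕ) : ∃ L Y, Cut r Λ D V s L Y := by
  classical
  obtain ⟨B, hB⟩ : ∃ B : Finset (Zd d), B = bad r Λ D V := ⟨_, rfl⟩
  have mB : ∀ i, i ∈ B ↔ (∃ j, near r i j ∧ ¬ D j) ∧ ∃ j, near r i j ∧ ¬ V j := by
    intro i
    rw [hB]
    exact mem_bad hV
  obtain ⟨g, hgdef⟩ : ∃ g : Zd d → Prop, g = fun u => ∀ j, near r u j → D j := ⟨_, rfl⟩
  have gD : ∀ u, g u → ∀ j, near r u j → D j := by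
    intro u hu
    rw [hgdef] at hu
    exact hu
  have gV : ∀ u, u ∉ B → ¬ g u → ∀ j, near r u j → V j := by
    intro u hu hgu j hj
    rw [hgdef] at hgu
    simp only [not_forall] at hgu
    obtain ⟨j', hj', hDj'⟩ := hgu
    by_contra hVj
    exact hu ((mB u).2 ⟨⟨j', hj', hDj'⟩, j, hj, hVj⟩)
  have hg : ∀ u ∉ B, ∀ v ∉ B, v ∈ Nb u → (g u ↔ g v) := by
    have one : ∀ u ∉ B, ∀ v ∉ B, v ∈ Nb u → g u → g v := by
      intro u _ v hv huv hgu
      by_contra hgv
      exact hDV v (gD u hgu v (near_Nb hr huv)) (gV v hv hgv v (near_self r v))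
    intro u hu v hv huv
    exact ⟨one u hu v hv huv, one v hv u hu (Nb_symm huv)⟩
  obtain ⟨L, hL⟩ : ∃ L : Finset (Zd d), L = B.filter fun x => s ≤ (fill (comp B x)).card :=
    ⟨_, rfl⟩
  have mL : ∀ x, x ∈ L ↔ x ∈ B ∧ s ≤ (fill (comp B x)).card := by
    intro x
    rw [hL, mem_filter]
  obtain ⟨R, hR⟩ : ∃ R : Finset (Finset (Zd d)),
    R = (B.image (comp B)).filter fun G => (fill G).card < s := ⟨_, rfl⟩
  have mR : ∀ G, G ∈ R ↔ (∃ x ∈ B, G = comp B x) ∧ (fill G).card < s := by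
    intro G
    rw [hR, mem_filter, mem_image]
    refine and_congr ⟨?_, ?_⟩ Iff.rfl
    · rintro ⟨x, hx, rfl⟩; exact ⟨x, hx, rfl⟩
    · rintro ⟨x, hx, rfl⟩; exact ⟨x, hx, rfl⟩
  obtain ⟨T, ha, hb⟩ := exists_T hd g hg R fun G hG => ((mR G).1 hG).1
  have Lcl : ∀ z ∈ L, ∀ z' ∈ B, z' ∈ Nb z → z' ∈ L := by
    intro z hz z' hz' hzz
    rw [mL] at hz ⊢
    have h1 : z' ∈ comp B z := comp_closed (self_mem_comp hz.1) hz' hzz
    rw [comp_eq_of_mem hz.1 h1]
    exact ⟨hz', hz.2⟩
  have off : ∀ u, u ∉ L → (u ∉ B ∨ ∃ G ∈ R, u ∈ G) := by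
    intro u hu
    by_cases huB : u ∈ B
    · right
      refine ⟨comp B u, (mR _).2 ⟨⟨u, huB, rfl⟩, ?_⟩, self_mem_comp huB⟩
      by_contra hcon
      push Not at hcon
      exact hu ((mL u).2 ⟨huB, hcon⟩)
    · exact Or.inl huB
  have h3 : ∀ u, u ∉ L → ∀ v, v ∉ L → v ∈ Nb u → (T u ↔ T v) := fun u hu v hv huv =>
    ha u (off u hu) v (off v hv) huv
  -- sites next to a large contour
  have h4 : ∀ u, u ∉ L → ∀ l ∈ L, l ∈ Nb u → u ∉ B ∧ (T u ↔ g u) := by
    intro u hu l hl hul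
    have huB : u ∉ B := fun h => hu (Lcl l hl u h (Nb_symm hul))
    refine ⟨huB, hb u huB fun G hG huf => ?_⟩
    obtain ⟨⟨x, hx, hGx⟩, hGs⟩ := (mR G).1 hG
    obtain ⟨hlB, hls⟩ := (mL l).1 hl
    obtain ⟨H, hH⟩ : ∃ H, H = comp B l := ⟨_, rfl⟩
    have hlH : l ∈ H := by rw [hH]; exact self_mem_comp hlB
    have hHS : SConn H := by rw [hH]; exact sconn_comp hlB
    have hGH : ∀ c ∈ G, c ∉ H := by
      intro c hc hcH
      rw [hGx] at hc
      rw [hH] at hcH
      have e1 := comp_eq_of_mem hx hc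
      have e2 := comp_eq_of_mem hlB hcH
      rw [← e2, e1, ← hGx] at hls
      omega
    have hGB : G ⊆ B := by rw [hGx]; exact comp_subset B x
    have hGN : ∀ c ∈ G, ∀ h ∈ H, c ∉ Nb h := by
      intro c hc h hh hch
      apply hGH c hc
      rw [hH] at hh ⊢
      exact comp_closed hh (hGB hc) hch
    rcases (mem_fill hd).1 huf with huG | ⟨W, hW, huW⟩
    · exact huB (hGB huG)
    have hlW : l ∈ W := by
      by_contra hlW
      obtain ⟨c, hc, hcor⟩ := hW.cube hul huW hlW
      exact hGN c hc l hlH ((corner_right u l).mem hul hcor)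
    have hHW : H ⊆ W := by
      intro y hy
      refine hHS.const (fun w => w ∈ W) ?_ hlH hy hlW
      intro a haH b hbH hab haW
      by_contra hbW
      obtain ⟨c, hc, hcor⟩ := hW.cube hab haW hbW
      exact hGN c hc a haH ((corner_left a b).mem hab hcor)
    have hHf : H ⊆ fill G := fun y hy => (mem_fill hd).2 (Or.inr ⟨W, hW, hHW hy⟩)
    have hff : fill H ⊆ fill G := by
      intro y hy
      rcases (mem_fill hd).1 hy with h | ⟨W2, hW2, hyW⟩
      · exact hHf h
      · exact hW2.subset (by omega) (NConn_fill hd G) hHf hyW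
    have h5 := card_le_card hff
    rw [← hH] at hls
    omega
  obtain ⟨Y, hY⟩ : ∃ Y : Finset (Zd d), Y = ((Λ ∪ R.biUnion fill) \ L).filter T := ⟨_, rfl⟩
  have mY : ∀ u, u ∈ Y ↔ u ∉ L ∧ T u := by
    intro u
    rw [hY, mem_filter, mem_sdiff, mem_union, mem_biUnion]
    constructor
    · rintro ⟨⟨-, h1⟩, h2⟩; exact ⟨h1, h2⟩
    · rintro ⟨h1, h2⟩
      refine ⟨⟨?_, h1⟩, h2⟩
      by_cases hf : ∃ G ∈ R, u ∈ fill G
      · exact Or.inr hf
      · left
        push Not at hf
        have huB : u ∉ B := by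
          rcases off u h1 with h | ⟨G, hG, huG⟩
          · exact h
          · exact absurd ((mem_fill hd).2 (Or.inl huG)) (hf G hG)
        exact hD u (gD u ((hb u huB hf).1 h2) u (near_self r u))
  have exitY : ∀ i ∈ Y, ∀ j, j ∉ Y → near r i j → D i ∧ D j := by
    intro i hi j hj hij
    obtain ⟨z, z', hz, hz', hzz, hzY, hzY'⟩ := path i j (fun u => u ∈ Y) hi hj
    obtain ⟨hzL, hzT⟩ := (mY z).1 hzY
    have hzL' : z' ∈ L := by
      by_contra hcon
      exact hzY' ((mY z').2 ⟨hcon, (h3 z hzL z' hcon hzz.mem_Nb).1 hzT⟩)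
    have hgz : g z := ((h4 z hzL z' hzL' hzz.mem_Nb).2).1 hzT
    exact ⟨gD z hgz i (hz.near (near_self r i) (near_symm hij)),
      gD z hgz j (hz.near hij (near_self r j))⟩
  have exitW : ∀ i, i ∉ L → ¬ T i → ∀ j, ¬ (j ∉ L ∧ ¬ T j) → near r i j → V i ∧ V j := by
    intro i hi hTi j hj hij
    obtain ⟨z, z', hz, hz', hzz, hzQ, hzQ'⟩ := path i j (fun u => u ∉ L ∧ ¬ T u) ⟨hi, hTi⟩ hj
    have hzL' : z' ∈ L := by
      by_contra hcon
      exact hzQ' ⟨hcon, fun h => hzQ.2 ((h3 z hzQ.1 z' hcon hzz.mem_Nb).2 h)⟩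
    obtain ⟨hzB, hzg⟩ := h4 z hzQ.1 z' hzL' hzz.mem_Nb
    have hgz : ¬ g z := fun h => hzQ.2 (hzg.2 h)
    exact ⟨gV z hzB hgz i (hz.near (near_self r i) (near_symm hij)),
      gV z hzB hgz j (hz.near hij (near_self r j))⟩
  have nearY : ∀ i ∈ Y, ∀ j, j ∉ Y → near r i j → D i ∧ D j ∧ j ∈ L := by
    intro i hi j hj hij
    obtain ⟨h5, h6⟩ := exitY i hi j hj hij
    refine ⟨h5, h6, ?_⟩
    by_contra hjL
    have hTj : ¬ T j := fun h => hj ((mY j).2 ⟨hjL, h⟩)
    have h7 := exitW j hjL hTj i (fun h => h.2 ((mY i).1 hi).2) (near_symm hij)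
    exact hDV i h5 h7.2
  have nearW : ∀ i, i ∉ Y → i ∉ L → ∀ j, (j ∈ Y ∨ j ∈ L) → near r i j → V i ∧ V j ∧ j ∈ L := by
    intro i hi hiL j hj hij
    have hTi : ¬ T i := fun h => hi ((mY i).2 ⟨hiL, h⟩)
    obtain ⟨h5, h6⟩ := exitW i hiL hTi j (by
      rintro ⟨h7, h8⟩
      rcases hj with hj | hj
      · exact h8 ((mY j).1 hj).2
      · exact h7 hj) hij
    refine ⟨h5, h6, ?_⟩
    rcases hj with hj | hj
    · exact absurd h6 (hDV j (exitY j hj i hi (near_symm hij)).1)
    · exact hj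
  have rest : ∀ u, u ∉ L → (∀ G ∈ R, u ∉ fill G) → u ∉ B ∧ (T u ↔ g u) := by
    intro u hu hf
    have huB : u ∉ B := by
      rcases off u hu with h | ⟨G, hG, huG⟩
      · exact h
      · exact absurd ((mem_fill hd).2 (Or.inl huG)) (hf G hG)
    exact ⟨huB, hb u huB hf⟩
  refine ⟨L, Y, ?_⟩
  constructor
  · rw [← hB]; exact mL
  · -- Y_sub
    intro x hx
    by_contra hxΛ
    obtain ⟨y, hy⟩ := exists_notMem (by omega : 1 ≤ d) (Λ ∪ Y)
    rw [mem_union, not_or] at hy
    refine hy.2 (hΛ (fun w => w ∈ Y) ?_ x hxΛ y hy.1 hx)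
    intro u hu v _ huv huY
    by_contra hvY
    exact hu (hD u (nearY u huY v hvY (near_Nb hr huv.mem_Nb)).1)
  · -- Y_disj
    rw [disjoint_left]
    intro u hu
    exact ((mY u).1 hu).1
  · exact nearY
  · exact nearW
  · -- uniq
    intro X hX hXD
    by_contra hcon
    obtain ⟨x0, hx0, hx0Y⟩ := not_subset.1 hcon
    obtain ⟨x, hx, y, hy, hxy⟩ := exists_boundary (by omega : 1 ≤ d)
      (A := X \ Y) ⟨x0, mem_sdiff.2 ⟨hx0, hx0Y⟩⟩
    rw [mem_sdiff] at hx hy
    have hxL := hX.1 x hx.1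
    by_cases hyL : y ∈ L
    · exact hDV y (hXD x hx.1 y hyL hxy.mem_Nb)
        (nearW x hx.2 hxL y (Or.inr hyL) (near_Nb hr hxy.mem_Nb)).2.1
    · have hyX := hX.2 x hx.1 y hyL hxy
      have hyY : y ∈ Y := by
        by_contra h
        exact hy ⟨hyX, h⟩
      exact hyL (nearW x hx.2 hxL y (Or.inl hyY) (near_Nb hr hxy.mem_Nb)).2.2
  · -- small
    intro D' V' hD' hV'
    rw [← hB, ← hR]
    have hdis : Disjoint (Y \ D') ((Λ \ (Y ∪ L)) \ V') := by
      rw [disjoint_left]
      intro u hu hu'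
      rw [mem_sdiff] at hu
      rw [mem_sdiff, mem_sdiff, mem_union] at hu'
      exact hu'.1.2 (Or.inl hu.1)
    rw [← card_union_of_disjoint hdis]
    refine le_trans (card_le_card ?_) (card_biUnion_le (s := R) (t := fill))
    intro u hu
    rw [mem_biUnion]
    by_contra hcon
    push Not at hcon
    rw [mem_union] at hu
    rcases hu with hu | hu
    · rw [mem_sdiff] at hu
      obtain ⟨huL, huT⟩ := (mY u).1 hu.1
      obtain ⟨-, h5⟩ := rest u huL hcon
      exact hu.2 ((hD' u).2 (gD u (h5.1 huT) u (near_self r u)))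
    · rw [mem_sdiff, mem_sdiff, mem_union, not_or] at hu
      obtain ⟨⟨huΛ, huY, huL⟩, huV⟩ := hu
      obtain ⟨huB, h5⟩ := rest u huL hcon
      have hgu : ¬ g u := fun h => huY ((mY u).2 ⟨huL, h5.2 h⟩)
      exact huV ((hV' u huΛ).2 (gV u huB hgu u (near_self r u)))
  · -- size
    intro D' V' hD' hV'
    obtain ⟨C1, hC1⟩ : ∃ C1, C1 = (L ∩ D').filter fun i => ∃ j ∈ Nb i, j ∈ L ∧ j ∈ V' := ⟨_, rfl⟩
    obtain ⟨C2, hC2⟩ : ∃ C2, C2 = (L \ D') \ V' := ⟨_, rfl⟩
    have hBf : ∀ u ∈ B, u ∈ fatr r Λ := by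
      intro u hu
      rw [hB] at hu
      unfold bad at hu
      exact (mem_filter.1 hu).1
    have walk : ∀ i ∈ L, ∀ j, (∀ z, Btw i j z → z ∈ B) → j ∈ L := by
      intro i hi j hz
      by_contra hj
      obtain ⟨z, z', -, hz', hzz, hzL, hzL'⟩ := path i j (fun u => u ∈ L) hi hj
      exact hzL' (Lcl z hzL z' (hz z' hz') hzz.mem_Nb)
    have hcov : ∀ i ∈ L, ∃ c ∈ C1 ∪ C2, near r c i := by
      intro i hi
      by_cases hm : ∃ k, near r i k ∧ ¬ D k ∧ ¬ V k
      · obtain ⟨k, hik, hkD, hkV⟩ := hm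
        have hkB : ∀ z, Btw i k z → z ∈ B := by
          intro z hz
          have h5 : near r z k := hz.near hik (near_self r k)
          exact (mB z).2 ⟨⟨k, h5, hkD⟩, k, h5, hkV⟩
        have hkL : k ∈ L := walk i hi k hkB
        refine ⟨k, mem_union_right _ ?_, near_symm hik⟩
        rw [hC2, mem_sdiff, mem_sdiff]
        have hkf : k ∈ fatr r Λ := hBf k ((mL k).1 hkL).1
        exact ⟨⟨hkL, fun h => hkD ((hD' k).1 h)⟩, fun h => hkV ((hV' k hkf).1 h)⟩
      · push Not at hm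
        obtain ⟨⟨j, hij, hjD⟩, j', hij', hjV'⟩ := (mB i).1 ((mL i).1 hi).1
        have hjD' : D j' := by
          by_contra h
          exact hjV' (hm j' hij' h)
        obtain ⟨a, b, hab1, hab2, hab, haD, hbD⟩ := path j' j D hjD' hjD
        have hia : near r i a := near_symm (hab1.near (near_symm hij') (near_symm hij))
        have hib : near r i b := near_symm (hab2.near (near_symm hij') (near_symm hij))
        have hbV : V b := hm b hib hbD
        have haV : ¬ V a := hDV a haD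
        have hnab : near r a b := near_Nb hr hab.mem_Nb
        have haL : a ∈ L := by
          refine walk i hi a fun z hz => ?_
          exact (mB z).2 ⟨⟨b, hz.near hib hnab, hbD⟩, a, hz.near hia (near_self r a), haV⟩
        have hbL : b ∈ L := by
          refine Lcl a haL b ?_ hab.mem_Nb
          exact (mB b).2 ⟨⟨b, near_self r b, hbD⟩, a, near_symm hnab, haV⟩
        refine ⟨a, mem_union_left _ ?_, near_symm hia⟩
        rw [hC1, mem_filter, mem_inter]
        exact ⟨⟨haL, (hD' a).2 haD⟩, b, hab.mem_Nb, hbL,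
          (hV' b (hBf b ((mL b).1 hbL).1)).2 hbV⟩
    have hsub : L ⊆ (C1 ∪ C2).biUnion fun c =>
        Fintype.piFinset fun k => Finset.Icc (c k - r) (c k + r) := by
      intro i hi
      obtain ⟨c, hc, hci⟩ := hcov i hi
      rw [mem_biUnion]
      refine ⟨c, hc, ?_⟩
      rw [Fintype.mem_piFinset]
      intro k
      have := abs_le.1 (hci k)
      rw [Finset.mem_Icc]
      constructor <;> linarith
    have hbox : ∀ c : Zd d,
        (Fintype.piFinset fun k => Finset.Icc (c k - r) (c k + r)).card = (2 * r + 1) ^ d := by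
      intro c
      rw [Fintype.card_piFinset]
      have : ∀ k : Fin d, (Finset.Icc (c k - r) (c k + r)).card = 2 * r + 1 := by
        intro k
        rw [Int.card_Icc]
        omega
      rw [prod_congr rfl fun k _ => this k, prod_const, card_univ, Fintype.card_fin]
    rw [← hC1, ← hC2]
    refine (card_le_card hsub).trans (card_biUnion_le.trans ?_)
    rw [sum_congr rfl fun c _ => hbox c, sum_const, smul_eq_mul, mul_comm]
    exact Nat.mul_le_mul_left _ (card_union_le _ _)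

end Pool.Agent.SquareWell
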