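import Mathlib

/-!
# The half-open box
-/

set_option autoImplicit false

namespace Pool.Agent.SquareWellGas

/-- The half-open box `[0, ℓ)^d`. -/
def Box (d : ℕ) (ℓ : ℝ) : Set (Fin d → ℝ) := {x | ∀ k, x k ∈ Set.Ico (0 : ℝ) ℓ}

end Pool.Agent.SquareWellGas
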