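import Pool.Agent.Lib.MP_09cbbd_sw.Defs
import Pool.Agent.Lib.MP_09cbbd_sw.BoxDef

/-!
# Packings in large cubes
-/

set_option autoImplicit false

namespace Pool.Agent.SquareWell

open MeasureTheory Finset Filter Topology Pool.Agent.StableGas Pool.Agent.SquareWellGas

variable {d : ℕ}

/-- Families of points of `R` with mutual distances at least one. -/
def Cn (ι : Type) (R : Set (Fin d → ℝ)) : Set (ι → Fin d → ℝ) :=
  {x | (∀ i, x i ∈ R) ∧ ∀ i j, i ≠ j → (1 : ℝ) ≤ ∑ k, (x i k - x j k) ^ 2}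

/-- The core of the cube of side `t`. -/
def Cor (d : ℕ) (t : ℝ) : Set (Fin d → ℝ) := {x | ∀ k, x k ∈ Set.Ico (1 : ℝ) (t - 1)}

/-- Maximal number of points of `R` with mutual distances at least one. -/
noncomputable def mx (R : Set (Fin d → ℝ)) : ℕ := sSup {n : ℕ | (Cn (Fin n) R).Nonempty}

namespace Pack

theorem close_of_floor {u v : ℝ} (hu : 0 ≤ u) (hv : 0 ≤ v) (h : ⌊u⌋₊ = ⌊v⌋₊) :
    (u - v) ^ 2 ≤ 1 := by
  have h1 := Nat.floor_le hu
  have h2 := Nat.lt_floor_add_one u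
  have h3 := Nat.floor_le hv
  have h4 := Nat.lt_floor_add_one v
  rw [h] at h1 h2
  have h5 : |u - v| ≤ 1 := by rw [abs_le]; constructor <;> linarith
  rw [← sq_abs]
  exact pow_le_one₀ (abs_nonneg _) h5

theorem card_le_rect {ι : Type} [Fintype ι] {R : Set (Fin d → ℝ)} {x : ι → Fin d → ℝ}
    (hx : x ∈ Cn ι R) (a L : Fin d → ℝ) (hR : ∀ y ∈ R, ∀ k, a k ≤ y k ∧ y k ≤ a k + L k) :
    Fintype.card ι ≤ ∏ k, (⌊(d + 1 : ℝ) * L k⌋₊ + 1) := by
  have hd : (0 : ℝ) < d + 1 := by positivity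
  have h0 : ∀ i k, 0 ≤ (d + 1 : ℝ) * (x i k - a k) := fun i k =>
    mul_nonneg hd.le (by linarith [(hR _ (hx.1 i) k).1])
  let f : ι → (k : Fin d) → Fin (⌊(d + 1 : ℝ) * L k⌋₊ + 1) := fun i k =>
    ⟨⌊(d + 1 : ℝ) * (x i k - a k)⌋₊, Nat.lt_succ_of_le (Nat.floor_le_floor
      (mul_le_mul_of_nonneg_left (by linarith [(hR _ (hx.1 i) k).2]) hd.le))⟩
  have hf : Function.Injective f := by
    intro i j hij
    by_contra hne
    have h1 := hx.2 i j hne
    have h2 : ∀ k, (x i k - x j k) ^ 2 ≤ 1 / (d + 1 : ℝ) ^ 2 := by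
      intro k
      have h3 : ⌊(d + 1 : ℝ) * (x i k - a k)⌋₊ = ⌊(d + 1 : ℝ) * (x j k - a k)⌋₊ :=
        congrArg Fin.val (congrFun hij k)
      have h4 := close_of_floor (h0 i k) (h0 j k) h3
      rw [le_div_iff₀ (by positivity)]
      calc (x i k - x j k) ^ 2 * (d + 1 : ℝ) ^ 2
          = ((d + 1 : ℝ) * (x i k - a k) - (d + 1 : ℝ) * (x j k - a k)) ^ 2 := by ring
        _ ≤ 1 := h4
    have h5 : ∑ k, (x i k - x j k) ^ 2 ≤ d * (1 / (d + 1 : ℝ) ^ 2) := by
      calc ∑ k, (x i k - x j k) ^ 2 ≤ ∑ _k : Fin d, 1 / (d + 1 : ℝ) ^ 2 :=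
            Finset.sum_le_sum fun k _ => h2 k
        _ = d * (1 / (d + 1 : ℝ) ^ 2) := by simp
    have h6 : (d : ℝ) * (1 / (d + 1 : ℝ) ^ 2) < 1 := by
      rw [mul_one_div, div_lt_one (by positivity)]
      nlinarith [Nat.cast_nonneg (α := ℝ) d]
    linarith
  have h := Fintype.card_le_of_injective f hf
  rw [Fintype.card_pi] at h
  simpa using h

theorem bdd {R : Set (Fin d → ℝ)} (hR : Bornology.IsBounded R) :
    BddAbove {n : ℕ | (Cn (Fin n) R).Nonempty} := by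
  obtain ⟨M, hM⟩ := hR.subset_closedBall (0 : Fin d → ℝ)
  refine ⟨∏ _k : Fin d, (⌊(d + 1 : ℝ) * (2 * M)⌋₊ + 1), ?_⟩
  rintro n ⟨x, hx⟩
  have h := card_le_rect hx (fun _ => -M) (fun _ => 2 * M) ?_
  · rw [Fintype.card_fin] at h
    exact h
  · intro y hy k
    have h1 := hM hy
    rw [mem_closedBall_zero_iff] at h1
    have h2 := (norm_le_pi_norm y k).trans h1
    rw [Real.norm_eq_abs, abs_le] at h2
    constructor <;> linarith [h2.1, h2.2]

theorem bounded_Box (t : ℝ) : Bornology.IsBounded (Box d t) := by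
  refine (Metric.isBounded_iff_subset_closedBall (0 : Fin d → ℝ)).2 ⟨|t|, fun y hy => ?_⟩
  rw [mem_closedBall_zero_iff, pi_norm_le_iff_of_nonneg (abs_nonneg t)]
  intro k
  have h := hy k
  rw [Real.norm_eq_abs, abs_of_nonneg h.1]
  exact h.2.le.trans (le_abs_self t)

end Pack

theorem le_mx {R : Set (Fin d → ℝ)} (hR : Bornology.IsBounded R) {n : ℕ}
    (hn : (Cn (Fin n) R).Nonempty) : n ≤ mx R := le_csSup (Pack.bdd hR) hn

namespace Pack

theorem card_le_mx {ι : Type} [Fintype ι] {R : Set (Fin d → ℝ)} (hR : Bornology.IsBounded R)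
    {x : ι → Fin d → ℝ} (hx : x ∈ Cn ι R) : Fintype.card ι ≤ mx R :=
  le_mx hR ⟨fun j => x ((Fintype.equivFin ι).symm j), fun _ => hx.1 _, fun _ _ hij =>
    hx.2 _ _ fun h => hij ((Fintype.equivFin ι).symm.injective h)⟩

theorem exists_mx {R : Set (Fin d → ℝ)} (hR : Bornology.IsBounded R) :
    (Cn (Fin (mx R)) R).Nonempty := by
  have h : mx R ∈ {n : ℕ | (Cn (Fin n) R).Nonempty} :=
    Nat.sSup_mem ⟨0, fun i => i.elim0, fun i => i.elim0, fun i => i.elim0⟩ (bdd hR)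
  exact h

theorem mx_mono {R R' : Set (Fin d → ℝ)} (hR : Bornology.IsBounded R') (h : R ⊆ R') :
    mx R ≤ mx R' := by
  obtain ⟨x, hx⟩ := exists_mx (hR.subset h)
  exact le_mx hR ⟨x, fun i => h (hx.1 i), hx.2⟩

theorem Box_mono {s t : ℝ} (h : s ≤ t) : Box d s ⊆ Box d t := fun _ hy k =>
  ⟨(hy k).1, (hy k).2.trans_le h⟩

/-- A cube of side `k t` consists of `k ^ d` cubes of side `t`. -/
theorem mx_mul {t : ℝ} (ht : 0 < t) (k : ℕ) : mx (Box d (k * t)) ≤ k ^ d * mx (Box d t) := by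
  classical
  obtain ⟨x, hx⟩ := exists_mx (bounded_Box (d := d) (k * t))
  have hb : ∀ i j, 0 ≤ x i j / t := fun i j => div_nonneg (hx.1 i j).1 ht.le
  let f : Fin (mx (Box d (k * t))) → Fin d → Fin k := fun i j =>
    ⟨⌊x i j / t⌋₊, (Nat.floor_lt (hb i j)).2 ((div_lt_iff₀ ht).2 (hx.1 i j).2)⟩
  have h1 := Finset.card_le_mul_card_image_of_maps_to (s := Finset.univ) (t := Finset.univ) (f := f)
    (fun i _ => Finset.mem_univ (f i)) (mx (Box d t)) ?_
  · simpa [mul_comm] using h1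
  · intro c _
    rw [← Fintype.card_coe]
    refine card_le_mx (bounded_Box t)
      (x := fun i : {i // i ∈ Finset.univ.filter fun i => f i = c} => fun j => x i j - (c j : ℕ) * t)
      ⟨fun i j => ?_, fun i i' hii => ?_⟩
    · have hi : ⌊x i j / t⌋₊ = (c j : ℕ) :=
        congrArg Fin.val (congrFun (Finset.mem_filter.1 i.2).2 j)
      have h2 := Nat.floor_le (hb i j)
      have h3 := Nat.lt_floor_add_one (x i j / t)
      rw [hi] at h2 h3
      rw [le_div_iff₀ ht] at h2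
      rw [div_lt_iff₀ ht] at h3
      constructor
      · show (0 : ℝ) ≤ x i j - (c j : ℕ) * t
        linarith
      · show x i j - (c j : ℕ) * t < t
        linarith
    · have h2 := hx.2 i i' fun h => hii (Subtype.ext h)
      calc (1 : ℝ) ≤ ∑ k, (x i k - x i' k) ^ 2 := h2
        _ = _ := Finset.sum_congr rfl fun j _ => by ring

end Pack

theorem mx_lower (hd : 1 ≤ d) : ∃ c : ℝ, 0 < c ∧ ∀ t : ℝ, 1 ≤ t → c * t ^ d ≤ mx (Box d t) := by
  refine ⟨(1 / 2) ^ d, by positivity, fun t ht => ?_⟩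
  have h1 : (1 : ℕ) ≤ ⌊t⌋₊ := (Nat.one_le_floor_iff t).2 ht
  have h2 : t / 2 ≤ (⌊t⌋₊ : ℝ) := by
    have := Nat.lt_floor_add_one t
    have h3 : (1 : ℝ) ≤ (⌊t⌋₊ : ℝ) := by exact_mod_cast h1
    linarith
  have h3 : Fintype.card (Fin d → Fin ⌊t⌋₊) ≤ mx (Box d t) := by
    refine Pack.card_le_mx (Pack.bounded_Box t) (x := fun c k => ((c k : ℕ) : ℝ))
      ⟨fun c k => ⟨Nat.cast_nonneg _, ?_⟩, fun c c' hc => ?_⟩
    · have h4 : ((c k : ℕ) : ℝ) < (⌊t⌋₊ : ℝ) := by exact_mod_cast (c k).2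
      exact h4.trans_le (Nat.floor_le (by linarith))
    · obtain ⟨k, hk⟩ := Function.ne_iff.1 hc
      have h4 : ((c k : ℕ) : ℤ) - (c' k : ℕ) ≠ 0 := by
        intro h
        apply hk
        ext
        omega
      have h5 : (1 : ℤ) ≤ (((c k : ℕ) : ℤ) - (c' k : ℕ)) ^ 2 := by
        have := sq_pos_of_ne_zero h4
        omega
      have h6 : (1 : ℝ) ≤ (((c k : ℕ) : ℝ) - ((c' k : ℕ) : ℝ)) ^ 2 := by exact_mod_cast h5
      calc (1 : ℝ) ≤ (((c k : ℕ) : ℝ) - ((c' k : ℕ) : ℝ)) ^ 2 := h6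
        _ ≤ _ := Finset.single_le_sum (f := fun k => (((c k : ℕ) : ℝ) - ((c' k : ℕ) : ℝ)) ^ 2)
            (fun i _ => sq_nonneg _) (Finset.mem_univ k)
  rw [Fintype.card_fun, Fintype.card_fin, Fintype.card_fin] at h3
  calc (1 / 2 : ℝ) ^ d * t ^ d = (t / 2) ^ d := by rw [← mul_pow]; congr 1; ring
    _ ≤ (⌊t⌋₊ : ℝ) ^ d := pow_le_pow_left₀ (by linarith) h2 d
    _ = ((⌊t⌋₊ ^ d : ℕ) : ℝ) := by push_cast; rfl
    _ ≤ mx (Box d t) := by exact_mod_cast h3


theorem mx_strip (hd : 1 ≤ d) {ε : ℝ} (hε : 0 < ε) : ∃ t0 : ℝ, 2 < t0 ∧ ∀ t : ℝ, t0 ≤ t →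
    (mx (Box d t \ Cor d t) : ℝ) ≤ ε * mx (Box d t) := by
  classical
  obtain ⟨c, hc, hlow⟩ := mx_lower (d := d) hd
  refine ⟨max 3 (2 * d * (d + 2) ^ d / (ε * c)), lt_of_lt_of_le (by norm_num) (le_max_left _ _),
    fun t ht => ?_⟩
  have ht3 : 3 ≤ t := (le_max_left _ _).trans ht
  have ht2 : 2 * d * (d + 2) ^ d ≤ t * (ε * c) :=
    (div_le_iff₀ (mul_pos hε hc)).1 ((le_max_right _ _).trans ht)
  obtain ⟨x, hx⟩ := Pack.exists_mx (R := Box d t \ Cor d t)
    ((Pack.bounded_Box (d := d) t).subset Set.sdiff_subset)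
  have hp : ∀ i, ∃ p : Fin d × Bool, if p.2 then x i p.1 < 1 else t - 1 ≤ x i p.1 := by
    intro i
    have h1 : ¬ ∀ k, x i k ∈ Set.Ico (1 : ℝ) (t - 1) := (hx.1 i).2
    rw [not_forall] at h1
    obtain ⟨k, hk⟩ := h1
    rw [Set.mem_Ico, not_and_or, not_le, not_lt] at hk
    rcases hk with hk | hk
    · exact ⟨(k, true), by simpa using hk⟩
    · exact ⟨(k, false), by simpa using hk⟩
  choose f hf using hp
  have h1 := Finset.card_le_mul_card_image_of_maps_to (s := Finset.univ) (t := Finset.univ) (f := f)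
    (fun i _ => Finset.mem_univ (f i)) ((d + 2) * (⌊(d + 1 : ℝ) * t⌋₊ + 1) ^ (d - 1)) ?_
  · rw [Finset.card_univ, Finset.card_univ, Fintype.card_fin, Fintype.card_prod, Fintype.card_fin,
      Fintype.card_bool] at h1
    have h2 : (mx (Box d t \ Cor d t) : ℝ) ≤
        (d + 2) * ((⌊(d + 1 : ℝ) * t⌋₊ : ℝ) + 1) ^ (d - 1) * (d * 2) := by exact_mod_cast h1
    have h3 : ((⌊(d + 1 : ℝ) * t⌋₊ : ℝ) + 1) ^ (d - 1) ≤ ((d + 2) * t) ^ (d - 1) := by
      refine pow_le_pow_left₀ (by positivity) ?_ _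
      have h4 := Nat.floor_le (show (0 : ℝ) ≤ (d + 1 : ℝ) * t by positivity)
      have h5 : ((d : ℝ) + 2) * t = (d + 1) * t + t := by ring
      linarith
    have hpow : ∀ y : ℝ, y ^ d = y ^ (d - 1) * y := fun y => by
      rw [← pow_succ, Nat.sub_add_cancel hd]
    calc (mx (Box d t \ Cor d t) : ℝ)
        ≤ (d + 2) * ((⌊(d + 1 : ℝ) * t⌋₊ : ℝ) + 1) ^ (d - 1) * (d * 2) := h2
      _ ≤ (d + 2) * ((d + 2) * t) ^ (d - 1) * (d * 2) := by gcongr
      _ = 2 * d * (d + 2) ^ d * t ^ (d - 1) := by rw [mul_pow, hpow (d + 2)]; ring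
      _ ≤ t * (ε * c) * t ^ (d - 1) := mul_le_mul_of_nonneg_right ht2 (by positivity)
      _ = ε * (c * t ^ d) := by rw [hpow t]; ring
      _ ≤ ε * mx (Box d t) := mul_le_mul_of_nonneg_left (hlow t (by linarith)) hε.le
  · rintro ⟨k, b⟩ _
    rw [← Fintype.card_coe]
    have h2 := Pack.card_le_rect (R := {y : Fin d → ℝ | (∀ j, 0 ≤ y j ∧ y j ≤ t) ∧
        if b then y k < 1 else t - 1 ≤ y k})
      (x := fun i : {i // i ∈ Finset.univ.filter fun i => f i = (k, b)} => x i)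
      ⟨fun i => ⟨fun j => ⟨((hx.1 i).1 j).1, ((hx.1 i).1 j).2.le⟩, ?_⟩,
        fun i i' hii => hx.2 i i' fun h => hii (Subtype.ext h)⟩
      (fun j => if j = k then (if b then 0 else t - 1) else 0)
      (fun j => if j = k then 1 else t) ?_
    · refine h2.trans (le_of_eq ?_)
      rw [← Finset.mul_prod_erase Finset.univ _ (Finset.mem_univ k), if_pos rfl, mul_one]
      congr 1
      · have h3 : ⌊(d : ℝ) + 1⌋₊ = d + 1 := by
          rw [show (d : ℝ) + 1 = ((d + 1 : ℕ) : ℝ) by push_cast; rfl, Nat.floor_natCast]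
        rw [h3]
      · rw [Finset.prod_congr rfl (g := fun _ => ⌊(d + 1 : ℝ) * t⌋₊ + 1) fun j hj => by
          rw [if_neg (Finset.ne_of_mem_erase hj)], Finset.prod_const,
          Finset.card_erase_of_mem (Finset.mem_univ k), Finset.card_univ, Fintype.card_fin]
    · have h3 := hf i
      rw [(Finset.mem_filter.1 i.2).2] at h3
      exact h3
    · rintro y ⟨hy1, hy2⟩ j
      by_cases hj : j = k
      · subst hj
        rw [if_pos rfl, if_pos rfl]
        cases b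
        · rw [if_neg Bool.false_ne_true] at hy2 ⊢
          exact ⟨hy2, by linarith [(hy1 j).2]⟩
        · rw [if_pos rfl] at hy2 ⊢
          exact ⟨(hy1 j).1, by linarith⟩
      · rw [if_neg hj, if_neg hj]
        exact ⟨(hy1 j).1, by linarith [(hy1 j).2]⟩


namespace PackC

theorem bdd_Box (t : ℝ) : Bornology.IsBounded (Box d t) := by
  rw [Metric.isBounded_iff_subset_closedBall 0]
  refine ⟨|t|, fun x hx => ?_⟩
  rw [mem_closedBall_zero_iff, pi_norm_le_iff_of_nonneg (abs_nonneg t)]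
  intro k
  have h := hx k
  rw [Real.norm_eq_abs, abs_of_nonneg h.1]
  exact h.2.le.trans (le_abs_self t)

theorem mx_mem {R : Set (Fin d → ℝ)} (hR : Bornology.IsBounded R) :
    (Cn (Fin (mx R)) R).Nonempty := by
  have h : mx R ∈ {n : ℕ | (Cn (Fin n) R).Nonempty} := by
    refine Nat.sSup_mem ⟨0, ⟨fun i => i.elim0, fun i => i.elim0, fun i => i.elim0⟩⟩ ?_
    exact ⟨mx R, fun n hn => le_mx hR hn⟩
  exact h

/-- Index of the small cube of a point. -/
noncomputable def cell (x : Fin d → ℝ) (k : Fin d) : ℤ := ⌊(d : ℝ) * x k⌋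

theorem cell_sep (hd : 1 ≤ d) {x y : Fin d → ℝ} (h : cell x = cell y) :
    ∑ k, (x k - y k) ^ 2 < 1 := by
  have hd0 : (0 : ℝ) < d := by exact_mod_cast hd
  have hd1 : (1 : ℝ) ≤ d := by exact_mod_cast hd
  have h1 : ∀ k, (x k - y k) ^ 2 < (1 / (d : ℝ)) ^ 2 := by
    intro k
    have h2 : ⌊(d : ℝ) * x k⌋ = ⌊(d : ℝ) * y k⌋ := congrFun h k
    have h3 := Int.abs_sub_lt_one_of_floor_eq_floor h2
    rw [← mul_sub, abs_mul, abs_of_pos hd0] at h3
    rw [sq_lt_sq, abs_of_pos (show (0 : ℝ) < 1 / d by positivity), lt_div_iff₀ hd0, mul_comm]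
    exact h3
  have : Nonempty (Fin d) := ⟨⟨0, hd⟩⟩
  calc ∑ k, (x k - y k) ^ 2 < ∑ _k : Fin d, (1 / (d : ℝ)) ^ 2 :=
        Finset.sum_lt_sum_of_nonempty Finset.univ_nonempty fun k _ => h1 k
    _ = d * (1 / (d : ℝ)) ^ 2 := by rw [Finset.sum_const, Finset.card_univ, Fintype.card_fin,
        nsmul_eq_mul]
    _ = 1 / d := by field_simp
    _ ≤ 1 := by rw [div_le_one hd0]; exact hd1

theorem card_le (hd : 1 ≤ d) {n : ℕ} {R : Set (Fin d → ℝ)} {x : Fin n → Fin d → ℝ}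
    (hx : x ∈ Cn (Fin n) R) (J : Finset (Fin n)) (T : Finset (Fin d → ℤ))
    (hT : ∀ i ∈ J, cell (x i) ∈ T) : J.card ≤ T.card := by
  refine Finset.card_le_card_of_injOn (fun i => cell (x i)) hT ?_
  intro i _ j _ hij
  by_contra hne
  exact absurd (cell_sep hd hij) (not_lt.2 (hx.2 i j hne))

theorem nonneg_of_mem {t : ℝ} {x : Fin d → ℝ} (hx : x ∈ Box d t) (k : Fin d) :
    cell x k ∈ Finset.Ico (0 : ℤ) ⌈(d : ℝ) * t⌉ := by
  have h := hx k
  have hd0 : (0 : ℝ) < d := by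
    have : 0 < d := k.pos
    exact_mod_cast this
  rw [Finset.mem_Ico]
  constructor
  · exact Int.floor_nonneg.2 (mul_nonneg hd0.le h.1)
  · unfold cell
    rw [Int.floor_lt]
    exact (mul_lt_mul_of_pos_left h.2 hd0).trans_le (Int.le_ceil _)

theorem mx_le (hd : 1 ≤ d) {t : ℝ} (ht : 0 ≤ t) : (mx (Box d t) : ℝ) ≤ (d * t + 1) ^ d := by
  obtain ⟨x, hx⟩ := mx_mem (bdd_Box (d := d) t)
  have h1 := card_le hd hx Finset.univ (Fintype.piFinset fun _ => Finset.Ico (0 : ℤ) ⌈(d : ℝ) * t⌉)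
    (fun i _ => Fintype.mem_piFinset.2 fun k => nonneg_of_mem (hx.1 i) k)
  rw [Finset.card_univ, Fintype.card_fin, Fintype.card_piFinset, Finset.prod_const,
    Finset.card_univ, Fintype.card_fin, Int.card_Ico, sub_zero] at h1
  have hd0 : (0 : ℝ) ≤ d * t := by positivity
  have h2 : (0 : ℤ) ≤ ⌈(d : ℝ) * t⌉ := Int.ceil_nonneg hd0
  calc (mx (Box d t) : ℝ) ≤ ((⌈(d : ℝ) * t⌉.toNat ^ d : ℕ) : ℝ) := by exact_mod_cast h1
    _ = ((⌈(d : ℝ) * t⌉ : ℤ) : ℝ) ^ d := by
        rw [Nat.cast_pow]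
        congr 1
        have h3 : ((⌈(d : ℝ) * t⌉.toNat : ℤ) : ℝ) = ((⌈(d : ℝ) * t⌉ : ℤ) : ℝ) := by
          rw [Int.toNat_of_nonneg h2]
        exact_mod_cast h3
    _ ≤ (d * t + 1) ^ d := by
        refine pow_le_pow_left₀ (by exact_mod_cast h2) ?_ d
        exact (Int.ceil_lt_add_one _).le

/-- Most points are in the smaller box. -/
theorem mx_sub (hd : 1 ≤ d) {a t : ℝ} (ha : 0 ≤ a) (hat : a ≤ t) :
    (mx (Box d t) : ℝ) ≤ mx (Box d a) +
      d * ((d * (t - a) + 2) * (d * t + 1) ^ (d - 1)) := by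
  classical
  obtain ⟨x, hx⟩ := mx_mem (bdd_Box (d := d) t)
  set J : Finset (Fin (mx (Box d t))) := Finset.univ.filter fun i => x i ∉ Box d a with hJ
  set I : Finset (Fin (mx (Box d t))) := Finset.univ.filter fun i => x i ∈ Box d a with hI
  have hIJ : (I.card : ℝ) + J.card = mx (Box d t) := by
    have := Finset.card_filter_add_card_filter_not (s := (Finset.univ : Finset (Fin (mx (Box d t)))))
      (fun i => x i ∈ Box d a)
    rw [Finset.card_univ, Fintype.card_fin] at this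
    exact_mod_cast this
  have hIle : I.card ≤ mx (Box d a) := by
    refine le_mx (bdd_Box a) ⟨fun j => x (I.equivFin.symm j), fun j => ?_, fun j j' hjj => ?_⟩
    · exact (Finset.mem_filter.1 (I.equivFin.symm j).2).2
    · refine hx.2 _ _ fun h => hjj ?_
      exact I.equivFin.symm.injective (Subtype.ext h)
  set T : Fin d → Finset (Fin d → ℤ) := fun k => Fintype.piFinset fun j =>
    if j = k then Finset.Ico ⌊(d : ℝ) * a⌋ ⌈(d : ℝ) * t⌉ else Finset.Ico (0 : ℤ) ⌈(d : ℝ) * t⌉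
    with hT
  have hJle : J.card ≤ (Finset.univ.biUnion T).card := by
    refine card_le hd hx J _ fun i hi => ?_
    have h1 : x i ∉ Box d a := (Finset.mem_filter.1 hi).2
    have h2 : ∃ k, a ≤ x i k := by
      by_contra hcon
      push Not at hcon
      exact h1 fun k => ⟨(hx.1 i k).1, hcon k⟩
    obtain ⟨k, hk⟩ := h2
    refine Finset.mem_biUnion.2 ⟨k, Finset.mem_univ _, ?_⟩
    rw [hT]
    refine Fintype.mem_piFinset.2 fun j => ?_
    have h3 := nonneg_of_mem (hx.1 i) j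
    split_ifs with hjk
    · subst hjk
      rw [Finset.mem_Ico] at h3 ⊢
      refine ⟨?_, h3.2⟩
      exact Int.floor_le_floor (mul_le_mul_of_nonneg_left hk (Nat.cast_nonneg d))
    · exact h3
  have hd0 : (0 : ℝ) ≤ d := Nat.cast_nonneg d
  have ht : 0 ≤ t := ha.trans hat
  have hTk : ∀ k, ((T k).card : ℝ) ≤ (d * (t - a) + 2) * (d * t + 1) ^ (d - 1) := by
    intro k
    rw [hT]
    dsimp only
    rw [Fintype.card_piFinset]
    have e1 : ∏ j : Fin d, (if j = k then Finset.Ico ⌊(d : ℝ) * a⌋ ⌈(d : ℝ) * t⌉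
        else Finset.Ico (0 : ℤ) ⌈(d : ℝ) * t⌉).card =
        (Finset.Ico ⌊(d : ℝ) * a⌋ ⌈(d : ℝ) * t⌉).card *
          (Finset.Ico (0 : ℤ) ⌈(d : ℝ) * t⌉).card ^ (d - 1) := by
      rw [← Finset.mul_prod_erase Finset.univ _ (Finset.mem_univ k), if_pos rfl]
      congr 1
      rw [Finset.prod_congr rfl (g := fun _ => (Finset.Ico (0 : ℤ) ⌈(d : ℝ) * t⌉).card)
        (fun j hj => by rw [if_neg (Finset.ne_of_mem_erase hj)]), Finset.prod_const,
        Finset.card_erase_of_mem (Finset.mem_univ k), Finset.card_univ, Fintype.card_fin]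
    rw [e1, Nat.cast_mul, Nat.cast_pow]
    have h4 : ((Finset.Ico ⌊(d : ℝ) * a⌋ ⌈(d : ℝ) * t⌉).card : ℝ) ≤ d * (t - a) + 2 := by
      rw [Int.card_Ico]
      have h5 : ((max (⌈(d : ℝ) * t⌉ - ⌊(d : ℝ) * a⌋) 0 : ℤ) : ℝ) ≤ d * (t - a) + 2 := by
        have h6 := Int.ceil_lt_add_one ((d : ℝ) * t)
        have h7 := Int.sub_one_lt_floor ((d : ℝ) * a)
        have h8 : (0 : ℝ) ≤ d * (t - a) := mul_nonneg hd0 (sub_nonneg.2 hat)
        push_cast
        refine max_le ?_ ?_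
        · nlinarith
        · linarith
      rw [← Int.toNat_eq_max] at h5
      exact_mod_cast h5
    have h9 : ((Finset.Ico (0 : ℤ) ⌈(d : ℝ) * t⌉).card : ℝ) ≤ d * t + 1 := by
      rw [Int.card_Ico, sub_zero]
      have h5 : ((max ⌈(d : ℝ) * t⌉ 0 : ℤ) : ℝ) ≤ d * t + 1 := by
        have h6 := Int.ceil_lt_add_one ((d : ℝ) * t)
        have h8 : (0 : ℝ) ≤ d * t := mul_nonneg hd0 ht
        push_cast
        refine max_le h6.le ?_
        linarith
      rw [← Int.toNat_eq_max] at h5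
      exact_mod_cast h5
    refine mul_le_mul h4 (pow_le_pow_left₀ (Nat.cast_nonneg _) h9 _) (by positivity) ?_
    have h8 : (0 : ℝ) ≤ d * (t - a) := mul_nonneg hd0 (sub_nonneg.2 hat)
    linarith
  have hJ2 : (J.card : ℝ) ≤ d * ((d * (t - a) + 2) * (d * t + 1) ^ (d - 1)) := by
    calc (J.card : ℝ) ≤ ((Finset.univ.biUnion T).card : ℝ) := by exact_mod_cast hJle
      _ ≤ ((∑ k, (T k).card : ℕ) : ℝ) := by exact_mod_cast Finset.card_biUnion_le
      _ = ∑ k, ((T k).card : ℝ) := by push_cast; rfl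
      _ ≤ ∑ _k : Fin d, (d * (t - a) + 2) * (d * t + 1) ^ (d - 1) :=
          Finset.sum_le_sum fun k _ => hTk k
      _ = _ := by rw [Finset.sum_const, Finset.card_univ, Fintype.card_fin, nsmul_eq_mul]
  have hI2 : (I.card : ℝ) ≤ mx (Box d a) := by exact_mod_cast hIle
  linarith

theorem sum_sub_sq {v w : Fin d → ℝ} {s : ℝ} (hs : 0 ≤ s) (hv : (1 + s) ^ 2 ≤ ∑ k, v k ^ 2)
    (hw : ∑ k, w k ^ 2 ≤ s ^ 2) : 1 ≤ ∑ k, (v k + w k) ^ 2 := by
  have hV : 1 + s ≤ Real.sqrt (∑ k, v k ^ 2) := by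
    rw [← Real.sqrt_sq (show 0 ≤ 1 + s by linarith)]
    exact Real.sqrt_le_sqrt hv
  have hW : Real.sqrt (∑ k, w k ^ 2) ≤ s := by
    rw [← Real.sqrt_sq hs]
    exact Real.sqrt_le_sqrt hw
  have hv0 : 0 ≤ ∑ k, v k ^ 2 := Finset.sum_nonneg fun k _ => sq_nonneg _
  have hw0 : 0 ≤ ∑ k, w k ^ 2 := Finset.sum_nonneg fun k _ => sq_nonneg _
  have hcs : (∑ k, v k * w k) ^ 2 ≤ (∑ k, v k ^ 2) * ∑ k, w k ^ 2 :=
    Finset.sum_mul_sq_le_sq_mul_sq _ _ _
  have hcs2 : |∑ k, v k * w k| ≤ Real.sqrt (∑ k, v k ^ 2) * Real.sqrt (∑ k, w k ^ 2) := by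
    rw [← Real.sqrt_mul hv0]
    exact Real.abs_le_sqrt hcs
  have hexp : ∑ k, (v k + w k) ^ 2 = ∑ k, v k ^ 2 + 2 * ∑ k, v k * w k + ∑ k, w k ^ 2 := by
    rw [Finset.mul_sum, ← Finset.sum_add_distrib, ← Finset.sum_add_distrib]
    exact Finset.sum_congr rfl fun k _ => by ring
  have h1 := neg_abs_le (∑ k, v k * w k)
  have h2 := Real.sq_sqrt hv0
  have h3 := Real.sq_sqrt hw0
  rw [hexp]
  have h4 : 1 ≤ Real.sqrt (∑ k, v k ^ 2) - Real.sqrt (∑ k, w k ^ 2) := by linarith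
  nlinarith [h4, h1, h2, h3, hcs2]

/-- Lower bound for the volume of the configurations near a packing. -/
theorem vol_lower (hd : 1 ≤ d) {a t s : ℝ} (hs : 0 < s) (hs2 : s ≤ 1 / 2)
    (hat : (1 + s) * a + 3 = t) {n : ℕ} {x : Fin n → Fin d → ℝ} (hx : x ∈ Cn (Fin n) (Box d a)) :
    ENNReal.ofReal (s / d) ^ (n * d) ≤
      ((n.factorial : ENNReal))⁻¹ * volume (Cn (Fin n) (Cor d t)) := by
  classical
  have hd0 : (0 : ℝ) < d := by exact_mod_cast hd
  have hd1 : (1 : ℝ) ≤ d := by exact_mod_cast hd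
  set r : ℝ := s / d with hr
  have hr0 : 0 < r := by positivity
  have hrs : r ≤ s := by
    rw [hr, div_le_iff₀ hd0]
    nlinarith
  have hdr : (d : ℝ) * r ^ 2 ≤ s ^ 2 := by
    have : (d : ℝ) * r ^ 2 = s ^ 2 / d := by
      rw [hr]
      field_simp
    rw [this, div_le_iff₀ hd0]
    nlinarith [sq_nonneg s]
  set y : Fin n → Fin d → ℝ := fun i k => (1 + s) * x i k + 3 / 2 with hy
  set P : Equiv.Perm (Fin n) → Set (Fin n → Fin d → ℝ) := fun σ =>
    Set.pi Set.univ fun i => Set.pi Set.univ fun k => Set.Ico (y (σ i) k) (y (σ i) k + r) with hP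
  have hmem : ∀ σ z, z ∈ P σ → ∀ i k, 0 ≤ z i k - y (σ i) k ∧ z i k - y (σ i) k < r := by
    intro σ z hz i k
    have h := hz i (Set.mem_univ _) k (Set.mem_univ _)
    exact ⟨sub_nonneg.2 h.1, by linarith [h.2]⟩
  have hysep : ∀ i j, i ≠ j → (1 + s) ^ 2 ≤ ∑ k, (y i k - y j k) ^ 2 := by
    intro i j hij
    have h := hx.2 i j hij
    have e : ∑ k, (y i k - y j k) ^ 2 = (1 + s) ^ 2 * ∑ k, (x i k - x j k) ^ 2 := by
      rw [Finset.mul_sum]
      refine Finset.sum_congr rfl fun k _ => ?_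
      rw [hy]
      ring
    rw [e]
    exact le_mul_of_one_le_right (sq_nonneg _) h
  have hsmall : ∀ u w : Fin d → ℝ, (∀ k, 0 ≤ u k ∧ u k < r) → (∀ k, 0 ≤ w k ∧ w k < r) →
      ∑ k, (u k - w k) ^ 2 ≤ s ^ 2 := by
    intro u w hu hw
    refine le_trans ?_ hdr
    calc ∑ k, (u k - w k) ^ 2 ≤ ∑ _k : Fin d, r ^ 2 := by
          refine Finset.sum_le_sum fun k _ => ?_
          rw [sq_le_sq, abs_of_pos hr0, abs_le]
          constructor
          · linarith [(hu k).1, (hw k).2]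
          · linarith [(hu k).2, (hw k).1]
      _ = d * r ^ 2 := by rw [Finset.sum_const, Finset.card_univ, Fintype.card_fin, nsmul_eq_mul]
  have hsub : ∀ σ, P σ ⊆ Cn (Fin n) (Cor d t) := by
    intro σ z hz
    refine ⟨fun i k => ?_, fun i j hij => ?_⟩
    · have h1 := hmem σ z hz i k
      have h2 := hx.1 (σ i) k
      have h3 : y (σ i) k = (1 + s) * x (σ i) k + 3 / 2 := rfl
      have h4 : 0 ≤ (1 + s) * x (σ i) k := mul_nonneg (by linarith) h2.1
      have h5 : (1 + s) * x (σ i) k < (1 + s) * a := mul_lt_mul_of_pos_left h2.2 (by linarith)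
      constructor
      · linarith [h1.1]
      · linarith [h1.2]
    · have h1 := hysep (σ i) (σ j) fun h => hij (σ.injective h)
      have h2 := hsmall (fun k => z i k - y (σ i) k) (fun k => z j k - y (σ j) k)
        (hmem σ z hz i) (hmem σ z hz j)
      have h3 := sum_sub_sq hs.le h1 h2
      refine h3.trans (le_of_eq (Finset.sum_congr rfl fun k _ => ?_))
      ring
  have hdisj : Pairwise (Function.onFun Disjoint P) := by
    intro σ τ hne
    rw [Function.onFun, Set.disjoint_left]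
    intro z hz hz'
    have h1 : ∃ i, σ i ≠ τ i := by
      by_contra hcon
      push Not at hcon
      exact hne (Equiv.ext hcon)
    obtain ⟨i, hi⟩ := h1
    have h2 := hysep (σ i) (τ i) hi
    have h3 := hsmall (fun k => z i k - y (τ i) k) (fun k => z i k - y (σ i) k)
      (hmem τ z hz' i) (hmem σ z hz i)
    have h4 : ∑ k, (z i k - y (τ i) k - (z i k - y (σ i) k)) ^ 2 =
        ∑ k, (y (σ i) k - y (τ i) k) ^ 2 := Finset.sum_congr rfl fun k _ => by ring
    rw [h4] at h3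
    nlinarith
  have hmeas : ∀ σ, MeasurableSet (P σ) := fun σ =>
    MeasurableSet.univ_pi fun i => MeasurableSet.univ_pi fun k => measurableSet_Ico
  have hvol : ∀ σ, volume (P σ) = ENNReal.ofReal r ^ (n * d) := by
    intro σ
    rw [hP]
    dsimp only
    rw [volume_pi_pi]
    have h1 : ∀ i : Fin n, volume (Set.pi Set.univ fun k =>
        Set.Ico (y (σ i) k) (y (σ i) k + r)) = ENNReal.ofReal r ^ d := by
      intro i
      rw [Real.volume_pi_Ico]
      have h2 : ∀ k ∈ (Finset.univ : Finset (Fin d)),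
          ENNReal.ofReal (y (σ i) k + r - y (σ i) k) = ENNReal.ofReal r := by
        intro k _
        rw [add_sub_cancel_left]
      rw [Finset.prod_congr rfl h2, Finset.prod_const, Finset.card_univ, Fintype.card_fin]
    rw [Finset.prod_congr rfl fun i _ => h1 i, Finset.prod_const, Finset.card_univ,
      Fintype.card_fin, ← pow_mul, mul_comm d n]
  have hU : volume (⋃ σ, P σ) = (n.factorial : ENNReal) * ENNReal.ofReal r ^ (n * d) := by
    rw [measure_iUnion hdisj hmeas, tsum_fintype, Finset.sum_congr rfl fun σ _ => hvol σ,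
      Finset.sum_const, Finset.card_univ, Fintype.card_perm, Fintype.card_fin, nsmul_eq_mul]
  have hle : (n.factorial : ENNReal) * ENNReal.ofReal r ^ (n * d) ≤
      volume (Cn (Fin n) (Cor d t)) := by
    rw [← hU]
    exact measure_mono (Set.iUnion_subset hsub)
  have hn0 : (n.factorial : ENNReal) ≠ 0 := by exact_mod_cast n.factorial_ne_zero
  have hn1 : (n.factorial : ENNReal) ≠ ⊤ := ENNReal.natCast_ne_top _
  calc ENNReal.ofReal r ^ (n * d) = ((n.factorial : ENNReal))⁻¹ *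
        ((n.factorial : ENNReal) * ENNReal.ofReal r ^ (n * d)) := by
        rw [← mul_assoc, ENNReal.inv_mul_cancel hn0 hn1, one_mul]
    _ ≤ _ := mul_le_mul_right hle _

end PackC

open PackC in
theorem exists_packing (hd : 1 ≤ d) {ε : ℝ} (hε : 0 < ε) : ∃ C t0 : ℝ, 2 < t0 ∧ ∀ t : ℝ, t0 ≤ t →
    ∃ n : ℕ, (1 - ε) * mx (Box d t) ≤ n ∧
      ex (-(C * t ^ d)) ≤ ((n.factorial : ENNReal))⁻¹ * volume (Cn (Fin n) (Cor d t)) := by
  obtain ⟨c, hc, hlow⟩ := mx_lower hd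
  have hd0 : (0 : ℝ) < d := by exact_mod_cast hd
  have hd1 : (1 : ℝ) ≤ d := by exact_mod_cast hd
  set K : ℝ := d * (d + 1) ^ (d - 1) with hK
  have hK0 : 0 < K := by positivity
  set s : ℝ := min (1 / 2) (ε * c / (2 * K * d)) with hs
  have hs0 : 0 < s := lt_min (by norm_num) (by positivity)
  have hs2 : s ≤ 1 / 2 := min_le_left _ _
  have hs3 : s * (2 * K * d) ≤ ε * c := by
    have : s ≤ ε * c / (2 * K * d) := min_le_right _ _
    rwa [le_div_iff₀ (by positivity)] at this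
  set r : ℝ := s / d with hr
  have hr0 : 0 < r := by positivity
  have hr1 : r ≤ 1 := by
    rw [hr, div_le_one hd0]
    linarith
  refine ⟨-Real.log r * (d * (d + 1) ^ d), max 4 (2 * K * (3 * d + 2) / (ε * c)),
    lt_of_lt_of_le (by norm_num) (le_max_left _ _), fun t ht => ?_⟩
  have ht4 : 4 ≤ t := (le_max_left _ _).trans ht
  have ht2 : 2 * K * (3 * d + 2) ≤ ε * c * t := by
    have := (le_max_right _ _).trans ht
    rw [div_le_iff₀ (by positivity)] at this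
    linarith
  set a : ℝ := (t - 3) / (1 + s) with ha
  have ha0 : 0 ≤ a := div_nonneg (by linarith) (by linarith)
  have hat : (1 + s) * a + 3 = t := by
    rw [ha, mul_div_cancel₀ _ (by linarith : (1 + s) ≠ 0)]
    ring
  have hat2 : a ≤ t := by nlinarith
  have hta : t - a ≤ s * t + 3 := by nlinarith
  obtain ⟨x, hx⟩ := mx_mem (bdd_Box (d := d) a)
  refine ⟨mx (Box d a), ?_, ?_⟩
  · have h1 := mx_sub hd ha0 hat2
    have h2 := hlow t (by linarith)
    have h3 : (d : ℝ) * ((d * (t - a) + 2) * (d * t + 1) ^ (d - 1)) ≤ ε * (c * t ^ d) := by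
      have h4 : (d * t + 1) ^ (d - 1) ≤ ((d + 1) * t) ^ (d - 1) :=
        pow_le_pow_left₀ (by positivity) (by nlinarith) _
      have h5 : d * (t - a) + 2 ≤ d * s * t + (3 * d + 2) := by nlinarith
      have h6 : 0 ≤ d * s * t + (3 * d + 2) := by positivity
      have h7 : (d : ℝ) * ((d * (t - a) + 2) * (d * t + 1) ^ (d - 1)) ≤
          d * ((d * s * t + (3 * d + 2)) * ((d + 1) * t) ^ (d - 1)) :=
        mul_le_mul_of_nonneg_left (mul_le_mul h5 h4 (by positivity) h6) hd0.le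
      refine h7.trans ?_
      have e1 : d * ((d * s * t + (3 * d + 2)) * ((d + 1) * t) ^ (d - 1)) =
          (K * (d * s * t + (3 * d + 2))) * t ^ (d - 1) := by
        rw [hK, mul_pow]
        ring
      have e2 : ε * (c * t ^ d) = (ε * c * t) * t ^ (d - 1) := by
        obtain ⟨m, rfl⟩ : ∃ m, d = m + 1 := ⟨d - 1, by omega⟩
        rw [Nat.add_sub_cancel, pow_succ]
        ring
      rw [e1, e2]
      refine mul_le_mul_of_nonneg_right ?_ (by positivity)
      have h8 := mul_le_mul_of_nonneg_right hs3 (show 0 ≤ t by linarith)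
      nlinarith
    have h9 : (mx (Box d t) : ℝ) - ε * mx (Box d t) ≤ mx (Box d a) := by
      have := mul_le_mul_of_nonneg_left h2 hε.le
      linarith
    linarith
  · refine le_trans ?_ (vol_lower hd hs0 hs2 hat hx)
    have h1 : ENNReal.ofReal (s / d) = ex (Real.log r) := by
      unfold ex
      rw [Real.exp_log hr0]
    rw [h1, ex_pow, ex_le_ex]
    have h2 := mx_le hd ha0
    have hlog : Real.log r ≤ 0 := Real.log_nonpos hr0.le hr1
    have h3 : (d * a + 1) ^ d ≤ ((d + 1) * t) ^ d :=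
      pow_le_pow_left₀ (by positivity) (by nlinarith) _
    have h4 : (mx (Box d a) : ℝ) ≤ (d + 1) ^ d * t ^ d := by
      rw [← mul_pow]
      exact h2.trans h3
    have h5 := mul_le_mul_of_nonneg_left h4 (show 0 ≤ -Real.log r * d by
      exact mul_nonneg (neg_nonneg.2 hlog) hd0.le)
    push_cast
    nlinarith

end Pool.Agent.SquareWell
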