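import Pool.Agent.Lib.MP_09cbbd_sw.Defs

/-!
# Finner's inequality
-/

set_option autoImplicit false

namespace Pool.Agent.SquareWell

open MeasureTheory Finset

namespace Finn

variable {Γ E ι : Type} [DecidableEq Γ] [MeasurableSpace E]

/-- A function which does not depend on the coordinate `j`. -/
theorem marginal_update (π : Measure E) [IsFiniteMeasure π] {A B : Finset Γ}
    {f : (Γ → E) → ENNReal} (hf : Measurable f)
    (hdep : ∀ ω ω' : Γ → E, (∀ j ∈ A, ω j = ω' j) → f ω = f ω') {j : Γ} (hj : j ∉ A)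
    (hB : j ∉ B) (x : Γ → E) (y : E) :
    lmarginal (fun _ : Γ => π) B f (Function.update x j y) =
      lmarginal (fun _ : Γ => π) B f x := by
  rw [lmarginal_update_of_notMem hf hB]
  have h : (f ∘ fun z : Γ → E => Function.update z j y) = f := by
    funext z
    refine hdep _ _ fun i hi => ?_
    have hij : i ≠ j := by
      rintro rfl
      exact hj hi
    exact Function.update_of_ne hij _ _
  rw [h]

theorem step (π : Measure E) [IsFiniteMeasure π] (s : Finset ι) (A : ι → Finset Γ) (p : ι → ℝ)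
    (hp : ∀ t ∈ s, 0 ≤ p t)
    (hcov : ∀ j : Γ, (∑ t ∈ s, if j ∈ A t then p t else 0) = 1)
    (f : ι → (Γ → E) → ENNReal) (hf : ∀ t ∈ s, Measurable (f t))
    (hdep : ∀ t ∈ s, ∀ ω ω' : Γ → E, (∀ j ∈ A t, ω j = ω' j) → f t ω = f t ω')
    (B : Finset Γ) (x : Γ → E) :
    lmarginal (fun _ : Γ => π) B (fun ω => ∏ t ∈ s, f t ω ^ p t) x ≤
      ∏ t ∈ s, (lmarginal (fun _ : Γ => π) (B ∩ A t) (f t) x) ^ p t := by
  classical
  have hF : Measurable fun ω => ∏ t ∈ s, f t ω ^ p t :=
    Finset.measurable_prod _ fun t ht => (hf t ht).pow_const _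
  induction B using Finset.induction_on generalizing x with
  | empty => simp
  | insert j B hj ih =>
    rw [lmarginal_insert _ hF hj]
    refine (lintegral_mono fun y => ih (Function.update x j y)).trans ?_
    -- split the product
    have hsplit : ∀ y, ∏ t ∈ s, (lmarginal (fun _ : Γ => π) (B ∩ A t) (f t)
        (Function.update x j y)) ^ p t =
        (∏ t ∈ s with j ∈ A t, (lmarginal (fun _ : Γ => π) (B ∩ A t) (f t)
          (Function.update x j y)) ^ p t) *
        ∏ t ∈ s with j ∉ A t, (lmarginal (fun _ : Γ => π) (B ∩ A t) (f t) x) ^ p t := by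
      intro y
      rw [← prod_filter_mul_prod_filter_not s (fun t => j ∈ A t)]
      congr 1
      refine prod_congr rfl fun t ht => ?_
      rw [mem_filter] at ht
      rw [marginal_update π (hf t ht.1) (hdep t ht.1) ht.2
        (fun h => hj (mem_inter.mp h).1) x y]
    simp only [hsplit]
    have hm : ∀ t ∈ s, Measurable fun y => lmarginal (fun _ : Γ => π) (B ∩ A t) (f t)
        (Function.update x j y) := fun t ht =>
      ((hf t ht).lmarginal _).comp (measurable_update x)
    rw [lintegral_mul_const _ (Finset.measurable_prod _ fun t ht =>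
      (hm t (mem_filter.mp ht).1).pow_const _)]
    rw [← prod_filter_mul_prod_filter_not s (fun t => j ∈ A t)
      (fun t => (lmarginal (fun _ : Γ => π) (insert j B ∩ A t) (f t) x) ^ p t)]
    have h1 : ∫⁻ y, ∏ t ∈ s with j ∈ A t, (lmarginal (fun _ : Γ => π) (B ∩ A t) (f t)
        (Function.update x j y)) ^ p t ∂π ≤
        ∏ t ∈ s with j ∈ A t, (∫⁻ y, lmarginal (fun _ : Γ => π) (B ∩ A t) (f t)
          (Function.update x j y) ∂π) ^ p t := by
      refine ENNReal.lintegral_prod_norm_pow_le _
        (fun t ht => (hm t (mem_filter.mp ht).1).aemeasurable) ?_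
        (fun t ht => hp t (mem_filter.mp ht).1)
      rw [sum_filter]
      exact hcov j
    refine mul_le_mul' (h1.trans (le_of_eq ?_)) (le_of_eq ?_)
    · refine prod_congr rfl fun t ht => ?_
      rw [mem_filter] at ht
      have h2 : insert j B ∩ A t = insert j (B ∩ A t) := by
        rw [insert_inter_of_mem ht.2]
      rw [h2, lmarginal_insert _ (hf t ht.1) fun h => hj (mem_inter.mp h).1]
    · refine prod_congr rfl fun t ht => ?_
      rw [mem_filter] at ht
      rw [insert_inter_of_notMem ht.2]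

end Finn

theorem finner {Γ E ι : Type} [Fintype Γ] [DecidableEq Γ] [MeasurableSpace E] (π : Measure E)
    [IsFiniteMeasure π] (s : Finset ι) (A : ι → Finset Γ) (p : ι → ℝ) (hp : ∀ t ∈ s, 0 ≤ p t)
    (hcov : ∀ j : Γ, (∑ t ∈ s, if j ∈ A t then p t else 0) = 1)
    (f : ι → (Γ → E) → ENNReal) (hf : ∀ t ∈ s, Measurable (f t))
    (hdep : ∀ t ∈ s, ∀ ω ω' : Γ → E, (∀ j ∈ A t, ω j = ω' j) → f t ω = f t ω') (x0 : Γ → E) :
    ∫⁻ ω, ∏ t ∈ s, f t ω ^ p t ∂(Measure.pi fun _ => π) ≤
      ∏ t ∈ s, (lmarginal (fun _ : Γ => π) (A t) (f t) x0) ^ p t := by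
  have h := Finn.step π s A p hp hcov f hf hdep univ x0
  rw [lmarginal_univ] at h
  simp only [univ_inter] at h
  exact h

end Pool.Agent.SquareWell
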