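import Pool.Agent.Lib.MP_09cbbd_mp_h27.PsPoly

/-!
# Square-well gas on cells: the abstract lattice model
-/

set_option autoImplicit false

namespace Pool.Agent.SquareWell

open MeasureTheory Finset Filter Topology Pool.Agent.StableGas

/-- Exponential with values in the extended nonnegative reals. -/
noncomputable def ex (t : ℝ) : ENNReal := ENNReal.ofReal (Real.exp t)

theorem ex_zero : ex 0 = 1 := by simp [ex]

theorem ex_add (s t : ℝ) : ex (s + t) = ex s * ex t := by
  unfold ex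
  rw [Real.exp_add, ENNReal.ofReal_mul (Real.exp_pos s).le]

theorem ex_ne_top (t : ℝ) : ex t ≠ ⊤ := ENNReal.ofReal_ne_top

theorem ex_pos (t : ℝ) : 0 < ex t := by
  unfold ex
  rw [ENNReal.ofReal_pos]
  exact Real.exp_pos t

theorem ex_ne_zero (t : ℝ) : ex t ≠ 0 := (ex_pos t).ne'

theorem ex_le_ex {s t : ℝ} : ex s ≤ ex t ↔ s ≤ t := by
  unfold ex
  rw [ENNReal.ofReal_le_ofReal_iff (Real.exp_pos t).le, Real.exp_le_exp]

theorem one_le_ex {t : ℝ} : 1 ≤ ex t ↔ 0 ≤ t := by
  rw [← ex_zero, ex_le_ex]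

theorem ex_toReal (t : ℝ) : (ex t).toReal = Real.exp t := by
  unfold ex
  rw [ENNReal.toReal_ofReal (Real.exp_pos t).le]

theorem ex_log {x : ENNReal} (h0 : x ≠ 0) (h1 : x ≠ ⊤) : ex (Real.log x.toReal) = x := by
  unfold ex
  rw [Real.exp_log (ENNReal.toReal_pos h0 h1), ENNReal.ofReal_toReal h1]

theorem prod_ex {ι : Type} (s : Finset ι) (f : ι → ℝ) : ∏ i ∈ s, ex (f i) = ex (∑ i ∈ s, f i) := by
  classical
  induction s using Finset.induction_on with
  | empty => simp [ex_zero]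
  | insert a s ha ih => rw [prod_insert ha, sum_insert ha, ex_add, ih]

theorem ex_rpow (t a : ℝ) : ex t ^ a = ex (t * a) := by
  unfold ex
  rw [ENNReal.ofReal_rpow_of_pos (Real.exp_pos t), ← Real.exp_mul]

theorem ex_pow (t : ℝ) (k : ℕ) : ex t ^ k = ex (k * t) := by
  induction k with
  | zero => simp [ex_zero]
  | succ k ih => rw [pow_succ, ih, ← ex_add]; congr 1; push_cast; ring

variable {d : ℕ}

/-- The data of a gas on cells. `E` are the contents of a cell, `π` the a priori measure, `e0` the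
empty content, `n` the number of particles, `c` removes the particles near the faces of the cell,
`h` is the weight of the interaction inside a cell and `g v` the square root of the weight of the
interaction between two cells at lattice distance `v`. `S` is the range of the interaction and `Sm`
the set of the `v` for which all particles of the two cells attract each other. -/
structure Md (d : ℕ) (E : Type) [MeasurableSpace E] where
  π : Measure E
  e0 : E
  n : E → ℕ
  c : E → E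
  h : E → ENNReal
  g : Zd d → E → E → ENNReal
  S : Finset (Zd d)
  Sm : Finset (Zd d)
  r : ℕ
  N : ℕ
  Ns : ℕ
  K : ℝ
  b : ℝ
  measurable_n : Measurable n
  measurable_c : Measurable c
  measurable_h : Measurable h
  measurable_g : ∀ v, Measurable fun p : E × E => g v p.1 p.2
  measurableSet_e0 : MeasurableSet ({e0} : Set E)
  measurableSet_core : MeasurableSet {x | c x = x}
  π_e0 : π {e0} = 1
  π_univ : π Set.univ ≤ ex b
  hK : 0 < K
  hN : 1 ≤ N
  hr : 1 ≤ r
  zero_S : (0 : Zd d) ∈ S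
  Nb_S : Nb 0 ⊆ S
  S_neg : ∀ v ∈ S, -v ∈ S
  S_r : ∀ v ∈ S, ∀ k, |v k| ≤ r
  Sm_S : Sm ⊆ S
  Sm_neg : ∀ v ∈ Sm, -v ∈ Sm
  zero_Sm : (0 : Zd d) ∉ Sm
  n_e0 : n e0 = 0
  n_le : ∀ x, n x ≤ N
  n_c : ∀ x, n (c x) ≤ n x
  n_le_c : ∀ x, n x ≤ n (c x) + Ns
  c_e0 : c e0 = e0
  c_c : ∀ x, c (c x) = c x
  c_push : ∀ F : E → ENNReal, Measurable F →
    ∫⁻ x, F (c x) ∂π ≤ ex b * ∫⁻ x in {x | c x = x}, F x ∂π
  h_e0 : h e0 = 1
  one_le_h : ∀ x, 1 ≤ h x
  h_up : ∀ x, h x ≤ ex (K / 2 * n x * n x)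
  h_c : ∀ x, h x ≤ h (c x) * ex (K * Ns * N)
  g_symm : ∀ v x y, g (-v) y x = g v x y
  g_e0 : ∀ v y, g v e0 y = 1
  g_up : ∀ v x y, g v x y ≤ ex (K / 2 * n x * n y)
  one_le_g : ∀ v x y, v ≠ 0 → (v ∉ Nb 0 ∨ c x = x ∨ c y = y) → 1 ≤ g v x y
  g_lo : ∀ v x y, v ∈ Sm → (v ∉ Nb 0 ∨ c x = x ∨ c y = y) → ex (K / 2 * n x * n y) ≤ g v x y
  g_c : ∀ v x y, g v x y ≤ g v (c x) y * ex (K / 2 * Ns * N)

/-- The sites of `Y` with a neighbour outside. -/
noncomputable def bd (Y : Finset (Zd d)) : Finset (Zd d) := by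
  classical exact Y.filter fun i => ¬ Nb i ⊆ Y

theorem mem_bd {Y : Finset (Zd d)} {i : Zd d} : i ∈ bd Y ↔ i ∈ Y ∧ ¬ Nb i ⊆ Y := by
  classical
  unfold bd
  rw [mem_filter]

/-- Number of the pairs `(i, i + v)`, `v ∈ S`, with `i ∈ Y` and `i + v ∉ Y`. -/
noncomputable def cut (S Y : Finset (Zd d)) : ℕ := ∑ v ∈ S, (Y.filter fun i => i + v ∉ Y).card

/-- The cube `{0, …, L-1}^d`. -/
noncomputable def bx (d L : ℕ) : Finset (Zd d) := Fintype.piFinset fun _ => Finset.Ico 0 (L : ℤ)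

/-- Sup-norm distance at most `r`. -/
def near (r : ℕ) (i j : Zd d) : Prop := ∀ k, |j k - i k| ≤ r

namespace Md

variable {E : Type} [MeasurableSpace E] (M : Md d E)

/-- Weight of a configuration in `A`, for an index group `Γ` with a map `φ` from the lattice. -/
noncomputable def wG {Γ : Type} [AddCommGroup Γ] [DecidableEq Γ] (φ : Zd d → Γ) (μ : ℝ)
    (A : Finset Γ) (ω : Γ → E) : ENNReal :=
  (∏ i ∈ A, ex (μ * M.n (ω i)) * M.h (ω i)) *
    ∏ v ∈ M.S.erase 0, ∏ i ∈ A.filter (fun i => i + φ v ∈ A), M.g v (ω i) (ω (i + φ v))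

/-- Weight of a configuration in `A`. -/
noncomputable def w (μ : ℝ) (A : Finset (Zd d)) (ω : Zd d → E) : ENNReal :=
  (∏ i ∈ A, ex (μ * M.n (ω i)) * M.h (ω i)) *
    ∏ v ∈ M.S.erase 0, ∏ i ∈ A.filter (fun i => i + v ∈ A), M.g v (ω i) (ω (i + v))

/-- Integral over the contents of the cells of `A` (the other cells are empty). -/
noncomputable def int (A : Finset (Zd d)) (f : (Zd d → E) → ENNReal) : ENNReal :=
  lmarginal (fun _ : Zd d => M.π) A f fun _ => M.e0

/-- Grand-canonical partition function. -/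
noncomputable def xi (μ : ℝ) (A : Finset (Zd d)) : ENNReal := M.int A (M.w μ A)

/-- `p` is the pressure. -/
def IsP (p : ℝ → ℝ) : Prop :=
  ∀ μ, Tendsto (fun L : ℕ => Real.log (M.xi μ (bx d L)).toReal / (L : ℝ) ^ d) atTop (𝓝 (p μ))

/-- Trimming: the particles near the faces are removed in the boundary cells of `Y`. -/
noncomputable def tr (Y : Finset (Zd d)) (ω : Zd d → E) : Zd d → E := by
  classical exact fun i => if i ∈ bd Y then M.c (ω i) else ω i

/-- Number of attracted pairs (particle in `Y`, cell outside). -/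
noncomputable def ou (Y : Finset (Zd d)) (ω : Zd d → E) : ℕ :=
  ∑ v ∈ M.Sm, ∑ i ∈ Y.filter (fun i => i + v ∉ Y), M.n (ω i)

/-- The gluing inequality at the chemical potential `μ`, with density `ρ` and pressure `p`. -/
def Glue (μ ρ p : ℝ) : Prop :=
  ∀ Y : Finset (Zd d), M.int Y (fun ω => M.w μ Y (M.tr Y ω) * ex (ρ * M.K * M.ou Y (M.tr Y ω))) ≤
    ex (M.b * (bd Y).card + Y.card * p + ρ / 2 * M.K * M.N * cut M.S Y)

/-- Dense contents. -/
def Dn (x : E) : Prop := 7 * M.N ≤ 8 * M.n (M.c x)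

/-- Almost empty contents. -/
def Vc (x : E) : Prop := 16 * M.n x ≤ M.N

end Md

end Pool.Agent.SquareWell
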