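import Pool.Agent.Lib.MP_09cbbd_sw.Defs

/-!
# The surface inequality (an inequality for finite sums)
-/

set_option autoImplicit false

namespace Pool.Agent.SquareWell

open Finset Pool.Agent.StableGas

variable {d : ℕ}

/-- Sum over the pairs `(i, i + v)`, `v ∈ S`, with `i ∈ P`, `i + v ∈ Q`. -/
noncomputable def ps (S P Q : Finset (Zd d)) (f : Zd d → Zd d → ℝ) : ℝ :=
  ∑ v ∈ S, ∑ i ∈ P.filter (fun i => i + v ∈ Q), f i (i + v)

namespace Alg

theorem swap (S P Q : Finset (Zd d)) (hS : ∀ v ∈ S, -v ∈ S) (f : Zd d → ℝ) :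
    ∑ v ∈ S, ∑ i ∈ P.filter (fun i => i + v ∈ Q), f i =
      ∑ v ∈ S, ∑ i ∈ Q.filter (fun i => i + v ∈ P), f (i + v) := by
  refine Finset.sum_bij' (fun v _ => -v) (fun v _ => -v) (fun v hv => hS v hv)
    (fun v hv => hS v hv) (fun v _ => neg_neg v) (fun v _ => neg_neg v) ?_
  intro v _
  refine Finset.sum_bij' (fun i _ => i + v) (fun i _ => i + -v) ?_ ?_ ?_ ?_ ?_
  · intro i hi
    rw [mem_filter] at hi ⊢
    exact ⟨hi.2, by rw [add_neg_cancel_right]; exact hi.1⟩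
  · intro i hi
    rw [mem_filter] at hi ⊢
    exact ⟨hi.2, by rw [neg_add_cancel_right]; exact hi.1⟩
  · intro i _
    exact add_neg_cancel_right i v
  · intro i _
    exact neg_add_cancel_right i v
  · intro i _
    rw [add_neg_cancel_right]

theorem numYO (a b z ρ ε : ℝ) (hρ : ρ = 63 / 64) (hε0 : 0 ≤ ε) (hε : ε ≤ 1 / 256) (hb0 : 0 ≤ b)
    (hb : b ≤ 15 / 16) (hz : 7 / 8 ≤ z) (ha : a ≤ z + ε) :
    -(ρ * z) + (a * b - (1 / 2 - 1 / 256) * b) ≤ -(ρ / 2) - (1 + ρ) / 512 := by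
  subst hρ
  have h1 : a * b ≤ (z + ε) * b := mul_le_mul_of_nonneg_right ha hb0
  have h2 : ε * b ≤ 1 / 256 * b := mul_le_mul_of_nonneg_right hε hb0
  have h3 : 0 ≤ (z - 7 / 8) * (63 / 64 - b) := mul_nonneg (by linarith) (by linarith)
  nlinarith

theorem numYW (a b z ρ : ℝ) (hρ : ρ = 63 / 64) (ha0 : 0 ≤ a) (ha : a ≤ 1)
    (hb : b ≤ 1 / 16) (hz : 7 / 8 ≤ z) :
    -(ρ * z) + a * b ≤ -(ρ / 2) - (1 + ρ) / 512 := by
  subst hρ
  have h1 : a * b ≤ a * (1 / 16) := mul_le_mul_of_nonneg_left hb ha0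
  linarith

end Alg

/-- `x` is the occupation (in units of the maximal one), `z` the occupation after trimming. -/
theorem surface (S Sm Y O W : Finset (Zd d)) (h0 : (0 : Zd d) ∈ S) (hSm : Sm ⊆ S)
    (hS : ∀ v ∈ S, -v ∈ S) (hcut : 511 * cut S Y ≤ 512 * cut Sm Y)
    (hYO : Disjoint Y O) (hYW : Disjoint Y W) (hOW : Disjoint O W)
    (x z : Zd d → ℝ) (ρ ε m : ℝ) (hρ : ρ = 63 / 64) (hε0 : 0 ≤ ε) (hε : ε ≤ 1 / 256)
    (hm : m ≤ -(1 / 2) * S.card * (1 - 1 / 256))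
    (hx0 : ∀ i ∈ Y ∪ O ∪ W, 0 ≤ x i) (hx1 : ∀ i ∈ Y ∪ O ∪ W, x i ≤ 1)
    (hz0 : ∀ i ∈ Y, 0 ≤ z i) (hz1 : ∀ i ∈ Y, z i ≤ x i) (hz2 : ∀ i ∈ Y, x i ≤ z i + ε)
    (c1 : ∀ i ∈ Y, ∀ v ∈ S, i + v ∉ Y → 7 / 8 ≤ z i)
    (c2 : ∀ i ∈ O, x i ≤ 15 / 16)
    (c3 : ∀ i ∈ W, ∀ v ∈ S, (i + v ∈ Y ∨ i + v ∈ O) → x i ≤ 1 / 16) :
    -(ρ * ∑ v ∈ Sm, ∑ i ∈ Y.filter (fun i => i + v ∉ Y), z i) +
        (1 / 2 * ps S O O (fun i j => x i * x j) + ps S Y O (fun i j => x i * x j) +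
          ps S Y W (fun i j => x i * x j) + ps S O W (fun i j => x i * x j)) +
        m * ∑ i ∈ O, x i ≤
      -(ρ / 2 * cut S Y) - 1 / 512 * (cut S Y + S.card * ∑ i ∈ O, x i) := by
  have hY0 : ∀ i ∈ Y, 0 ≤ x i := fun i hi => hx0 i (by simp [hi])
  have hO0 : ∀ i ∈ O, 0 ≤ x i := fun i hi => hx0 i (by simp [hi])
  have hW0 : ∀ i ∈ W, 0 ≤ x i := fun i hi => hx0 i (by simp [hi])
  have hY1 : ∀ i ∈ Y, x i ≤ 1 := fun i hi => hx1 i (by simp [hi])
  have hdYO : ∀ j, j ∈ O → j ∉ Y := fun j hj hj' => (Finset.disjoint_left.1 hYO hj') hj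
  have hdYW : ∀ j, j ∈ W → j ∉ Y := fun j hj hj' => (Finset.disjoint_left.1 hYW hj') hj
  have hdOW : ∀ j, j ∈ W → j ∉ O := fun j hj hj' => (Finset.disjoint_left.1 hOW hj') hj
  have hρ0 : 0 ≤ ρ := by rw [hρ]; norm_num
  -- the cut as a sum
  have hcS : (cut S Y : ℝ) = ∑ v ∈ S, ∑ i ∈ Y.filter (fun i => i + v ∉ Y), (1 : ℝ) := by
    unfold cut
    push_cast
    simp
  -- step 1: Sm to S
  have hX0 : 0 ≤ ∑ i ∈ O, x i := Finset.sum_nonneg hO0
  have e1 : -(ρ * ∑ v ∈ Sm, ∑ i ∈ Y.filter (fun i => i + v ∉ Y), z i) ≤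
      -(ρ * ∑ v ∈ S, ∑ i ∈ Y.filter (fun i => i + v ∉ Y), z i) + ρ * (cut S Y / 512) := by
    have k1 : ∑ v ∈ S, ∑ i ∈ Y.filter (fun i => i + v ∉ Y), z i =
        ∑ v ∈ S \ Sm, ∑ i ∈ Y.filter (fun i => i + v ∉ Y), z i +
          ∑ v ∈ Sm, ∑ i ∈ Y.filter (fun i => i + v ∉ Y), z i :=
      (Finset.sum_sdiff hSm).symm
    have k2 : (cut S Y : ℝ) = ∑ v ∈ S \ Sm, ((Y.filter fun i => i + v ∉ Y).card : ℝ) +
        cut Sm Y := by
      unfold cut
      push_cast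
      rw [Finset.sum_sdiff hSm]
    have k3 : ∑ v ∈ S \ Sm, ∑ i ∈ Y.filter (fun i => i + v ∉ Y), z i ≤
        ∑ v ∈ S \ Sm, ((Y.filter fun i => i + v ∉ Y).card : ℝ) := by
      refine Finset.sum_le_sum fun v _ => ?_
      calc ∑ i ∈ Y.filter (fun i => i + v ∉ Y), z i
          ≤ ∑ i ∈ Y.filter (fun i => i + v ∉ Y), (1 : ℝ) :=
            Finset.sum_le_sum fun i hi =>
              (hz1 i (mem_filter.1 hi).1).trans (hY1 i (mem_filter.1 hi).1)
        _ = _ := by simp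
    have k4 : (511 : ℝ) * cut S Y ≤ 512 * cut Sm Y := by exact_mod_cast hcut
    have k5 : ∑ v ∈ S, ∑ i ∈ Y.filter (fun i => i + v ∉ Y), z i -
        ∑ v ∈ Sm, ∑ i ∈ Y.filter (fun i => i + v ∉ Y), z i ≤ cut S Y / 512 := by linarith
    have k6 := mul_le_mul_of_nonneg_left k5 hρ0
    linarith
  -- step 2: m
  have e2 : m * ∑ i ∈ O, x i ≤ -(1 / 2 - 1 / 512) * (S.card * ∑ i ∈ O, x i) := by
    have := mul_le_mul_of_nonneg_right hm hX0
    linarith
  -- step 3: distribution of the terms of O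
  have e3 : (S.card : ℝ) * ∑ i ∈ O, x i =
      ∑ v ∈ S, ∑ i ∈ Y.filter (fun i => i + v ∈ O), x (i + v) +
        ∑ v ∈ S, ∑ i ∈ O.filter (fun i => i + v ∉ Y), x i := by
    rw [← Alg.swap S O Y hS x, ← Finset.sum_add_distrib]
    have : ∀ v ∈ S, ∑ i ∈ O.filter (fun i => i + v ∈ Y), x i +
        ∑ i ∈ O.filter (fun i => i + v ∉ Y), x i = ∑ i ∈ O, x i := fun v _ =>
      Finset.sum_filter_add_sum_filter_not O _ _
    rw [Finset.sum_congr rfl this]
    simp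
  -- step 4: the pairs of Y
  have e4 : -(ρ * ∑ v ∈ S, ∑ i ∈ Y.filter (fun i => i + v ∉ Y), z i) +
      ps S Y O (fun i j => x i * x j) + ps S Y W (fun i j => x i * x j) -
      (1 / 2 - 1 / 256) * ∑ v ∈ S, ∑ i ∈ Y.filter (fun i => i + v ∈ O), x (i + v) ≤
      (-(ρ / 2) - (1 + ρ) / 512) * cut S Y := by
    rw [hcS]
    unfold ps
    rw [Finset.mul_sum, Finset.mul_sum, Finset.mul_sum, ← Finset.sum_neg_distrib,
      ← Finset.sum_add_distrib, ← Finset.sum_add_distrib, ← Finset.sum_sub_distrib]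
    refine Finset.sum_le_sum fun v hv => ?_
    rw [Finset.sum_filter, Finset.sum_filter, Finset.sum_filter, Finset.sum_filter,
      Finset.sum_filter, Finset.mul_sum, Finset.mul_sum, Finset.mul_sum,
      ← Finset.sum_neg_distrib, ← Finset.sum_add_distrib, ← Finset.sum_add_distrib,
      ← Finset.sum_sub_distrib]
    refine Finset.sum_le_sum fun i hi => ?_
    by_cases h1 : i + v ∈ Y
    · have h2 : i + v ∉ O := fun h => hdYO _ h h1
      have h3 : i + v ∉ W := fun h => hdYW _ h h1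
      simp [h1, h2, h3]
    · have hz78 := c1 i hi v hv h1
      by_cases h2 : i + v ∈ O
      · have h3 : i + v ∉ W := fun h => hdOW _ h h2
        simp only [h1, h2, h3, not_false_eq_true, if_true, if_false]
        have := Alg.numYO (x i) (x (i + v)) (z i) ρ ε hρ hε0 hε (hO0 _ h2) (c2 _ h2) hz78
          (hz2 i hi)
        linarith
      · by_cases h3 : i + v ∈ W
        · simp only [h1, h2, h3, not_false_eq_true, if_true, if_false]
          have hc : x (i + v) ≤ 1 / 16 := c3 (i + v) h3 (-v) (hS v hv)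
            (Or.inl (by rw [add_neg_cancel_right]; exact hi))
          have := Alg.numYW (x i) (x (i + v)) (z i) ρ hρ (hY0 i hi) (hY1 i hi) hc hz78
          linarith
        · simp only [h1, h2, h3, not_false_eq_true, if_true, if_false]
          rw [hρ]
          linarith
  -- step 5: the pairs of O
  have e5 : 1 / 2 * ps S O O (fun i j => x i * x j) + ps S O W (fun i j => x i * x j) -
      (1 / 2 - 1 / 256) * ∑ v ∈ S, ∑ i ∈ O.filter (fun i => i + v ∉ Y), x i ≤ 0 := by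
    unfold ps
    rw [Finset.mul_sum, Finset.mul_sum, ← Finset.sum_add_distrib, ← Finset.sum_sub_distrib]
    refine Finset.sum_nonpos fun v hv => ?_
    rw [Finset.sum_filter, Finset.sum_filter, Finset.sum_filter, Finset.mul_sum, Finset.mul_sum,
      ← Finset.sum_add_distrib, ← Finset.sum_sub_distrib]
    refine Finset.sum_nonpos fun i hi => ?_
    have hxi := hO0 i hi
    by_cases h1 : i + v ∈ Y
    · have h2 : i + v ∉ O := fun h => hdYO _ h h1
      have h3 : i + v ∉ W := fun h => hdYW _ h h1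
      simp [h1, h2, h3]
    · by_cases h2 : i + v ∈ O
      · have h3 : i + v ∉ W := fun h => hdOW _ h h2
        simp only [h1, h2, h3, not_false_eq_true, if_true, if_false]
        have := mul_le_mul_of_nonneg_left (c2 _ h2) hxi
        linarith
      · by_cases h3 : i + v ∈ W
        · simp only [h1, h2, h3, not_false_eq_true, if_true, if_false]
          have hc : x (i + v) ≤ 1 / 16 := c3 (i + v) h3 (-v) (hS v hv)
            (Or.inr (by rw [add_neg_cancel_right]; exact hi))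
          have := mul_le_mul_of_nonneg_left hc hxi
          linarith
        · simp only [h1, h2, h3, not_false_eq_true, if_true, if_false]
          linarith
  -- conclusion
  generalize hA : ∑ v ∈ S, ∑ i ∈ Y.filter (fun i => i + v ∈ O), x (i + v) = A at *
  generalize hB : ∑ v ∈ S, ∑ i ∈ O.filter (fun i => i + v ∉ Y), x i = B at *
  generalize hC : ∑ v ∈ S, ∑ i ∈ Y.filter (fun i => i + v ∉ Y), z i = C at *
  generalize hD : ∑ v ∈ Sm, ∑ i ∈ Y.filter (fun i => i + v ∉ Y), z i = D at *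
  rw [e3] at e2
  rw [e3]
  have hcnn : (0 : ℝ) ≤ cut S Y := Nat.cast_nonneg _
  linarith

end Pool.Agent.SquareWell
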