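import Pool.Agent.Lib.MP_09cbbd_sw.TorP

/-!
# The gluing inequality
-/

set_option autoImplicit false

namespace Pool.Agent.SquareWell

open MeasureTheory Finset Filter Topology Pool.Agent.StableGas TorP

variable {d : ℕ} {E : Type} [MeasurableSpace E] (M : Md d E)

namespace Gl

theorem lm_dep {Γ : Type} [DecidableEq Γ] (s : Finset Γ) {f : (Γ → E) → ENNReal}
    (hf : ∀ x y : Γ → E, (∀ i ∈ s, x i = y i) → f x = f y) (x y : Γ → E) :
    lmarginal (fun _ : Γ => M.π) s f x = lmarginal (fun _ : Γ => M.π) s f y := by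
  unfold lmarginal
  refine lintegral_congr fun z => hf _ _ fun i hi => ?_
  rw [Function.updateFinset_def, Function.updateFinset_def]
  simp [hi]

theorem measurableSet_core_at {Γ : Type} (a : Γ) : MeasurableSet {ω : Γ → E | M.c (ω a) = ω a} := by
  have h : Measurable fun ω : Γ → E => ω a := measurable_pi_apply a
  exact h M.measurableSet_core

theorem measurableSet_core_all {Γ : Type} (D : Finset Γ) :
    MeasurableSet {ω : Γ → E | ∀ i ∈ D, M.c (ω i) = ω i} := by
  have : {ω : Γ → E | ∀ i ∈ D, M.c (ω i) = ω i} = ⋂ i ∈ D, {ω | M.c (ω i) = ω i} := by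
    ext ω; simp
  rw [this]
  exact Finset.measurableSet_biInter _ fun i _ => measurableSet_core_at M i

theorem measurable_trim (D : Finset (Zd d)) :
    Measurable fun (ω : Zd d → E) (i : Zd d) => if i ∈ D then M.c (ω i) else ω i := by
  refine measurable_pi_iff.2 fun i => ?_
  by_cases hi : i ∈ D
  · simp only [hi, if_true]
    exact M.measurable_c.comp (measurable_pi_apply i)
  · simp only [hi, if_false]
    exact measurable_pi_apply i

theorem int_push (Y D : Finset (Zd d)) (hD : D ⊆ Y) (F : (Zd d → E) → ENNReal)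
    (hF : Measurable F) (x : Zd d → E) :
    lmarginal (fun _ : Zd d => M.π) Y (fun ω => F fun i => if i ∈ D then M.c (ω i) else ω i) x ≤
      ex (M.b * D.card) * lmarginal (fun _ : Zd d => M.π) Y
        ({ω | ∀ i ∈ D, M.c (ω i) = ω i}.indicator F) x := by
  have := fin_π M
  induction D using Finset.induction_on generalizing F with
  | empty => simp [ex_zero]
  | insert a D ha ih =>
    have haY : a ∈ Y := hD (mem_insert_self a D)
    set G : (Zd d → E) → ENNReal := ({ω | M.c (ω a) = ω a} : Set (Zd d → E)).indicator F with hG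
    have hGm : Measurable G := hF.indicator (measurableSet_core_at M a)
    have hGt : Measurable fun ω : Zd d → E => G fun i => if i ∈ D then M.c (ω i) else ω i :=
      hGm.comp (measurable_trim M D)
    have h1 : lmarginal (fun _ : Zd d => M.π) Y
        (fun ω => F fun i => if i ∈ insert a D then M.c (ω i) else ω i) x ≤
        ex M.b * lmarginal (fun _ : Zd d => M.π) Y
          (fun ω => G fun i => if i ∈ D then M.c (ω i) else ω i) x := by
      have hFt : Measurable fun ω : Zd d → E =>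
          F fun i => if i ∈ insert a D then M.c (ω i) else ω i :=
        hF.comp (measurable_trim M (insert a D))
      rw [← lm_const_mul M Y hGt, lmarginal_erase' _ hFt haY,
        lmarginal_erase' _ (hGt.const_mul _) haY]
      refine lm_mono M _ (fun ω => ?_) x
      set z : Zd d → E := fun i => if i ∈ D then M.c (ω i) else ω i with hz
      have e1 : ∀ y : E, (fun i => if i ∈ insert a D then M.c (Function.update ω a y i)
          else Function.update ω a y i) = Function.update z a (M.c y) := fun y => by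
        funext i
        by_cases hi : i = a
        · subst hi; simp
        · by_cases hi2 : i ∈ D <;> simp [hz, hi, hi2]
      have e2 : ∀ y : E, (fun i => if i ∈ D then M.c (Function.update ω a y i)
          else Function.update ω a y i) = Function.update z a y := fun y => by
        funext i
        by_cases hi : i = a
        · subst hi; simp [ha]
        · by_cases hi2 : i ∈ D <;> simp [hz, hi, hi2]
      have hH : Measurable fun y : E => F (Function.update z a y) :=
        hF.comp (measurable_update z)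
      have h2 := M.c_push (fun y => F (Function.update z a y)) hH
      show ∫⁻ y, F (fun i => if i ∈ insert a D then M.c (Function.update ω a y i)
          else Function.update ω a y i) ∂M.π ≤
        ∫⁻ y, ex M.b * G (fun i => if i ∈ D then M.c (Function.update ω a y i)
          else Function.update ω a y i) ∂M.π
      simp only [e1, e2]
      refine h2.trans ?_
      rw [lintegral_const_mul' _ _ (ex_ne_top _)]
      refine mul_le_mul' le_rfl (le_of_eq ?_)
      rw [← lintegral_indicator M.measurableSet_core]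
      refine lintegral_congr fun y => ?_
      by_cases hy : M.c y = y
      · rw [Set.indicator_of_mem (show y ∈ {x | M.c x = x} from hy), hG,
          Set.indicator_of_mem (by simpa using hy)]
      · rw [Set.indicator_of_notMem (show y ∉ {x | M.c x = x} from hy), hG,
          Set.indicator_of_notMem (by simpa using hy)]
    have h2 := ih (fun i hi => hD (mem_insert_of_mem hi)) G hGm
    have h3 : ({ω : Zd d → E | ∀ i ∈ D, M.c (ω i) = ω i}).indicator G =
        ({ω | ∀ i ∈ insert a D, M.c (ω i) = ω i}).indicator F := by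
      rw [hG, Set.indicator_indicator]
      congr 1
      ext ω
      simp [and_comm]
    rw [h3] at h2
    calc _ ≤ _ := h1
      _ ≤ ex M.b * (ex (M.b * D.card) * _) := mul_le_mul' le_rfl h2
      _ = _ := by
        rw [← mul_assoc, ← ex_add, card_insert_of_notMem ha]
        congr 2
        push_cast
        ring

end Gl

open Gl

/-- Removing the particles near the faces of the boundary cells. -/
theorem int_tr (Y : Finset (Zd d)) (F : (Zd d → E) → ENNReal) (hF : Measurable F) :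
    M.int Y (fun ω => F (M.tr Y ω)) ≤ ex (M.b * (bd Y).card) *
      M.int Y ({ω | ∀ i ∈ bd Y, M.c (ω i) = ω i}.indicator F) := by
  have h := int_push M Y (bd Y) (fun i hi => (mem_bd.1 hi).1) F hF fun _ => M.e0
  refine le_trans (le_of_eq ?_) h
  unfold Md.int Md.tr
  congr 1

namespace Gl

/-- The coordinates in `{-L, …, L}`. -/
def vm {L : ℕ} (t : Tor d L) : Zd d := fun k => (t k).valMinAbs

theorem vm_inj {L : ℕ} : Function.Injective (vm (d := d) (L := L)) := by
  intro s t h
  funext k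
  have h1 := congrFun h k
  simp only [vm] at h1
  exact ZMod.injective_valMinAbs h1

theorem vm_cst {L : ℕ} {i : Zd d} (h : ∀ k, |i k| ≤ L) : vm (cst L i) = i := by
  funext k
  simp only [vm, cst]
  rw [ZMod.valMinAbs_spec]
  have := abs_le.1 (h k)
  refine ⟨rfl, ?_⟩
  rw [Set.mem_Ioc]
  push_cast
  constructor <;> omega

/-- The field induced by the particles of `Y` outside `Y`. -/
noncomputable def fd (L : ℕ) (Y : Finset (Zd d)) (ω : Tor d L → E) (j : Tor d L) : ℝ :=
  ∑ v ∈ M.Sm, ∑ i ∈ Y.filter (fun i => i + v ∉ Y),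
    if cst L (i + v) = j then M.K * M.n (ω (cst L i)) else 0

variable {M} in
theorem cst_ne {L : ℕ} {Y : Finset (Zd d)} (hY : ∀ i ∈ Y, ∀ k, |i k| + M.r ≤ L) {i v : Zd d}
    (hi : i ∈ Y) (hv : v ∈ M.S) (h : i + v ∉ Y) : cst L (i + v) ∉ Y.image (cst L) := by
  intro hm
  obtain ⟨j, hj, hj2⟩ := mem_image.1 hm
  have : j = i + v := cst_inj hj2 fun k => by
    have h1 := hY i hi k
    have h2 := hY j hj k
    have h3 := M.S_r v hv k
    simp only [Pi.add_apply]
    rw [abs_le] at h3 ⊢
    have h4 := abs_le.1 (show |i k| ≤ L - M.r by omega)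
    have h5 := abs_le.1 (show |j k| ≤ L - M.r by omega)
    constructor <;> omega
  exact h (this ▸ hj)

theorem sum_fd {L : ℕ} {Y : Finset (Zd d)} (hY : ∀ i ∈ Y, ∀ k, |i k| + M.r ≤ L)
    (ω : Tor d L → E) (m : Tor d L → ℝ) :
    ∑ j ∈ univ \ Y.image (cst L), fd M L Y ω j * m j =
      ∑ v ∈ M.Sm, ∑ i ∈ Y.filter (fun i => i + v ∉ Y),
        M.K * M.n (ω (cst L i)) * m (cst L (i + v)) := by
  unfold fd
  simp only [sum_mul, ite_mul, zero_mul]
  rw [sum_comm]
  refine sum_congr rfl fun v hv => ?_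
  rw [sum_comm]
  refine sum_congr rfl fun i hi => ?_
  rw [mem_filter] at hi
  rw [sum_ite_eq]
  have h := cst_ne hY hi.1 (M.Sm_S hv) hi.2
  rw [if_pos (Finset.mem_sdiff.2 ⟨mem_univ _, h⟩)]

theorem glue_point {L : ℕ} {Y : Finset (Zd d)} (hY : ∀ i ∈ Y, ∀ k, |i k| + M.r ≤ L) (μ : ℝ)
    (ω : Tor d L → E) (hω : ∀ i ∈ bd Y, M.c (ω (cst L i)) = ω (cst L i)) :
    M.w μ Y (fun i => ω (cst L i)) * (M.wG (cst L) μ (univ \ Y.image (cst L)) ω *
      ∏ j ∈ univ \ Y.image (cst L), ex (fd M L Y ω j * M.n (ω j))) ≤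
      M.wG (cst L) μ univ ω := by
  classical
  set A := Y.image (cst L) with hA
  have hinj : ∀ i ∈ Y, ∀ j ∈ Y, cst L i = cst L j → i = j := fun i hi j hj h =>
    cst_inj h fun k => by
      have h1 := hY i hi k
      have h2 := hY j hj k
      have h4 := abs_le.1 (show |i k| ≤ L by omega)
      have h5 := abs_le.1 (show |j k| ≤ L by omega)
      rw [abs_le]
      constructor <;> omega
  set P1 : Zd d → ENNReal := fun v => ∏ i ∈ Y.filter (fun i => i + v ∈ Y),
    M.g v (ω (cst L i)) (ω (cst L (i + v))) with hP1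
  set P2 : Zd d → ENNReal := fun v => ∏ t ∈ (univ \ A).filter (fun t => t + cst L v ∈ univ \ A),
    M.g v (ω t) (ω (t + cst L v)) with hP2
  set P3 : Zd d → ENNReal := fun v => ∏ i ∈ Y.filter (fun i => i + v ∉ Y),
    M.g v (ω (cst L i)) (ω (cst L (i + v))) with hP3
  have key : ∀ v ∈ M.S.erase 0, ∏ t ∈ univ.filter (fun t : Tor d L => t + cst L v ∈ univ),
      M.g v (ω t) (ω (t + cst L v)) = P1 v * P2 v * (P3 v * P3 (-v)) := by
    intro v hv
    have hvS : v ∈ M.S := (mem_erase.1 hv).2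
    rw [filter_true_of_mem (fun _ _ => mem_univ _), ← prod_sdiff (subset_univ A)]
    have e1 : ∏ t ∈ A, M.g v (ω t) (ω (t + cst L v)) = P1 v * P3 v := by
      rw [hA, prod_image hinj, ← prod_filter_mul_prod_filter_not Y (fun i => i + v ∈ Y)]
      simp only [hP1, hP3, cst_add]
    have e2 : ∏ t ∈ univ \ A, M.g v (ω t) (ω (t + cst L v)) = P2 v * P3 (-v) := by
      rw [← prod_filter_mul_prod_filter_not (univ \ A) (fun t => t + cst L v ∈ univ \ A)]
      congr 1
      have e3 : (univ \ A).filter (fun t => ¬ (t + cst L v ∈ univ \ A)) =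
          (Y.filter fun i => i + -v ∉ Y).image fun i => cst L (i + -v) := by
        ext t
        simp only [mem_filter, Finset.mem_sdiff, mem_univ, true_and, not_not, mem_image]
        constructor
        · rintro ⟨h1, h2⟩
          obtain ⟨j, hj, hj2⟩ := mem_image.1 h2
          have h3 : cst L (j + -v) = t := by
            have h4 : cst L (j + -v) + cst L v = t + cst L v := by
              rw [← cst_add, ← hj2]
              congr 1
              abel
            exact add_right_cancel h4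
          exact ⟨j, ⟨hj, fun h => h1 (h3 ▸ mem_image_of_mem _ h)⟩, h3⟩
        · rintro ⟨j, ⟨hj, hj2⟩, rfl⟩
          refine ⟨cst_ne hY hj (M.S_neg v hvS) hj2, ?_⟩
          rw [← cst_add]
          have : j + -v + v = j := by abel
          rw [this]
          exact mem_image_of_mem _ hj
      rw [e3, prod_image]
      · refine prod_congr rfl fun i _ => ?_
        rw [← cst_add]
        have : i + -v + v = i := by abel
        rw [this, M.g_symm v]
      · intro i hi j hj h
        have h1 : cst L (i + -v) + cst L v = cst L (j + -v) + cst L v := by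
          rw [show cst L (i + -v) = cst L (j + -v) from h]
        rw [← cst_add, ← cst_add] at h1
        have h2 : i + -v + v = i := by abel
        have h3 : j + -v + v = j := by abel
        rw [h2, h3] at h1
        exact hinj i (mem_filter.1 hi).1 j (mem_filter.1 hj).1 h1
    rw [e1, e2]
    ring
  have hsym : ∏ v ∈ M.S.erase 0, P3 (-v) = ∏ v ∈ M.S.erase 0, P3 v := by
    refine prod_bij (fun v _ => -v) ?_ ?_ ?_ ?_
    · intro v hv
      rw [mem_erase] at hv ⊢
      exact ⟨neg_ne_zero.2 hv.1, M.S_neg v hv.2⟩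
    · intro v _ w _ h
      exact neg_injective h
    · intro v hv
      rw [mem_erase] at hv
      exact ⟨-v, mem_erase.2 ⟨neg_ne_zero.2 hv.1, M.S_neg v hv.2⟩, neg_neg v⟩
    · intro v _
      rfl
  have hgood : ∀ v ∈ M.S.erase 0, ∀ i ∈ Y.filter (fun i => i + v ∉ Y),
      v ∉ Nb 0 ∨ M.c (ω (cst L i)) = ω (cst L i) := by
    intro v _ i hi
    by_cases hN : v ∈ Nb 0
    · refine Or.inr (hω i (mem_bd.2 ⟨(mem_filter.1 hi).1, fun hs => (mem_filter.1 hi).2 (hs ?_)⟩))
      have := Nb_add (x := (0 : Zd d)) (y := v) (a := i)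
      rw [zero_add, add_comm v i] at this
      exact this.2 hN
    · exact Or.inl hN
  have h3 : ∀ v ∈ M.S.erase 0, 1 ≤ P3 v := fun v hv => TorP.one_le_prod fun i hi =>
    M.one_le_g v _ _ (mem_erase.1 hv).1 (by
      rcases hgood v hv i hi with h | h
      · exact Or.inl h
      · exact Or.inr (Or.inl h))
  have hSm : M.Sm ⊆ M.S.erase 0 := fun v hv =>
    mem_erase.2 ⟨fun h => M.zero_Sm (h ▸ hv), M.Sm_S hv⟩
  have h4 : ∏ j ∈ univ \ A, ex (fd M L Y ω j * M.n (ω j)) ≤
      ∏ v ∈ M.S.erase 0, P3 v * P3 v := by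
    rw [prod_ex, sum_fd M hY]
    have e4 : ex (∑ v ∈ M.Sm, ∑ i ∈ Y.filter (fun i => i + v ∉ Y),
        M.K * M.n (ω (cst L i)) * M.n (ω (cst L (i + v)))) =
        ∏ v ∈ M.Sm, ∏ i ∈ Y.filter (fun i => i + v ∉ Y),
          ex (M.K * M.n (ω (cst L i)) * M.n (ω (cst L (i + v)))) := by
      simp only [prod_ex]
    rw [e4]
    calc _ ≤ ∏ v ∈ M.Sm, P3 v * P3 v := by
          refine prod_mono fun v hv => ?_
          rw [hP3]
          simp only
          rw [← prod_mul_distrib]
          refine prod_mono fun i hi => ?_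
          have h5 := M.g_lo v (ω (cst L i)) (ω (cst L (i + v))) hv (by
            rcases hgood v (hSm hv) i hi with h | h
            · exact Or.inl h
            · exact Or.inr (Or.inl h))
          refine le_trans (le_of_eq ?_) (mul_le_mul' h5 h5)
          rw [← ex_add]
          congr 1
          ring
      _ ≤ _ := prod_le_of_subset hSm fun v hv _ => by
          calc (1 : ENNReal) = 1 * 1 := (one_mul 1).symm
            _ ≤ _ := mul_le_mul' (h3 v hv) (h3 v hv)
  have e5 : M.wG (cst L) μ univ ω = (∏ t ∈ univ \ A, ex (μ * M.n (ω t)) * M.h (ω t)) *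
      (∏ i ∈ Y, ex (μ * M.n (ω (cst L i))) * M.h (ω (cst L i))) *
      ((∏ v ∈ M.S.erase 0, P1 v) * (∏ v ∈ M.S.erase 0, P2 v) *
        ∏ v ∈ M.S.erase 0, P3 v * P3 v) := by
    unfold Md.wG
    have e8 : ∏ v ∈ M.S.erase 0, P1 v * P2 v * (P3 v * P3 (-v)) =
        (∏ v ∈ M.S.erase 0, P1 v) * (∏ v ∈ M.S.erase 0, P2 v) *
        ∏ v ∈ M.S.erase 0, P3 v * P3 v := by
      rw [prod_mul_distrib, prod_mul_distrib, prod_mul_distrib (f := P3), hsym,
        prod_mul_distrib (f := P3)]
    have e9 : ∏ t : Tor d L, ex (μ * M.n (ω t)) * M.h (ω t) =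
        (∏ t ∈ univ \ A, ex (μ * M.n (ω t)) * M.h (ω t)) *
        ∏ i ∈ Y, ex (μ * M.n (ω (cst L i))) * M.h (ω (cst L i)) := by
      rw [← prod_sdiff (subset_univ A)]
      congr 1
      rw [hA, prod_image hinj]
    rw [prod_congr rfl key, e8, e9]
  rw [e5]
  have e6 : M.w μ Y (fun i => ω (cst L i)) =
      (∏ i ∈ Y, ex (μ * M.n (ω (cst L i))) * M.h (ω (cst L i))) * ∏ v ∈ M.S.erase 0, P1 v := rfl
  have e7 : M.wG (cst L) μ (univ \ A) ω =
      (∏ t ∈ univ \ A, ex (μ * M.n (ω t)) * M.h (ω t)) * ∏ v ∈ M.S.erase 0, P2 v := rfl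
  rw [e6, e7]
  calc _ ≤ _ := mul_le_mul' le_rfl (mul_le_mul' le_rfl h4)
    _ = _ := by ring

theorem cutT_eq {L : ℕ} {Y : Finset (Zd d)} (hY : ∀ i ∈ Y, ∀ k, |i k| + M.r ≤ L) :
    cutT L M.S (Y.image (cst L)) = cut M.S Y := by
  classical
  have hinj : ∀ i ∈ Y, ∀ j ∈ Y, cst L i = cst L j → i = j := fun i hi j hj h =>
    cst_inj h fun k => by
      have h1 := hY i hi k
      have h2 := hY j hj k
      have h4 := abs_le.1 (show |i k| ≤ L by omega)
      have h5 := abs_le.1 (show |j k| ≤ L by omega)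
      rw [abs_le]
      constructor <;> omega
  unfold cutT cut
  refine sum_congr rfl fun v hv => ?_
  have e1 : (Y.image (cst L)).filter (fun i => i + cst L v ∉ Y.image (cst L)) =
      (Y.filter fun i => i + v ∉ Y).image (cst L) := by
    ext t
    simp only [mem_filter, mem_image]
    constructor
    · rintro ⟨⟨i, hi, rfl⟩, h⟩
      exact ⟨i, ⟨hi, fun h2 => h ⟨i + v, h2, cst_add L i v⟩⟩, rfl⟩
    · rintro ⟨i, ⟨hi, h⟩, rfl⟩
      refine ⟨⟨i, hi, rfl⟩, fun h2 => ?_⟩
      rw [← cst_add] at h2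
      exact cst_ne hY hi hv h (mem_image.2 h2)
  rw [e1]
  exact card_image_of_injOn fun i hi j hj h =>
    hinj i (mem_filter.1 hi).1 j (mem_filter.1 hj).1 h

theorem le_ZC (L : ℕ) (A : Finset (Tor d L)) (hA : A.card < (2 * L + 1) ^ d) (μ q : ℝ)
    (hq : ∀ t : ℝ, Real.log (M.ZT L μ).toReal + q * (2 * L + 1 : ℝ) ^ d * t ≤
      Real.log (M.ZT L (μ + t)).toReal) (f : Tor d L → ℝ) :
    ex ((((2 * L + 1 : ℝ) ^ d - A.card) / (2 * L + 1 : ℝ) ^ d) * Real.log (M.ZT L μ).toReal +
      q * (∑ j ∈ univ \ A, f j - M.K / 2 * M.N * cutT L M.S A)) ≤ M.ZC L μ A f := by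
  have h := torus_lower M L μ A hA f
  set V : ℝ := (2 * L + 1 : ℝ) ^ d with hV
  set F : ℝ := ∑ j ∈ univ \ A, f j - M.K / 2 * M.N * cutT L M.S A with hF
  have hV0 : 0 < V := by rw [hV]; positivity
  have hVa : 0 < V - A.card := by
    have : (A.card : ℝ) < (((2 * L + 1) ^ d : ℕ) : ℝ) := by exact_mod_cast hA
    push_cast at this
    linarith
  have h0 : 0 ≤ (V - A.card) / V := by positivity
  have h2 : M.ZT L (μ + F / (V - A.card)) ^ ((V - A.card) / V) ≤ M.ZC L μ A f := by
    calc _ ≤ (M.ZC L μ A f ^ (V / (V - A.card))) ^ ((V - A.card) / V) := ENNReal.rpow_le_rpow h h0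
      _ = M.ZC L μ A f := by
        rw [← ENNReal.rpow_mul]
        have : V / (V - A.card) * ((V - A.card) / V) = 1 := by field_simp
        rw [this, ENNReal.rpow_one]
  refine le_trans ?_ h2
  rw [← ex_log (lt_of_lt_of_le one_pos (one_le_ZT M L (μ + F / (V - A.card)))).ne'
    (ZT_ne_top M L _), ex_rpow, ex_le_ex]
  have h3 := mul_le_mul_of_nonneg_right (hq (F / (V - A.card))) h0
  refine le_trans (le_of_eq ?_) h3
  field_simp

theorem measurable_ou (Y : Finset (Zd d)) (a : ℝ) :
    Measurable fun ω : Zd d → E => ex (a * M.ou Y ω) := by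
  have h1 : Measurable fun ω : Zd d → E => M.ou Y ω := by
    unfold Md.ou
    exact Finset.measurable_sum _ fun v _ => Finset.measurable_sum _ fun i _ =>
      M.measurable_n.comp (measurable_pi_apply i)
  exact (measurable_from_top (f := fun k : ℕ => ex (a * k))).comp h1

theorem ou_dep (Y : Finset (Zd d)) (x y : Zd d → E) (h : ∀ i ∈ Y, x i = y i) :
    M.ou Y x = M.ou Y y := by
  unfold Md.ou
  exact sum_congr rfl fun v _ => sum_congr rfl fun i hi => by rw [h i (mem_filter.1 hi).1]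

/-- The integrand. -/
noncomputable def Ps (μ q : ℝ) (Y : Finset (Zd d)) : (Zd d → E) → ENNReal :=
  ({ω | ∀ i ∈ bd Y, M.c (ω i) = ω i}).indicator fun ω => M.w μ Y ω * ex (q * M.K * M.ou Y ω)

theorem measurable_Ps (μ q : ℝ) (Y : Finset (Zd d)) : Measurable (Ps M μ q Y) :=
  ((measurable_wG M id μ Y).mul (measurable_ou M Y (q * M.K))).indicator
    (measurableSet_core_all M (bd Y))

theorem Ps_dep (μ q : ℝ) (Y : Finset (Zd d)) (x y : Zd d → E) (h : ∀ i ∈ Y, x i = y i) :
    Ps M μ q Y x = Ps M μ q Y y := by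
  have h1 : ∀ i ∈ bd Y, x i = y i := fun i hi => h i (mem_bd.1 hi).1
  unfold Ps
  by_cases hx : ∀ i ∈ bd Y, M.c (x i) = x i
  · have hy : ∀ i ∈ bd Y, M.c (y i) = y i := fun i hi => by rw [← h1 i hi, hx i hi]
    rw [Set.indicator_of_mem (show x ∈ {ω | ∀ i ∈ bd Y, M.c (ω i) = ω i} from hx),
      Set.indicator_of_mem (show y ∈ {ω | ∀ i ∈ bd Y, M.c (ω i) = ω i} from hy),
      w_dep M μ Y x y h, ou_dep M Y x y h]
  · have hy : ¬ ∀ i ∈ bd Y, M.c (y i) = y i := fun hy => hx fun i hi => by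
      rw [h1 i hi, hy i hi]
    rw [Set.indicator_of_notMem (show x ∉ {ω | ∀ i ∈ bd Y, M.c (ω i) = ω i} from hx),
      Set.indicator_of_notMem (show y ∉ {ω | ∀ i ∈ bd Y, M.c (ω i) = ω i} from hy)]

/-- Lower bound of the inner integral. -/
theorem inner_ge {L : ℕ} {Y : Finset (Zd d)} (hY : ∀ i ∈ Y, ∀ k, |i k| + M.r ≤ L) (μ : ℝ)
    (ω : Tor d L → E) (hω : ∀ i ∈ bd Y, M.c (ω (cst L i)) = ω (cst L i)) :
    M.w μ Y (fun i => ω (cst L i)) * M.ZC L μ (Y.image (cst L)) (fd M L Y ω) ≤
      lmarginal (fun _ : Tor d L => M.π) (univ \ Y.image (cst L)) (M.wG (cst L) μ univ) ω := by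
  set A := Y.image (cst L) with hA
  have hm : Measurable fun ω' : Tor d L → E => M.wG (cst L) μ (univ \ A) ω' *
      ∏ j ∈ univ \ A, ex (fd M L Y ω j * M.n (ω' j)) :=
    (measurable_wG M _ μ _).mul (Finset.measurable_prod _ fun j _ =>
      (measurable_exn M _).comp (measurable_pi_apply j))
  have e1 : M.ZC L μ A (fd M L Y ω) = lmarginal (fun _ : Tor d L => M.π) (univ \ A)
      (fun ω' => M.wG (cst L) μ (univ \ A) ω' *
        ∏ j ∈ univ \ A, ex (fd M L Y ω j * M.n (ω' j))) ω := by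
    unfold Md.ZC
    refine lm_dep M _ (fun x y h => ?_) _ _
    unfold Md.wG
    congr 1
    · congr 1
      · exact prod_congr rfl fun i hi => by rw [h i hi]
      · refine prod_congr rfl fun v _ => prod_congr rfl fun i hi => ?_
        rw [mem_filter] at hi
        rw [h i hi.1, h _ hi.2]
    · exact prod_congr rfl fun i hi => by rw [h i hi]
  rw [e1, ← lm_const_mul M _ hm]
  unfold lmarginal
  refine lintegral_mono fun y => ?_
  set ω' := Function.updateFinset ω (univ \ A) y with hω'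
  have h1 : ∀ i ∈ Y, ω' (cst L i) = ω (cst L i) := fun i hi => by
    rw [hω', Function.updateFinset_def]
    have : cst L i ∈ A := mem_image_of_mem _ hi
    simp [this]
  have h2 := glue_point M hY μ ω' fun i hi => by
    rw [h1 i (mem_bd.1 hi).1]
    exact hω i hi
  have h3 : M.w μ Y (fun i => ω' (cst L i)) = M.w μ Y fun i => ω (cst L i) :=
    w_dep M μ Y _ _ h1
  have h4 : fd M L Y ω' = fd M L Y ω := by
    funext j
    unfold fd
    exact sum_congr rfl fun v _ => sum_congr rfl fun i hi => by rw [h1 i (mem_filter.1 hi).1]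
  rw [h3, h4] at h2
  exact h2

end Gl

/-- Finite volume gluing inequality on the torus of side `2 L + 1`; `q` is a subgradient. -/
theorem glue_torus (L : ℕ) (Y : Finset (Zd d)) (hY : ∀ i ∈ Y, ∀ k, |i k| + M.r ≤ L)
    (hL : Y.card < (2 * L + 1) ^ d) (μ q : ℝ)
    (hq : ∀ t : ℝ, Real.log (M.ZT L μ).toReal + q * (2 * L + 1 : ℝ) ^ d * t ≤
      Real.log (M.ZT L (μ + t)).toReal) :
    M.int Y ({ω | ∀ i ∈ bd Y, M.c (ω i) = ω i}.indicator
        fun ω => M.w μ Y ω * ex (q * M.K * M.ou Y ω)) ≤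
      ex (Y.card * (Real.log (M.ZT L μ).toReal / (2 * L + 1 : ℝ) ^ d) +
        q / 2 * M.K * M.N * cut M.S Y) := by
  have := fin_π M
  have hYL : ∀ i ∈ Y, ∀ k, |i k| ≤ L := fun i hi k => by
    have := hY i hi k
    omega
  have hinj : ∀ i ∈ Y, ∀ j ∈ Y, cst L i = cst L j → i = j := fun i hi j hj h => by
    rw [← vm_cst (hYL i hi), ← vm_cst (hYL j hj), h]
  set A := Y.image (cst L) with hA
  have hAc : A.card = Y.card := card_image_of_injOn fun i hi j hj h => hinj i hi j hj h
  have hAL : A.card < (2 * L + 1) ^ d := by rw [hAc]; exact hL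
  set V : ℝ := (2 * L + 1 : ℝ) ^ d with hV
  have hV0 : 0 < V := by rw [hV]; positivity
  set lz : ℝ := Real.log (M.ZT L μ).toReal with hlz
  set C0 : ENNReal := ex ((V - A.card) / V * lz - q / 2 * M.K * M.N * cut M.S Y) with hC0
  have hm := measurable_wG M (cst L) μ (univ : Finset (Tor d L))
  have e1 : M.ZT L μ = lmarginal (fun _ : Tor d L => M.π) A
      (lmarginal (fun _ : Tor d L => M.π) (univ \ A) (M.wG (cst L) μ univ)) (fun _ => M.e0) := by
    unfold Md.ZT
    rw [lintegral_eq_lmarginal_univ (fun _ => M.e0), ← lmarginal_union _ _ hm disjoint_sdiff,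
      union_sdiff_of_subset (subset_univ A)]
  have hmP : Measurable fun ω : Tor d L → E => Ps M μ q Y fun i => ω (cst L i) :=
    (measurable_Ps M μ q Y).comp (measurable_pi_iff.2 fun i => measurable_pi_apply _)
  have h1 : C0 * M.int Y (Ps M μ q Y) ≤ M.ZT L μ := by
    rw [e1, ← transfer M vm_inj (fun i hi => vm_cst (hYL i hi)) (measurable_Ps M μ q Y)
      (Ps_dep M μ q Y), ← lm_const_mul M _ hmP]
    refine lm_mono M A (fun ω => ?_) _
    by_cases hω : ∀ i ∈ bd Y, M.c (ω (cst L i)) = ω (cst L i)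
    · refine le_trans ?_ (inner_ge M hY μ ω hω)
      have h2 : Ps M μ q Y (fun i => ω (cst L i)) = M.w μ Y (fun i => ω (cst L i)) *
          ex (q * M.K * M.ou Y fun i => ω (cst L i)) := by
        unfold Ps
        exact Set.indicator_of_mem (show (fun i => ω (cst L i)) ∈
          {ω : Zd d → E | ∀ i ∈ bd Y, M.c (ω i) = ω i} from hω) _
      rw [h2, mul_left_comm]
      refine mul_le_mul' le_rfl ?_
      refine le_trans (le_of_eq ?_) (le_ZC M L A hAL μ q hq (fd M L Y ω))
      rw [hC0, ← ex_add]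
      congr 1
      have h3 : ∑ j ∈ univ \ A, fd M L Y ω j = M.K * M.ou Y fun i => ω (cst L i) := by
        have h4 := sum_fd M hY ω fun _ => 1
        simp only [mul_one] at h4
        rw [h4]
        unfold Md.ou
        push_cast
        rw [mul_sum]
        exact sum_congr rfl fun v _ => by rw [mul_sum]
      rw [h3, cutT_eq M hY]
      ring
    · have h2 : Ps M μ q Y (fun i => ω (cst L i)) = 0 := by
        unfold Ps
        exact Set.indicator_of_notMem (show (fun i => ω (cst L i)) ∉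
          {ω : Zd d → E | ∀ i ∈ bd Y, M.c (ω i) = ω i} from hω) _
      rw [h2, mul_zero]
      exact zero_le
  have h2 : M.ZT L μ = ex lz := (ex_log (lt_of_lt_of_le one_pos (one_le_ZT M L μ)).ne'
    (ZT_ne_top M L μ)).symm
  rw [h2] at h1
  have h3 := mul_le_mul' (le_refl (ex (-((V - A.card) / V * lz - q / 2 * M.K * M.N * cut M.S Y)))) h1
  rw [← mul_assoc, hC0, ← ex_add, ← ex_add, neg_add_cancel, ex_zero, one_mul] at h3
  refine h3.trans (ex_le_ex.2 (le_of_eq ?_))
  rw [hAc]
  field_simp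
  ring

namespace Gl

theorem exists_sub {f : ℝ → ℝ} (hf : ConvexOn ℝ Set.univ f) (x : ℝ) :
    ∃ s, ∀ t, f x + s * t ≤ f (x + t) := by
  refine ⟨derivWithin f (Set.Ioi x) x, fun t => ?_⟩
  have hx : x ∈ interior (Set.univ : Set ℝ) := by simp
  rcases lt_trichotomy t 0 with ht | rfl | ht
  · have h1 := hf.slope_le_leftDeriv_of_mem_interior (x := x + t) (Set.mem_univ _) hx
      (by linarith)
    have h3 := h1.trans (hf.leftDeriv_le_rightDeriv_of_mem_interior hx)
    rw [slope_def_field, div_le_iff₀ (by linarith)] at h3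
    linarith
  · simp
  · have h1 := hf.rightDeriv_le_slope_of_mem_interior hx (Set.mem_univ (x + t)) (by linarith)
    rw [slope_def_field, add_sub_cancel_left, le_div_iff₀ ht] at h1
    linarith

theorem sub_tendsto {f : ℕ → ℝ → ℝ} {p : ℝ → ℝ} {q : ℕ → ℝ} {μ ρ : ℝ}
    (hf : ∀ x, Tendsto (fun n => f n x) atTop (𝓝 (p x)))
    (hq : ∀ n t, f n μ + q n * t ≤ f n (μ + t)) (hρ : HasDerivAt p ρ μ) :
    Tendsto q atTop (𝓝 ρ) := by
  rw [hasDerivAt_iff_tendsto_slope_zero] at hρ
  refine tendsto_order.2 ⟨fun a ha => ?_, fun b hb => ?_⟩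
  · have h1 : ∀ᶠ t in 𝓝[≠] (0 : ℝ), a < t⁻¹ • (p (μ + t) - p μ) := hρ.eventually_const_lt ha
    have h2 : ∀ᶠ t in 𝓝[<] (0 : ℝ), a < t⁻¹ • (p (μ + t) - p μ) :=
      h1.filter_mono (nhdsWithin_mono _ fun t ht => ne_of_lt ht)
    obtain ⟨t, ht1, ht2⟩ := (h2.and self_mem_nhdsWithin).exists
    have ht0 : t < 0 := ht2
    have h3 : Tendsto (fun n => t⁻¹ • (f n (μ + t) - f n μ)) atTop
        (𝓝 (t⁻¹ • (p (μ + t) - p μ))) := ((hf (μ + t)).sub (hf μ)).const_smul _
    filter_upwards [h3.eventually_const_lt ht1] with n hn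
    refine hn.trans_le ?_
    rw [smul_eq_mul, inv_mul_eq_div, div_le_iff_of_neg ht0]
    linarith [hq n t]
  · have h1 : ∀ᶠ t in 𝓝[≠] (0 : ℝ), t⁻¹ • (p (μ + t) - p μ) < b := hρ.eventually_lt_const hb
    have h2 : ∀ᶠ t in 𝓝[>] (0 : ℝ), t⁻¹ • (p (μ + t) - p μ) < b :=
      h1.filter_mono (nhdsWithin_mono _ fun t ht => ne_of_gt ht)
    obtain ⟨t, ht1, ht2⟩ := (h2.and self_mem_nhdsWithin).exists
    have ht0 : 0 < t := ht2
    have h3 : Tendsto (fun n => t⁻¹ • (f n (μ + t) - f n μ)) atTop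
        (𝓝 (t⁻¹ • (p (μ + t) - p μ))) := ((hf (μ + t)).sub (hf μ)).const_smul _
    filter_upwards [h3.eventually_lt_const ht1] with n hn
    refine lt_of_le_of_lt ?_ hn
    rw [smul_eq_mul, inv_mul_eq_div, le_div_iff₀ ht0]
    linarith [hq n t]

theorem ou_le (Y : Finset (Zd d)) (ω : Zd d → E) : M.ou Y ω ≤ M.N * cut M.S Y := by
  unfold Md.ou cut
  calc _ ≤ ∑ v ∈ M.Sm, ∑ _i ∈ Y.filter (fun i => i + v ∉ Y), M.N :=
        sum_le_sum fun v _ => sum_le_sum fun i _ => M.n_le _
    _ ≤ ∑ v ∈ M.S, ∑ _i ∈ Y.filter (fun i => i + v ∉ Y), M.N :=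
        sum_le_sum_of_subset M.Sm_S
    _ = _ := by simp only [sum_const, smul_eq_mul]; rw [← sum_mul, mul_comm]

theorem int_Ps_le (μ ρ q : ℝ) (Y : Finset (Zd d)) : M.int Y (Ps M μ ρ Y) ≤
    ex (|ρ - q| * M.K * (M.N * cut M.S Y)) * M.int Y (Ps M μ q Y) := by
  have := fin_π M
  unfold Md.int
  rw [← lm_const_mul M _ (measurable_Ps M μ q Y)]
  refine lm_mono M _ (fun ω => ?_) _
  unfold Ps
  by_cases hω : ω ∈ {ω : Zd d → E | ∀ i ∈ bd Y, M.c (ω i) = ω i}
  · rw [Set.indicator_of_mem hω, Set.indicator_of_mem hω, mul_left_comm, ← ex_add]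
    refine mul_le_mul' le_rfl (ex_le_ex.2 ?_)
    have h1 : (M.ou Y ω : ℝ) ≤ M.N * cut M.S Y := by exact_mod_cast ou_le M Y ω
    have hK := M.hK.le
    have h2 : (ρ - q) * M.K * M.ou Y ω ≤ |ρ - q| * M.K * (M.N * cut M.S Y) := by
      calc (ρ - q) * M.K * M.ou Y ω ≤ |ρ - q| * M.K * M.ou Y ω := by
            refine mul_le_mul_of_nonneg_right (mul_le_mul_of_nonneg_right (le_abs_self _) hK)
              (Nat.cast_nonneg _)
        _ ≤ _ := mul_le_mul_of_nonneg_left h1 (by positivity)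
    linarith
  · rw [Set.indicator_of_notMem hω]
    exact zero_le

theorem tendsto_ex {a : ℕ → ℝ} {b : ℝ} (h : Tendsto a atTop (𝓝 b)) :
    Tendsto (fun n => ex (a n)) atTop (𝓝 (ex b)) :=
  ENNReal.tendsto_ofReal ((Real.continuous_exp.tendsto b).comp h)

end Gl

theorem glue (hd : 1 ≤ d) {p : ℝ → ℝ} (hp : M.IsP p) {μ ρ : ℝ} (hρ : HasDerivAt p ρ μ) :
    M.Glue μ ρ (p μ) := by
  intro Y
  choose s hs using fun L => exists_sub (ZT_convex M L) μ
  set q : ℕ → ℝ := fun L => s L / (2 * L + 1 : ℝ) ^ d with hq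
  have hV0 : ∀ L : ℕ, (0 : ℝ) < (2 * L + 1 : ℝ) ^ d := fun L => by positivity
  have hqV : ∀ L, q L * (2 * L + 1 : ℝ) ^ d = s L := fun L => div_mul_cancel₀ _ (hV0 L).ne'
  have hqlim : Tendsto q atTop (𝓝 ρ) := by
    refine sub_tendsto (f := fun L μ => Real.log (M.ZT L μ).toReal / (2 * L + 1 : ℝ) ^ d)
      (fun x => hp.torus hd x) (fun L t => ?_) hρ
    have h1 := hs L t
    rw [hq]
    simp only
    rw [div_mul_eq_mul_div, ← add_div]
    exact div_le_div_of_nonneg_right h1 (hV0 L).le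
  have hI : M.int Y (Ps M μ ρ Y) ≤ ex (Y.card * p μ + ρ / 2 * M.K * M.N * cut M.S Y) := by
    have hlim : Tendsto (fun L : ℕ => |ρ - q L| * M.K * (M.N * cut M.S Y) +
        (Y.card * (Real.log (M.ZT L μ).toReal / (2 * L + 1 : ℝ) ^ d) +
          q L / 2 * M.K * M.N * cut M.S Y)) atTop
        (𝓝 (Y.card * p μ + ρ / 2 * M.K * M.N * cut M.S Y)) := by
      have h1 : Tendsto (fun L => |ρ - q L| * M.K * (M.N * cut M.S Y)) atTop
          (𝓝 (|ρ - ρ| * M.K * (M.N * cut M.S Y))) :=
        ((tendsto_const_nhds.sub hqlim).abs.mul_const _).mul_const _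
      have h2 : Tendsto (fun L : ℕ => (Y.card : ℝ) *
          (Real.log (M.ZT L μ).toReal / (2 * L + 1 : ℝ) ^ d)) atTop (𝓝 (Y.card * p μ)) :=
        (hp.torus hd μ).const_mul _
      have h3 : Tendsto (fun L => q L / 2 * M.K * M.N * cut M.S Y) atTop
          (𝓝 (ρ / 2 * M.K * M.N * cut M.S Y)) :=
        (((hqlim.div_const 2).mul_const _).mul_const _).mul_const _
      have h4 := h1.add (h2.add h3)
      rw [sub_self, abs_zero, zero_mul, zero_mul, zero_add] at h4
      exact h4
    refine ge_of_tendsto (tendsto_ex hlim) ?_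
    obtain ⟨L0, hL0⟩ : ∃ L0 : ℕ, ∀ i ∈ Y, ∀ k, |i k| + M.r ≤ L0 := by
      refine ⟨(∑ i ∈ Y, ∑ k, (i k).natAbs) + M.r, fun i hi k => ?_⟩
      have h1 : (i k).natAbs ≤ ∑ k, (i k).natAbs :=
        single_le_sum (f := fun k => (i k).natAbs) (fun _ _ => Nat.zero_le _) (mem_univ k)
      have h2 : ∑ k, (i k).natAbs ≤ ∑ i ∈ Y, ∑ k, (i k).natAbs :=
        single_le_sum (f := fun i : Zd d => ∑ k, (i k).natAbs) (fun _ _ => Nat.zero_le _) hi
      have h3 : |i k| = ((i k).natAbs : ℤ) := Int.abs_eq_natAbs _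
      rw [h3]
      push_cast
      have h4 : ((i k).natAbs : ℤ) ≤ ∑ i ∈ Y, ∑ k, ((i k).natAbs : ℤ) := by
        exact_mod_cast h1.trans h2
      simp only [Nat.cast_natAbs] at h4 ⊢
      simp only [Int.cast_abs, Int.cast_id] at h4 ⊢
      linarith
    filter_upwards [eventually_ge_atTop L0, eventually_ge_atTop Y.card] with L h1 h2
    have hY : ∀ i ∈ Y, ∀ k, |i k| + M.r ≤ L := fun i hi k => by
      have := hL0 i hi k
      omega
    have hL : Y.card < (2 * L + 1) ^ d := by
      calc Y.card < 2 * L + 1 := by omega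
        _ = (2 * L + 1) ^ 1 := (pow_one _).symm
        _ ≤ _ := Nat.pow_le_pow_right (by omega) hd
    have h3 := glue_torus M L Y hY hL μ (q L) fun t => by
      rw [hqV]
      exact hs L t
    refine (int_Ps_le M μ ρ (q L) Y).trans ?_
    rw [ex_add]
    exact mul_le_mul' le_rfl h3
  have hF : Measurable fun ω : Zd d → E => M.w μ Y ω * ex (ρ * M.K * M.ou Y ω) :=
    (measurable_wG M id μ Y).mul (measurable_ou M Y (ρ * M.K))
  refine (int_tr M Y _ hF).trans ?_
  refine (mul_le_mul' le_rfl hI).trans (le_of_eq ?_)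
  rw [← ex_add]
  congr 1
  ring

end Pool.Agent.SquareWell
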