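import Pool.Agent.Lib.MP_09cbbd_sw.Cls
import Pool.Agent.Lib.MP_09cbbd_sw.Ent
import Pool.Agent.Lib.MP_09cbbd_sw.Glue
import Pool.Agent.Lib.MP_09cbbd_mp_h27.PsBox

/-!
# The pressure is not differentiable
-/

set_option autoImplicit false

namespace Pool.Agent.SquareWell

open MeasureTheory Finset Filter Topology Pool.Agent.StableGas

variable {d : ℕ} {E : Type} [MeasurableSpace E] (M : Md d E)

namespace Asm

theorem int_mono {A : Finset (Zd d)} {f g : (Zd d → E) → ENNReal} (h : ∀ ω, f ω ≤ g ω) :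
    M.int A f ≤ M.int A g := by
  unfold Md.int
  exact lmarginal_mono h _

theorem int_add {A : Finset (Zd d)} {f g : (Zd d → E) → ENNReal} (hf : Measurable f) :
    M.int A (fun ω => f ω + g ω) = M.int A f + M.int A g := by
  unfold Md.int
  simp only [lmarginal]
  exact lintegral_add_left (hf.comp measurable_updateFinset) _

theorem int_sum {ι : Type} (F : Finset ι) {A : Finset (Zd d)} {f : ι → (Zd d → E) → ENNReal}
    (hf : ∀ j ∈ F, Measurable (f j)) :
    M.int A (fun ω => ∑ j ∈ F, f j ω) = ∑ j ∈ F, M.int A (f j) := by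
  unfold Md.int
  simp only [lmarginal]
  exact lintegral_finsetSum _ fun j hj => (hf j hj).comp measurable_updateFinset

theorem comp_L {B L : Finset (Zd d)} {s : ℕ}
    (hL : ∀ x, x ∈ L ↔ x ∈ B ∧ s ≤ (fill (comp B x)).card) {x : Zd d} (hx : x ∈ L) :
    comp L x = comp B x := by
  have hxB := ((hL x).1 hx).1
  have hxs := ((hL x).1 hx).2
  refine comp_eq (sconn_comp hxB) (self_mem_comp hxB) ?_ ?_
  · intro y hy
    rw [hL]
    refine ⟨comp_subset _ _ hy, ?_⟩
    rw [comp_eq_of_mem hxB hy]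
    exact hxs
  · intro y hy hyf
    rw [mem_fat] at hyf
    obtain ⟨z, hz, hyz⟩ := hyf
    exact comp_closed hz ((hL y).1 hy).1 hyz

theorem num_le {B L : Finset (Zd d)} {s : ℕ}
    (hL : ∀ x, x ∈ L ↔ x ∈ B ∧ s ≤ (fill (comp B x)).card) : num B s ≤ num L s := by
  unfold num
  refine card_le_card ?_
  intro G hG
  rw [mem_filter, mem_image] at hG ⊢
  obtain ⟨⟨x, hx, rfl⟩, hs⟩ := hG
  have hxL : x ∈ L := (hL x).2 ⟨hx, hs.ge⟩
  exact ⟨⟨x, hxL, comp_L hL hxL⟩, hs⟩

theorem mem_Fam {A L : Finset (Zd d)} {s : ℕ} :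
    L ∈ Fam A s ↔ L ⊆ A ∧ ∀ x ∈ L, s ≤ (fill (comp L x)).card := by
  classical
  unfold Fam
  rw [mem_filter, mem_powerset]

/-- Every configuration lies in a class. -/
theorem exists_class (hd : 2 ≤ d) {A : Finset (Zd d)} (hA : NConn A) {m : ℕ} (hm : 1 ≤ m)
    {ω : Zd d → E} (hω : ω ∉ CC M A) : ∃ s L Y DL OL, 1 ≤ s ∧
      (s = m ∨ (s < m ∧ (A.card : ℝ) / 2 ^ 20 ≤ 2 * s ^ 3 * num L s)) ∧
      L ∈ Fam (fatr M.r A) s ∧ DL ⊆ L ∧ OL ⊆ L ∧ ω ∈ M.Class A s L Y DL OL := by
  classical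
  set B : Finset (Zd d) := M.bad A ω with hB
  have hex : ∃ s, 1 ≤ s ∧ (s = m ∨ (s < m ∧ (A.card : ℝ) / 2 ^ 20 ≤ 2 * s ^ 3 * num B s)) :=
    ⟨m, hm, Or.inl rfl⟩
  set s := Nat.find hex with hs
  obtain ⟨h1, h2⟩ := Nat.find_spec hex
  rw [← hs] at h1 h2
  have hsm : s ≤ m := by rcases h2 with h2 | h2 <;> omega
  have hmin : ∀ s', 1 ≤ s' → s' < s → (2 : ℝ) * s' ^ 3 * num B s' < A.card / 2 ^ 20 := by
    intro s' h3 h4
    have h5 := Nat.find_min hex h4
    by_contra hcon
    exact h5 ⟨h3, Or.inr ⟨by omega, not_lt.1 hcon⟩⟩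
  have hfill := fill_small B s A.card hmin
  obtain ⟨L, Y, hcut⟩ := exists_cut (D := fun i => i ∈ M.DD A ω)
    (V := fun i => i ∉ A ∨ i ∈ M.VC A ω) hd M.hr hA
    (fun i hi => ((Cls.mem_DD M).1 hi).1) (fun i hi => Or.inl hi)
    (fun i hi hV => by
      rw [Cls.mem_DD] at hi
      rcases hV with hV | hV
      · exact hV hi.1
      · rw [Cls.mem_VC] at hV
        exact Cls.not_both M hi.2 hV.2) s
  have hL : ∀ x, x ∈ L ↔ x ∈ B ∧ s ≤ (fill (comp B x)).card := hcut.mem_L
  refine ⟨s, L, Y, L ∩ M.DD A ω, (L ∩ A) \ (M.DD A ω ∪ M.VC A ω), h1, ?_, ?_,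
    inter_subset_left, Finset.sdiff_subset.trans inter_subset_left, hω, hcut, rfl, rfl, hfill⟩
  · rcases h2 with h2 | h2
    · exact Or.inl h2
    · right
      refine ⟨h2.1, h2.2.trans ?_⟩
      have : (num B s : ℝ) ≤ num L s := by exact_mod_cast num_le hL
      exact mul_le_mul_of_nonneg_left this (by positivity)
  · rw [mem_Fam]
    constructor
    · intro x hx
      have h3 := ((hL x).1 hx).1
      rw [hB] at h3
      unfold Md.bad SquareWell.bad at h3
      exact (mem_filter.1 h3).1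
    · intro x hx
      rw [comp_L hL hx]
      exact ((hL x).1 hx).2

theorem class_sub {A : Finset (Zd d)} {s : ℕ} {L Y1 Y2 DL OL1 OL2 : Finset (Zd d)}
    {ω1 ω2 : Zd d → E} (h1 : ω1 ∈ M.Class A s L Y1 DL OL1) (h2 : ω2 ∈ M.Class A s L Y2 DL OL2) :
    Y2 ⊆ Y1 := by
  obtain ⟨_, c1, d1, _, _⟩ := h1
  obtain ⟨_, c2, d2, _, _⟩ := h2
  have hnear : ∀ i j : Zd d, j ∈ Nb i → near M.r i j := by
    intro i j hj k
    rw [mem_Nb] at hj
    have h3 := hj k
    have h4 := M.hr
    rw [abs_le]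
    constructor <;> omega
  refine c1.uniq Y2 ⟨fun x hx hxL => (Finset.disjoint_left.1 c2.Y_disj) hx hxL, ?_⟩ ?_
  · intro x hx y hyL hxy
    by_contra hy
    exact hyL (c2.nearY x hx y hy (hnear x y hxy.mem_Nb)).2.2
  · intro i hi j hj hij
    have hjY : j ∉ Y2 := fun h => (Finset.disjoint_left.1 c2.Y_disj) h hj
    have h3 := (c2.nearY i hi j hjY (hnear i j hij)).2.1
    have h4 : j ∈ L ∩ M.DD A ω2 := mem_inter.2 ⟨hj, h3⟩
    rw [d2, ← d1] at h4
    exact (mem_inter.1 h4).2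

theorem class_uniq {A : Finset (Zd d)} {s : ℕ} {L Y1 Y2 DL OL1 OL2 : Finset (Zd d)}
    {ω1 ω2 : Zd d → E} (h1 : ω1 ∈ M.Class A s L Y1 DL OL1) (h2 : ω2 ∈ M.Class A s L Y2 DL OL2) :
    Y1 = Y2 :=
  Subset.antisymm (class_sub M h2 h1) (class_sub M h1 h2)

/-- The dense region of a nonempty class. -/
noncomputable def yy (A : Finset (Zd d)) (s : ℕ) (L DL OL : Finset (Zd d)) : Finset (Zd d) := by
  classical exact if h : ∃ Y, (M.Class A s L Y DL OL).Nonempty then h.choose else ∅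

theorem mem_yy {A : Finset (Zd d)} {s : ℕ} {L Y DL OL : Finset (Zd d)} {ω : Zd d → E}
    (h : ω ∈ M.Class A s L Y DL OL) : ω ∈ M.Class A s L (yy M A s L DL OL) DL OL := by
  classical
  have hex : ∃ Y, (M.Class A s L Y DL OL).Nonempty := ⟨Y, ω, h⟩
  have e : yy M A s L DL OL = hex.choose := by
    unfold yy
    rw [dif_pos hex]
  obtain ⟨ω', hω'⟩ := hex.choose_spec
  rw [← e] at hω'
  rw [← class_uniq M h hω']
  exact h

/-- Integral over all classes with given `s` and `L`. -/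
noncomputable def gg (μ : ℝ) (A : Finset (Zd d)) (s : ℕ) (L : Finset (Zd d)) (ω : Zd d → E) :
    ENNReal :=
  ∑ q ∈ L.powerset ×ˢ L.powerset,
    (M.Class A s L (yy M A s L q.1 q.2) q.1 q.2).indicator (M.w μ A) ω

theorem measurable_gg (μ : ℝ) (A : Finset (Zd d)) (s : ℕ) (L : Finset (Zd d)) :
    Measurable (gg M μ A s L) := by
  unfold gg
  exact Finset.measurable_fun_sum _ fun q _ =>
    (measurable_w M μ A).indicator (Cls.measurableSet_Class M A s L _ _ _)

theorem int_gg (μ : ℝ) (A : Finset (Zd d)) (s : ℕ) (L : Finset (Zd d)) {t : ENNReal}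
    (hT : ∀ Y DL OL, M.int A ((M.Class A s L Y DL OL).indicator (M.w μ A)) ≤ t) :
    M.int A (gg M μ A s L) ≤ 4 ^ L.card * t := by
  unfold gg
  rw [int_sum M (L.powerset ×ˢ L.powerset) fun q _ =>
    (measurable_w M μ A).indicator (Cls.measurableSet_Class M A s L _ _ _)]
  refine (Finset.sum_le_card_nsmul _ _ t fun q _ => hT _ _ _).trans ?_
  rw [card_product, card_powerset, nsmul_eq_mul, ← mul_pow]
  norm_num

theorem le_gg {μ : ℝ} {A : Finset (Zd d)} {s : ℕ} {L Y DL OL : Finset (Zd d)} {ω : Zd d → E}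
    (h : ω ∈ M.Class A s L Y DL OL) (h1 : DL ⊆ L) (h2 : OL ⊆ L) :
    M.w μ A ω ≤ gg M μ A s L ω := by
  unfold gg
  have h3 : (DL, OL) ∈ L.powerset ×ˢ L.powerset :=
    mem_product.2 ⟨mem_powerset.2 h1, mem_powerset.2 h2⟩
  refine le_trans ?_ (Finset.single_le_sum (f := fun q : Finset (Zd d) × Finset (Zd d) =>
    (M.Class A s L (yy M A s L q.1 q.2) q.1 q.2).indicator (M.w μ A) ω)
    (fun _ _ => zero_le) h3)
  rw [Set.indicator_of_mem (mem_yy M h)]

end Asm

/-- Sum over the classes. -/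
theorem sum_classes (hd : 2 ≤ d) (μ : ℝ) (A : Finset (Zd d)) (hA : NConn A) (m : ℕ) (hm : 1 ≤ m)
    (T : ℕ → Finset (Zd d) → ENNReal)
    (hT : ∀ s L Y DL OL, M.int A ((M.Class A s L Y DL OL).indicator (M.w μ A)) ≤ T s L) :
    M.xi μ A ≤ M.int A ((CC M A).indicator (M.w μ A)) +
      ∑ s ∈ Finset.Ico 1 m, ∑ L ∈ (Fam (fatr M.r A) s).filter
        (fun L => (A.card : ℝ) / 2 ^ 20 ≤ 2 * s ^ 3 * num L s), 4 ^ L.card * T s L +
      ∑ L ∈ Fam (fatr M.r A) m, 4 ^ L.card * T m L := by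
  classical
  set F : ℕ → Finset (Finset (Zd d)) := fun s => (Fam (fatr M.r A) s).filter
    (fun L => (A.card : ℝ) / 2 ^ 20 ≤ 2 * s ^ 3 * num L s) with hF
  have hpt : ∀ ω, M.w μ A ω ≤ (((CC M A).indicator (M.w μ A) ω) +
      ∑ s ∈ Finset.Ico 1 m, ∑ L ∈ F s, Asm.gg M μ A s L ω) +
      ∑ L ∈ Fam (fatr M.r A) m, Asm.gg M μ A m L ω := by
    intro ω
    by_cases hω : ω ∈ CC M A
    · rw [Set.indicator_of_mem hω, add_assoc]
      exact le_self_add
    · obtain ⟨s, L, Y, DL, OL, h1, h2, h3, h4, h5, h6⟩ := Asm.exists_class M hd hA hm hω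
      have hle := Asm.le_gg M (μ := μ) h6 h4 h5
      rcases h2 with rfl | ⟨h2, h7⟩
      · refine le_trans ?_ le_add_self
        exact hle.trans (Finset.single_le_sum (f := fun L => Asm.gg M μ A s L ω)
          (fun _ _ => zero_le) h3)
      · refine le_trans ?_ le_self_add
        refine le_trans ?_ le_add_self
        refine hle.trans ?_
        have h8 : L ∈ F s := mem_filter.2 ⟨h3, h7⟩
        refine (Finset.single_le_sum (f := fun L => Asm.gg M μ A s L ω)
          (fun _ _ => zero_le) h8).trans ?_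
        exact Finset.single_le_sum (f := fun s => ∑ L ∈ F s, Asm.gg M μ A s L ω)
          (fun _ _ => zero_le) (Finset.mem_Ico.2 ⟨h1, h2⟩)
  have hm1 : Measurable ((CC M A).indicator (M.w μ A)) :=
    (measurable_w M μ A).indicator (measurableSet_CC M A)
  have hm2 : Measurable fun ω => ∑ s ∈ Finset.Ico 1 m, ∑ L ∈ F s, Asm.gg M μ A s L ω :=
    Finset.measurable_fun_sum _ fun s _ => Finset.measurable_fun_sum _ fun L _ =>
      Asm.measurable_gg M μ A s L
  unfold Md.xi
  refine (Asm.int_mono M hpt).trans ?_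
  rw [Asm.int_add M (f := fun ω => (CC M A).indicator (M.w μ A) ω +
      ∑ s ∈ Finset.Ico 1 m, ∑ L ∈ F s, Asm.gg M μ A s L ω) (hm1.add hm2), Asm.int_add M hm1]
  rw [Asm.int_sum M (Finset.Ico 1 m) (fun s _ => Finset.measurable_fun_sum _ fun L _ =>
      Asm.measurable_gg M μ A s L),
    Asm.int_sum M (Fam (fatr M.r A) m) (fun L _ => Asm.measurable_gg M μ A m L)]
  refine add_le_add (add_le_add le_rfl ?_) ?_
  · refine sum_le_sum fun s _ => ?_
    rw [Asm.int_sum M (F s) (fun L _ => Asm.measurable_gg M μ A s L)]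
    exact sum_le_sum fun L _ => Asm.int_gg M μ A s L fun Y DL OL => hT s L Y DL OL
  · exact sum_le_sum fun L _ => Asm.int_gg M μ A m L fun Y DL OL => hT m L Y DL OL

namespace Asm

theorem bx_eq (n : ℕ) : SquareWell.bx d n = StableGas.bx d 0 n := rfl

theorem card_bx' (n : ℕ) : ((SquareWell.bx d n).card : ℝ) = (n : ℝ) ^ d := by
  rw [bx_eq, card_bx]
  push_cast
  congr 1

theorem card_fatr_le (r n : ℕ) : ((fatr r (SquareWell.bx d n)).card : ℝ) ≤ ((n : ℝ) + 2 * r) ^ d := by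
  have h : fatr r (SquareWell.bx d n) ⊆ StableGas.bx d (-r) (n + r) := by
    intro x hx
    unfold fatr at hx
    rw [mem_biUnion] at hx
    obtain ⟨y, hy, hx⟩ := hx
    rw [bx_eq, mem_bx] at hy
    rw [Fintype.mem_piFinset] at hx
    rw [mem_bx]
    intro k
    have h1 := hy k
    have h2 := Finset.mem_Icc.1 (hx k)
    omega
  have h1 := card_le_card h
  rw [card_bx] at h1
  have h2 : ((n : ℤ) + r - -(r : ℤ)).toNat = n + 2 * r := by omega
  rw [h2] at h1
  exact_mod_cast h1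

theorem card_rb_le {S : Finset (Zd d)} {r : ℕ} (hS : ∀ v ∈ S, ∀ k, |v k| ≤ r) {n : ℕ}
    (hn : 2 * r ≤ n) :
    ((rb S (SquareWell.bx d n)).card : ℝ) ≤ (n : ℝ) ^ d - ((n : ℝ) - 2 * r) ^ d := by
  classical
  have h : rb S (SquareWell.bx d n) ⊆ SquareWell.bx d n \ StableGas.bx d r (n - r) := by
    intro x hx
    rw [Cls.mem_rb] at hx
    obtain ⟨hx, v, hv, hxv⟩ := hx
    rw [Finset.mem_sdiff]
    refine ⟨hx, fun hc => hxv ?_⟩
    rw [mem_bx] at hc
    rw [bx_eq, mem_bx]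
    intro k
    have h1 := hc k
    have h2 := abs_le.1 (hS v hv k)
    simp only [Pi.add_apply]
    omega
  have hsub : StableGas.bx d r (n - r) ⊆ SquareWell.bx d n := by
    intro x hx
    rw [mem_bx] at hx
    rw [bx_eq, mem_bx]
    intro k
    have := hx k
    omega
  have h1 := card_le_card h
  rw [card_sdiff_of_subset hsub] at h1
  have h2 : (StableGas.bx d (r : ℤ) (n - r)).card = (n - 2 * r) ^ d := by
    rw [card_bx]
    congr 1
    omega
  have h3 : (SquareWell.bx d n).card = n ^ d := by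
    rw [bx_eq, card_bx]
    congr 1
  rw [h2, h3] at h1
  have h4 : (n - 2 * r) ^ d ≤ n ^ d := Nat.pow_le_pow_left (Nat.sub_le _ _) d
  have h5 : (((n ^ d - (n - 2 * r) ^ d : ℕ)) : ℝ) = (n : ℝ) ^ d - ((n : ℝ) - 2 * r) ^ d := by
    rw [Nat.cast_sub h4]
    push_cast [Nat.cast_sub hn]
    ring
  rw [← h5]
  exact_mod_cast h1

theorem tendsto_ratio (c : ℝ) : Tendsto (fun n : ℕ => (((n : ℝ) + c) / n) ^ d) atTop (𝓝 1) := by
  have h1 : Tendsto (fun n : ℕ => 1 + c / (n : ℝ)) atTop (𝓝 (1 + 0)) :=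
    tendsto_const_nhds.add (tendsto_const_div_atTop_nhds_zero_nat c)
  have h2 : Tendsto (fun n : ℕ => (1 + c / (n : ℝ)) ^ d) atTop (𝓝 ((1 + 0) ^ d)) := h1.pow d
  rw [add_zero, one_pow] at h2
  refine h2.congr' ?_
  filter_upwards [eventually_ge_atTop 1] with n hn
  have : (n : ℝ) ≠ 0 := by
    have : (1 : ℝ) ≤ n := by exact_mod_cast hn
    linarith
  congr 1
  field_simp

theorem eventually_fatr (r : ℕ) : ∀ᶠ n : ℕ in atTop,
    (fatr r (SquareWell.bx d n)).card ≤ 2 * (SquareWell.bx d n).card := by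
  have h := tendsto_ratio (d := d) (2 * r)
  filter_upwards [h.eventually (gt_mem_nhds (show (1 : ℝ) < 2 by norm_num)),
    eventually_ge_atTop 1] with n hn hn1
  have hn0 : (0 : ℝ) < n := by exact_mod_cast hn1
  have h1 := card_fatr_le (d := d) r n
  rw [div_pow, div_lt_iff₀ (pow_pos hn0 d)] at hn
  have h2 := card_bx' (d := d) n
  have h3 : ((fatr r (SquareWell.bx d n)).card : ℝ) ≤ 2 * (SquareWell.bx d n).card := by
    rw [h2]
    linarith
  exact_mod_cast h3

theorem tendsto_rb {S : Finset (Zd d)} {r : ℕ} (hS : ∀ v ∈ S, ∀ k, |v k| ≤ r) :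
    Tendsto (fun n : ℕ => ((rb S (SquareWell.bx d n)).card : ℝ) / (n : ℝ) ^ d) atTop (𝓝 0) := by
  have h := tendsto_ratio (d := d) (-(2 * r))
  have h1 : Tendsto (fun n : ℕ => 1 - (((n : ℝ) + -(2 * r)) / n) ^ d) atTop (𝓝 (1 - 1)) :=
    tendsto_const_nhds.sub h
  rw [sub_self] at h1
  refine tendsto_of_tendsto_of_tendsto_of_le_of_le' tendsto_const_nhds h1 ?_ ?_
  · exact Eventually.of_forall fun n => by positivity
  · filter_upwards [eventually_ge_atTop 1, eventually_ge_atTop (2 * r)] with n hn1 hn2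
    have hn0 : (0 : ℝ) < n := by exact_mod_cast hn1
    have h2 := card_rb_le hS hn2
    rw [div_le_iff₀ (pow_pos hn0 d), div_pow, sub_mul, div_mul_cancel₀ _ (pow_pos hn0 d).ne',
      one_mul, ← sub_eq_add_neg]
    exact h2

/-- The weights of the classes sum up. -/
theorem sum_T {F : Finset (Finset (Zd d))} {X τ : ℝ} :
    ∑ L ∈ F, 4 ^ L.card * ex (X - τ * L.card) =
      ex X * ENNReal.ofReal (∑ L ∈ F, (4 * Real.exp (-τ)) ^ L.card) := by
  rw [ENNReal.ofReal_sum_of_nonneg fun L _ => by positivity, mul_sum]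
  refine sum_congr rfl fun L _ => ?_
  rw [sub_eq_add_neg, ex_add, mul_left_comm]
  congr 1
  rw [mul_pow, ENNReal.ofReal_mul (by positivity), ENNReal.ofReal_pow (by norm_num)]
  congr 1
  · norm_num
  · unfold ex
    rw [← Real.exp_nat_mul]
    congr 2
    ring

end Asm

theorem not_differentiable (d r : ℕ) (hd : 2 ≤ d) : ∃ C : ℝ, ∀ (E : Type) (_ : MeasurableSpace E)
    (M : Md d E), M.r = r → Small M → C ≤ M.K * M.N ^ 2 → ∀ p : ℝ → ℝ, M.IsP p →
      ¬ Differentiable ℝ p := by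
  classical
  obtain ⟨τ0, hτ0⟩ := entropy (d := d) hd
  refine ⟨2 ^ 14 * (2 * r + 1) ^ d * τ0, ?_⟩
  intro E _ M hr hS hC p hp hdiff
  have hd1 : 1 ≤ d := by omega
  obtain ⟨μa, μb, hab, ha, hb, hloc, hΔ⟩ := exists_ab M hd1 hS hp hdiff
  have Ga : M.Glue μa (M.N / 2 ^ 16) (p μa) := glue M hd1 hp ha
  have Gb : M.Glue μb (63 / 64 * M.N) (p μb) := glue M hd1 hp hb
  have hN0 : (0 : ℝ) < M.N := by exact_mod_cast M.hN
  have hK := M.hK
  have hΔ0 : 0 < μb - μa := by linarith
  set μ : ℝ := (μa + μb) / 2 with hμ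
  set q : ℝ := max (p μa + (μb - μa) / 2 * (M.N / 2 ^ 16)) (p μb - (μb - μa) / 2 * (63 / 64 * M.N))
    with hq
  have hq1 : p μa + (μb - μa) / 2 * (M.N / 2 ^ 16) ≤ q := le_max_left _ _
  have hq2 : p μb - (μb - μa) / 2 * (63 / 64 * M.N) ≤ q := le_max_right _ _
  have hq0 : 0 < q := by
    have h1 : 0 ≤ p μa := hp.nonneg hd1 μa
    have h2 : 0 < (μb - μa) / 2 * (M.N / 2 ^ 16) := by positivity
    linarith
  -- convexity
  have hcv := hp.convex hd1
  have tangent : ∀ x D y : ℝ, HasDerivAt p D x → p x + D * (y - x) ≤ p y := by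
    intro x D y hx
    rcases lt_trichotomy x y with h | h | h
    · have h1 := hcv.le_slope_of_hasDerivAt (Set.mem_univ x) (Set.mem_univ y) h hx
      rw [slope_def_field, le_div_iff₀ (by linarith)] at h1
      linarith
    · rw [h]; simp
    · have h1 := hcv.slope_le_of_hasDerivAt (Set.mem_univ y) (Set.mem_univ x) h hx
      rw [slope_def_field, div_le_iff₀ (by linarith)] at h1
      linarith
  have hlow : q ≤ p μ := by
    rw [hq]
    refine max_le ?_ ?_
    · have h1 := tangent μa _ μ ha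
      have e1 : (M.N : ℝ) / 2 ^ 16 * (μ - μa) = (μb - μa) / 2 * (M.N / 2 ^ 16) := by
        rw [hμ]; ring
      linarith
    · have h1 := tangent μb _ μ hb
      have e1 : 63 / 64 * (M.N : ℝ) * (μ - μb) = -((μb - μa) / 2 * (63 / 64 * M.N)) := by
        rw [hμ]; ring
      linarith
  -- the parameters
  set e : ℝ := M.K * M.N ^ 2 with he
  have he0 : 0 < e := by positivity
  set τ : ℝ := e / (2 ^ 14 * (2 * M.r + 1) ^ d) with hτ
  have hττ : τ0 ≤ τ := by
    rw [hτ, le_div_iff₀ (by positivity), hr]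
    linarith
  set ζ : ℝ := (μb - μa) * M.N / 2 ^ 20 with hζ
  have hζ0 : 0 < ζ := by positivity
  obtain ⟨hent1, hent2⟩ := hτ0 τ hττ
  obtain ⟨m, hm, hent3⟩ := hent2 ζ hζ0
  set C' : ℝ := M.b + M.K * M.N ^ 2 * M.S.card with hC'
  have hC'0 : 0 ≤ C' := by
    have := b_nonneg M
    positivity
  have hμloc : μ ≤ -(1 / 2) * M.K * M.S.card * M.N * (1 - 1 / 2 ^ 22) := by linarith
  set M0 : ℝ := max 0 (q - (μb - μa) * M.N / 2 ^ 19) with hM0
  have hM00 : 0 ≤ M0 := le_max_left _ _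
  -- upper bound
  have hup : ∀ᶠ n : ℕ in atTop, Real.log (M.xi μ (SquareWell.bx d n)).toReal / (n : ℝ) ^ d ≤
      Real.log (1 + m) / (n : ℝ) ^ d + M0 +
        C' * (((rb M.S (SquareWell.bx d n)).card : ℝ) / (n : ℝ) ^ d) := by
    filter_upwards [Asm.eventually_fatr (d := d) M.r, eventually_ge_atTop 1] with n hn hn1
    have hn0 : (0 : ℝ) < n := by exact_mod_cast hn1
    have hnd : (0 : ℝ) < (n : ℝ) ^ d := pow_pos hn0 d
    set A : Finset (Zd d) := SquareWell.bx d n with hA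
    set X : ℝ := q * A.card - (μb - μa) / 2 ^ 18 * M.N * A.card + C' * (rb M.S A).card with hX
    have hsum := sum_classes M hd μ A (NConn_bx hd 0 n) m hm (fun _ L => ex (X - τ * L.card))
      (fun s L Y DL OL => by
        have h1 := class_bound M hd hS hab hloc hΔ Ga Gb hq0.le hq1 hq2 A s L Y DL OL
        exact h1)
    have hcc := caseC M hS hμloc A
    simp only [Asm.sum_T] at hsum
    have h2 : ∑ s ∈ Finset.Ico 1 m, ex X * ENNReal.ofReal (∑ L ∈ (Fam (fatr M.r A) s).filter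
        (fun L => (A.card : ℝ) / 2 ^ 20 ≤ 2 * s ^ 3 * num L s), (4 * Real.exp (-τ)) ^ L.card) ≤
        ∑ s ∈ Finset.Ico 1 m, ex X := by
      refine sum_le_sum fun s hs => ?_
      have h3 := hent1 s (Finset.mem_Ico.1 hs).1 (fatr M.r A) A.card hn
      calc ex X * ENNReal.ofReal _ ≤ ex X * 1 := by
            apply mul_le_mul_right
            exact ENNReal.ofReal_le_one.2 h3
        _ = ex X := mul_one _
    rw [sum_const, Nat.card_Ico, nsmul_eq_mul] at h2
    have h4 := hent3 (fatr M.r A)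
    have h5 : ζ * (fatr M.r A).card ≤ 2 * ζ * A.card := by
      have : ((fatr M.r A).card : ℝ) ≤ 2 * A.card := by exact_mod_cast hn
      nlinarith
    have h6 : ex X * ENNReal.ofReal (∑ L ∈ Fam (fatr M.r A) m, (4 * Real.exp (-τ)) ^ L.card) ≤
        ex (X + 2 * ζ * A.card) := by
      rw [ex_add X (2 * ζ * A.card)]
      apply mul_le_mul_right
      unfold ex
      apply ENNReal.ofReal_le_ofReal
      exact h4.trans (Real.exp_le_exp.2 h5)
    have hAc : (0 : ℝ) ≤ A.card := Nat.cast_nonneg _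
    have hrc : (0 : ℝ) ≤ (rb M.S A).card := Nat.cast_nonneg _
    set Q : ℝ := M0 * A.card + C' * (rb M.S A).card with hQ
    have hQ0 : 0 ≤ Q := by positivity
    have hXQ : X + 2 * ζ * A.card ≤ Q := by
      have e1 : X + 2 * ζ * A.card = (q - (μb - μa) * M.N / 2 ^ 19) * A.card +
          C' * (rb M.S A).card := by
        rw [hX, hζ]; ring
      rw [e1, hQ]
      have hM1 : q - (μb - μa) * M.N / 2 ^ 19 ≤ M0 := le_max_right _ _
      have := mul_le_mul_of_nonneg_right hM1 hAc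
      linarith
    have hXQ' : X ≤ Q := by
      have : 0 ≤ 2 * ζ * A.card := by positivity
      linarith
    have hfin : M.xi μ A ≤ ENNReal.ofReal ((1 + m) * Real.exp Q) := by
      have e1 : ENNReal.ofReal ((1 + m) * Real.exp Q) = ex Q + m * ex Q := by
        unfold ex
        rw [add_mul, one_mul, ENNReal.ofReal_add (Real.exp_pos _).le (by positivity),
          ENNReal.ofReal_mul (by positivity), ENNReal.ofReal_natCast]
      rw [e1]
      have e2 : (m : ENNReal) = (m - 1 : ℕ) + 1 := by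
        have : m = (m - 1) + 1 := by omega
        exact_mod_cast this
      rw [e2, add_mul, one_mul, ← add_assoc]
      refine hsum.trans (add_le_add (add_le_add ?_ ?_) ?_)
      · exact hcc.trans (one_le_ex.2 hQ0)
      · exact h2.trans (mul_le_mul_right (ex_le_ex.2 hXQ') _)
      · exact h6.trans (ex_le_ex.2 hXQ)
    have hlog : Real.log (M.xi μ A).toReal ≤ Real.log (1 + m) + Q := by
      have h7 : (M.xi μ A).toReal ≤ (1 + m) * Real.exp Q := by
        refine ENNReal.toReal_le_of_le_ofReal (by positivity) hfin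
      have h8 : 0 < (M.xi μ A).toReal := by
        refine ENNReal.toReal_pos ?_ (xi_ne_top M μ A)
        have := one_le_xi M μ A
        intro h
        rw [h] at this
        simp at this
      calc Real.log (M.xi μ A).toReal ≤ Real.log ((1 + m) * Real.exp Q) :=
            Real.log_le_log h8 h7
        _ = Real.log (1 + m) + Q := by
            rw [Real.log_mul (by positivity) (Real.exp_pos _).ne', Real.log_exp]
    have hcard : (A.card : ℝ) = (n : ℝ) ^ d := Asm.card_bx' n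
    calc Real.log (M.xi μ A).toReal / (n : ℝ) ^ d ≤ (Real.log (1 + m) + Q) / (n : ℝ) ^ d :=
          div_le_div_of_nonneg_right hlog hnd.le
      _ = _ := by
          rw [hQ, hcard]
          field_simp
          ring
  have hlim : Tendsto (fun n : ℕ => Real.log (1 + m) / (n : ℝ) ^ d + M0 +
      C' * (((rb M.S (SquareWell.bx d n)).card : ℝ) / (n : ℝ) ^ d)) atTop
      (𝓝 (0 + M0 + C' * 0)) := by
    refine Tendsto.add (Tendsto.add ?_ tendsto_const_nhds) ?_
    · refine Tendsto.const_div_atTop ?_ _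
      exact (tendsto_pow_atTop (by omega)).comp tendsto_natCast_atTop_atTop
    · exact (Asm.tendsto_rb M.S_r).const_mul C'
  have hfinal := le_of_tendsto_of_tendsto (hp μ) hlim hup
  rw [zero_add, mul_zero, add_zero] at hfinal
  have hlt : M0 < q := by
    rw [hM0]
    refine max_lt hq0 ?_
    have : 0 < (μb - μa) * M.N / 2 ^ 19 := by positivity
    linarith
  linarith

end Pool.Agent.SquareWell
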