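import Pool.Agent.Lib.MP_09cbbd_sw.Pack
import Pool.Agent.Lib.MP_09cbbd_sw.Def
import Pool.Agent.Lib.MP_09cbbd_mp_h27.PsAff
import Pool.Agent.Lib.MP_09cbbd_mp_h27.PsCan
import Pool.Agent.Lib.MP_09cbbd_mp_h27.PsIns

/-!
# The canonical partition functions
-/

set_option autoImplicit false

namespace Pool.Agent.SquareWell

open MeasureTheory Finset Filter Topology Pool.Agent.StableGas Pool.Agent.SquareWellGas

namespace Can

open Pool.Agent.ConfinedGas

variable {d : ℕ}

/-- The ordered pairs of points at distance at most `R`. -/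
noncomputable def pset {ι : Type} [Fintype ι] (R : ℝ) (x : ι → Fin d → ℝ) : Finset (ι × ι) := by
  classical exact univ.filter fun p : ι × ι =>
    p.1 ≠ p.2 ∧ ConfinedGas.sq (x p.1) (x p.2) ≤ R ^ 2

theorem mem_pset {ι : Type} [Fintype ι] {R : ℝ} {x : ι → Fin d → ℝ} {p : ι × ι} :
    p ∈ pset R x ↔ p.1 ≠ p.2 ∧ ConfinedGas.sq (x p.1) (x p.2) ≤ R ^ 2 := by
  classical
  unfold pset
  rw [mem_filter]
  exact ⟨fun h => h.2, fun h => ⟨mem_univ _, h⟩⟩

/-- Number of the ordered pairs of points at distance at most `R`. -/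
noncomputable def qq {ι : Type} [Fintype ι] (R : ℝ) (x : ι → Fin d → ℝ) : ℕ := (pset R x).card

theorem measurable_qq {ι : Type} [Fintype ι] (R : ℝ) :
    Measurable fun x : ι → Fin d → ℝ => (qq R x : ℝ) := by
  classical
  have e : (fun x : ι → Fin d → ℝ => (qq R x : ℝ)) = fun x => ∑ p : ι × ι,
      if p.1 ≠ p.2 ∧ ConfinedGas.sq (x p.1) (x p.2) ≤ R ^ 2 then (1 : ℝ) else 0 := by
    funext x
    rw [Finset.sum_boole]
    unfold qq pset
    congr 2
  rw [e]
  refine Finset.measurable_sum _ fun p _ => ?_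
  refine Measurable.ite ?_ measurable_const measurable_const
  by_cases hp : p.1 = p.2
  · simp [hp]
  · simp only [ne_eq, hp, not_false_eq_true, true_and]
    exact measurableSet_le (measurable_sq p.1 p.2) measurable_const

/-- The weight. -/
noncomputable def wt {ι : Type} [Fintype ι] (R K : ℝ) (x : ι → Fin d → ℝ) : ENNReal :=
  ex (K / 2 * qq R x)

theorem measurable_ex : Measurable ex := by
  unfold ex
  exact ENNReal.measurable_ofReal.comp Real.measurable_exp

theorem measurable_wt {ι : Type} [Fintype ι] (R K : ℝ) :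
    Measurable fun x : ι → Fin d → ℝ => wt R K x :=
  measurable_ex.comp ((measurable_qq R).const_mul _)

theorem one_le_wt {ι : Type} [Fintype ι] {R K : ℝ} (hK : 0 ≤ K) (x : ι → Fin d → ℝ) :
    1 ≤ wt R K x := one_le_ex.2 (by positivity)

/-- The partition function of labelled particles. -/
noncomputable def WW (ι : Type) [Fintype ι] (R K : ℝ) (A : Set (Fin d → ℝ)) : ENNReal :=
  ∫⁻ x in Cf 1 ι A, wt R K x

theorem qq_equiv {ι κ : Type} [Fintype ι] [Fintype κ] (e : ι ≃ κ) (R : ℝ) (x : κ → Fin d → ℝ) :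
    qq R (fun i => x (e i)) = qq R x := by
  classical
  unfold qq
  refine Finset.card_bij (fun p _ => (e p.1, e p.2)) ?_ ?_ ?_
  · intro p hp
    rw [mem_pset] at hp ⊢
    exact ⟨fun h => hp.1 (e.injective h), hp.2⟩
  · intro p _ q _ h
    have h1 := Prod.mk.inj h
    exact Prod.ext (e.injective h1.1) (e.injective h1.2)
  · intro q hq
    rw [mem_pset] at hq
    refine ⟨(e.symm q.1, e.symm q.2), ?_, by simp⟩
    rw [mem_pset]
    refine ⟨fun h => hq.1 (e.symm.injective h), ?_⟩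
    simpa using hq.2

theorem Cf_equiv {ι κ : Type} (e : ι ≃ κ) (A : Set (Fin d → ℝ)) (x : κ → Fin d → ℝ) :
    (fun i => x (e i)) ∈ Cf 1 ι A ↔ x ∈ Cf 1 κ A := by
  constructor
  · rintro ⟨h1, h2⟩
    refine ⟨fun k => ?_, fun k l hkl => ?_⟩
    · have := h1 (e.symm k)
      simpa using this
    · have := h2 (e.symm k) (e.symm l) fun h => hkl (e.symm.injective h)
      simpa using this
  · rintro ⟨h1, h2⟩
    exact ⟨fun i => h1 _, fun i j hij => h2 _ _ fun h => hij (e.injective h)⟩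

theorem WW_congr {ι κ : Type} [Fintype ι] [Fintype κ] (e : ι ≃ κ) (R K : ℝ)
    {A : Set (Fin d → ℝ)} (hA : MeasurableSet A) : WW ι R K A = WW κ R K A := by
  unfold WW
  have h := volume_measurePreserving_piCongrLeft (fun _ : κ => Fin d → ℝ) e
  have hx : ∀ x : ι → Fin d → ℝ, (fun i => (MeasurableEquiv.piCongrLeft
      (fun _ : κ => Fin d → ℝ) e) x (e i)) = x := by
    intro x
    funext i
    exact Equiv.piCongrLeft_apply_apply (fun _ : κ => Fin d → ℝ) e x i
  rw [← h.setLIntegral_comp_preimage (measurableSet_Cf 1 κ hA) (measurable_wt R K)]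
  have e1 : (MeasurableEquiv.piCongrLeft (fun _ : κ => Fin d → ℝ) e) ⁻¹' Cf 1 κ A =
      Cf 1 ι A := by
    ext x
    rw [Set.mem_preimage, ← Cf_equiv e A, hx]
  rw [e1]
  refine lintegral_congr fun x => ?_
  unfold wt
  rw [← qq_equiv e R, hx]

theorem WW_inst {ι : Type} (i1 i2 : Fintype ι) (R K : ℝ) (A : Set (Fin d → ℝ)) :
    @WW d ι i1 R K A = @WW d ι i2 R K A := by
  rw [Subsingleton.elim i1 i2]

theorem WW_mono {ι : Type} [Fintype ι] (R K : ℝ) {A A' : Set (Fin d → ℝ)} (h : A ⊆ A') :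
    WW ι R K A ≤ WW ι R K A' := lintegral_mono_set (Cf_mono 1 ι h)

theorem qq_le {ι : Type} [Fintype ι] (R : ℝ) (x : ι → Fin d → ℝ) :
    qq R x ≤ Fintype.card ι ^ 2 := by
  classical
  unfold qq
  refine (card_le_univ _).trans ?_
  rw [Fintype.card_prod, pow_two]

theorem WW_ne_top {ι : Type} [Fintype ι] {R K : ℝ} {A : Set (Fin d → ℝ)}
    (hA : volume A ≠ ⊤) : WW ι R K A ≠ ⊤ := by
  have h1 : WW ι R K A ≤ ex (|K| / 2 * (Fintype.card ι ^ 2 : ℕ)) * volume (Cf 1 ι A) := by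
    unfold WW
    rw [← setLIntegral_const]
    refine lintegral_mono fun x => ?_
    unfold wt
    rw [ex_le_ex]
    have h2 : (qq R x : ℝ) ≤ (Fintype.card ι ^ 2 : ℕ) := by exact_mod_cast qq_le R x
    have h3 : K / 2 ≤ |K| / 2 := by linarith [le_abs_self K]
    exact mul_le_mul h3 h2 (by positivity) (by positivity)
  exact ne_top_of_le_ne_top (ENNReal.mul_ne_top (ex_ne_top _) (volume_Cf_lt_top 1 ι hA)) h1

theorem qq_split {ι : Type} [Fintype ι] (R : ℝ) (p : ι → Prop) [DecidablePred p]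
    (x : ι → Fin d → ℝ) : qq R (fun i : {i // p i} => x i) + qq R (fun i : {i // ¬ p i} => x i) ≤
      qq R x := by
  classical
  unfold qq
  have c1 := card_image_of_injOn (s := pset R fun i : {i // p i} => x i)
      (f := fun q : {i // p i} × {i // p i} => ((q.1 : ι), (q.2 : ι))) (by
        intro a _ b _ h
        have h1 := Prod.mk.inj h
        exact Prod.ext (Subtype.ext h1.1) (Subtype.ext h1.2))
  have c2 := card_image_of_injOn (s := pset R fun i : {i // ¬ p i} => x i)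
      (f := fun q : {i // ¬ p i} × {i // ¬ p i} => ((q.1 : ι), (q.2 : ι))) (by
        intro a _ b _ h
        have h1 := Prod.mk.inj h
        exact Prod.ext (Subtype.ext h1.1) (Subtype.ext h1.2))
  rw [← c1, ← c2, ← card_union_of_disjoint]
  · refine card_le_card fun q hq => ?_
    rw [mem_union, mem_image, mem_image] at hq
    rw [mem_pset]
    rcases hq with ⟨a, ha, rfl⟩ | ⟨a, ha, rfl⟩
    · rw [mem_pset] at ha
      exact ⟨fun h => ha.1 (Subtype.ext h), ha.2⟩
    · rw [mem_pset] at ha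
      exact ⟨fun h => ha.1 (Subtype.ext h), ha.2⟩
  · rw [Finset.disjoint_left]
    intro q hq hq'
    rw [mem_image] at hq hq'
    obtain ⟨a, _, rfl⟩ := hq
    obtain ⟨b, _, hb⟩ := hq'
    have h1 := (Prod.mk.inj hb).1
    have h2 : ¬ p (a.1 : ι) := by rw [← h1]; exact b.1.2
    exact h2 a.1.2

theorem piece_le {ι : Type} [Fintype ι] (p : ι → Prop) [DecidablePred p] {R K : ℝ} (hK : 0 ≤ K)
    {R1 R2 : Set (Fin d → ℝ)} (h1 : MeasurableSet R1) (h2 : MeasurableSet R2)
    (hfar : Far 1 R1 R2) : WW {i // p i} R K R1 * WW {i // ¬ p i} R K R2 ≤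
      ∫⁻ x in {x : ι → Fin d → ℝ | x ∈ Cf 1 ι (R1 ∪ R2) ∧ ∀ i, x i ∈ R1 ↔ p i}, wt R K x := by
  have hmp := volume_preserving_piEquivPiSubtypeProd (fun _ : ι => Fin d → ℝ) p
  obtain ⟨T, hT⟩ : ∃ T : Set (({i // p i} → Fin d → ℝ) × ({i // ¬ p i} → Fin d → ℝ)),
      T = Cf 1 {i // p i} R1 ×ˢ Cf 1 {i // ¬ p i} R2 := ⟨_, rfl⟩
  have mT : MeasurableSet T := by
    rw [hT]
    exact (measurableSet_Cf 1 _ h1).prod (measurableSet_Cf 1 _ h2)
  have hdis := hfar.disjoint one_pos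
  have e : (MeasurableEquiv.piEquivPiSubtypeProd (fun _ : ι => Fin d → ℝ) p) ⁻¹' T ⊆
      {x : ι → Fin d → ℝ | x ∈ Cf 1 ι (R1 ∪ R2) ∧ ∀ i, x i ∈ R1 ↔ p i} := by
    intro x hx
    rw [hT] at hx
    obtain ⟨⟨g1, g2⟩, ⟨g3, g4⟩⟩ := hx
    have a1 : ∀ i, p i → x i ∈ R1 := fun i hi => g1 ⟨i, hi⟩
    have a2 : ∀ i, ¬ p i → x i ∈ R2 := fun i hi => g3 ⟨i, hi⟩
    refine ⟨⟨fun i => ?_, fun i j hij => ?_⟩, fun i => ⟨fun hi => ?_, a1 i⟩⟩
    · by_cases hi : p i
      · exact Or.inl (a1 i hi)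
      · exact Or.inr (a2 i hi)
    · by_cases hi : p i <;> by_cases hj : p j
      · exact g2 ⟨i, hi⟩ ⟨j, hj⟩ fun hh => hij (congrArg Subtype.val hh)
      · exact hfar _ (a1 i hi) _ (a2 j hj)
      · rw [sq_comm]
        exact hfar _ (a1 j hj) _ (a2 i hi)
      · exact g4 ⟨i, hi⟩ ⟨j, hj⟩ fun hh => hij (congrArg Subtype.val hh)
    · by_contra hp
      exact Set.disjoint_left.1 hdis hi (a2 i hp)
  refine le_trans ?_ (lintegral_mono_set e)
  have h3 : ∀ x : ι → Fin d → ℝ, (fun q : ({i // p i} → Fin d → ℝ) × ({i // ¬ p i} → Fin d → ℝ) =>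
      wt R K q.1 * wt R K q.2)
        ((MeasurableEquiv.piEquivPiSubtypeProd (fun _ : ι => Fin d → ℝ) p) x) ≤ wt R K x := by
    intro x
    change wt R K (fun i : {i // p i} => x i) * wt R K (fun i : {i // ¬ p i} => x i) ≤ wt R K x
    unfold wt
    rw [← ex_add, ex_le_ex, ← mul_add]
    have h4 := qq_split R p x
    have h5 : (qq R (fun i : {i // p i} => x i) : ℝ) + qq R (fun i : {i // ¬ p i} => x i) ≤
        qq R x := by exact_mod_cast h4
    exact mul_le_mul_of_nonneg_left h5 (by positivity)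
  refine le_trans ?_ (lintegral_mono h3)
  have hmeas : Measurable fun q : ({i // p i} → Fin d → ℝ) × ({i // ¬ p i} → Fin d → ℝ) =>
      wt R K q.1 * wt R K q.2 :=
    ((measurable_wt R K).comp measurable_fst).mul ((measurable_wt R K).comp measurable_snd)
  rw [hmp.setLIntegral_comp_preimage mT hmeas, hT, Measure.volume_eq_prod,
    ← Measure.prod_restrict,
    lintegral_prod_mul (measurable_wt R K).aemeasurable (measurable_wt R K).aemeasurable]
  exact le_of_eq rfl

theorem WW_union (N k : ℕ) {R K : ℝ} (hK : 0 ≤ K)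
    {R1 R2 : Set (Fin d → ℝ)} (h1 : MeasurableSet R1) (h2 : MeasurableSet R2)
    (hfar : Far 1 R1 R2) : (N.choose k : ENNReal) * (WW (Fin k) R K R1 * WW (Fin (N - k)) R K R2) ≤
      WW (Fin N) R K (R1 ∪ R2) := by
  classical
  have hm : ∀ A : Finset (Fin N), MeasurableSet
      {x : Fin N → Fin d → ℝ | x ∈ Cf 1 (Fin N) (R1 ∪ R2) ∧ ∀ i, x i ∈ R1 ↔ i ∈ A} := by
    intro A
    have h3 : {x : Fin N → Fin d → ℝ | x ∈ Cf 1 (Fin N) (R1 ∪ R2) ∧ ∀ i, x i ∈ R1 ↔ i ∈ A} =
        Cf 1 (Fin N) (R1 ∪ R2) ∩ ⋂ i, {x : Fin N → Fin d → ℝ | x i ∈ R1 ↔ i ∈ A} := by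
      ext x; simp
    rw [h3]
    refine (measurableSet_Cf 1 _ (h1.union h2)).inter (MeasurableSet.iInter fun i => ?_)
    by_cases hi : i ∈ A
    · simp only [hi, iff_true]
      exact measurable_pi_apply i h1
    · simp only [hi, iff_false]
      exact (measurable_pi_apply i h1).compl
  have hd : Set.PairwiseDisjoint (↑((univ : Finset (Fin N)).powersetCard k)) (fun A : Finset (Fin N) =>
      {x : Fin N → Fin d → ℝ | x ∈ Cf 1 (Fin N) (R1 ∪ R2) ∧ ∀ i, x i ∈ R1 ↔ i ∈ A}) := by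
    intro A _ B _ hAB
    rw [Function.onFun, Set.disjoint_left]
    rintro x ⟨_, h1⟩ ⟨_, h2⟩
    apply hAB
    ext i
    rw [← h1, ← h2]
  have h3 := lintegral_biUnion_finset (μ := volume) (s := (univ : Finset (Fin N)).powersetCard k)
    hd (fun A _ => hm A) (fun x : Fin N → Fin d → ℝ => wt R K x)
  have h4 : ∀ A ∈ (univ : Finset (Fin N)).powersetCard k,
      WW (Fin k) R K R1 * WW (Fin (N - k)) R K R2 ≤
      ∫⁻ x in {x : Fin N → Fin d → ℝ | x ∈ Cf 1 (Fin N) (R1 ∪ R2) ∧ ∀ i, x i ∈ R1 ↔ i ∈ A},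
        wt R K x := by
    intro A hA
    rw [mem_powersetCard] at hA
    have c1 : Fintype.card {i // i ∈ A} = k := by rw [Fintype.card_coe]; exact hA.2
    have c2 : Fintype.card {i // ¬ i ∈ A} = N - k := by
      have h5 := Fintype.card_subtype_compl (fun i => i ∈ A)
      rw [c1, Fintype.card_fin] at h5
      exact h5
    rw [← WW_congr (Fintype.equivFinOfCardEq c1) R K h1,
      ← WW_congr (Fintype.equivFinOfCardEq c2) R K h2]
    have h6 := piece_le (fun i => i ∈ A) hK (R := R) h1 h2 hfar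
    refine le_trans (le_of_eq ?_) h6
    congr 1
    exact WW_inst _ _ R K R1
  have h5 := Finset.card_nsmul_le_sum _ _ _ h4
  rw [card_powersetCard, card_univ, Fintype.card_fin, nsmul_eq_mul] at h5
  refine h5.trans (h3.symm.le.trans (lintegral_mono_set ?_))
  intro x hx
  simp only [Set.mem_iUnion] at hx
  obtain ⟨A, _, hx, _⟩ := hx
  exact hx

/-- Canonical partition function of a region. -/
noncomputable def zc (R K : ℝ) (A : Set (Fin d → ℝ)) (N : ℕ) : ℝ :=
  ((N.factorial : ℝ))⁻¹ * (WW (Fin N) R K A).toReal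

theorem zc_nonneg (R K : ℝ) (A : Set (Fin d → ℝ)) (N : ℕ) : 0 ≤ zc R K A N :=
  mul_nonneg (by positivity) ENNReal.toReal_nonneg

theorem zc_mono {R K : ℝ} {A A' : Set (Fin d → ℝ)} (h : A ⊆ A')
    (hA : volume A' ≠ ⊤) (N : ℕ) : zc R K A N ≤ zc R K A' N := by
  unfold zc
  refine mul_le_mul_of_nonneg_left ?_ (by positivity)
  exact ENNReal.toReal_mono (WW_ne_top hA) (WW_mono R K h)

theorem zc_union_ge {R K : ℝ} (hK : 0 ≤ K) {R1 R2 : Set (Fin d → ℝ)} (h : Far 1 R1 R2)
    (h1 : MeasurableSet R1) (h2 : MeasurableSet R2) (f : volume (R1 ∪ R2) ≠ ⊤) (k l : ℕ) :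
    zc R K R1 k * zc R K R2 l ≤ zc R K (R1 ∪ R2) (k + l) := by
  have h4 := WW_union (R := R) (k + l) k hK h1 h2 h
  rw [Nat.add_sub_cancel_left] at h4
  have h5 := ENNReal.toReal_mono (WW_ne_top f) h4
  rw [ENNReal.toReal_mul, ENNReal.toReal_mul, ENNReal.toReal_natCast] at h5
  have h6 : (((k + l).choose k : ℕ) : ℝ) * k.factorial * l.factorial = (k + l).factorial := by
    have := Nat.choose_mul_factorial_mul_factorial (show k ≤ k + l by omega)
    rw [Nat.add_sub_cancel_left] at this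
    exact_mod_cast this
  unfold zc
  have p1 : (0 : ℝ) < k.factorial := by positivity
  have p2 : (0 : ℝ) < l.factorial := by positivity
  have p3 : (0 : ℝ) < (k + l).factorial := by positivity
  rw [inv_mul_eq_div, inv_mul_eq_div, inv_mul_eq_div, div_mul_div_comm,
    div_le_div_iff₀ (by positivity) p3, ← h6]
  calc (WW (Fin k) R K R1).toReal * (WW (Fin l) R K R2).toReal *
        ((((k + l).choose k : ℕ) : ℝ) * k.factorial * l.factorial)
      = ((((k + l).choose k : ℕ) : ℝ) * ((WW (Fin k) R K R1).toReal *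
        (WW (Fin l) R K R2).toReal)) * (k.factorial * l.factorial) := by ring
    _ ≤ _ := mul_le_mul_of_nonneg_right h5 (by positivity)

theorem WW_zero (R K : ℝ) (A : Set (Fin d → ℝ)) : WW (Fin 0) R K A = 1 := by
  have e : Cf 1 (Fin 0) A = Set.univ := by
    ext x
    simp only [Cf, Set.mem_ofPred_eq, Set.mem_univ, iff_true]
    exact ⟨fun i => i.elim0, fun i => i.elim0⟩
  have e2 : ∀ x : Fin 0 → Fin d → ℝ, wt R K x = 1 := by
    intro x
    have : qq R x = 0 := by
      have := qq_le R x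
      simpa using this
    unfold wt
    rw [this, Nat.cast_zero, mul_zero, ex_zero]
  unfold WW
  simp only [e, e2, Measure.restrict_univ, lintegral_const, one_mul]
  have := volume_pi_pi (fun _ : Fin 0 => (Set.univ : Set (Fin d → ℝ)))
  simp at this
  exact this

theorem zc_zero (R K : ℝ) (A : Set (Fin d → ℝ)) : zc R K A 0 = 1 := by
  unfold zc
  rw [WW_zero]
  simp

theorem zc_prod_le {R K : ℝ} (hK : 0 ≤ K) {κ : Type} [DecidableEq κ] (B : κ → Set (Fin d → ℝ))
    (hB : ∀ u v, u ≠ v → Far 1 (B u) (B v)) (m : ∀ u, MeasurableSet (B u))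
    (f : ∀ u, volume (B u) ≠ ⊤) (z : ℕ → ℝ) (hz : ∀ u n, z n = zc R K (B u) n) :
    ∀ (l : List ℕ) (s : Finset κ), s.card = l.length →
      (l.map z).prod ≤ zc R K (⋃ u ∈ s, B u) l.sum := by
  intro l
  induction l with
  | nil =>
    intro s _
    simp [zc_zero]
  | cons a l ih =>
    intro s hs
    rw [List.length_cons] at hs
    obtain ⟨u, s', hu, rfl, hs'⟩ := card_eq_succ.1 hs
    rw [List.map_cons, List.prod_cons, List.sum_cons, hz u a, set_biUnion_insert]
    have h1 := ih s' hs'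
    have hfar : Far 1 (B u) (⋃ v ∈ s', B v) := by
      intro x hx y hy
      simp only [Set.mem_iUnion] at hy
      obtain ⟨v, hv, hy⟩ := hy
      exact hB u v (fun h => hu (h ▸ hv)) x hx y hy
    have hfin : volume (B u ∪ ⋃ v ∈ s', B v) ≠ ⊤ := by
      refine ne_top_of_le_ne_top ?_ (measure_union_le _ _)
      exact ENNReal.add_ne_top.2 ⟨f u,
        (measure_biUnion_lt_top s'.finite_toSet fun v _ => (f v).lt_top).ne⟩
    have h2 := zc_union_ge (R := R) hK hfar (m u) (s'.measurableSet_biUnion fun v _ => m v) hfin a l.sum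
    refine le_trans ?_ h2
    exact mul_le_mul_of_nonneg_left h1 (zc_nonneg _ _ _ _)

theorem zc_shift (R K : ℝ) (v : Fin d → ℝ) {A : Set (Fin d → ℝ)} (hA : MeasurableSet A) (n : ℕ) :
    zc R K ((fun y => y + v) ⁻¹' A) n = zc R K A n := by
  unfold zc WW
  congr 2
  have hmp : MeasurePreserving (fun (u : Fin n → Fin d → ℝ) (i : Fin n) => u i + v)
      volume volume :=
    measurePreserving_pi (fun _ => volume) (fun _ => volume) fun _ =>
      ⟨measurable_add_const v, map_add_right_eq_self volume v⟩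
  rw [← hmp.setLIntegral_comp_preimage (measurableSet_Cf 1 (Fin n) hA) (measurable_wt R K)]
  have e1 : (fun (u : Fin n → Fin d → ℝ) (i : Fin n) => u i + v) ⁻¹' Cf 1 (Fin n) A =
      Cf 1 (Fin n) ((fun y => y + v) ⁻¹' A) := by
    ext x
    simp [Cf, ConfinedGas.sq]
  rw [e1]
  refine lintegral_congr fun x => ?_
  have e2 : pset R (fun i => x i + v) = pset R x := by
    ext p
    rw [mem_pset, mem_pset]
    simp [ConfinedGas.sq]
  unfold wt qq
  rw [e2]

theorem far_of_coord {A B : Set (Fin d → ℝ)}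
    (h : ∀ x ∈ A, ∀ y ∈ B, ∃ k, 1 ≤ |x k - y k|) : Far 1 A B := by
  intro x hx y hy
  obtain ⟨k, hk⟩ := h x hx y hy
  have h1 : (1 : ℝ) ^ 2 ≤ (x k - y k) ^ 2 := by
    rw [← sq_abs (x k - y k)]
    exact pow_le_pow_left₀ zero_le_one hk 2
  exact h1.trans (single_le_sum (f := fun k => (x k - y k) ^ 2) (fun _ _ => sq_nonneg _)
    (mem_univ k))

theorem Box_eq (ℓ : ℝ) : Box d ℓ = Set.pi Set.univ fun _ => Set.Ico (0 : ℝ) ℓ := by
  ext x
  simp [Box]

theorem measurableSet_Box (ℓ : ℝ) : MeasurableSet (Box d ℓ) := by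
  rw [Box_eq]
  exact MeasurableSet.univ_pi fun _ => measurableSet_Ico

theorem volume_Box (ℓ : ℝ) : volume (Box d ℓ) = ENNReal.ofReal ℓ ^ d := by
  rw [Box_eq, volume_pi_pi]
  simp

theorem volume_Box_ne (ℓ : ℝ) : volume (Box d ℓ) ≠ ⊤ := by
  rw [volume_Box]
  exact ENNReal.pow_ne_top ENNReal.ofReal_ne_top

theorem Box_mono {s t : ℝ} (h : s ≤ t) : Box d s ⊆ Box d t := fun _ hx k =>
  ⟨(hx k).1, lt_of_lt_of_le (hx k).2 h⟩

theorem two_pairs {N : ℕ} {R : ℝ} (x : Fin N → Fin d → ℝ) : qq R x = 2 * pairs R x := by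
  classical
  have hsplit : pset R x =
      (univ.filter fun p : Fin N × Fin N => p.1 < p.2 ∧ ∑ k, (x p.1 k - x p.2 k) ^ 2 ≤ R ^ 2) ∪
      (univ.filter fun p : Fin N × Fin N => p.2 < p.1 ∧ ∑ k, (x p.1 k - x p.2 k) ^ 2 ≤ R ^ 2) := by
    ext p
    rw [mem_pset]
    simp only [mem_filter, mem_univ, true_and, mem_union, ConfinedGas.sq]
    constructor
    · rintro ⟨h1, h2⟩
      rcases lt_or_gt_of_ne h1 with h | h
      · exact Or.inl ⟨h, h2⟩
      · exact Or.inr ⟨h, h2⟩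
    · rintro (⟨h1, h2⟩ | ⟨h1, h2⟩)
      · exact ⟨h1.ne, h2⟩
      · exact ⟨h1.ne', h2⟩
  have hswap : (univ.filter fun p : Fin N × Fin N =>
      p.2 < p.1 ∧ ∑ k, (x p.1 k - x p.2 k) ^ 2 ≤ R ^ 2).card = pairs R x := by
    unfold pairs
    refine card_bij (fun p _ => (p.2, p.1)) ?_ ?_ ?_
    · intro p hp
      rw [mem_filter] at hp ⊢
      refine ⟨mem_univ _, hp.2.1, ?_⟩
      refine le_trans (le_of_eq ?_) hp.2.2
      exact sum_congr rfl fun k _ => by ring
    · intro p _ q _ h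
      have h1 := Prod.mk.inj h
      exact Prod.ext h1.2 h1.1
    · intro q hq
      rw [mem_filter] at hq
      refine ⟨(q.2, q.1), ?_, rfl⟩
      rw [mem_filter]
      refine ⟨mem_univ _, hq.2.1, ?_⟩
      refine le_trans (le_of_eq ?_) hq.2.2
      exact sum_congr rfl fun k _ => by ring
  unfold qq
  rw [hsplit, card_union_of_disjoint, hswap]
  · unfold pairs
    ring
  · rw [Finset.disjoint_left]
    intro p hp hp'
    rw [mem_filter] at hp hp'
    exact absurd hp.2.1 (not_lt.2 hp'.2.1.le)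

theorem Z_eq {R K : ℝ} (s : ℝ) (N : ℕ) : Z d (1 / 2) R K s N = zc R K (Box d s) N := by
  unfold Z zc
  congr 1
  have e : {x : Fin N → Fin d → ℝ | (∀ i, x i ∈ Box d s) ∧
      ∀ i j, i ≠ j → (2 * (1 / 2)) ^ 2 ≤ ∑ k, (x i k - x j k) ^ 2} = Cf 1 (Fin N) (Box d s) := by
    ext x
    simp only [Cf, ConfinedGas.sq, Set.mem_ofPred_eq]
    norm_num
  have e2 : ∀ x : Fin N → Fin d → ℝ, Real.exp (K * pairs R x) = Real.exp (K / 2 * qq R x) := by
    intro x
    rw [two_pairs]
    congr 1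
    push_cast
    ring
  rw [e]
  simp only [e2]
  rw [integral_eq_lintegral_of_nonneg_ae (Eventually.of_forall fun x => (Real.exp_pos _).le)
    ((Real.measurable_exp.comp ((measurable_qq R).const_mul _)).aestronglyMeasurable)]
  rfl

/-- The number of points of a configuration close to a given point. -/
theorem close_le {ι : Type} [Fintype ι] (R : ℝ) {A : Set (Fin d → ℝ)} {x : ι → Fin d → ℝ}
    (hx : x ∈ Cf 1 ι A) (y : Fin d → ℝ) (S : Finset ι)
    (hS : ∀ i ∈ S, ConfinedGas.sq (x i) y ≤ R ^ 2) :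
    S.card ≤ mx {z : Fin d → ℝ | ∑ k, z k ^ 2 ≤ R ^ 2} := by
  refine le_mx ?_ ?_
  · rw [Metric.isBounded_iff_subset_closedBall (0 : Fin d → ℝ)]
    refine ⟨|R|, fun z hz => ?_⟩
    rw [mem_closedBall_zero_iff, pi_norm_le_iff_of_nonneg (abs_nonneg R)]
    intro k
    have h1 : z k ^ 2 ≤ R ^ 2 :=
      (single_le_sum (f := fun k => z k ^ 2) (fun _ _ => sq_nonneg _) (mem_univ k)).trans hz
    rw [Real.norm_eq_abs]
    exact sq_le_sq.1 h1
  · refine ⟨fun i => x (S.equivFin.symm i : ι) - y, fun i => ?_, fun i j hij => ?_⟩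
    · exact hS _ (S.equivFin.symm i).2
    · have h1 : ((S.equivFin.symm i : S) : ι) ≠ (S.equivFin.symm j : S) := by
        intro h
        exact hij (S.equivFin.symm.injective (Subtype.ext h))
      have h2 := hx.2 _ _ h1
      rw [one_pow] at h2
      refine h2.trans (le_of_eq ?_)
      unfold ConfinedGas.sq
      refine sum_congr rfl fun k _ => ?_
      simp only [Pi.sub_apply]
      ring

/-- The constant in the energy bound. -/
noncomputable def mm (d : ℕ) (R : ℝ) : ℕ := mx {z : Fin d → ℝ | ∑ k, z k ^ 2 ≤ R ^ 2}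

theorem qq_le_mm {ι : Type} [Fintype ι] (R : ℝ) {A : Set (Fin d → ℝ)} {x : ι → Fin d → ℝ}
    (hx : x ∈ Cf 1 ι A) : qq R x ≤ Fintype.card ι * mm d R := by
  classical
  unfold qq
  have h1 := card_le_mul_card_image (f := Prod.fst) (pset R x) (mm d R) (by
      intro a _
      rw [← card_image_of_injOn (f := Prod.snd) (by
        intro p hp q hq h
        have hp' := (mem_filter.1 (mem_coe.1 hp)).2
        have hq' := (mem_filter.1 (mem_coe.1 hq)).2
        exact Prod.ext (hp'.trans hq'.symm) h)]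
      refine close_le R hx (x a) _ fun j hj => ?_
      rw [mem_image] at hj
      obtain ⟨p, hp, rfl⟩ := hj
      rw [mem_filter, mem_pset] at hp
      rw [sq_comm, ← hp.2]
      exact hp.1.2)
  refine h1.trans ?_
  rw [mul_comm]
  exact Nat.mul_le_mul_right _ (card_le_univ _)

theorem zc_le {R K : ℝ} (hK : 0 ≤ K) {A : Set (Fin d → ℝ)} (hAm : MeasurableSet A)
    (hA : volume A ≠ ⊤) (N : ℕ) :
    zc R K A N ≤ (Real.exp (K / 2 * mm d R) * (volume A).toReal) ^ N / N.factorial := by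
  have h1 : WW (Fin N) R K A ≤ ex (K / 2 * (N * mm d R : ℕ)) * volume A ^ N := by
    have h0 := volume_Cf_le 1 (Fin N) A
    rw [Fintype.card_fin] at h0
    refine le_trans ?_ (mul_le_mul_right h0 _)
    unfold WW
    rw [← setLIntegral_const]
    refine setLIntegral_mono' (measurableSet_Cf 1 _ hAm) fun x hx => ?_
    unfold wt
    rw [ex_le_ex]
    have h2 := qq_le_mm R hx
    rw [Fintype.card_fin] at h2
    have h3 : (qq R x : ℝ) ≤ (N * mm d R : ℕ) := by exact_mod_cast h2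
    exact mul_le_mul_of_nonneg_left h3 (by positivity)
  have h2 := ENNReal.toReal_mono (ENNReal.mul_ne_top (ex_ne_top _) (ENNReal.pow_ne_top hA)) h1
  rw [ENNReal.toReal_mul, ex_toReal, ENNReal.toReal_pow] at h2
  unfold zc
  rw [inv_mul_eq_div]
  refine div_le_div_of_nonneg_right (h2.trans (le_of_eq ?_)) (by positivity)
  rw [mul_pow, ← Real.exp_nat_mul]
  push_cast
  congr 2
  ring

theorem zc_pos_iff {R K : ℝ} (hK : 0 ≤ K) {A : Set (Fin d → ℝ)}
    (hA : volume A ≠ ⊤) (N : ℕ) :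
    0 < zc R K A N ↔ 0 < cr (volume : Measure (Fin d → ℝ)) 1 N A := by
  have hmC : mC (volume : Measure (Fin d → ℝ)) 1 (Fin N) A = volume (Cf 1 (Fin N) A) := rfl
  have hne := volume_Cf_lt_top (d := d) 1 (Fin N) hA
  have h1 : 0 < zc R K A N ↔ 0 < WW (Fin N) R K A := by
    unfold zc
    constructor
    · intro h
      have h2 := pos_of_mul_pos_right h (by positivity)
      exact (ENNReal.toReal_pos_iff.1 h2).1
    · intro h
      have h2 := ENNReal.toReal_pos h.ne' (WW_ne_top (ι := Fin N) (R := R) (K := K) hA)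
      positivity
  have h2 : 0 < cr (volume : Measure (Fin d → ℝ)) 1 N A ↔ 0 < volume (Cf 1 (Fin N) A) := by
    unfold cr
    rw [hmC]
    constructor
    · intro h
      have h2 := pos_of_mul_pos_right h (by positivity)
      exact (ENNReal.toReal_pos_iff.1 h2).1
    · intro h
      have h2 := ENNReal.toReal_pos h.ne' hne
      positivity
  rw [h1, h2]
  constructor
  · intro h
    by_contra hcon
    rw [not_lt, nonpos_iff_eq_zero] at hcon
    unfold WW at h
    rw [setLIntegral_measure_zero _ _ hcon] at h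
    exact lt_irrefl _ h
  · intro h
    refine lt_of_lt_of_le h ?_
    unfold WW
    rw [← setLIntegral_one]
    exact lintegral_mono fun x => one_le_wt hK x

theorem lint_succ (N : ℕ) {F : (Fin (N + 1) → Fin d → ℝ) → ENNReal} (hF : Measurable F) :
    ∫⁻ x, F x = ∫⁻ u : Fin N → Fin d → ℝ, ∫⁻ y : Fin d → ℝ, F (Fin.cons y u) := by
  have h := (measurePreserving_piFinSuccAbove
    (fun _ : Fin (N + 1) => (volume : Measure (Fin d → ℝ))) 0).symm
  have h1 := h.lintegral_comp hF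
  have h2 : ∫⁻ x, F x = ∫⁻ x, F x ∂(Measure.pi fun _ : Fin (N + 1) => volume) := rfl
  have h3 : Measurable fun z : (Fin d → ℝ) × (Fin N → Fin d → ℝ) =>
      F ((MeasurableEquiv.piFinSuccAbove (fun _ : Fin (N + 1) => Fin d → ℝ) 0).symm z) :=
    hF.comp (MeasurableEquiv.measurable _)
  have h4 := lintegral_prod_symm' (μ := (volume : Measure (Fin d → ℝ)))
    (ν := (volume : Measure (Fin N → Fin d → ℝ))) _ h3
  rw [h2, ← h1]
  refine Eq.trans h4 ?_
  refine lintegral_congr fun u => lintegral_congr fun y => ?_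
  congr 1
  exact Fin.insertNth_zero' y u

theorem qq_cons {N : ℕ} (R : ℝ) {A : Set (Fin d → ℝ)} (y : Fin d → ℝ) (u : Fin N → Fin d → ℝ)
    (hu : (Fin.cons y u : Fin (N + 1) → Fin d → ℝ) ∈ Cf 1 (Fin (N + 1)) A) :
    qq R (Fin.cons y u : Fin (N + 1) → Fin d → ℝ) ≤ qq R u + 2 * mm d R := by
  classical
  have hu' : u ∈ Cf 1 (Fin N) A := ((cons_mem_Cf 1).1 hu).1
  have h1 := close_le R hu' y (univ.filter fun i => ConfinedGas.sq (u i) y ≤ R ^ 2)
    (fun i hi => (mem_filter.1 hi).2)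
  have hsub : pset R (Fin.cons y u : Fin (N + 1) → Fin d → ℝ) ⊆
      ((pset R u).image fun p => (p.1.succ, p.2.succ)) ∪
      (((univ.filter fun i => ConfinedGas.sq (u i) y ≤ R ^ 2).image fun i => ((0 : Fin (N + 1)),
        i.succ)) ∪
      ((univ.filter fun i => ConfinedGas.sq (u i) y ≤ R ^ 2).image fun i =>
        (i.succ, (0 : Fin (N + 1))))) := by
    rintro ⟨i, j⟩ hp
    rw [mem_pset] at hp
    obtain ⟨hij, hp⟩ := hp
    rw [mem_union, mem_union, mem_image, mem_image, mem_image]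
    induction i using Fin.cases with
    | zero =>
      induction j using Fin.cases with
      | zero => exact absurd rfl hij
      | succ j =>
        right; left
        refine ⟨j, ?_, rfl⟩
        rw [mem_filter]
        refine ⟨mem_univ _, ?_⟩
        simp only [Fin.cons_zero, Fin.cons_succ] at hp
        rw [sq_comm]
        exact hp
    | succ i =>
      induction j using Fin.cases with
      | zero =>
        right; right
        refine ⟨i, ?_, rfl⟩
        rw [mem_filter]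
        refine ⟨mem_univ _, ?_⟩
        simpa using hp
      | succ j =>
        left
        refine ⟨(i, j), ?_, rfl⟩
        rw [mem_pset]
        refine ⟨fun h => hij ?_, ?_⟩
        · simp only at h
          rw [h]
        · simpa using hp
  unfold qq
  refine (card_le_card hsub).trans ((card_union_le _ _).trans ?_)
  refine add_le_add card_image_le ((card_union_le _ _).trans ?_)
  rw [two_mul]
  exact add_le_add (card_image_le.trans h1) (card_image_le.trans h1)

theorem WW_insert {R K : ℝ} (hK : 0 ≤ K) {A : Set (Fin d → ℝ)} (hA : MeasurableSet A)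
    {N K' : ℕ} (hK' : ∀ n, 0 < mC (volume : Measure (Fin d → ℝ)) 1 (Fin n) A → n ≤ K')
    (hN : N ≤ K') : WW (Fin (N + 1)) R K A ≤
      ex (K * mm d R) * (((K' - N : ℕ) : ENNReal) * ENNReal.ofReal (2 * 1) ^ d) *
        WW (Fin N) R K A := by
  have h0 : (Measure.pi fun _ : Fin N => (volume : Measure (Fin d → ℝ)))
      (SF volume 1 A N (((K' - N : ℕ) : ENNReal) * ENNReal.ofReal (2 * 1) ^ d)) = 0 := by
    by_contra hcon
    have h1 := pos_chain volume le_rfl one_pos hA (K' - N) N (pos_iff_ne_zero.2 hcon)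
    have h2 := hK' _ h1
    omega
  have hF : Measurable fun x : Fin (N + 1) → Fin d → ℝ =>
      (Cf 1 (Fin (N + 1)) A).indicator (wt R K) x :=
    (measurable_wt R K).indicator (measurableSet_Cf 1 _ hA)
  have e1 : WW (Fin (N + 1)) R K A = ∫⁻ u : Fin N → Fin d → ℝ, ∫⁻ y : Fin d → ℝ,
      (Cf 1 (Fin (N + 1)) A).indicator (wt R K) (Fin.cons y u) := by
    unfold WW
    rw [← lintegral_indicator (measurableSet_Cf 1 _ hA), lint_succ N hF]
  have e2 : ∀ u : Fin N → Fin d → ℝ, (∫⁻ y : Fin d → ℝ,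
      (Cf 1 (Fin (N + 1)) A).indicator (wt R K) (Fin.cons y u)) ≤
      (Cf 1 (Fin N) A).indicator (fun u => wt R K u * ex (K * mm d R) *
        volume (A ∩ FarS 1 u)) u := by
    intro u
    by_cases hu : u ∈ Cf 1 (Fin N) A
    · rw [Set.indicator_of_mem hu, ← lintegral_indicator_const (hA.inter (measurableSet_FarS 1 u))]
      refine lintegral_mono fun y => ?_
      by_cases hy : y ∈ A ∩ FarS 1 u
      · have hc : (Fin.cons y u : Fin (N + 1) → Fin d → ℝ) ∈ Cf 1 (Fin (N + 1)) A :=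
          (cons_mem_Cf 1).2 ⟨hu, hy⟩
        rw [Set.indicator_of_mem hc, Set.indicator_of_mem hy]
        unfold wt
        rw [← ex_add, ex_le_ex]
        have h3 := qq_cons R y u hc
        have h4 : (qq R (Fin.cons y u : Fin (N + 1) → Fin d → ℝ) : ℝ) ≤
            qq R u + 2 * mm d R := by exact_mod_cast h3
        have h5 := mul_le_mul_of_nonneg_left h4 (show 0 ≤ K / 2 by positivity)
        linarith
      · have hc : (Fin.cons y u : Fin (N + 1) → Fin d → ℝ) ∉ Cf 1 (Fin (N + 1)) A :=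
          fun h => hy ((cons_mem_Cf 1).1 h).2
        rw [Set.indicator_of_notMem hc]
        exact bot_le
    · rw [Set.indicator_of_notMem hu]
      have : ∀ y : Fin d → ℝ, (Cf 1 (Fin (N + 1)) A).indicator (wt R K)
          (Fin.cons y u : Fin (N + 1) → Fin d → ℝ) = 0 := by
        intro y
        exact Set.indicator_of_notMem (fun h => hu ((cons_mem_Cf 1).1 h).1) _
      simp only [this, lintegral_zero, le_refl]
  rw [e1]
  refine (lintegral_mono e2).trans ?_
  rw [lintegral_indicator (measurableSet_Cf 1 _ hA)]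
  have h1 : ∀ᵐ u ∂((volume : Measure (Fin N → Fin d → ℝ)).restrict (Cf 1 (Fin N) A)),
      wt R K u * ex (K * mm d R) * volume (A ∩ FarS 1 u) ≤
        ex (K * mm d R) * (((K' - N : ℕ) : ENNReal) * ENNReal.ofReal (2 * 1) ^ d) *
          wt R K u := by
    rw [ae_restrict_iff' (measurableSet_Cf 1 _ hA)]
    have h2 := measure_eq_zero_iff_ae_notMem.1 h0
    have h2' : ∀ᵐ u ∂(volume : Measure (Fin N → Fin d → ℝ)),
      u ∉ SF volume 1 A N (((K' - N : ℕ) : ENNReal) * ENNReal.ofReal (2 * 1) ^ d) := h2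
    filter_upwards [h2'] with u hu huC
    have h3 : volume (A ∩ FarS 1 u) ≤ ((K' - N : ℕ) : ENNReal) * ENNReal.ofReal (2 * 1) ^ d := by
      by_contra hcon
      push Not at hcon
      exact hu ⟨huC, hcon⟩
    calc wt R K u * ex (K * mm d R) * volume (A ∩ FarS 1 u)
        ≤ wt R K u * ex (K * mm d R) *
          (((K' - N : ℕ) : ENNReal) * ENNReal.ofReal (2 * 1) ^ d) := mul_le_mul_right h3 _
      _ = _ := by ring
  refine (lintegral_mono_ae h1).trans ?_
  rw [lintegral_const_mul _ (measurable_wt R K)]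
  exact le_rfl

/-- Superadditivity. -/
theorem can_super {ℓ R K : ℝ} (hℓ : 1 < ℓ) (hK : 0 ≤ K) (L1 k L : ℕ) (l : List ℕ) (hL1 : 1 ≤ L1)
    (hkL : k * L1 ≤ L) (hl : l.length ≤ k ^ d) :
    (l.map fun N => zc R K (Box d (L1 * ℓ - 1)) N).prod ≤ zc R K (Box d (L * ℓ - 1)) l.sum := by
  classical
  have hℓ0 : 0 < ℓ := by linarith
  obtain ⟨vv, hvv⟩ : ∃ vv : (Fin d → Fin k) → Fin d → ℝ, vv = fun u κ =>
    -(((u κ : ℕ) : ℝ) * (L1 * ℓ)) := ⟨_, rfl⟩
  obtain ⟨B, hB⟩ : ∃ B : (Fin d → Fin k) → Set (Fin d → ℝ), B = fun u =>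
    (fun x => x + vv u) ⁻¹' Box d (L1 * ℓ - 1) := ⟨_, rfl⟩
  have hBmem : ∀ u x, x ∈ B u ↔ ∀ κ, ((u κ : ℕ) : ℝ) * (L1 * ℓ) ≤ x κ ∧
      x κ < ((u κ : ℕ) : ℝ) * (L1 * ℓ) + (L1 * ℓ - 1) := by
    intro u x
    rw [hB, hvv]
    simp only [Box, Set.mem_preimage, Set.mem_ofPred_eq, Pi.add_apply, Set.mem_Ico]
    refine forall_congr' fun κ => ?_
    constructor <;> rintro ⟨h3, h4⟩ <;> constructor <;> linarith
  have h8 : (1 : ℝ) ≤ L1 := by exact_mod_cast hL1
  have hLl : 0 < (L1 : ℝ) * ℓ := by positivity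
  have hfar : ∀ u v, u ≠ v → Far 1 (B u) (B v) := by
    have main : ∀ u v : Fin d → Fin k, ∀ κ, u κ < v κ → ∀ x ∈ B u, ∀ y ∈ B v,
        1 ≤ |x κ - y κ| := by
      intro u v κ huv x hx y hy
      rw [hBmem] at hx hy
      have h1 := (hx κ).2
      have h2 := (hy κ).1
      have h7 : ((u κ : ℕ) : ℝ) + 1 ≤ ((v κ : ℕ) : ℝ) := by
        have : (u κ : ℕ) + 1 ≤ (v κ : ℕ) := huv
        exact_mod_cast this
      have h9 : (((u κ : ℕ) : ℝ) + 1) * (L1 * ℓ) ≤ ((v κ : ℕ) : ℝ) * (L1 * ℓ) :=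
        mul_le_mul_of_nonneg_right h7 hLl.le
      rw [abs_sub_comm]
      refine le_trans ?_ (le_abs_self _)
      linarith
    intro u v huv
    refine far_of_coord fun x hx y hy => ?_
    obtain ⟨κ, hκ⟩ : ∃ κ, u κ ≠ v κ := by
      by_contra hcon
      push Not at hcon
      exact huv (funext hcon)
    rcases lt_or_gt_of_ne hκ with h1 | h1
    · exact ⟨κ, main u v κ h1 x hx y hy⟩
    · refine ⟨κ, ?_⟩
      rw [abs_sub_comm]
      exact main v u κ h1 y hy x hx
  have hmeas : ∀ u, MeasurableSet (B u) := by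
    intro u
    rw [hB]
    exact (measurable_add_const _) (measurableSet_Box _)
  have hvol : ∀ u, volume (B u) ≠ ⊤ := by
    intro u
    rw [hB]
    simp only
    rw [measure_preimage_add_right]
    exact volume_Box_ne _
  obtain ⟨s, hs1, hs2⟩ := exists_subset_card_eq (s := (univ : Finset (Fin d → Fin k)))
    (n := l.length) (by
      rw [card_univ, Fintype.card_fun, Fintype.card_fin, Fintype.card_fin]; exact hl)
  have key := zc_prod_le (R := R) hK B hfar hmeas hvol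
    (fun N => zc R K (Box d (L1 * ℓ - 1)) N) (fun u n => by
      rw [hB]
      exact (zc_shift R K _ (measurableSet_Box _) _).symm) l s hs2
  refine key.trans (zc_mono ?_ (volume_Box_ne _) _)
  intro x hx
  simp only [Set.mem_iUnion] at hx
  obtain ⟨u, _, hx⟩ := hx
  rw [hBmem] at hx
  intro κ
  have h1 := hx κ
  have hu : ((u κ : ℕ) : ℝ) + 1 ≤ k := by
    have : (u κ : ℕ) + 1 ≤ k := (u κ).2
    exact_mod_cast this
  have h9 : (k : ℝ) * L1 ≤ L := by exact_mod_cast hkL
  have h10 : (((u κ : ℕ) : ℝ) + 1) * (L1 * ℓ) ≤ k * (L1 * ℓ) :=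
    mul_le_mul_of_nonneg_right hu hLl.le
  have h11 : (k : ℝ) * (L1 * ℓ) ≤ L * ℓ := by
    rw [← mul_assoc]
    exact mul_le_mul_of_nonneg_right h9 hℓ0.le
  have h12 : 0 ≤ ((u κ : ℕ) : ℝ) * (L1 * ℓ) := by positivity
  exact ⟨by linarith [h1.1], by linarith [h1.2]⟩

/-- The number of points of a configuration in a box. -/
theorem card_box_le (hd : 1 ≤ d) {s : ℝ} {N : ℕ} (h : (Cf 1 (Fin N) (Box d s)).Nonempty) :
    N ≤ ⌈(d : ℝ) * s⌉₊ ^ d := by
  obtain ⟨x, hx⟩ := h
  have hd' : (0 : ℝ) < d := by exact_mod_cast hd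
  have hfl : ∀ i k, ⌊(d : ℝ) * x i k⌋₊ < ⌈(d : ℝ) * s⌉₊ := by
    intro i k
    have h1 := (hx.1 i) k
    have h2 : (d : ℝ) * x i k < d * s := mul_lt_mul_of_pos_left h1.2 hd'
    have h3 : 0 ≤ (d : ℝ) * x i k := mul_nonneg hd'.le h1.1
    have h4 : ((⌊(d : ℝ) * x i k⌋₊ : ℕ) : ℝ) < ⌈(d : ℝ) * s⌉₊ :=
      lt_of_le_of_lt (Nat.floor_le h3) (lt_of_lt_of_le h2 (Nat.le_ceil _))
    exact_mod_cast h4
  have hinj : Function.Injective fun (i : Fin N) (k : Fin d) =>
      (⟨⌊(d : ℝ) * x i k⌋₊, hfl i k⟩ : Fin ⌈(d : ℝ) * s⌉₊) := by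
    intro i j hij
    by_contra hne
    have h1 := hx.2 i j hne
    have h2 : ∀ k, (x i k - x j k) ^ 2 < 1 / (d : ℝ) ^ 2 := by
      intro k
      have h3 : ⌊(d : ℝ) * x i k⌋₊ = ⌊(d : ℝ) * x j k⌋₊ := by
        have := congrFun hij k
        exact congrArg Fin.val this
      have h4 := Nat.floor_le (mul_nonneg hd'.le ((hx.1 i) k).1)
      have h5 := Nat.lt_floor_add_one ((d : ℝ) * x i k)
      have h6 := Nat.floor_le (mul_nonneg hd'.le ((hx.1 j) k).1)
      have h7 := Nat.lt_floor_add_one ((d : ℝ) * x j k)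
      rw [h3] at h4 h5
      have h8 : |(d : ℝ) * (x i k - x j k)| < 1 := by
        rw [abs_lt]
        constructor <;> linarith
      have h9 : ((d : ℝ) * (x i k - x j k)) ^ 2 < 1 := by
        rw [← sq_abs]
        exact pow_lt_one₀ (abs_nonneg _) h8 two_ne_zero
      rw [lt_div_iff₀ (by positivity)]
      calc (x i k - x j k) ^ 2 * (d : ℝ) ^ 2 = ((d : ℝ) * (x i k - x j k)) ^ 2 := by ring
        _ < 1 := h9
    have h3 : ConfinedGas.sq (x i) (x j) < ∑ _k : Fin d, 1 / (d : ℝ) ^ 2 := by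
      unfold ConfinedGas.sq
      refine sum_lt_sum_of_nonempty ⟨⟨0, by omega⟩, mem_univ _⟩ fun k _ => h2 k
    rw [sum_const, card_univ, Fintype.card_fin, nsmul_eq_mul] at h3
    have h4 : (d : ℝ) * (1 / (d : ℝ) ^ 2) ≤ 1 := by
      have h5 : (1 : ℝ) ≤ d := by exact_mod_cast hd
      have h6 : (d : ℝ) * (1 / (d : ℝ) ^ 2) = 1 / d := by field_simp
      rw [h6]
      exact (div_le_one hd').2 h5
    rw [one_pow] at h1
    linarith
  have h := Fintype.card_le_of_injective _ hinj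
  rw [Fintype.card_fin, Fintype.card_fun, Fintype.card_fin, Fintype.card_fin] at h
  exact h

end Can

open Can

variable {d : ℕ}

/-- Partition function of the box of side `L ℓ - 1`: it is superadditive. -/
noncomputable def Zt (d : ℕ) (ℓ R K : ℝ) (L N : ℕ) : ℝ := Z d (1 / 2) R K (L * ℓ - 1) N

theorem Z_mono {R K s t : ℝ} (h : s ≤ t) (N : ℕ) : Z d (1 / 2) R K s N ≤ Z d (1 / 2) R K t N := by
  rw [Z_eq, Z_eq]
  exact zc_mono (Box_mono h) (volume_Box_ne _) N

theorem exists_th (hd : 1 ≤ d) {ℓ R K : ℝ} (hℓ : 1 < ℓ) (hR : 0 ≤ R) (hK : 0 ≤ K) :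
    ∃ C B : ℝ, Th d (Zt d ℓ R K) C B := by
  have hℓ0 : 0 < ℓ := by linarith
  have hd' : (0 : ℝ) < d := by exact_mod_cast hd
  refine ⟨Real.exp (K / 2 * mm d R) * ℓ ^ d, (d * ℓ + 1) ^ d, hd, ?_, ?_, ?_, ?_, by positivity,
    ?_, ?_⟩
  · intro L1 k L l h1 h2 h3
    unfold Zt
    simp only [Z_eq]
    exact can_super hℓ hK L1 k L l h1 h2 h3
  · intro L N M hMN
    unfold Zt
    rw [Z_eq, Z_eq, zc_pos_iff hK (volume_Box_ne _), zc_pos_iff hK (volume_Box_ne _)]
    exact cr_pos_of_le _ _ (measurableSet_Box _) (volume_Box_ne _) hMN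
  · intro L
    unfold Zt
    rw [Z_eq, zc_zero]
  · intro L N
    unfold Zt
    rw [Z_eq]
    exact zc_nonneg _ _ _ _
  · intro L N
    unfold Zt
    rw [Z_eq]
    refine (zc_le hK (measurableSet_Box _) (volume_Box_ne _) N).trans ?_
    refine div_le_div_of_nonneg_right (pow_le_pow_left₀ (by positivity) ?_ N) (by positivity)
    rw [mul_assoc]
    refine mul_le_mul_of_nonneg_left ?_ (Real.exp_pos _).le
    rw [volume_Box, ENNReal.toReal_pow, ← mul_pow]
    refine pow_le_pow_left₀ ENNReal.toReal_nonneg ?_ d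
    rw [ENNReal.toReal_ofReal', mul_comm ℓ]
    exact max_le (by linarith) (by positivity)
  · intro L N hL hp
    unfold Zt at hp
    rw [Z_eq, zc_pos_iff hK (volume_Box_ne _)] at hp
    have h1 : (Pool.Agent.ConfinedGas.Cf 1 (Fin N) (Box d (L * ℓ - 1))).Nonempty := by
      by_contra hcon
      rw [Set.not_nonempty_iff_eq_empty] at hcon
      unfold cr mC at hp
      rw [hcon, measure_empty] at hp
      simp at hp
    have h2 := card_box_le hd h1
    have hL' : (1 : ℝ) ≤ L := by exact_mod_cast hL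
    have h3 : ((⌈(d : ℝ) * (L * ℓ - 1)⌉₊ : ℕ) : ℝ) ≤ (d * ℓ + 1) * L := by
      have h4 : 0 ≤ (d : ℝ) * (L * ℓ - 1) := by
        have : (1 : ℝ) * 1 ≤ L * ℓ := mul_le_mul hL' hℓ.le zero_le_one (by positivity)
        refine mul_nonneg hd'.le (by linarith)
      have h5 := (Nat.ceil_lt_add_one h4).le
      refine h5.trans ?_
      have h6 : (d : ℝ) * (L * ℓ - 1) + 1 = d * ℓ * L + 1 - d := by ring
      rw [h6]
      have h7 : (d * ℓ + 1) * (L : ℝ) = d * ℓ * L + L := by ring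
      rw [h7]
      linarith
    have h4 : (N : ℝ) ≤ ((⌈(d : ℝ) * (L * ℓ - 1)⌉₊ : ℕ) : ℝ) ^ d := by exact_mod_cast h2
    rw [← mul_pow]
    exact h4.trans (pow_le_pow_left₀ (by positivity) h3 d)

/-- Adding a particle. -/
theorem insert_le (hd : 1 ≤ d) {ℓ R K : ℝ} (hℓ : 1 < ℓ) (hR : 0 ≤ R) (hK : 0 ≤ K) :
    ∃ v : ℝ, 0 < v ∧ ∀ L N K' : ℕ, 1 ≤ L → (∀ n, 0 < Zt d ℓ R K L n → n ≤ K') → N ≤ K' →
      ((N : ℝ) + 1) * Zt d ℓ R K L (N + 1) ≤ v * ((K' : ℝ) - N) * Zt d ℓ R K L N := by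
  refine ⟨Real.exp (K * mm d R) * 2 ^ d, by positivity, fun L N K' hL hK' hN => ?_⟩
  unfold Zt at hK' ⊢
  simp only [Z_eq] at hK' ⊢
  have hK'' : ∀ n, 0 < mC (volume : Measure (Fin d → ℝ)) 1 (Fin n)
      (Box d (L * ℓ - 1)) → n ≤ K' := by
    intro n hn
    refine hK' n ((zc_pos_iff hK (volume_Box_ne _) n).2 ?_)
    unfold cr
    have h1 := ENNReal.toReal_pos hn.ne' (mC_ne_top volume 1 (volume_Box_ne _) n)
    positivity
  have h := WW_insert (R := R) hK (measurableSet_Box (d := d) (L * ℓ - 1)) hK'' hN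
  have hne : ex (K * mm d R) * (((K' - N : ℕ) : ENNReal) * ENNReal.ofReal (2 * 1) ^ d) *
      WW (Fin N) R K (Box d (L * ℓ - 1)) ≠ ⊤ :=
    ENNReal.mul_ne_top (ENNReal.mul_ne_top (ex_ne_top _)
      (ENNReal.mul_ne_top (ENNReal.natCast_ne_top _) (ENNReal.pow_ne_top ENNReal.ofReal_ne_top)))
      (WW_ne_top (volume_Box_ne _))
  have h1 := ENNReal.toReal_mono hne h
  rw [ENNReal.toReal_mul, ENNReal.toReal_mul, ENNReal.toReal_mul, ENNReal.toReal_natCast,
    ENNReal.toReal_pow, ENNReal.toReal_ofReal (by norm_num), Nat.cast_sub hN, ex_toReal] at h1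
  unfold zc
  have h2 : (((N + 1).factorial : ℝ))⁻¹ = ((N : ℝ) + 1)⁻¹ * ((N.factorial : ℝ))⁻¹ := by
    rw [Nat.factorial_succ]
    push_cast
    rw [mul_inv]
  have h3 : (0 : ℝ) < (N : ℝ) + 1 := by positivity
  rw [h2]
  calc ((N : ℝ) + 1) * (((N : ℝ) + 1)⁻¹ * ((N.factorial : ℝ))⁻¹ *
        (WW (Fin (N + 1)) R K (Box d (L * ℓ - 1))).toReal)
      = ((N.factorial : ℝ))⁻¹ * (WW (Fin (N + 1)) R K (Box d (L * ℓ - 1))).toReal := by
        field_simp
    _ ≤ ((N.factorial : ℝ))⁻¹ * (Real.exp (K * mm d R) * (((K' : ℝ) - N) * (2 * 1) ^ d) *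
        (WW (Fin N) R K (Box d (L * ℓ - 1))).toReal) :=
        mul_le_mul_of_nonneg_left h1 (by positivity)
    _ = _ := by
        rw [mul_one]
        ring

end Pool.Agent.SquareWell
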