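import Pool.Agent.Lib.MP_09cbbd_sw.Pres

/-!
# Location of the two chemical potentials; configurations with many defects
-/

set_option autoImplicit false

namespace Pool.Agent.SquareWell

open MeasureTheory Finset Filter Topology Pool.Agent.StableGas

variable {d : ℕ} {E : Type} [MeasurableSpace E] (M : Md d E)

/-- The smallness assumptions. -/
structure Small : Prop where
  cutS : ∀ Y : Finset (Zd d), 511 * cut M.S Y ≤ 512 * cut M.Sm Y
  cardS : (1 - 1 / 2 ^ 32 : ℝ) * M.S.card ≤ M.Sm.card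
  hb : (2 : ℝ) ^ 40 * 3 ^ d * M.b ≤ M.K * M.N ^ 2
  hNs : 2 ^ 40 * 3 ^ d * M.S.card * M.Ns ≤ M.N
  pack : ∃ (Est : Set E) (Nst : ℕ) (Cst : ℝ), MeasurableSet Est ∧
    (∀ x ∈ Est, M.c x = x ∧ M.n x = Nst) ∧ ex (-Cst) ≤ M.π Est ∧
    (1 - 1 / 2 ^ 32 : ℝ) * M.N ≤ Nst ∧ (2 : ℝ) ^ 32 * Cst ≤ M.K * M.N ^ 2 * M.S.card

namespace Loc

theorem tangent {p : ℝ → ℝ} (hcv : ConvexOn ℝ Set.univ p) {x D : ℝ} (y : ℝ)
    (hx : HasDerivAt p D x) : p x + D * (y - x) ≤ p y := by
  rcases lt_trichotomy x y with h | h | h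
  · have h1 := hcv.le_slope_of_hasDerivAt (Set.mem_univ x) (Set.mem_univ y) h hx
    rw [slope_def_field, le_div_iff₀ (by linarith)] at h1
    linarith
  · rw [h]; simp
  · have h1 := hcv.slope_le_of_hasDerivAt (Set.mem_univ y) (Set.mem_univ x) h hx
    rw [slope_def_field, div_le_iff₀ (by linarith)] at h1
    linarith

/-- Solution of the equation `p' = m` between two points. -/
theorem darboux {p : ℝ → ℝ} (hdiff : Differentiable ℝ p) {x y m : ℝ} (hxy : x ≤ y)
    (hx : deriv p x < m) (hy : m < deriv p y) : ∃ z ∈ Set.Ioo x y, HasDerivAt p m z := by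
  obtain ⟨z, hz, h⟩ := exists_hasDerivWithinAt_eq_of_gt_of_lt hxy
    (fun t _ => (hdiff t).hasDerivAt.hasDerivWithinAt) hx hy
  refine ⟨z, hz, ?_⟩
  have h1 := (hdiff z).hasDerivAt
  rw [h] at h1
  exact h1

theorem b_le (hS : Small M) : (2 : ℝ) ^ 40 * M.b ≤ M.K * M.N ^ 2 := by
  have h1 : (1 : ℝ) ≤ 3 ^ d := one_le_pow₀ (by norm_num)
  have h2 := b_nonneg M
  have h3 : M.b ≤ 3 ^ d * M.b := by nlinarith
  have h4 := hS.hb
  nlinarith

theorem card_S : (1 : ℝ) ≤ M.S.card := by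
  have : 1 ≤ M.S.card := card_pos.2 ⟨0, M.zero_S⟩
  exact_mod_cast this

end Loc

theorem exists_ab (hd : 1 ≤ d) (hS : Small M) {p : ℝ → ℝ} (hp : M.IsP p)
    (hdiff : Differentiable ℝ p) : ∃ μa μb : ℝ, μa < μb ∧
      HasDerivAt p (M.N / 2 ^ 16) μa ∧ HasDerivAt p (63 / 64 * M.N) μb ∧
      μb ≤ -(1 / 2) * M.K * M.S.card * M.N * (1 - 1 / 2 ^ 22) ∧
      μb - μa ≤ M.K * M.S.card * M.N := by
  have hN0 : (0 : ℝ) < M.N := by exact_mod_cast M.hN
  have hK := M.hK
  have hSc := Loc.card_S M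
  have hcv := hp.convex hd
  have hb0 := b_nonneg M
  have hb := Loc.b_le M hS
  set a : ℝ := M.K * M.S.card * M.N with ha
  have ha0 : 0 < a := by positivity
  have hKN : M.K * M.N ^ 2 ≤ a * M.N := by
    rw [ha]
    have : 0 ≤ M.K * M.N ^ 2 := by positivity
    nlinarith
  have hba : (2 : ℝ) ^ 40 * M.b ≤ a * M.N := hb.trans hKN
  set μ0 : ℝ := -(M.K / 2 * M.S.card * M.N) with hμ0
  have hμ0a : μ0 = -(a / 2) := by rw [hμ0, ha]; ring
  have hp0 : p μ0 ≤ M.b := hp.le_b hd le_rfl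
  have hnn : ∀ μ, 0 ≤ p μ := hp.nonneg hd
  have haN : 0 < a * M.N := by positivity
  -- the point at small chemical potential
  have h1 : deriv p (-a) < M.N / 2 ^ 16 := by
    have h2 := Loc.tangent hcv μ0 (hdiff (-a)).hasDerivAt
    have h3 := hnn (-a)
    rw [hμ0a] at h2 hp0
    have h4 : deriv p (-a) * (a / 2) ≤ M.b := by
      have : -(a / 2) - -a = a / 2 := by ring
      rw [this] at h2
      linarith
    by_contra hcon
    rw [not_lt] at hcon
    have h5 : M.N / 2 ^ 16 * (a / 2) ≤ deriv p (-a) * (a / 2) :=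
      mul_le_mul_of_nonneg_right hcon (by positivity)
    have h6 : (M.N : ℝ) / 2 ^ 16 * (a / 2) = a * M.N / 2 ^ 17 := by ring
    rw [h6] at h5
    have : a * M.N / 2 ^ 17 ≤ M.b := h5.trans h4
    norm_num at this hba
    linarith
  -- the point at large chemical potential
  obtain ⟨Est, Nst, Cst, hE1, hE2, hE3, hE4, hE5⟩ := hS.pack
  have hNst : (Nst : ℝ) ≤ M.N := by
    have hne : Est.Nonempty := by
      rw [Set.nonempty_iff_ne_empty]
      rintro rfl
      rw [measure_empty] at hE3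
      exact absurd hE3 (not_le.2 (ex_pos _))
    obtain ⟨x, hx⟩ := hne
    rw [← (hE2 x hx).2]
    exact_mod_cast M.n_le x
  have hge := hp.ge hd Est hE1 Nst Cst hE2 hE3
  have hCst : (2 : ℝ) ^ 32 * Cst ≤ a * M.N := by
    have : M.K * M.N ^ 2 * M.S.card = a * M.N := by rw [ha]; ring
    rwa [this] at hE5
  have hSm : (M.Sm.card : ℝ) ≤ M.S.card := by exact_mod_cast card_le_card M.Sm_S
  have hquad : -(a * M.N / 2 ^ 32) ≤ μ0 * Nst + M.K / 2 * M.Sm.card * (Nst : ℝ) ^ 2 := by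
    have e1 : μ0 * Nst + M.K / 2 * M.Sm.card * (Nst : ℝ) ^ 2 =
        -(M.K / 2 * Nst * (M.S.card * M.N - M.Sm.card * Nst)) := by rw [hμ0]; ring
    have e2 : (1 - 1 / 2 ^ 32 : ℝ) * M.S.card * ((1 - 1 / 2 ^ 32 : ℝ) * M.N) ≤ M.Sm.card * Nst :=
      mul_le_mul hS.cardS hE4 (by
        have : (0 : ℝ) ≤ 1 - 1 / 2 ^ 32 := by norm_num
        positivity) (Nat.cast_nonneg _)
    have hSN : 0 ≤ (M.S.card : ℝ) * M.N := by positivity
    have e3 : (M.S.card : ℝ) * M.N - M.Sm.card * Nst ≤ M.S.card * M.N / 2 ^ 31 := by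
      have e4 : (1 - 1 / 2 ^ 32 : ℝ) * M.S.card * ((1 - 1 / 2 ^ 32 : ℝ) * M.N) =
          (1 - 1 / 2 ^ 32) ^ 2 * (M.S.card * M.N) := by ring
      rw [e4] at e2
      have e5 : (1 - 1 / 2 ^ 31 : ℝ) ≤ (1 - 1 / 2 ^ 32) ^ 2 := by norm_num
      have e6 := mul_le_mul_of_nonneg_right e5 hSN
      linarith
    rw [e1]
    apply neg_le_neg
    have hNst0 : (0 : ℝ) ≤ Nst := Nat.cast_nonneg _
    calc M.K / 2 * Nst * (M.S.card * M.N - M.Sm.card * Nst)
        ≤ M.K / 2 * Nst * (M.S.card * M.N / 2 ^ 31) :=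
          mul_le_mul_of_nonneg_left e3 (by positivity)
      _ ≤ M.K / 2 * M.N * (M.S.card * M.N / 2 ^ 31) := by
          apply mul_le_mul_of_nonneg_right _ (by positivity)
          exact mul_le_mul_of_nonneg_left hNst (by positivity)
      _ = a * M.N / 2 ^ 32 := by rw [ha]; ring
  set μ2 : ℝ := μ0 + a / 2 ^ 24 with hμ2
  have h2 : 63 / 64 * M.N < deriv p μ2 := by
    have h3 := Loc.tangent hcv μ0 (hdiff μ2).hasDerivAt
    have h4 := hge μ2
    have e1 : μ0 - μ2 = -(a / 2 ^ 24) := by rw [hμ2]; ring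
    rw [e1] at h3
    have e2 : μ2 * Nst = μ0 * Nst + a / 2 ^ 24 * Nst := by rw [hμ2]; ring
    rw [e2] at h4
    have h5 : a / 2 ^ 24 * Nst - a * M.N / 2 ^ 32 - Cst - M.b ≤ deriv p μ2 * (a / 2 ^ 24) := by
      linarith
    have h6 : a / 2 ^ 24 * ((1 - 1 / 2 ^ 32 : ℝ) * M.N) ≤ a / 2 ^ 24 * Nst :=
      mul_le_mul_of_nonneg_left hE4 (by positivity)
    by_contra hcon
    rw [not_lt] at hcon
    have h7 : deriv p μ2 * (a / 2 ^ 24) ≤ 63 / 64 * M.N * (a / 2 ^ 24) :=
      mul_le_mul_of_nonneg_right hcon (by positivity)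
    have e3 : 63 / 64 * (M.N : ℝ) * (a / 2 ^ 24) = 63 / 64 * (a * M.N) / 2 ^ 24 := by ring
    have e4 : a / 2 ^ 24 * ((1 - 1 / 2 ^ 32 : ℝ) * M.N) = (1 - 1 / 2 ^ 32) * (a * M.N) / 2 ^ 24 := by
      ring
    rw [e3] at h7
    rw [e4] at h6
    norm_num at h5 h6 h7 hCst hba haN
    linarith
  have hlt : -a ≤ μ2 := by
    rw [hμ2, hμ0a]
    have : 0 < a / 2 ^ 24 := by positivity
    linarith
  have hth : (M.N : ℝ) / 2 ^ 16 < 63 / 64 * M.N := by
    norm_num
    linarith
  obtain ⟨μa, hμa, hda⟩ := Loc.darboux hdiff hlt h1 (hth.trans h2)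
  obtain ⟨μb, hμb, hdb⟩ := Loc.darboux hdiff hlt (h1.trans hth) h2
  have hab : μa < μb := by
    by_contra hcon
    rw [not_lt] at hcon
    have h3 := Loc.tangent hcv μb hda
    have h4 := Loc.tangent hcv μa hdb
    rcases hcon.lt_or_eq with h | h
    · nlinarith
    · rw [h] at hdb
      have := hda.unique hdb
      linarith
  refine ⟨μa, μb, hab, hda, hdb, ?_, ?_⟩
  · have h3 := hμb.2
    have e1 : -(1 / 2) * M.K * M.S.card * M.N * (1 - 1 / 2 ^ 22) = -(a / 2) + a / 2 ^ 23 := by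
      rw [ha]; ring
    rw [e1]
    rw [hμ2, hμ0a] at h3
    norm_num at h3 ⊢
    linarith
  · have h3 := hμb.2
    have h4 := hμa.1
    rw [hμ2, hμ0a] at h3
    norm_num at h3
    linarith

/-- The configurations with many defects. -/
def CC (A : Finset (Zd d)) : Set (Zd d → E) := by
  classical exact {ω | (M.N : ℝ) * A.card / 2 ^ 20 <
    ∑ i ∈ A.filter (fun i => M.Dn (ω i)), ((M.N : ℝ) - M.n (ω i)) +
      ∑ i ∈ A.filter (fun i => M.Vc (ω i)), (M.n (ω i) : ℝ)}

theorem measurableSet_CC (A : Finset (Zd d)) : MeasurableSet (CC M A) := by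
  classical
  have hn : Measurable fun x => (M.n x : ℝ) :=
    (measurable_from_top (f := fun k : ℕ => (k : ℝ))).comp M.measurable_n
  have hD : MeasurableSet {x | M.Dn x} := by
    unfold Md.Dn
    exact measurableSet_le measurable_const
      ((measurable_from_top (f := fun k : ℕ => 8 * k)).comp (M.measurable_n.comp M.measurable_c))
  have hV : MeasurableSet {x | M.Vc x} := by
    unfold Md.Vc
    exact measurableSet_le
      ((measurable_from_top (f := fun k : ℕ => 16 * k)).comp M.measurable_n) measurable_const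
  have h1 : Measurable fun x => if M.Dn x then (M.N : ℝ) - M.n x else 0 :=
    Measurable.ite hD (measurable_const.sub hn) measurable_const
  have h2 : Measurable fun x => if M.Vc x then (M.n x : ℝ) else 0 :=
    Measurable.ite hV hn measurable_const
  have h3 : Measurable fun ω : Zd d → E => ∑ i ∈ A, (if M.Dn (ω i) then (M.N : ℝ) - M.n (ω i) else 0)
      + ∑ i ∈ A, (if M.Vc (ω i) then (M.n (ω i) : ℝ) else 0) :=
    (Finset.measurable_fun_sum _ fun i _ => h1.comp (measurable_pi_apply i)).add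
      (Finset.measurable_fun_sum _ fun i _ => h2.comp (measurable_pi_apply i))
  have e : CC M A = {ω : Zd d → E | (M.N : ℝ) * A.card / 2 ^ 20 <
      ∑ i ∈ A, (if M.Dn (ω i) then (M.N : ℝ) - M.n (ω i) else 0)
      + ∑ i ∈ A, (if M.Vc (ω i) then (M.n (ω i) : ℝ) else 0)} := by
    ext ω
    simp only [CC, Set.mem_ofPred_eq, sum_filter]
  rw [e]
  exact measurableSet_lt measurable_const h3

theorem caseC (hS : Small M) {μ : ℝ}
    (hμ : μ ≤ -(1 / 2) * M.K * M.S.card * M.N * (1 - 1 / 2 ^ 22)) (A : Finset (Zd d)) :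
    M.int A ((CC M A).indicator (M.w μ A)) ≤ 1 := by
  classical
  have hN0 : (0 : ℝ) < M.N := by exact_mod_cast M.hN
  have hK := M.hK
  have hSc := Loc.card_S M
  have hb0 := b_nonneg M
  have hb := Loc.b_le M hS
  set a : ℝ := M.K * M.S.card with ha
  have ha0 : 0 < a := by positivity
  have hA0 : (0 : ℝ) ≤ A.card := Nat.cast_nonneg _
  have hbd : ∀ ω ∈ CC M A, M.w μ A ω ≤ ex (-(a * M.N ^ 2 * A.card / 2 ^ 23)) := by
    intro ω hω
    refine (w_upper M μ A ω).trans (ex_le_ex.2 ?_)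
    simp only [CC, Set.mem_ofPred_eq, sum_filter] at hω
    rw [← sum_add_distrib] at hω
    have hpt : ∀ i ∈ A, μ * M.n (ω i) + M.K / 2 * M.S.card * (M.n (ω i) : ℝ) ^ 2 ≤
        a * M.N ^ 2 / 2 ^ 23 - a * M.N / 4 * ((if M.Dn (ω i) then (M.N : ℝ) - M.n (ω i) else 0) +
          (if M.Vc (ω i) then (M.n (ω i) : ℝ) else 0)) := by
      intro i _
      have hn0 : (0 : ℝ) ≤ M.n (ω i) := Nat.cast_nonneg _
      have hn1 : (M.n (ω i) : ℝ) ≤ M.N := by exact_mod_cast M.n_le (ω i)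
      have hc : (M.n (M.c (ω i)) : ℝ) ≤ M.n (ω i) := by exact_mod_cast M.n_c (ω i)
      have e1 : μ * M.n (ω i) ≤ (-(a / 2) * M.N + a * M.N / 2 ^ 23) * M.n (ω i) := by
        apply mul_le_mul_of_nonneg_right _ hn0
        refine hμ.trans (le_of_eq ?_)
        rw [ha]; ring
      have e2 : a * M.N / 2 ^ 23 * M.n (ω i) ≤ a * M.N / 2 ^ 23 * M.N :=
        mul_le_mul_of_nonneg_left hn1 (by positivity)
      have e3 : M.K / 2 * M.S.card * (M.n (ω i) : ℝ) ^ 2 = a / 2 * (M.n (ω i) : ℝ) ^ 2 := by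
        rw [ha]; ring
      have e4 : (M.N : ℝ) / 2 * ((if M.Dn (ω i) then (M.N : ℝ) - M.n (ω i) else 0) +
          (if M.Vc (ω i) then (M.n (ω i) : ℝ) else 0)) ≤ M.n (ω i) * (M.N - M.n (ω i)) := by
        by_cases h1 : M.Dn (ω i)
        · have h1' : (7 * M.N : ℝ) ≤ 8 * M.n (M.c (ω i)) := by
            unfold Md.Dn at h1
            exact_mod_cast h1
          have h2 : ¬ M.Vc (ω i) := by
            intro h2
            unfold Md.Vc at h2
            have h2' : (16 * M.n (ω i) : ℝ) ≤ M.N := by exact_mod_cast h2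
            linarith
          rw [if_pos h1, if_neg h2, add_zero]
          apply mul_le_mul_of_nonneg_right _ (by linarith)
          linarith
        · rw [if_neg h1, zero_add]
          by_cases h2 : M.Vc (ω i)
          · unfold Md.Vc at h2
            have h2' : (16 * M.n (ω i) : ℝ) ≤ M.N := by exact_mod_cast h2
            rw [if_pos (by unfold Md.Vc; exact h2), mul_comm]
            apply mul_le_mul_of_nonneg_left _ hn0
            linarith
          · rw [if_neg h2, mul_zero]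
            exact mul_nonneg hn0 (by linarith)
      have e5 := mul_le_mul_of_nonneg_left e4 (show 0 ≤ a / 2 by positivity)
      rw [e3]
      generalize (if M.Dn (ω i) then (M.N : ℝ) - M.n (ω i) else 0) +
          (if M.Vc (ω i) then (M.n (ω i) : ℝ) else 0) = X at *
      linarith only [e1, e2, e5]
    have hsum := sum_le_sum hpt
    refine hsum.trans ?_
    rw [sum_sub_distrib, sum_const, nsmul_eq_mul, ← mul_sum]
    have e6 := mul_le_mul_of_nonneg_left hω.le (show 0 ≤ a * M.N / 4 by positivity)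
    have e7 : a * M.N / 4 * (M.N * A.card / 2 ^ 20) = a * M.N ^ 2 * A.card / 2 ^ 22 := by ring
    have e8 : (A.card : ℝ) * (a * M.N ^ 2 / 2 ^ 23) = a * M.N ^ 2 * A.card / 2 ^ 23 := by ring
    rw [e7] at e6
    rw [e8]
    generalize a * M.N / 4 * ∑ i ∈ A, ((if M.Dn (ω i) then (M.N : ℝ) - M.n (ω i) else 0) +
          (if M.Vc (ω i) then (M.n (ω i) : ℝ) else 0)) = X at *
    generalize a * M.N ^ 2 * A.card = Y at *
    norm_num at e6 ⊢
    linarith only [e6]
  have hind : ∀ ω, (CC M A).indicator (M.w μ A) ω ≤ ex (-(a * M.N ^ 2 * A.card / 2 ^ 23)) * 1 := by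
    intro ω
    rw [mul_one]
    by_cases hω : ω ∈ CC M A
    · rw [Set.indicator_of_mem hω]
      exact hbd ω hω
    · rw [Set.indicator_of_notMem hω]
      exact zero_le
  have hmono : M.int A ((CC M A).indicator (M.w μ A)) ≤
      M.int A (fun _ => ex (-(a * M.N ^ 2 * A.card / 2 ^ 23)) * 1) := by
    unfold Md.int
    exact lmarginal_mono hind _
  have hconst : M.int A (fun _ => ex (-(a * M.N ^ 2 * A.card / 2 ^ 23)) * 1) =
      ex (-(a * M.N ^ 2 * A.card / 2 ^ 23)) * M.int A (fun _ => 1) := by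
    unfold Md.int
    simp only [lmarginal]
    exact lintegral_const_mul _ measurable_const
  refine hmono.trans ?_
  rw [hconst]
  refine (mul_le_mul_right (int_one_le M A) _).trans ?_
  rw [← ex_add, ← ex_zero, ex_le_ex]
  have e1 : M.b * A.card ≤ a * M.N ^ 2 * A.card / 2 ^ 23 := by
    have e2 : a * M.N ^ 2 * A.card / 2 ^ 23 = a * M.N ^ 2 / 2 ^ 23 * A.card := by ring
    rw [e2]
    apply mul_le_mul_of_nonneg_right _ hA0
    have e3 : M.K * M.N ^ 2 ≤ a * M.N ^ 2 := by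
      apply mul_le_mul_of_nonneg_right _ (by positivity)
      rw [ha]
      nlinarith
    norm_num at hb ⊢
    linarith
  linarith

end Pool.Agent.SquareWell
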