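import Pool.Agent.Lib.MP_09cbbd_sw.Typ
import Pool.Agent.Lib.MP_09cbbd_sw.Loc
import Pool.Agent.Lib.MP_09cbbd_sw.Topo

/-!
# Bound for a class of configurations
-/

set_option autoImplicit false

namespace Pool.Agent.SquareWell

open MeasureTheory Finset Filter Topology Pool.Agent.StableGas

variable {d : ℕ} {E : Type} [MeasurableSpace E] (M : Md d E)

/-- Dense and almost empty cells. -/
noncomputable def Md.DD (A : Finset (Zd d)) (ω : Zd d → E) : Finset (Zd d) := by
  classical exact A.filter fun i => M.Dn (ω i)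

noncomputable def Md.VC (A : Finset (Zd d)) (ω : Zd d → E) : Finset (Zd d) := by
  classical exact A.filter fun i => M.Vc (ω i)

namespace Cls

theorem mem_DD {A : Finset (Zd d)} {ω : Zd d → E} {i : Zd d} :
    i ∈ M.DD A ω ↔ i ∈ A ∧ M.Dn (ω i) := by
  classical
  unfold Md.DD
  rw [mem_filter]

theorem mem_VC {A : Finset (Zd d)} {ω : Zd d → E} {i : Zd d} :
    i ∈ M.VC A ω ↔ i ∈ A ∧ M.Vc (ω i) := by
  classical
  unfold Md.VC
  rw [mem_filter]

theorem not_both {x : E} (h1 : M.Dn x) (h2 : M.Vc x) : False := by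
  unfold Md.Dn at h1
  unfold Md.Vc at h2
  have h3 := M.n_c x
  have h4 := M.hN
  omega

theorem measurableSet_Dn : MeasurableSet {x | M.Dn x} := by
  unfold Md.Dn
  exact measurableSet_le measurable_const
    ((measurable_from_top (f := fun k : ℕ => 8 * k)).comp (M.measurable_n.comp M.measurable_c))

theorem measurableSet_Vc : MeasurableSet {x | M.Vc x} := by
  unfold Md.Vc
  exact measurableSet_le
    ((measurable_from_top (f := fun k : ℕ => 16 * k)).comp M.measurable_n) measurable_const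

theorem measurableSet_ev {Q : E → Prop} (hQ : MeasurableSet {x | Q x}) (i : Zd d) (b : Prop) :
    MeasurableSet {ω : Zd d → E | b ↔ Q (ω i)} := by
  by_cases hb : b
  · have : {ω : Zd d → E | b ↔ Q (ω i)} = (fun ω : Zd d → E => ω i) ⁻¹' {x | Q x} := by
      ext ω
      simp [hb]
    rw [this]
    exact (measurable_pi_apply i) hQ
  · have : {ω : Zd d → E | b ↔ Q (ω i)} = ((fun ω : Zd d → E => ω i) ⁻¹' {x | Q x})ᶜ := by
      ext ω
      simp [hb]
    rw [this]
    exact ((measurable_pi_apply i) hQ).compl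

theorem measurableSet_DD (A D : Finset (Zd d)) : MeasurableSet {ω : Zd d → E | M.DD A ω = D} := by
  classical
  by_cases hD : D ⊆ A
  · have : {ω : Zd d → E | M.DD A ω = D} = ⋂ i ∈ A, {ω : Zd d → E | i ∈ D ↔ M.Dn (ω i)} := by
      ext ω
      simp only [Set.mem_ofPred_eq, Set.mem_iInter]
      constructor
      · rintro rfl i hi
        rw [mem_DD]
        exact ⟨fun h => h.2, fun h => ⟨hi, h⟩⟩
      · intro h
        ext i
        rw [mem_DD]
        constructor
        · rintro ⟨h1, h2⟩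
          exact (h i h1).2 h2
        · intro hi
          exact ⟨hD hi, (h i (hD hi)).1 hi⟩
    rw [this]
    exact Finset.measurableSet_biInter _ fun i _ => measurableSet_ev (measurableSet_Dn M) i _
  · have : {ω : Zd d → E | M.DD A ω = D} = ∅ := by
      ext ω
      simp only [Set.mem_ofPred_eq, Set.mem_empty_iff_false, iff_false]
      rintro rfl
      exact hD fun i hi => ((mem_DD M).1 hi).1
    rw [this]
    exact MeasurableSet.empty

theorem measurableSet_VC (A D : Finset (Zd d)) : MeasurableSet {ω : Zd d → E | M.VC A ω = D} := by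
  classical
  by_cases hD : D ⊆ A
  · have : {ω : Zd d → E | M.VC A ω = D} = ⋂ i ∈ A, {ω : Zd d → E | i ∈ D ↔ M.Vc (ω i)} := by
      ext ω
      simp only [Set.mem_ofPred_eq, Set.mem_iInter]
      constructor
      · rintro rfl i hi
        rw [mem_VC]
        exact ⟨fun h => h.2, fun h => ⟨hi, h⟩⟩
      · intro h
        ext i
        rw [mem_VC]
        constructor
        · rintro ⟨h1, h2⟩
          exact (h i h1).2 h2
        · intro hi
          exact ⟨hD hi, (h i (hD hi)).1 hi⟩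
    rw [this]
    exact Finset.measurableSet_biInter _ fun i _ => measurableSet_ev (measurableSet_Vc M) i _
  · have : {ω : Zd d → E | M.VC A ω = D} = ∅ := by
      ext ω
      simp only [Set.mem_ofPred_eq, Set.mem_empty_iff_false, iff_false]
      rintro rfl
      exact hD fun i hi => ((mem_VC M).1 hi).1
    rw [this]
    exact MeasurableSet.empty

end Cls

/-- Events depending on the pattern are measurable. -/
theorem measurableSet_pattern (A : Finset (Zd d)) (P : Finset (Zd d) → Finset (Zd d) → Prop) :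
    MeasurableSet {ω : Zd d → E | P (M.DD A ω) (M.VC A ω)} := by
  classical
  have : {ω : Zd d → E | P (M.DD A ω) (M.VC A ω)} =
      ⋃ p ∈ (A.powerset ×ˢ A.powerset).filter (fun p => P p.1 p.2),
        ({ω : Zd d → E | M.DD A ω = p.1} ∩ {ω : Zd d → E | M.VC A ω = p.2}) := by
    ext ω
    simp only [Set.mem_ofPred_eq, Set.mem_iUnion, mem_filter, mem_product, mem_powerset,
      Set.mem_inter_iff, exists_prop]
    constructor
    · intro h
      exact ⟨(M.DD A ω, M.VC A ω), ⟨⟨fun i hi => ((Cls.mem_DD M).1 hi).1,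
        fun i hi => ((Cls.mem_VC M).1 hi).1⟩, h⟩, rfl, rfl⟩
    · rintro ⟨p, ⟨_, hp⟩, h1, h2⟩
      rw [h1, h2]
      exact hp
  rw [this]
  exact Finset.measurableSet_biUnion _ fun p _ =>
    (Cls.measurableSet_DD M A p.1).inter (Cls.measurableSet_VC M A p.2)

/-- The bad sites of a configuration. -/
noncomputable def Md.bad (A : Finset (Zd d)) (ω : Zd d → E) : Finset (Zd d) :=
  SquareWell.bad M.r A (fun i => i ∈ M.DD A ω) fun i => i ∉ A ∨ i ∈ M.VC A ω

/-- The class of configurations with given contours `L`, dense region `Y`, and dense and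
intermediate cells in `L`. -/
def Md.Class (A : Finset (Zd d)) (s : ℕ) (L Y DL OL : Finset (Zd d)) : Set (Zd d → E) :=
  {ω | ω ∉ CC M A ∧
    Cut M.r A (fun i => i ∈ M.DD A ω) (fun i => i ∉ A ∨ i ∈ M.VC A ω) s L Y ∧
    L ∩ M.DD A ω = DL ∧ (L ∩ A) \ (M.DD A ω ∪ M.VC A ω) = OL ∧
    ((∑ G ∈ ((M.bad A ω).image (comp (M.bad A ω))).filter (fun G => (fill G).card < s),
      (fill G).card : ℕ) : ℝ) ≤ (A.card : ℝ) / 2 ^ 20}

/-- Sites of `A` with an interacting site outside. -/
noncomputable def rb (S A : Finset (Zd d)) : Finset (Zd d) := by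
  classical exact A.filter fun i => ∃ v ∈ S, i + v ∉ A

namespace Cls

theorem mem_rb {S A : Finset (Zd d)} {i : Zd d} : i ∈ rb S A ↔ i ∈ A ∧ ∃ v ∈ S, i + v ∉ A := by
  classical
  unfold rb
  rw [mem_filter]

theorem measurableSet_Class (A : Finset (Zd d)) (s : ℕ) (L Y DL OL : Finset (Zd d)) :
    MeasurableSet (M.Class A s L Y DL OL) := by
  have h := measurableSet_pattern M A fun D V =>
    Cut M.r A (fun i => i ∈ D) (fun i => i ∉ A ∨ i ∈ V) s L Y ∧
      L ∩ D = DL ∧ (L ∩ A) \ (D ∪ V) = OL ∧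
      ((∑ G ∈ ((SquareWell.bad M.r A (fun i => i ∈ D) fun i => i ∉ A ∨ i ∈ V).image
        (comp (SquareWell.bad M.r A (fun i => i ∈ D) fun i => i ∉ A ∨ i ∈ V))).filter
          (fun G => (fill G).card < s), (fill G).card : ℕ) : ℝ) ≤ (A.card : ℝ) / 2 ^ 20
  exact (measurableSet_CC M A).compl.inter h

theorem card_bd_le (Y : Finset (Zd d)) : (bd Y).card ≤ cut M.S Y := by
  classical
  have h : bd Y ⊆ M.S.biUnion fun v => Y.filter fun i => i + v ∉ Y := by
    intro i hi
    rw [mem_bd] at hi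
    obtain ⟨hi, h⟩ := hi
    rw [Finset.not_subset] at h
    obtain ⟨j, hj, hjY⟩ := h
    rw [mem_biUnion]
    refine ⟨j - i, M.Nb_S ?_, ?_⟩
    · rw [mem_Nb] at hj ⊢
      intro k
      have := hj k
      simp only [Pi.zero_apply, Pi.sub_apply]
      omega
    · rw [mem_filter]
      refine ⟨hi, ?_⟩
      rw [add_sub_cancel]
      exact hjY
  exact (card_le_card h).trans card_biUnion_le

theorem sum_neg (f : Zd d → ℕ) : ∑ v ∈ M.S, f (-v) = ∑ v ∈ M.S, f v :=
  Finset.sum_nbij' (fun v => -v) (fun v => -v) (fun v hv => M.S_neg v hv)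
    (fun v hv => M.S_neg v hv) (fun v _ => neg_neg v) (fun v _ => neg_neg v) (fun v _ => rfl)

theorem cut_W {A Y O W : Finset (Zd d)} (hA : A = Y ∪ O ∪ W) (hYW : Disjoint Y W) :
    cut M.S W ≤ cut M.S Y + M.S.card * O.card + M.S.card * (rb M.S A).card := by
  classical
  have h1 : ∀ v ∈ M.S, (W.filter fun i => i + v ∉ W).card ≤
      (Y.filter fun i => i + -v ∉ Y).card + O.card + (rb M.S A).card := by
    intro v hv
    have hsub : (W.filter fun i => i + v ∉ W) ⊆
        ((W.filter fun i => i + v ∈ Y) ∪ (W.filter fun i => i + v ∈ O)) ∪ rb M.S A := by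
      intro i hi
      rw [mem_filter] at hi
      simp only [mem_union, mem_filter, mem_rb]
      by_cases h : i + v ∈ A
      · rw [hA, mem_union, mem_union] at h
        tauto
      · right
        exact ⟨by rw [hA]; exact mem_union_right _ hi.1, v, hv, h⟩
    have h2 : (W.filter fun i => i + v ∈ Y).card ≤ (Y.filter fun i => i + -v ∉ Y).card := by
      refine card_le_card_of_injOn (fun i => i + v) ?_ fun a _ b _ h => add_right_cancel h
      intro i hi
      simp only [coe_filter, Set.mem_ofPred_eq] at hi ⊢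
      refine ⟨hi.2, ?_⟩
      rw [add_neg_cancel_right]
      exact fun h => (Finset.disjoint_left.1 hYW) h hi.1
    have h3 : (W.filter fun i => i + v ∈ O).card ≤ O.card := by
      refine card_le_card_of_injOn (fun i => i + v) ?_ fun a _ b _ h => add_right_cancel h
      intro i hi
      simp only [coe_filter, Set.mem_ofPred_eq] at hi
      exact hi.2
    calc (W.filter fun i => i + v ∉ W).card
        ≤ (((W.filter fun i => i + v ∈ Y) ∪ (W.filter fun i => i + v ∈ O)) ∪ rb M.S A).card :=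
          card_le_card hsub
      _ ≤ ((W.filter fun i => i + v ∈ Y) ∪ (W.filter fun i => i + v ∈ O)).card +
          (rb M.S A).card := card_union_le _ _
      _ ≤ ((W.filter fun i => i + v ∈ Y).card + (W.filter fun i => i + v ∈ O).card) +
          (rb M.S A).card := Nat.add_le_add_right (card_union_le _ _) _
      _ ≤ _ := by omega
  calc cut M.S W ≤ ∑ v ∈ M.S, ((Y.filter fun i => i + -v ∉ Y).card + O.card +
        (rb M.S A).card) := sum_le_sum h1
    _ = (∑ v ∈ M.S, (Y.filter fun i => i + -v ∉ Y).card) + M.S.card * O.card +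
        M.S.card * (rb M.S A).card := by
        rw [sum_add_distrib, sum_add_distrib, sum_const, sum_const, smul_eq_mul, smul_eq_mul]
    _ = _ := by rw [sum_neg M fun v => (Y.filter fun i => i + v ∉ Y).card]; rfl

theorem bd_W {A Y O W : Finset (Zd d)} (hA : A = Y ∪ O ∪ W) (hYW : Disjoint Y W) :
    (bd W).card ≤ 3 ^ d * ((bd Y).card + O.card) + (rb M.S A).card := by
  classical
  have hsub : bd W ⊆ ((bd Y).biUnion Nb ∪ O.biUnion Nb) ∪ rb M.S A := by
    intro i hi
    rw [mem_bd] at hi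
    obtain ⟨hi, h⟩ := hi
    rw [Finset.not_subset] at h
    obtain ⟨j, hj, hjW⟩ := h
    simp only [mem_union, mem_biUnion, mem_rb]
    by_cases hjA : j ∈ A
    · rw [hA, mem_union, mem_union] at hjA
      rcases hjA with (hjA | hjA) | hjA
      · left; left
        refine ⟨j, mem_bd.2 ⟨hjA, fun hc => ?_⟩, Nb_symm hj⟩
        exact (Finset.disjoint_left.1 hYW) (hc (Nb_symm hj)) hi
      · left; right
        exact ⟨j, hjA, Nb_symm hj⟩
      · exact absurd hjA hjW
    · right
      refine ⟨by rw [hA]; exact mem_union_right _ hi, j - i, M.Nb_S ?_, ?_⟩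
      · rw [mem_Nb] at hj ⊢
        intro k
        have := hj k
        simp only [Pi.zero_apply, Pi.sub_apply]
        omega
      · rw [add_sub_cancel]
        exact hjA
  have hN : ∀ X : Finset (Zd d), (X.biUnion Nb).card ≤ 3 ^ d * X.card := by
    intro X
    refine card_biUnion_le.trans ?_
    rw [sum_congr rfl fun i _ => card_Nb i, sum_const, smul_eq_mul, mul_comm]
  calc (bd W).card ≤ (((bd Y).biUnion Nb ∪ O.biUnion Nb) ∪ rb M.S A).card := card_le_card hsub
    _ ≤ ((bd Y).biUnion Nb ∪ O.biUnion Nb).card + (rb M.S A).card := card_union_le _ _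
    _ ≤ ((bd Y).biUnion Nb).card + (O.biUnion Nb).card + (rb M.S A).card :=
        Nat.add_le_add_right (card_union_le _ _) _
    _ ≤ 3 ^ d * (bd Y).card + 3 ^ d * O.card + (rb M.S A).card :=
        Nat.add_le_add_right (Nat.add_le_add (hN _) (hN _)) _
    _ = _ := by ring

/-- The final arithmetic. -/
theorem arith {q pa pb Δ N K As b Ns y w o a cY cW bY bW R3 l R T : ℝ}
    (hN : 0 < N) (hK : 0 < K) (hAs : 1 ≤ As) (hb : 0 ≤ b) (hNs0 : 0 ≤ Ns) (hT : 1 ≤ T) (hR : 1 ≤ R)
    (hΔ0 : 0 ≤ Δ) (hΔ : Δ ≤ K * As * N) (hq : 0 ≤ q)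
    (hqa : pa + Δ / 2 * (N / 2 ^ 16) ≤ q) (hqb : pb - Δ / 2 * (63 / 64 * N) ≤ q)
    (hy : 0 ≤ y) (hw : 0 ≤ w) (ho : 0 ≤ o) (ha : a = y + o + w) (hcY : 0 ≤ cY)
    (hR3 : 0 ≤ R3) (hbY0 : 0 ≤ bY)
    (h1 : bY ≤ cY) (h2 : bW ≤ T * (bY + o) + R3) (h3 : cW ≤ cY + As * o + As * R3)
    (h4 : l ≤ R * (cY + o)) (h5 : 2 ^ 40 * T * b ≤ K * N ^ 2) (h6 : 2 ^ 40 * T * As * Ns ≤ N) :
    pb * y + pa * w - Δ / 2 * ((N - Ns) * y - 2 * N * a / 2 ^ 20) + Δ / 2 * (2 * N * a / 2 ^ 20) +
        (b + K * Ns * N * As) * (bY + bW) + b * o + N / 2 ^ 16 / 2 * K * N * cW -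
        1 / 512 * K * N ^ 2 * (cY + As * (1 / 16) * o) ≤
      q * a - Δ / 2 ^ 18 * N * a + (b + K * N ^ 2 * As) * R3 - K * N ^ 2 / (2 ^ 14 * R) * l := by
  have he : 0 < K * N ^ 2 := by positivity
  -- small constants
  have hTAs : 1 ≤ T * As := by nlinarith
  have hNs : 2 ^ 40 * Ns ≤ N := by
    have : Ns ≤ T * As * Ns := by nlinarith
    nlinarith
  have hβ : T * (b + K * Ns * N * As) ≤ K * N ^ 2 / 2 ^ 39 := by
    have e1 : T * (K * Ns * N * As) = K * N * (T * As * Ns) := by ring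
    have e2 : K * N * (2 ^ 40 * T * As * Ns) ≤ K * N * N :=
      mul_le_mul_of_nonneg_left h6 (by positivity)
    nlinarith
  have hβ0 : 0 ≤ b + K * Ns * N * As := by positivity
  -- the volume terms
  have V1 : pb * y + pa * w ≤ q * (y + w) + Δ / 2 * (63 / 64 * N) * y - Δ / 2 * (N / 2 ^ 16) * w := by
    have e1 : pb * y ≤ (q + Δ / 2 * (63 / 64 * N)) * y :=
      mul_le_mul_of_nonneg_right (by linarith) hy
    have e2 : pa * w ≤ (q - Δ / 2 * (N / 2 ^ 16)) * w :=
      mul_le_mul_of_nonneg_right (by linarith) hw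
    nlinarith
  have V2 : q * (y + w) ≤ q * a := by
    rw [ha]
    nlinarith [mul_nonneg hq ho]
  have V3 : Δ / 2 * (Ns * y) ≤ Δ / 2 * (N / 2 ^ 40 * y) := by
    apply mul_le_mul_of_nonneg_left _ (by linarith)
    apply mul_le_mul_of_nonneg_right _ hy
    linarith
  have V4 : Δ * (N * o) ≤ K * N ^ 2 * (As * o) := by
    have : Δ * (N * o) ≤ K * As * N * (N * o) := mul_le_mul_of_nonneg_right hΔ (by positivity)
    calc Δ * (N * o) ≤ K * As * N * (N * o) := this
      _ = K * N ^ 2 * (As * o) := by ring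
  have hΔNy : 0 ≤ Δ * (N * y) := by positivity
  have hΔNw : 0 ≤ Δ * (N * w) := by positivity
  have hΔNo : 0 ≤ Δ * (N * o) := by positivity
  have V : pb * y + pa * w - Δ / 2 * ((N - Ns) * y - 2 * N * a / 2 ^ 20) +
      Δ / 2 * (2 * N * a / 2 ^ 20) ≤
      q * a - Δ / 2 ^ 18 * N * a + K * N ^ 2 * (As * o) / 2 ^ 17 := by
    subst ha
    linarith only [V1, V2, V3, V4, hΔNy, hΔNw, hΔNo]
  -- the surface terms
  have S1 : (b + K * Ns * N * As) * (bY + bW) ≤
      K * N ^ 2 / 2 ^ 39 * (2 * cY + o) + (b + K * Ns * N * As) * R3 := by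
    have e1 : bY + bW ≤ T * (2 * cY + o) + R3 := by
      have : bY ≤ T * bY := by nlinarith
      nlinarith
    calc (b + K * Ns * N * As) * (bY + bW)
        ≤ (b + K * Ns * N * As) * (T * (2 * cY + o) + R3) :=
          mul_le_mul_of_nonneg_left e1 hβ0
      _ = T * (b + K * Ns * N * As) * (2 * cY + o) + (b + K * Ns * N * As) * R3 := by ring
      _ ≤ _ := by
          have : 0 ≤ 2 * cY + o := by linarith
          have := mul_le_mul_of_nonneg_right hβ this
          linarith
  have S2 : b * o ≤ K * N ^ 2 / 2 ^ 40 * o := by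
    apply mul_le_mul_of_nonneg_right _ ho
    have : b ≤ T * b := by nlinarith
    linarith
  have S3 : N / 2 ^ 16 / 2 * K * N * cW ≤ K * N ^ 2 / 2 ^ 17 * (cY + As * o + As * R3) := by
    have e1 : N / 2 ^ 16 / 2 * K * N * cW = K * N ^ 2 / 2 ^ 17 * cW := by ring
    rw [e1]
    exact mul_le_mul_of_nonneg_left h3 (by positivity)
  have S4 : K * N ^ 2 / (2 ^ 14 * R) * l ≤ K * N ^ 2 / 2 ^ 14 * (cY + o) := by
    have e1 : K * N ^ 2 / (2 ^ 14 * R) * l ≤ K * N ^ 2 / (2 ^ 14 * R) * (R * (cY + o)) :=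
      mul_le_mul_of_nonneg_left h4 (by positivity)
    have e2 : K * N ^ 2 / (2 ^ 14 * R) * (R * (cY + o)) = K * N ^ 2 / 2 ^ 14 * (cY + o) := by
      have : R ≠ 0 := by linarith
      field_simp
    linarith
  have S5 : (b + K * Ns * N * As) * R3 + K * N ^ 2 / 2 ^ 17 * (As * R3) ≤
      (b + K * N ^ 2 * As) * R3 := by
    have e1 : K * Ns * N * As * R3 ≤ K * N ^ 2 / 2 ^ 40 * (As * R3) := by
      have e3 : K * Ns * N * As * R3 = K * N * (As * R3) * Ns := by ring
      have e4 : K * N ^ 2 / 2 ^ 40 * (As * R3) = K * N * (As * R3) * (N / 2 ^ 40) := by ring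
      rw [e3, e4]
      apply mul_le_mul_of_nonneg_left _ (by positivity)
      linarith
    have e2 : 0 ≤ K * N ^ 2 * (As * R3) := by positivity
    linarith only [e1, e2]
  have S6 : K * N ^ 2 * o ≤ K * N ^ 2 * (As * o) := by
    apply mul_le_mul_of_nonneg_left _ he.le
    nlinarith
  have hcc : 0 ≤ K * N ^ 2 * cY := by positivity
  have hoo : 0 ≤ K * N ^ 2 * o := by positivity
  linarith only [V, S1, S2, S3, S4, S5, S6, hcc, hoo]

end Cls

theorem class_bound (hd : 2 ≤ d) (hS : Small M) {μa μb pa pb q : ℝ} (hab : μa < μb)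
    (hloc : μb ≤ -(1 / 2) * M.K * M.S.card * M.N * (1 - 1 / 2 ^ 22))
    (hΔ : μb - μa ≤ M.K * M.S.card * M.N)
    (Ga : M.Glue μa (M.N / 2 ^ 16) pa) (Gb : M.Glue μb (63 / 64 * M.N) pb) (hq0 : 0 ≤ q)
    (hqa : pa + (μb - μa) / 2 * (M.N / 2 ^ 16) ≤ q)
    (hqb : pb - (μb - μa) / 2 * (63 / 64 * M.N) ≤ q)
    (A : Finset (Zd d)) (s : ℕ) (L Y DL OL : Finset (Zd d)) :
    M.int A ((M.Class A s L Y DL OL).indicator (M.w ((μa + μb) / 2) A)) ≤
      ex (q * A.card - (μb - μa) / 2 ^ 18 * M.N * A.card +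
        (M.b + M.K * M.N ^ 2 * M.S.card) * (rb M.S A).card -
        M.K * M.N ^ 2 / (2 ^ 14 * (2 * M.r + 1) ^ d) * L.card) := by
  classical
  rcases Set.eq_empty_or_nonempty (M.Class A s L Y DL OL) with he | ⟨ω0, hω0⟩
  · rw [he, Set.indicator_empty]
    have : M.int A (fun _ => 0) = 0 := by
      unfold Md.int
      simp [lmarginal]
    rw [this]
    exact zero_le
  have hN0 : (0 : ℝ) < M.N := by exact_mod_cast M.hN
  have hS1 : 1 ≤ M.S.card := card_pos.2 ⟨0, M.zero_S⟩
  have hS1' : (1 : ℝ) ≤ M.S.card := by exact_mod_cast hS1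
  have hKSN : 0 ≤ M.K * M.S.card * M.N := by
    have := M.hK
    positivity
  have hT1 : (1 : ℝ) ≤ 3 ^ d := one_le_pow₀ (by norm_num)
  -- the regions
  obtain ⟨hC0, hcut0, hDL0, hOL0, hsm0⟩ := hω0
  have hDLL : ∀ i ∈ DL, i ∈ L ∧ i ∈ A := by
    intro i hi
    rw [← hDL0, mem_inter] at hi
    exact ⟨hi.1, ((Cls.mem_DD M).1 hi.2).1⟩
  have hOLL : ∀ i ∈ OL, i ∈ L ∧ i ∈ A := by
    intro i hi
    rw [← hOL0, Finset.mem_sdiff, mem_inter] at hi
    exact hi.1
  have hDO : Disjoint DL OL := by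
    rw [Finset.disjoint_left]
    intro i h1 h2
    rw [← hDL0, mem_inter] at h1
    rw [← hOL0, Finset.mem_sdiff] at h2
    exact h2.2 (mem_union_left _ h1.2)
  have hYL : Disjoint Y L := hcut0.Y_disj
  have hYA : Y ⊆ A := hcut0.Y_sub
  set Y' : Finset (Zd d) := Y ∪ DL with hY'
  set W : Finset (Zd d) := A \ (Y' ∪ OL) with hW
  have hYO : Disjoint Y' OL := by
    rw [hY', disjoint_union_left]
    refine ⟨?_, hDO⟩
    rw [Finset.disjoint_left]
    intro i h1 h2
    exact (Finset.disjoint_left.1 hYL) h1 (hOLL i h2).1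
  have hYOW : Disjoint (Y' ∪ OL) W := disjoint_sdiff
  have hYW : Disjoint Y' W := (disjoint_union_left.1 hYOW).1
  have hOW : Disjoint OL W := (disjoint_union_left.1 hYOW).2
  have hsubA : Y' ∪ OL ⊆ A := by
    intro i hi
    rw [hY', mem_union, mem_union] at hi
    rcases hi with (hi | hi) | hi
    · exact hYA hi
    · exact (hDLL i hi).2
    · exact (hOLL i hi).2
  have hA : A = Y' ∪ OL ∪ W := by
    rw [hW]
    exact (union_sdiff_of_subset hsubA).symm
  have hcardA : (A.card : ℝ) = Y'.card + OL.card + W.card := by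
    have : A.card = Y'.card + OL.card + W.card := by
      conv_lhs => rw [hA]
      rw [card_union_of_disjoint hYOW, card_union_of_disjoint hYO]
    exact_mod_cast this
  -- membership facts in the class
  have memW : ∀ ω ∈ M.Class A s L Y DL OL, ∀ i ∈ W, i ∈ L → i ∈ M.VC A ω := by
    rintro ω ⟨_, _, hDL, hOL, _⟩ i hi hiL
    rw [hW, Finset.mem_sdiff] at hi
    obtain ⟨hiA, hi⟩ := hi
    rw [mem_union, hY', mem_union] at hi
    push Not at hi
    obtain ⟨⟨_, h1⟩, h2⟩ := hi
    rw [← hDL, mem_inter] at h1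
    rw [← hOL, Finset.mem_sdiff, mem_inter, mem_union] at h2
    tauto
  -- number of the particles
  have key : ∀ ω ∈ M.Class A s L Y DL OL,
      (M.N - M.Ns : ℝ) * Y'.card - 2 * M.N * A.card / 2 ^ 20 ≤ ∑ i ∈ Y', (M.n (M.tr Y' ω i) : ℝ) ∧
      ∑ i ∈ W, (M.n (M.tr W ω i) : ℝ) ≤ 2 * M.N * A.card / 2 ^ 20 := by
    intro ω hω
    have hmW := memW ω hω
    obtain ⟨hC, hcut, hDL, hOL, hsm⟩ := hω
    have hC' : ∑ i ∈ A.filter (fun i => M.Dn (ω i)), ((M.N : ℝ) - M.n (ω i)) +
        ∑ i ∈ A.filter (fun i => M.Vc (ω i)), (M.n (ω i) : ℝ) ≤ (M.N : ℝ) * A.card / 2 ^ 20 := by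
      by_contra h
      apply hC
      unfold CC
      push Not at h
      simp only [Set.mem_ofPred_eq]
      convert h using 2
    have hnN : ∀ i, (0 : ℝ) ≤ (M.N : ℝ) - M.n (ω i) := by
      intro i
      have := M.n_le (ω i)
      have : (M.n (ω i) : ℝ) ≤ M.N := by exact_mod_cast this
      linarith
    have hs1 : 0 ≤ ∑ i ∈ A.filter (fun i => M.Dn (ω i)), ((M.N : ℝ) - M.n (ω i)) :=
      sum_nonneg fun i _ => hnN i
    have hs2 : 0 ≤ ∑ i ∈ A.filter (fun i => M.Vc (ω i)), (M.n (ω i) : ℝ) :=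
      sum_nonneg fun i _ => Nat.cast_nonneg _
    -- the small contours
    have hsmall := hcut.small (M.DD A ω) (M.VC A ω) (fun i => Iff.rfl) (fun i hi => by
      constructor
      · intro h; exact Or.inr h
      · rintro (h | h)
        · exact absurd hi h
        · exact h)
    have hsmall' : (((Y \ M.DD A ω).card : ℝ) + ((A \ (Y ∪ L)) \ M.VC A ω).card) ≤
        (A.card : ℝ) / 2 ^ 20 := by
      refine le_trans ?_ hsm
      exact_mod_cast hsmall
    have hc1 : (0 : ℝ) ≤ (Y \ M.DD A ω).card := Nat.cast_nonneg _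
    have hc2 : (0 : ℝ) ≤ ((A \ (Y ∪ L)) \ M.VC A ω).card := Nat.cast_nonneg _
    constructor
    · -- dense region
      have e1 : ∑ i ∈ Y', ((M.N : ℝ) - M.n (ω i)) ≤ 2 * M.N * A.card / 2 ^ 20 := by
        have e2 : Y' ⊆ (A.filter fun i => M.Dn (ω i)) ∪ (Y \ M.DD A ω) := by
          intro i hi
          rw [mem_union, mem_filter, Finset.mem_sdiff, Cls.mem_DD]
          rw [hY', mem_union] at hi
          rcases hi with hi | hi
          · have := hYA hi
            tauto
          · left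
            rw [← hDL, mem_inter] at hi
            exact (Cls.mem_DD M).1 hi.2
        calc ∑ i ∈ Y', ((M.N : ℝ) - M.n (ω i))
            ≤ ∑ i ∈ (A.filter fun i => M.Dn (ω i)) ∪ (Y \ M.DD A ω), ((M.N : ℝ) - M.n (ω i)) :=
              sum_le_sum_of_subset_of_nonneg e2 fun i _ _ => hnN i
          _ ≤ ∑ i ∈ A.filter (fun i => M.Dn (ω i)), ((M.N : ℝ) - M.n (ω i)) +
              ∑ i ∈ Y \ M.DD A ω, ((M.N : ℝ) - M.n (ω i)) := by
              rw [← sum_union_inter]
              have : 0 ≤ ∑ i ∈ (A.filter fun i => M.Dn (ω i)) ∩ (Y \ M.DD A ω),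
                  ((M.N : ℝ) - M.n (ω i)) := sum_nonneg fun i _ => hnN i
              linarith
          _ ≤ (M.N : ℝ) * A.card / 2 ^ 20 + (Y \ M.DD A ω).card * M.N := by
              have : ∑ i ∈ Y \ M.DD A ω, ((M.N : ℝ) - M.n (ω i)) ≤
                  ∑ i ∈ Y \ M.DD A ω, (M.N : ℝ) := sum_le_sum fun i _ => by
                have : (0 : ℝ) ≤ M.n (ω i) := Nat.cast_nonneg _
                linarith
              rw [sum_const, nsmul_eq_mul] at this
              linarith
          _ ≤ _ := by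
              have : ((Y \ M.DD A ω).card : ℝ) * M.N ≤ (A.card : ℝ) / 2 ^ 20 * M.N :=
                mul_le_mul_of_nonneg_right (by linarith) hN0.le
              have e9 : 2 * (M.N : ℝ) * A.card / 2 ^ 20 =
                (M.N : ℝ) * A.card / 2 ^ 20 + (A.card : ℝ) / 2 ^ 20 * M.N := by ring
              rw [e9]
              linarith
      have e3 : ∑ i ∈ Y', ((M.n (ω i) : ℝ) - M.Ns) ≤ ∑ i ∈ Y', (M.n (M.tr Y' ω i) : ℝ) := by
        refine sum_le_sum fun i _ => ?_
        unfold Md.tr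
        split_ifs
        · have := M.n_le_c (ω i)
          have : (M.n (ω i) : ℝ) ≤ M.n (M.c (ω i)) + M.Ns := by exact_mod_cast this
          linarith
        · have : (0 : ℝ) ≤ M.Ns := Nat.cast_nonneg _
          linarith
      rw [sum_sub_distrib, sum_const, nsmul_eq_mul] at e1 e3
      have e4 : (M.N - M.Ns : ℝ) * Y'.card = Y'.card * M.N - Y'.card * M.Ns := by ring
      rw [e4]
      linarith
    · -- almost empty region
      have e1 : ∑ i ∈ W, (M.n (M.tr W ω i) : ℝ) ≤ ∑ i ∈ W, (M.n (ω i) : ℝ) := by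
        refine sum_le_sum fun i _ => ?_
        unfold Md.tr
        split_ifs
        · exact_mod_cast M.n_c (ω i)
        · exact le_rfl
      have e2 : W ⊆ (A.filter fun i => M.Vc (ω i)) ∪ ((A \ (Y ∪ L)) \ M.VC A ω) := by
        intro i hi
        rw [mem_union, mem_filter, Finset.mem_sdiff, Finset.mem_sdiff, mem_union, Cls.mem_VC]
        have h1 := hmW i hi
        rw [Cls.mem_VC] at h1
        rw [hW, Finset.mem_sdiff, mem_union, hY', mem_union] at hi
        tauto
      have hn0 : ∀ i, (0 : ℝ) ≤ M.n (ω i) := fun i => Nat.cast_nonneg _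
      have hnN' : ∀ i, (M.n (ω i) : ℝ) ≤ M.N := fun i => by exact_mod_cast M.n_le (ω i)
      calc ∑ i ∈ W, (M.n (M.tr W ω i) : ℝ) ≤ ∑ i ∈ W, (M.n (ω i) : ℝ) := e1
        _ ≤ ∑ i ∈ (A.filter fun i => M.Vc (ω i)) ∪ ((A \ (Y ∪ L)) \ M.VC A ω), (M.n (ω i) : ℝ) :=
            sum_le_sum_of_subset_of_nonneg e2 fun i _ _ => hn0 i
        _ ≤ ∑ i ∈ A.filter (fun i => M.Vc (ω i)), (M.n (ω i) : ℝ) +
            ∑ i ∈ (A \ (Y ∪ L)) \ M.VC A ω, (M.n (ω i) : ℝ) := by
            rw [← sum_union_inter]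
            have : 0 ≤ ∑ i ∈ (A.filter fun i => M.Vc (ω i)) ∩ ((A \ (Y ∪ L)) \ M.VC A ω),
                (M.n (ω i) : ℝ) := sum_nonneg fun i _ => hn0 i
            linarith
        _ ≤ (M.N : ℝ) * A.card / 2 ^ 20 + ((A \ (Y ∪ L)) \ M.VC A ω).card * M.N := by
            have : ∑ i ∈ (A \ (Y ∪ L)) \ M.VC A ω, (M.n (ω i) : ℝ) ≤
                ∑ i ∈ (A \ (Y ∪ L)) \ M.VC A ω, (M.N : ℝ) := sum_le_sum fun i _ => hnN' i
            rw [sum_const, nsmul_eq_mul] at this
            linarith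
        _ ≤ _ := by
            have : (((A \ (Y ∪ L)) \ M.VC A ω).card : ℝ) * M.N ≤ (A.card : ℝ) / 2 ^ 20 * M.N :=
              mul_le_mul_of_nonneg_right (by linarith) hN0.le
            have e9 : 2 * (M.N : ℝ) * A.card / 2 ^ 20 =
              (M.N : ℝ) * A.card / 2 ^ 20 + (A.card : ℝ) / 2 ^ 20 * M.N := by ring
            rw [e9]
            linarith
  -- number of the bad sites
  have hsize : L.card ≤ (2 * M.r + 1) ^ d * (cut M.S Y' + OL.card) := by
    have h := hcut0.size (M.DD A ω0) ((fatr M.r A).filter fun i => i ∉ A ∨ i ∈ M.VC A ω0)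
      (fun i => Iff.rfl) (fun i hi => by rw [mem_filter]; tauto)
    refine h.trans (Nat.mul_le_mul_left _ (Nat.add_le_add ?_ ?_))
    · refine (card_le_card ?_).trans (Cls.card_bd_le M Y')
      intro i hi
      rw [mem_filter] at hi
      obtain ⟨hi, j, hj, hjL, hjV⟩ := hi
      rw [mem_bd]
      rw [hDL0] at hi
      refine ⟨by rw [hY']; exact mem_union_right _ hi, fun hc => ?_⟩
      have hjY := hc hj
      rw [hY', mem_union] at hjY
      rw [mem_filter] at hjV
      rcases hjY with hjY | hjY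
      · exact (Finset.disjoint_left.1 hYL) hjY hjL
      · rw [← hDL0, mem_inter, Cls.mem_DD] at hjY
        rcases hjV.2 with h1 | h1
        · exact h1 hjY.2.1
        · rw [Cls.mem_VC] at h1
          exact Cls.not_both M hjY.2.2 h1.2
    · refine card_le_card ?_
      intro i hi
      rw [Finset.mem_sdiff, Finset.mem_sdiff, mem_filter] at hi
      obtain ⟨⟨hiL, hiD⟩, hiV⟩ := hi
      have hfat : i ∈ fatr M.r A := by
        have := ((hcut0.mem_L i).1 hiL).1
        unfold SquareWell.bad at this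
        exact (mem_filter.1 this).1
      rw [← hOL0, Finset.mem_sdiff, mem_inter, mem_union]
      tauto
  -- the bound for the type
  have hμ1 : μa ≤ (μa + μb) / 2 := by linarith
  have hμ2 : (μa + μb) / 2 ≤ μb := by linarith
  have hNs : 256 * M.Ns ≤ M.N := by
    have h := hS.hNs
    have h3 : 1 ≤ 3 ^ d * M.S.card := Nat.mul_pos (pow_pos (by norm_num) d) hS1
    calc 256 * M.Ns ≤ 2 ^ 40 * (3 ^ d * M.S.card) * M.Ns := by
          apply Nat.mul_le_mul_right
          calc 256 ≤ 2 ^ 40 * 1 := by norm_num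
            _ ≤ _ := Nat.mul_le_mul_left _ h3
      _ = 2 ^ 40 * 3 ^ d * M.S.card * M.Ns := by ring
      _ ≤ M.N := h
  have hB := type_bound M hμ1 hμ2 (ρa := (M.N : ℝ) / 2 ^ 16) (by positivity)
    (by
      refine hloc.trans ?_
      have : M.K * M.S.card * M.N * (1 - 1 / 256) ≤ M.K * M.S.card * M.N * (1 - 1 / 2 ^ 22) :=
        mul_le_mul_of_nonneg_left (by norm_num) hKSN
      nlinarith)
    hS.cutS hNs Ga Gb Y' OL W hYO hYW hOW (M.Class A s L Y DL OL)
    (Cls.measurableSet_Class M A s L Y DL OL) _ _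
    (by
      rintro ω ⟨_, hcut, hDL, _, _⟩ i hi v hv hiv
      rw [hY', mem_union] at hi hiv
      push Not at hiv
      rcases hi with hi | hi
      · have hnear : near M.r i (i + v) := by
          intro k
          have := M.S_r v hv k
          simpa using this
        have h := hcut.nearY i hi (i + v) hiv.1 hnear
        exact ((Cls.mem_DD M).1 h.1).2
      · rw [← hDL, mem_inter, Cls.mem_DD] at hi
        exact hi.2.2)
    (by
      rintro ω ⟨_, _, _, hOL, _⟩ i hi
      rw [← hOL, Finset.mem_sdiff, mem_inter, mem_union, Cls.mem_DD, Cls.mem_VC] at hi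
      tauto)
    (by
      intro ω hω i hi v hv hiv
      have h1 := memW ω hω i hi
      obtain ⟨_, hcut, hDL, hOL, _⟩ := hω
      by_cases hiL : i ∈ L
      · exact ((Cls.mem_VC M).1 (h1 hiL)).2
      · have hi' := hi
        rw [hW, Finset.mem_sdiff, mem_union, hY', mem_union] at hi'
        have hnear : near M.r i (i + v) := by
          intro k
          have := M.S_r v hv k
          simpa using this
        have hiv' : i + v ∈ Y ∨ i + v ∈ L := by
          rcases hiv with h | h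
          · rw [hY', mem_union] at h
            rcases h with h | h
            · exact Or.inl h
            · exact Or.inr (hDLL _ h).1
          · exact Or.inr (hOLL _ h).1
        have h := hcut.nearW i (by tauto) hiL (i + v) hiv' hnear
        rcases h.1 with h2 | h2
        · exact absurd hi'.1 h2
        · exact ((Cls.mem_VC M).1 h2).2)
    (fun ω hω => (key ω hω).1) (fun ω hω => (key ω hω).2)
  rw [← hA] at hB
  refine hB.trans ?_
  rw [ex_le_ex]
  have e1 : μb - (μa + μb) / 2 = (μb - μa) / 2 := by ring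
  have e2 : (μa + μb) / 2 - μa = (μb - μa) / 2 := by ring
  rw [e1, e2]
  refine Cls.arith (T := 3 ^ d) (R := (2 * (M.r : ℝ) + 1) ^ d) hN0 M.hK hS1' (b_nonneg M)
    (Nat.cast_nonneg _) hT1 (one_le_pow₀ (by
      have : (0 : ℝ) ≤ M.r := Nat.cast_nonneg _
      linarith)) (by linarith) hΔ hq0 hqa hqb (Nat.cast_nonneg _) (Nat.cast_nonneg _)
    (Nat.cast_nonneg _) hcardA (Nat.cast_nonneg _) (Nat.cast_nonneg _) (Nat.cast_nonneg _)
    ?_ ?_ ?_ ?_ hS.hb ?_
  · exact_mod_cast Cls.card_bd_le M Y'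
  · exact_mod_cast Cls.bd_W M hA hYW
  · exact_mod_cast Cls.cut_W M hA hYW
  · exact_mod_cast hsize
  · exact_mod_cast hS.hNs

end Pool.Agent.SquareWell
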