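import Pool.Agent.Lib.MP_09cbbd_sw.Defs

/-!
# Geometry of the cuts of the range
-/

set_option autoImplicit false

namespace Pool.Agent.SquareWell

open Finset Pool.Agent.StableGas

/-- The `v` such that some points of the unit cells at `0` and `v` are at distance at most `B`. -/
noncomputable def SS (d B : ℕ) : Finset (Zd d) :=
  (Fintype.piFinset fun _ => Finset.Icc (-(B + 1) : ℤ) (B + 1)).filter
    fun v => ∑ k, (max (|v k| - 1) 0) ^ 2 ≤ (B : ℤ) ^ 2

/-- The `v ≠ 0` such that all points of the unit cells at `0` and `v` are at distance less than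
`B`. -/
noncomputable def SSm (d B : ℕ) : Finset (Zd d) :=
  (SS d B).filter fun v => v ≠ 0 ∧ ∑ k, (|v k| + 1) ^ 2 ≤ (B : ℤ) ^ 2

namespace CutG

variable {d : ℕ}

theorem le_of_sq_le_sq' {a b : ℤ} (h : a ^ 2 ≤ b ^ 2) (hb : 0 ≤ b) : a ≤ b := by
  nlinarith

/-- Number of the sites of `Y` which leave `Y` under the translation by `v`. -/
noncomputable def dd (Y : Finset (Zd d)) (v : Zd d) : ℕ := (Y.filter fun i => i + v ∉ Y).card

theorem cut_eq (S Y : Finset (Zd d)) : cut S Y = ∑ v ∈ S, dd Y v := rfl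

theorem dd_zero (Y : Finset (Zd d)) : dd Y 0 = 0 := by
  unfold dd
  rw [card_eq_zero, filter_eq_empty_iff]
  intro i hi
  simpa using hi

theorem dd_add (Y : Finset (Zd d)) (u v : Zd d) : dd Y (u + v) ≤ dd Y u + dd Y v := by
  classical
  have h : (Y.filter fun i => i + (u + v) ∉ Y) ⊆
      (Y.filter fun i => i + u ∉ Y) ∪ ((Y.filter fun i => i + v ∉ Y).image fun i => i - u) := by
    intro i hi
    rw [mem_filter] at hi
    rw [mem_union, mem_filter, mem_image]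
    by_cases h1 : i + u ∈ Y
    · right
      refine ⟨i + u, ?_, by simp⟩
      rw [mem_filter]
      exact ⟨h1, by rw [add_assoc]; exact hi.2⟩
    · exact Or.inl ⟨hi.1, h1⟩
  unfold dd
  calc _ ≤ _ := card_le_card h
    _ ≤ _ := card_union_le _ _
    _ ≤ _ := Nat.add_le_add_left card_image_le _

/-- The shift of half of `v` by `j`. -/
def hf (v j : Zd d) : Zd d := fun k => v k / 2 + j k

theorem hf_inj (v : Zd d) : Function.Injective (hf v) := by
  intro j j' h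
  funext k
  have := congrFun h k
  unfold hf at this
  linarith

/-- The small cube. -/
noncomputable def cb (d m : ℕ) : Finset (Zd d) := Fintype.piFinset fun _ => Finset.Icc (-(m : ℤ)) m

theorem card_cb (d m : ℕ) : (cb d m).card = (2 * m + 1) ^ d := by
  unfold cb
  rw [Fintype.card_piFinset]
  simp only [Int.card_Icc, prod_const, card_univ, Fintype.card_fin]
  congr 1
  omega

theorem mem_SS {B : ℕ} {v : Zd d} : v ∈ SS d B ↔ ∑ k, (max (|v k| - 1) 0) ^ 2 ≤ (B : ℤ) ^ 2 := by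
  unfold SS
  rw [mem_filter, Fintype.mem_piFinset]
  refine ⟨fun h => h.2, fun h => ⟨fun k => ?_, h⟩⟩
  have h1 : (max (|v k| - 1) 0) ^ 2 ≤ (B : ℤ) ^ 2 :=
    le_trans (single_le_sum (f := fun k => (max (|v k| - 1) 0) ^ 2)
      (fun i _ => sq_nonneg _) (mem_univ k)) h
  have h2 : max (|v k| - 1) 0 ≤ (B : ℤ) :=
    le_of_sq_le_sq' h1 (by positivity)
  have h3 : |v k| ≤ (B : ℤ) + 1 := by
    have := le_max_left (|v k| - 1) 0
    linarith
  rw [mem_Icc]
  exact abs_le.1 h3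

theorem le_B {B : ℕ} {v : Zd d} (h : v ∈ SS d B) (k : Fin d) : max (|v k| - 1) 0 ≤ (B : ℤ) := by
  rw [mem_SS] at h
  have h1 : (max (|v k| - 1) 0) ^ 2 ≤ (B : ℤ) ^ 2 :=
    le_trans (single_le_sum (f := fun k => (max (|v k| - 1) 0) ^ 2)
      (fun i _ => sq_nonneg _) (mem_univ k)) h
  exact le_of_sq_le_sq' h1 (by positivity)

theorem mem_SSm_of {B s : ℕ} {v u : Zd d} (hB : B = 2 * d * s) (hd : 1 ≤ d) (hv : v ∈ SS d B)
    (hu : ∀ k, 2 * (|u k| + 1) ≤ max (|v k| - 1) 0 + 2 * s) (h0 : u ≠ 0) : u ∈ SSm d B := by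
  have h1 : ∑ k, (|u k| + 1) ^ 2 ≤ (B : ℤ) ^ 2 := by
    have h2 : ∀ k, 4 * (|u k| + 1) ^ 2 ≤ 2 * (max (|v k| - 1) 0) ^ 2 + 8 * (s : ℤ) ^ 2 := by
      intro k
      have h3 : 0 ≤ 2 * (|u k| + 1) := by positivity
      have h4 : (2 * (|u k| + 1)) ^ 2 ≤ (max (|v k| - 1) 0 + 2 * s) ^ 2 :=
        pow_le_pow_left₀ h3 (hu k) 2
      nlinarith [sq_nonneg (max (|v k| - 1) 0 - 2 * (s : ℤ))]
    have h5 : ∑ k : Fin d, 4 * (|u k| + 1) ^ 2 ≤
        ∑ k : Fin d, (2 * (max (|v k| - 1) 0) ^ 2 + 8 * (s : ℤ) ^ 2) :=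
      sum_le_sum fun k _ => h2 k
    rw [← mul_sum, sum_add_distrib, ← mul_sum, sum_const, card_univ, Fintype.card_fin,
      nsmul_eq_mul] at h5
    rw [mem_SS] at hv
    have h6 : (d : ℤ) * (8 * (s : ℤ) ^ 2) ≤ 2 * (B : ℤ) ^ 2 := by
      rw [hB]
      push_cast
      have h7 : (1 : ℤ) ≤ d := by exact_mod_cast hd
      have h8 : (0 : ℤ) ≤ (d : ℤ) * (d - 1) := mul_nonneg (by linarith) (by linarith)
      nlinarith [mul_nonneg h8 (sq_nonneg (s : ℤ))]
    linarith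
  unfold SSm
  rw [mem_filter]
  refine ⟨?_, h0, h1⟩
  rw [mem_SS]
  refine le_trans (sum_le_sum fun k _ => ?_) h1
  refine pow_le_pow_left₀ (le_max_right _ _) ?_ 2
  refine max_le ?_ ?_ <;> linarith [abs_nonneg (u k)]

/-- The shifts used to decompose `v`. -/
noncomputable def js (v : Zd d) (m : ℕ) : Finset (Zd d) :=
  ((cb d m).erase fun k => -(v k / 2)).erase fun k => v k - v k / 2

theorem card_js (v : Zd d) (m : ℕ) : (2 * m + 1) ^ d - 2 ≤ (js v m).card := by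
  have h1 := pred_card_le_card_erase (s := cb d m) (a := fun k => -(v k / 2))
  have h2 := pred_card_le_card_erase (s := (cb d m).erase fun k => -(v k / 2))
    (a := fun k => v k - v k / 2)
  rw [card_cb] at h1
  unfold js
  omega

theorem js_mem {B m : ℕ} {v j : Zd d} (hB : B = 2 * d * (m + 2)) (hd : 1 ≤ d) (hv : v ∈ SS d B)
    (hj : j ∈ js v m) : hf v j ∈ SSm d B ∧ v - hf v j ∈ SSm d B := by
  unfold js at hj
  rw [mem_erase, mem_erase] at hj
  obtain ⟨hj1, hj0, hj⟩ := hj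
  unfold cb at hj
  rw [Fintype.mem_piFinset] at hj
  constructor
  · refine mem_SSm_of (s := m + 2) hB hd hv (fun k => ?_) ?_
    · have h := hj k
      rw [mem_Icc] at h
      unfold hf
      push_cast
      rcases abs_cases (v k / 2 + j k) with h1 | h1 <;> rcases abs_cases (v k) with h2 | h2 <;>
        omega
    · intro h
      apply hj0
      funext k
      have := congrFun h k
      simp only [hf, Pi.zero_apply] at this
      linarith
  · refine mem_SSm_of (s := m + 2) hB hd hv (fun k => ?_) ?_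
    · have h := hj k
      rw [mem_Icc] at h
      simp only [Pi.sub_apply, hf]
      push_cast
      rcases abs_cases (v k - (v k / 2 + j k)) with h1 | h1 <;>
        rcases abs_cases (v k) with h2 | h2 <;> omega
    · intro h
      apply hj1
      funext k
      have := congrFun h k
      simp only [hf, Pi.sub_apply, Pi.zero_apply] at this
      linarith

theorem dd_le (Y : Finset (Zd d)) {B m : ℕ} {v : Zd d} (hB : B = 2 * d * (m + 2)) (hd : 1 ≤ d)
    (hv : v ∈ SS d B) : ((2 * m + 1) ^ d - 2) * dd Y v ≤ 2 * cut (SSm d B) Y := by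
  classical
  have h1 : ∑ j ∈ js v m, dd Y (hf v j) ≤ cut (SSm d B) Y := by
    rw [cut_eq, ← sum_image (f := dd Y) (fun j _ j' _ h => hf_inj v h)]
    refine sum_le_sum_of_subset ?_
    intro u hu
    rw [mem_image] at hu
    obtain ⟨j, hj, rfl⟩ := hu
    exact (js_mem hB hd hv hj).1
  have h2 : ∑ j ∈ js v m, dd Y (v - hf v j) ≤ cut (SSm d B) Y := by
    rw [cut_eq, ← sum_image (f := dd Y) (g := fun j => v - hf v j)
      (fun j _ j' _ h => hf_inj v (sub_right_injective h))]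
    refine sum_le_sum_of_subset ?_
    intro u hu
    rw [mem_image] at hu
    obtain ⟨j, hj, rfl⟩ := hu
    exact (js_mem hB hd hv hj).2
  calc ((2 * m + 1) ^ d - 2) * dd Y v ≤ (js v m).card * dd Y v :=
        Nat.mul_le_mul_right _ (card_js v m)
    _ = ∑ j ∈ js v m, dd Y v := by rw [sum_const, smul_eq_mul]
    _ ≤ ∑ j ∈ js v m, (dd Y (hf v j) + dd Y (v - hf v j)) := by
        refine sum_le_sum fun j _ => ?_
        have := dd_add Y (hf v j) (v - hf v j)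
        rwa [add_sub_cancel] at this
    _ = _ := sum_add_distrib
    _ ≤ _ := by omega

theorem card_SSm {B m : ℕ} (hB : B = 2 * d * (m + 2)) (hd : 1 ≤ d) :
    (2 * m + 1) ^ d - 2 ≤ (SSm d B).card := by
  classical
  have h0 : (0 : Zd d) ∈ SS d B := by
    rw [mem_SS]
    simp
  refine le_trans (card_js (0 : Zd d) m) ?_
  rw [← card_image_of_injective (js (0 : Zd d) m) (hf_inj (0 : Zd d))]
  refine card_le_card ?_
  intro u hu
  rw [mem_image] at hu
  obtain ⟨j, hj, rfl⟩ := hu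
  exact (js_mem hB hd h0 hj).1

theorem card_int {I : Finset ℤ} {n : ℕ} (h : ∀ x ∈ I, ∀ y ∈ I, y - x ≤ n) : I.card ≤ n + 1 := by
  rcases I.eq_empty_or_nonempty with h0 | h0
  · simp [h0]
  · have h1 : I ⊆ Finset.Icc (I.min' h0) (I.min' h0 + n) := by
      intro x hx
      rw [mem_Icc]
      refine ⟨min'_le _ _ hx, ?_⟩
      have := h _ (min'_mem I h0) x hx
      linarith
    have h2 := card_le_card h1
    rw [Int.card_Icc] at h2
    omega

/-- The shell. -/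
noncomputable def sh (d B : ℕ) : Finset (Zd d) :=
  (SS d B).filter fun v => (B : ℤ) ^ 2 < ∑ k, (|v k| + 1) ^ 2

theorem sh_dist {e B T : ℕ} (hT : 4 * (B + 1) * (e + 1) ≤ T ^ 2) {a a' : Zd (e + 1)}
    (ha : a ∈ sh (e + 1) B) (ha' : a' ∈ sh (e + 1) B) (h : Fin.tail a = Fin.tail a') :
    |a' 0| - |a 0| ≤ T + 2 := by
  by_contra hc
  push Not at hc
  unfold sh at ha ha'
  rw [mem_filter] at ha ha'
  have h1 := mem_SS.1 ha'.1
  have h2 := ha.2
  rw [Fin.sum_univ_succ] at h1 h2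
  have h3 : ∀ k : Fin e, a k.succ = a' k.succ := fun k => congrFun h k
  have h4 : ∑ k : Fin e, (|a k.succ| + 1) ^ 2 ≤
      ∑ k : Fin e, ((max (|a' k.succ| - 1) 0) ^ 2 + (4 * B + 4)) := by
    refine sum_le_sum fun k _ => ?_
    rw [h3 k]
    have h5 := le_B ha'.1 k.succ
    have h6 : |a' k.succ| + 1 ≤ max (|a' k.succ| - 1) 0 + 2 := by
      have := le_max_left (|a' k.succ| - 1) 0
      linarith
    have h7 : (|a' k.succ| + 1) ^ 2 ≤ (max (|a' k.succ| - 1) 0 + 2) ^ 2 :=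
      pow_le_pow_left₀ (by positivity) h6 2
    nlinarith
  rw [sum_add_distrib, sum_const, card_univ, Fintype.card_fin, nsmul_eq_mul] at h4
  have hT' : 4 * ((B : ℤ) + 1) * (e + 1) ≤ (T : ℤ) ^ 2 := by exact_mod_cast hT
  have h8 : |a' 0| - 1 ≤ max (|a' 0| - 1) 0 := le_max_left _ _
  have h9 : 0 ≤ |a 0| := abs_nonneg _
  have h10 : |a 0| + 1 + T ≤ max (|a' 0| - 1) 0 := by linarith
  have h11 : (|a 0| + 1 + T) ^ 2 ≤ (max (|a' 0| - 1) 0) ^ 2 :=
    pow_le_pow_left₀ (by positivity) h10 2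
  have h12 : (|a 0| + 1) ^ 2 + (T : ℤ) ^ 2 ≤ (|a 0| + 1 + T) ^ 2 := by
    nlinarith [mul_nonneg (by linarith : 0 ≤ |a 0| + 1) (Int.natCast_nonneg T)]
  nlinarith [Int.natCast_nonneg B, Int.natCast_nonneg e]

theorem card_fib {e B T : ℕ} (hT : 4 * (B + 1) * (e + 1) ≤ T ^ 2) (σ : ℤ) (hσ : σ = 1 ∨ σ = -1)
    (b : Zd e) (G : Finset (Zd (e + 1))) (hG : G ⊆ sh (e + 1) B)
    (hb : ∀ a ∈ G, Fin.tail a = b) (hs : ∀ a ∈ G, 0 ≤ σ * a 0) : G.card ≤ T + 3 := by
  classical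
  have h1 : Set.InjOn (fun a : Zd (e + 1) => σ * a 0) G := by
    intro a ha a' ha' h
    have h2 : a 0 = a' 0 := by
      rcases hσ with rfl | rfl <;> simpa using h
    have h3 : Fin.tail a = Fin.tail a' := (hb a ha).trans (hb a' ha').symm
    rw [← Fin.cons_self_tail a, ← Fin.cons_self_tail a', h2, h3]
  rw [← card_image_of_injOn h1]
  refine card_int (n := T + 2) ?_
  intro x hx y hy
  rw [mem_image] at hx hy
  obtain ⟨a, ha, rfl⟩ := hx
  obtain ⟨a', ha', rfl⟩ := hy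
  have h2 := sh_dist hT (hG ha) (hG ha') ((hb a ha).trans (hb a' ha').symm)
  have h3 : ∀ a ∈ G, |a 0| = σ * a 0 := by
    intro a ha
    have := hs a ha
    rcases hσ with rfl | rfl
    · rw [one_mul] at *
      exact abs_of_nonneg this
    · rw [abs_of_nonpos (by linarith)]
      ring
  rw [h3 a ha, h3 a' ha'] at h2
  push_cast
  exact h2

theorem card_sh {e B T : ℕ} (hT : 4 * (B + 1) * (e + 1) ≤ T ^ 2) :
    (sh (e + 1) B).card ≤ (2 * (T + 3)) * (2 * B + 3) ^ e := by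
  classical
  have h1 : (Fintype.piFinset fun _ : Fin e => Finset.Icc (-(B + 1) : ℤ) (B + 1)).card =
      (2 * B + 3) ^ e := by
    rw [Fintype.card_piFinset]
    simp only [Int.card_Icc, prod_const, card_univ, Fintype.card_fin]
    congr 1
    omega
  rw [← h1]
  refine card_le_mul_card_image_of_maps_to (f := fun a : Zd (e + 1) => Fin.tail a) ?_ _ ?_
  · intro a ha
    unfold sh at ha
    rw [mem_filter] at ha
    rw [Fintype.mem_piFinset]
    intro k
    have h2 := le_B ha.1 k.succ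
    have h3 := le_max_left (|a k.succ| - 1) 0
    rw [mem_Icc]
    have h4 : |a k.succ| ≤ (B : ℤ) + 1 := by linarith
    exact abs_le.1 h4
  · intro b _
    rw [← card_filter_add_card_filter_not (fun a : Zd (e + 1) => 0 ≤ a 0)]
    refine le_trans (Nat.add_le_add
      (card_fib hT 1 (Or.inl rfl) b _
        (fun a ha => (mem_filter.1 (mem_filter.1 ha).1).1)
        (fun a ha => (mem_filter.1 (mem_filter.1 ha).1).2)
        (fun a ha => by rw [one_mul]; exact (mem_filter.1 ha).2))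
      (card_fib hT (-1) (Or.inr rfl) b _
        (fun a ha => (mem_filter.1 (mem_filter.1 ha).1).1)
        (fun a ha => (mem_filter.1 (mem_filter.1 ha).1).2)
        (fun a ha => by
          have := (mem_filter.1 ha).2
          push Not at this
          linarith))) (by omega)

theorem sdiff_sub (d B : ℕ) : ∀ v ∈ SS d B, v ∉ SSm d B → v ≠ 0 → v ∈ sh d B := by
  intro v hv hm h0
  unfold sh
  rw [mem_filter]
  refine ⟨hv, ?_⟩
  by_contra hc
  push Not at hc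
  apply hm
  unfold SSm
  rw [mem_filter]
  exact ⟨hv, h0, hc⟩

theorem params (e : ℕ) : ∃ B m : ℕ, B = 2 * (e + 1) * (m + 2) ∧ 1 ≤ B ∧
    1 ≤ (2 * m + 1) ^ (e + 1) - 2 ∧
    ∀ s : ℕ, (∀ T : ℕ, 4 * (B + 1) * (e + 1) ≤ T ^ 2 →
      s ≤ (2 * (T + 3)) * (2 * B + 3) ^ e + 1) → 2 ^ 32 * s ≤ (2 * m + 1) ^ (e + 1) - 2 := by
  obtain ⟨n, hn⟩ : ∃ n : ℕ, n = 2 ^ 32 * 15 * (e + 1) * (7 * (e + 1)) ^ e := ⟨_, rfl⟩
  have h7 : 1 ≤ (7 * (e + 1)) ^ e := Nat.one_le_pow _ _ (by positivity)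
  have hn1 : 2 ^ 32 * 15 ≤ n := by
    rw [hn]
    calc 2 ^ 32 * 15 = 2 ^ 32 * 15 * 1 * 1 := by norm_num
      _ ≤ _ := Nat.mul_le_mul (Nat.mul_le_mul_left _ (by omega)) h7
  have hn2 : 5 ≤ n ^ 2 := by nlinarith
  obtain ⟨m, hm⟩ : ∃ m : ℕ, m + 2 = n ^ 2 := ⟨n ^ 2 - 2, by omega⟩
  have hM : n ^ (2 * (e + 1)) + 2 ≤ (2 * m + 1) ^ (e + 1) := by
    have h1 : n ^ 2 + 2 ≤ 2 * m + 1 := by omega
    calc n ^ (2 * (e + 1)) + 2 = n ^ 2 * (n ^ 2) ^ e + 2 * 1 := by rw [pow_mul, pow_succ]; ring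
      _ ≤ n ^ 2 * (n ^ 2 + 2) ^ e + 2 * (n ^ 2 + 2) ^ e :=
        Nat.add_le_add (Nat.mul_le_mul_left _ (Nat.pow_le_pow_left (by omega) _))
          (Nat.mul_le_mul_left _ (Nat.one_le_pow _ _ (by omega)))
      _ = (n ^ 2 + 2) ^ (e + 1) := by rw [pow_succ]; ring
      _ ≤ _ := Nat.pow_le_pow_left h1 _
  have hnp : 1 ≤ n ^ (2 * (e + 1)) := Nat.one_le_pow _ _ (by omega)
  refine ⟨2 * (e + 1) * n ^ 2, m, by rw [hm], ?_, by omega, ?_⟩
  · have : 0 < 2 * (e + 1) * n ^ 2 := by positivity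
    omega
  · intro s hs
    have h1 := hs (4 * (e + 1) * n) (by
      have h3 : e + 1 ≤ (e + 1) ^ 2 * n ^ 2 := by
        calc e + 1 = (e + 1) * 1 := by ring
          _ ≤ (e + 1) ^ 2 * n ^ 2 :=
            Nat.mul_le_mul (Nat.le_self_pow (by norm_num) _) (by omega)
      calc 4 * (2 * (e + 1) * n ^ 2 + 1) * (e + 1)
          = 8 * ((e + 1) ^ 2 * n ^ 2) + 4 * (e + 1) := by ring
        _ ≤ 8 * ((e + 1) ^ 2 * n ^ 2) + 8 * ((e + 1) ^ 2 * n ^ 2) := by omega
        _ = (4 * (e + 1) * n) ^ 2 := by ring)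
    have hen : 1 ≤ (e + 1) * n := Nat.mul_pos (by omega) (by omega)
    have hen2 : 1 ≤ (e + 1) * n ^ 2 := Nat.mul_pos (by omega) (by omega)
    have h2 : s ≤ 15 * ((e + 1) * n) * (7 * ((e + 1) * n ^ 2)) ^ e := by
      have h4 : 1 ≤ (7 * ((e + 1) * n ^ 2)) ^ e := Nat.one_le_pow _ _ (by omega)
      have h5 : (2 * (2 * (e + 1) * n ^ 2) + 3) ^ e ≤ (7 * ((e + 1) * n ^ 2)) ^ e :=
        Nat.pow_le_pow_left (by nlinarith) _
      have h6 : 2 * (4 * (e + 1) * n + 3) ≤ 14 * ((e + 1) * n) := by nlinarith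
      calc s ≤ _ := h1
        _ ≤ 14 * ((e + 1) * n) * (7 * ((e + 1) * n ^ 2)) ^ e +
            1 * ((e + 1) * n) * (7 * ((e + 1) * n ^ 2)) ^ e := by
          refine Nat.add_le_add (Nat.mul_le_mul h6 h5) ?_
          rw [one_mul]
          exact Nat.mul_pos hen h4
        _ = _ := by ring
    have h3 : 2 ^ 32 * s ≤ n ^ (2 * (e + 1)) := by
      calc 2 ^ 32 * s ≤ 2 ^ 32 * (15 * ((e + 1) * n) * (7 * ((e + 1) * n ^ 2)) ^ e) :=
            Nat.mul_le_mul_left _ h2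
        _ = (2 ^ 32 * 15 * (e + 1) * (7 * (e + 1)) ^ e) * (n * (n ^ 2) ^ e) := by
          rw [← mul_assoc 7, mul_pow]; ring
        _ = n * (n * (n ^ 2) ^ e) := by rw [← hn]
        _ = n ^ (2 * (e + 1)) := by rw [pow_mul, pow_succ]; ring
    omega

end CutG

theorem exists_B (d : ℕ) (hd : 1 ≤ d) : ∃ B : ℕ, 1 ≤ B ∧
    (∀ Y : Finset (Zd d), 511 * cut (SS d B) Y ≤ 512 * cut (SSm d B) Y) ∧
    (1 - 1 / 2 ^ 32 : ℝ) * (SS d B).card ≤ (SSm d B).card := by
  classical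
  obtain ⟨B, m, hB, hB1, hM, hsh⟩ : ∃ B m : ℕ, B = 2 * d * (m + 2) ∧ 1 ≤ B ∧
      1 ≤ (2 * m + 1) ^ d - 2 ∧
      2 ^ 32 * (SS d B \ SSm d B).card ≤ (2 * m + 1) ^ d - 2 := by
    obtain ⟨e, rfl⟩ : ∃ e, d = e + 1 := ⟨d - 1, by omega⟩
    obtain ⟨B, m, hB, hB1, hM, h⟩ := CutG.params e
    refine ⟨B, m, hB, hB1, hM, h _ fun T hT => ?_⟩
    refine le_trans ?_ (Nat.add_le_add_right (CutG.card_sh hT) 1)
    refine le_trans (card_le_card (t := insert 0 (CutG.sh (e + 1) B)) ?_) (card_insert_le _ _)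
    intro v hv
    rw [mem_sdiff] at hv
    rw [mem_insert]
    by_cases h0 : v = 0
    · exact Or.inl h0
    · exact Or.inr (CutG.sdiff_sub _ _ v hv.1 hv.2 h0)
  have hsub : SSm d B ⊆ SS d B := filter_subset _ _
  refine ⟨B, hB1, ?_, ?_⟩
  · intro Y
    have h1 : cut (SS d B) Y = cut (SSm d B) Y + ∑ v ∈ SS d B \ SSm d B, CutG.dd Y v := by
      rw [CutG.cut_eq, CutG.cut_eq, add_comm]
      exact (sum_sdiff hsub).symm
    have h2 : ((2 * m + 1) ^ d - 2) * ∑ v ∈ SS d B \ SSm d B, CutG.dd Y v ≤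
        (SS d B \ SSm d B).card * (2 * cut (SSm d B) Y) := by
      rw [mul_sum, ← smul_eq_mul (a := (SS d B \ SSm d B).card)]
      exact sum_le_card_nsmul _ _ _ fun v hv => CutG.dd_le Y hB hd (mem_sdiff.1 hv).1
    have h3 : ((2 * m + 1) ^ d - 2) * (2 ^ 32 * ∑ v ∈ SS d B \ SSm d B, CutG.dd Y v) ≤
        ((2 * m + 1) ^ d - 2) * (2 * cut (SSm d B) Y) :=
      calc _ = 2 ^ 32 * (((2 * m + 1) ^ d - 2) * ∑ v ∈ SS d B \ SSm d B, CutG.dd Y v) := by ring
        _ ≤ 2 ^ 32 * ((SS d B \ SSm d B).card * (2 * cut (SSm d B) Y)) :=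
          Nat.mul_le_mul_left _ h2
        _ = (2 ^ 32 * (SS d B \ SSm d B).card) * (2 * cut (SSm d B) Y) := by ring
        _ ≤ _ := Nat.mul_le_mul_right _ hsh
    have h4 := Nat.le_of_mul_le_mul_left h3 (by omega)
    omega
  · have h1 := card_sdiff_add_card_eq_card hsub
    have h2 : 2 ^ 32 * (SS d B \ SSm d B).card ≤ (SSm d B).card :=
      le_trans hsh (CutG.card_SSm hB hd)
    have h3 : (2 : ℝ) ^ 32 * (SS d B \ SSm d B).card ≤ (SSm d B).card := by exact_mod_cast h2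
    have h4 : ((SS d B \ SSm d B).card : ℝ) + (SSm d B).card = (SS d B).card := by
      exact_mod_cast h1
    have h5 : (0 : ℝ) ≤ (SS d B \ SSm d B).card := by positivity
    rw [← h4]
    nlinarith

end Pool.Agent.SquareWell
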