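import Pool.Agent.Lib.MP_09cbbd_sw.ModL

/-!
# The square-well gas as a gas on cells
-/

set_option autoImplicit false

namespace Pool.Agent.SquareWell

open MeasureTheory Finset Filter Topology Pool.Agent.StableGas Pool.Agent.SquareWellGas

variable {d : ℕ}

open ModD in
/-- The gas on cells. -/
noncomputable def cellMd (B : ℕ) {ℓ K : ℝ} (hℓ : 2 < ℓ) (hK : 0 < K) : Md d (EE d ℓ) where
  π := pi0 ℓ
  e0 := e00 d ℓ
  n := n0 ℓ
  c := c0 ℓ
  h := h0 ℓ (B * ℓ) K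
  g := g0 ℓ (B * ℓ) K
  S := SS d B
  Sm := SSm d B
  r := B + 1
  N := mx (Box d ℓ)
  Ns := mx (Box d ℓ \ Cor d ℓ)
  K := K
  b := 2 * ℓ ^ d
  measurable_n := measurable_n0
  measurable_c := measurable_c0
  measurable_h := measurable_h0
  measurable_g := measurable_g0
  measurableSet_e0 := measurableSet_e00
  measurableSet_core := measurableSet_core0
  π_e0 := pi0_e00
  π_univ := pi0_univ hℓ
  hK := hK
  hN := one_le_mx hℓ
  hr := Nat.le_add_left 1 B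
  zero_S := zero_SS B
  Nb_S := Nb_SS B
  S_neg := SS_neg B
  S_r := SS_r B
  Sm_S := SSm_SS B
  Sm_neg := SSm_neg B
  zero_Sm := zero_SSm B
  n_e0 := n0_e00
  n_le := n0_le
  n_c := n0_c
  n_le_c := n0_le_c
  c_e0 := c0_e00
  c_c := c0_c
  c_push := c_push hℓ
  h_e0 := h0_e00
  one_le_h := one_le_h0 hK
  h_up := h0_up hK
  h_c := h0_c hK
  g_symm := g0_symm
  g_e0 := g0_e00
  g_up := g0_up hK
  one_le_g := one_le_g0 hℓ hK
  g_lo := g0_lo hℓ hK B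
  g_c := g0_c hK

/-- Cells of side `ℓ > 2`, hard cores of diameter one, attraction `K` at distance at most `B ℓ`. -/
theorem exists_model (hd : 1 ≤ d) (B : ℕ) (hB : 1 ≤ B) {ℓ K : ℝ} (hℓ : 2 < ℓ) (hK : 0 < K) :
    ∃ (E : Type) (_ : MeasurableSpace E) (M : Md d E), M.S = SS d B ∧ M.Sm = SSm d B ∧
      M.r = B + 1 ∧ M.N = mx (Box d ℓ) ∧ M.Ns = mx (Box d ℓ \ Cor d ℓ) ∧ M.K = K ∧
      M.b = 2 * ℓ ^ d ∧
      (∀ n : ℕ, ((n.factorial : ENNReal))⁻¹ * volume (Cn (Fin n) (Cor d ℓ)) ≤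
        M.π {x | M.c x = x ∧ M.n x = n}) ∧
      ∀ (μ : ℝ) (L : ℕ), M.xi μ (bx d L) =
        ∑' n : ℕ, ex (μ * n) * ENNReal.ofReal (Z d (1 / 2) (B * ℓ) K (L * ℓ) n) :=
  ⟨ModD.EE d ℓ, inferInstance, cellMd B hℓ hK, rfl, rfl, rfl, rfl, rfl, rfl, rfl,
    ModD.core_measure hℓ, ModD.link0 hℓ B⟩

end Pool.Agent.SquareWell
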