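import Pool.Agent.Lib.MP_09cbbd_sw.Asm
import Pool.Agent.Lib.MP_09cbbd_sw.Mod
import Pool.Agent.Lib.MP_09cbbd_sw.Kink

/-!
# The transition of the square-well gas
-/

set_option autoImplicit false

namespace Pool.Agent.SquareWell

open MeasureTheory Finset Filter Topology Pool.Agent.StableGas Pool.Agent.SquareWellGas

namespace End

/-- The smallness assumptions for large cells and strong attraction. -/
theorem small {d B : ℕ} {ℓ K c C' : ℝ} (hℓ : 1 ≤ ℓ) (hK : 0 < K) (hc : 0 < c)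
    (hB2 : ∀ Y : Finset (Zd d), 511 * cut (SS d B) Y ≤ 512 * cut (SSm d B) Y)
    (hB3 : (1 - 1 / 2 ^ 32 : ℝ) * (SS d B).card ≤ (SSm d B).card)
    (hmx : c * ℓ ^ d ≤ mx (Box d ℓ))
    (hst : (mx (Box d ℓ \ Cor d ℓ) : ℝ) ≤
      1 / (2 ^ 40 * 3 ^ d * ((SS d B).card + 1 : ℝ)) * mx (Box d ℓ))
    (hpk : ∃ n : ℕ, (1 - 1 / 2 ^ 32 : ℝ) * mx (Box d ℓ) ≤ n ∧
      ex (-(C' * ℓ ^ d)) ≤ ((n.factorial : ENNReal))⁻¹ * volume (Cn (Fin n) (Cor d ℓ)))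
    (h1 : 2 ^ 41 * 3 ^ d ≤ c ^ 2 * (K * ℓ ^ d)) (h2 : 2 ^ 32 * C' ≤ c ^ 2 * (K * ℓ ^ d))
    {E : Type} [MeasurableSpace E] (M : Md d E) (hS : M.S = SS d B) (hSm : M.Sm = SSm d B)
    (hN : M.N = mx (Box d ℓ)) (hNs : M.Ns = mx (Box d ℓ \ Cor d ℓ)) (hMK : M.K = K)
    (hb : M.b = 2 * ℓ ^ d)
    (hπ : ∀ n : ℕ, ((n.factorial : ENNReal))⁻¹ * volume (Cn (Fin n) (Cor d ℓ)) ≤
        M.π {x | M.c x = x ∧ M.n x = n}) : Small M := by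
  have hℓd : 0 < ℓ ^ d := by positivity
  have hN2 : c ^ 2 * (ℓ ^ d) ^ 2 ≤ (M.N : ℝ) ^ 2 := by
    rw [hN, ← mul_pow]
    exact pow_le_pow_left₀ (by positivity) hmx 2
  have hS1 : (1 : ℝ) ≤ M.S.card := by
    exact_mod_cast card_pos.2 ⟨0, M.zero_S⟩
  refine ⟨?_, ?_, ?_, ?_, ?_⟩
  · rw [hS, hSm]; exact hB2
  · rw [hS, hSm]; exact hB3
  · rw [hb, hMK]
    calc (2 : ℝ) ^ 40 * 3 ^ d * (2 * ℓ ^ d) = (2 ^ 41 * 3 ^ d) * ℓ ^ d := by ring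
      _ ≤ (c ^ 2 * (K * ℓ ^ d)) * ℓ ^ d := mul_le_mul_of_nonneg_right h1 hℓd.le
      _ = K * (c ^ 2 * (ℓ ^ d) ^ 2) := by ring
      _ ≤ K * (M.N : ℝ) ^ 2 := mul_le_mul_of_nonneg_left hN2 hK.le
  · have h3 : (2 ^ 40 * 3 ^ d * M.S.card * M.Ns : ℝ) ≤ M.N := by
      rw [hN, hNs, hS]
      have h4 : (0 : ℝ) < 2 ^ 40 * 3 ^ d * ((SS d B).card + 1 : ℝ) := by positivity
      rw [one_div, inv_mul_eq_div, le_div_iff₀ h4] at hst
      refine le_trans ?_ hst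
      rw [mul_comm]
      refine mul_le_mul_of_nonneg_left ?_ (Nat.cast_nonneg _)
      refine mul_le_mul_of_nonneg_left ?_ (by positivity)
      linarith
    exact_mod_cast h3
  · obtain ⟨n, hn1, hn2⟩ := hpk
    refine ⟨{x | M.c x = x ∧ M.n x = n}, n, C' * ℓ ^ d, ?_, fun x hx => hx, hn2.trans (hπ n), ?_, ?_⟩
    · exact M.measurableSet_core.inter (M.measurable_n (measurableSet_singleton n))
    · rw [hN]; exact hn1
    · rw [hMK]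
      calc (2 : ℝ) ^ 32 * (C' * ℓ ^ d) = (2 ^ 32 * C') * ℓ ^ d := by ring
        _ ≤ (c ^ 2 * (K * ℓ ^ d)) * ℓ ^ d := mul_le_mul_of_nonneg_right h2 hℓd.le
        _ = K * (c ^ 2 * (ℓ ^ d) ^ 2) := by ring
        _ ≤ K * (M.N : ℝ) ^ 2 := mul_le_mul_of_nonneg_left hN2 hK.le
        _ ≤ K * (M.N : ℝ) ^ 2 * M.S.card := le_mul_of_one_le_right (by positivity) hS1

end End

theorem main (d : ℕ) (hd : 2 ≤ d) : ∃ lam κ : ℝ, 0 < lam ∧ 0 < κ ∧ ∀ a R K : ℝ, 0 < a →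
    lam * a ≤ R → κ * (a / R) ^ d ≤ K → Transition d a R K := by
  have hd1 : 1 ≤ d := by omega
  obtain ⟨B, hB1, hB2, hB3⟩ := exists_B d hd1
  obtain ⟨C, hC⟩ := not_differentiable d (B + 1) hd
  obtain ⟨c, hc, hmx⟩ := mx_lower hd1
  obtain ⟨t1, ht1, hstrip⟩ := mx_strip hd1
    (ε := 1 / (2 ^ 40 * 3 ^ d * ((SS d B).card + 1 : ℝ))) (by positivity)
  obtain ⟨C', t2, ht2, hpack⟩ := exists_packing hd1 (ε := 1 / 2 ^ 32) (by positivity)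
  have hB0 : (0 : ℝ) < B := by exact_mod_cast hB1
  set κ0 : ℝ := 1 + 2 ^ 41 * 3 ^ d / c ^ 2 + 2 ^ 32 * |C'| / c ^ 2 + |C| / c ^ 2 with hκ0
  have hκ0pos : 0 < κ0 := by positivity
  have hκ1 : 2 ^ 41 * 3 ^ d ≤ c ^ 2 * κ0 := by
    have h1 : c ^ 2 * κ0 = c ^ 2 + 2 ^ 41 * 3 ^ d + 2 ^ 32 * |C'| + |C| := by
      rw [hκ0]; field_simp
    have h2 : 0 ≤ 2 ^ 32 * |C'| := by positivity
    have h3 := abs_nonneg C
    have h4 := sq_nonneg c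
    rw [h1]
    linarith
  have hκ2 : 2 ^ 32 * C' ≤ c ^ 2 * κ0 := by
    have h1 : c ^ 2 * κ0 = c ^ 2 + 2 ^ 41 * 3 ^ d + 2 ^ 32 * |C'| + |C| := by
      rw [hκ0]; field_simp
    have h2 := le_abs_self C'
    have h3 := abs_nonneg C
    have h4 := sq_nonneg c
    have h5 : (0 : ℝ) ≤ 2 ^ 41 * 3 ^ d := by positivity
    rw [h1]
    linarith
  have hκ3 : C ≤ c ^ 2 * κ0 := by
    have h1 : c ^ 2 * κ0 = c ^ 2 + 2 ^ 41 * 3 ^ d + 2 ^ 32 * |C'| + |C| := by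
      rw [hκ0]; field_simp
    have h2 : 0 ≤ 2 ^ 32 * |C'| := by positivity
    have h3 := le_abs_self C
    have h4 := sq_nonneg c
    have h5 : (0 : ℝ) ≤ 2 ^ 41 * 3 ^ d := by positivity
    rw [h1]
    linarith
  have ht0 : 2 < max t1 t2 := lt_max_of_lt_left ht1
  refine ⟨2 * B * max t1 t2, (2 * B) ^ d * κ0, by positivity, by positivity,
    fun a R K ha hR hK => ?_⟩
  have hR0 : 0 < R := lt_of_lt_of_le (by positivity) hR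
  have hK0 : 0 < K := lt_of_lt_of_le (by positivity) hK
  set ℓ : ℝ := R / (2 * a * B) with hℓdef
  have hℓ : max t1 t2 ≤ ℓ := by
    rw [hℓdef, le_div_iff₀ (by positivity)]
    calc max t1 t2 * (2 * a * B) = 2 * B * max t1 t2 * a := by ring
      _ ≤ R := hR
  have hℓ2 : 2 < ℓ := ht0.trans_le hℓ
  have hℓ1 : 1 ≤ ℓ := by linarith
  have hKℓ : κ0 ≤ K * ℓ ^ d := by
    have h1 : κ0 = (2 * B) ^ d * κ0 * (a / R) ^ d * ℓ ^ d := by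
      have h2 : (2 * (B : ℝ)) ^ d * (a / R) ^ d * ℓ ^ d = 1 := by
        rw [← mul_pow, ← mul_pow]
        have : 2 * (B : ℝ) * (a / R) * ℓ = 1 := by
          rw [hℓdef]
          field_simp
        rw [this, one_pow]
      calc κ0 = κ0 * ((2 * (B : ℝ)) ^ d * (a / R) ^ d * ℓ ^ d) := by rw [h2, mul_one]
        _ = _ := by ring
    rw [h1]
    exact mul_le_mul_of_nonneg_right hK (by positivity)
  have hκℓ : c ^ 2 * κ0 ≤ c ^ 2 * (K * ℓ ^ d) := mul_le_mul_of_nonneg_left hKℓ (by positivity)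
  obtain ⟨E, mE, M, hS, hSm, hr, hN, hNs, hMK, hb, hπ, hxi⟩ := exists_model hd1 B hB1 hℓ2 hK0
  have hsm : Small M := End.small hℓ1 hK0 hc hB2 hB3 (hmx ℓ hℓ1)
    (hstrip ℓ ((le_max_left _ _).trans hℓ)) (hpack ℓ ((le_max_right _ _).trans hℓ))
    (hκ1.trans hκℓ) (hκ2.trans hκℓ) M hS hSm hN hNs hMK hb hπ
  obtain ⟨p, hp⟩ := exists_p M hd1
  have hCM : C ≤ M.K * M.N ^ 2 := by
    have hN2 : c ^ 2 * (ℓ ^ d) ^ 2 ≤ (M.N : ℝ) ^ 2 := by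
      rw [hN, ← mul_pow]
      exact pow_le_pow_left₀ (by positivity) (hmx ℓ hℓ1) 2
    have h1 : 1 ≤ ℓ ^ d := one_le_pow₀ hℓ1
    calc C ≤ c ^ 2 * (K * ℓ ^ d) := hκ3.trans hκℓ
      _ ≤ (c ^ 2 * (K * ℓ ^ d)) * ℓ ^ d := le_mul_of_one_le_right (by positivity) h1
      _ = K * (c ^ 2 * (ℓ ^ d) ^ 2) := by ring
      _ ≤ K * (M.N : ℝ) ^ 2 := mul_le_mul_of_nonneg_left hN2 hK0.le
      _ = M.K * M.N ^ 2 := by rw [hMK]
  have hnd := hC E mE M hr hsm hCM p hp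
  have hBℓ : R / (2 * a) = B * ℓ := by
    rw [hℓdef]
    field_simp
  refine transition_scale ha ?_
  rw [hBℓ]
  refine transition_of_kink hd1 hℓ2 (by positivity) hK0.le (hp.convex hd1) (fun μ => ?_) hnd
  have h1 := hp μ
  simp only [hxi] at h1
  exact h1

end Pool.Agent.SquareWell
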