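import Pool.Agent.Lib.MP_09cbbd_sw.ModB

/-!
# The square-well gas as a gas on cells: the a priori measure
-/

set_option autoImplicit false

namespace Pool.Agent.SquareWell.ModM

open MeasureTheory Finset Filter Topology Pool.Agent.StableGas Pool.Agent.SquareWellGas
  Pool.Agent.ConfinedGas Pool.Agent.SquareWell.ModD

variable {d : ℕ} {ℓ : ℝ}

theorem box_eq : Box d ℓ = Set.pi Set.univ fun _ => Set.Ico (0 : ℝ) ℓ := by
  ext x
  simp [Box]

theorem cor_eq : Cor d ℓ = Set.pi Set.univ fun _ => Set.Ico (1 : ℝ) (ℓ - 1) := by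
  ext x
  simp [Cor]

theorem mBox : MeasurableSet (Box d ℓ) := by
  rw [box_eq]
  exact MeasurableSet.univ_pi fun _ => measurableSet_Ico

theorem mCor : MeasurableSet (Cor d ℓ) := by
  rw [cor_eq]
  exact MeasurableSet.univ_pi fun _ => measurableSet_Ico

theorem mStrip : MeasurableSet (Box d ℓ \ Cor d ℓ) := mBox.diff mCor

theorem Cor_sub : Cor d ℓ ⊆ Box d ℓ := fun x hx k =>
  ⟨by have := (hx k).1; linarith, by have := (hx k).2; linarith⟩

theorem bdd_Box : Bornology.IsBounded (Box d ℓ) := by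
  rw [box_eq]
  refine (isCompact_univ_pi fun _ => isCompact_Icc (a := (0 : ℝ)) (b := ℓ)).isBounded.subset ?_
  exact Set.pi_mono fun _ _ => Set.Ico_subset_Icc_self

theorem volBox : volume (Box d ℓ) = ENNReal.ofReal ℓ ^ d := by
  rw [box_eq, volume_pi_pi]
  simp

theorem volBox_ne_top : volume (Box d ℓ) ≠ ⊤ := by
  rw [volBox]
  exact ENNReal.pow_ne_top ENNReal.ofReal_ne_top

theorem finite_nu {N : ℕ} {T : Set (Fin d → ℝ)} (hT : T ⊆ Box d ℓ) :
    IsFiniteMeasure (nu volume 1 N T) :=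
  ⟨(nu_ne_top volume 1 N (ne_top_of_le_ne_top volBox_ne_top (measure_mono hT)) Set.univ).lt_top⟩

theorem nu_apply (N : ℕ) (T : Set (Fin d → ℝ)) {A : Set (Con d N)} (hA : MeasurableSet A) :
    nu volume 1 N T A = ∑ n ∈ range (N + 1), ((n.factorial : ENNReal))⁻¹ *
      (Measure.pi fun _ : Fin n => (volume : Measure (Fin d → ℝ)))
        (pad N ⁻¹' A ∩ Cf 1 (Fin n) T) := by
  unfold nu
  rw [Measure.finsetSum_apply]
  refine sum_congr rfl fun n _ => ?_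
  rw [Measure.smul_apply, smul_eq_mul, Measure.map_apply (measurable_pad N n) hA,
    Measure.restrict_apply (measurable_pad N n hA)]

theorem nu_univ (hℓ : 0 ≤ ℓ) (N : ℕ) {T : Set (Fin d → ℝ)} (hT : T ⊆ Box d ℓ) :
    nu volume 1 N T Set.univ ≤ ex (ℓ ^ d) := by
  rw [nu_apply N T MeasurableSet.univ]
  have h1 : ∀ n ∈ range (N + 1), ((n.factorial : ENNReal))⁻¹ *
      (Measure.pi fun _ : Fin n => (volume : Measure (Fin d → ℝ)))
        (pad N ⁻¹' Set.univ ∩ Cf 1 (Fin n) T) ≤ ENNReal.ofReal ((ℓ ^ d) ^ n / n.factorial) := by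
    intro n _
    have hfac : (0 : ℝ) < n.factorial := by exact_mod_cast n.factorial_pos
    have h2 : (Measure.pi fun _ : Fin n => (volume : Measure (Fin d → ℝ)))
        (pad N ⁻¹' Set.univ ∩ Cf 1 (Fin n) T) ≤ ENNReal.ofReal ((ℓ ^ d) ^ n) := by
      refine (measure_mono (Set.inter_subset_right.trans (Cf_subset_pi 1 (Fin n) T))).trans ?_
      rw [Measure.pi_pi]
      have h3 : volume T ≤ ENNReal.ofReal (ℓ ^ d) := by
        refine (measure_mono hT).trans (le_of_eq ?_)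
        rw [volBox, ENNReal.ofReal_pow hℓ]
      rw [ENNReal.ofReal_pow (pow_nonneg hℓ d)]
      refine (Finset.prod_le_prod' fun i _ => h3).trans (le_of_eq ?_)
      simp
    rw [div_eq_inv_mul, ENNReal.ofReal_mul (inv_nonneg.2 hfac.le), ENNReal.ofReal_inv_of_pos hfac,
      ENNReal.ofReal_natCast]
    exact mul_le_mul' le_rfl h2
  refine (sum_le_sum h1).trans ?_
  rw [← ENNReal.ofReal_sum_of_nonneg fun n _ => by positivity]
  exact ENNReal.ofReal_le_ofReal (Real.sum_le_exp_of_nonneg (pow_nonneg hℓ d) _)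

theorem pad_zero (N : ℕ) (u : Fin 0 → Fin d → ℝ) : pad N u = (0, fun _ => 0) := by
  unfold pad
  refine Prod.ext rfl ?_
  funext k
  simp

theorem nu_z0 (N : ℕ) (T : Set (Fin d → ℝ)) :
    nu volume 1 N T {((0 : ℕ), fun _ => (0 : Fin d → ℝ))} = 1 := by
  rw [nu_apply N T (MeasurableSet.singleton _), sum_eq_single 0]
  · have e : (pad N ⁻¹' {((0 : ℕ), fun _ => (0 : Fin d → ℝ))} ∩ Cf 1 (Fin 0) T :
        Set (Fin 0 → Fin d → ℝ)) = Set.pi Set.univ fun _ => Set.univ := by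
      ext u
      simp only [Set.mem_inter_iff, Set.mem_preimage, Set.mem_singleton_iff, pad_zero, true_and,
        Set.mem_pi, Set.mem_univ, implies_true, iff_true]
      exact ⟨fun i => i.elim0, fun i => i.elim0⟩
    rw [e, Measure.pi_pi]
    simp
  · intro n _ hn
    have e : (pad N ⁻¹' {((0 : ℕ), fun _ => (0 : Fin d → ℝ))} ∩ Cf 1 (Fin n) T :
        Set (Fin n → Fin d → ℝ)) = ∅ := by
      rw [Set.eq_empty_iff_forall_notMem]
      rintro u ⟨h1, _⟩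
      have h2 : (pad N u).1 = 0 := congrArg Prod.fst (Set.mem_singleton_iff.1 h1)
      exact hn h2
    rw [e, measure_empty, mul_zero]
  · intro h
    exact absurd (mem_range.2 (Nat.succ_pos N)) h

theorem Vd1_z0 (T : Set (Fin d → ℝ)) : Vd1 T (z0 d ℓ) := by
  refine ⟨Nat.zero_le _, fun k hk => absurd hk (Nat.not_lt_zero _), fun k l hk => ?_⟩
  exact absurd hk (Nat.not_lt_zero _)

theorem Vd_pair (a : Con d (Nm d ℓ)) : Vd ℓ (a, z0 d ℓ) ↔ Vd1 (Cor d ℓ) a := by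
  constructor
  · intro h
    exact h.1
  · intro h
    exact ⟨h, Vd1_z0 _, fun k l _ hl => absurd hl (Nat.not_lt_zero _)⟩

theorem c0_pair {a : Con d (Nm d ℓ)} (h : Vd1 (Cor d ℓ) a) :
    c0 ℓ (a, z0 d ℓ) = (a, z0 d ℓ) := by
  unfold c0
  rw [cl_of_Vd ((Vd_pair a).2 h)]

theorem n0_pair {a : Con d (Nm d ℓ)} (h : Vd1 (Cor d ℓ) a) : n0 ℓ (a, z0 d ℓ) = a.1 := by
  unfold n0
  rw [cl_of_Vd ((Vd_pair a).2 h)]
  rfl

theorem c0_of_Vd {x : EE d ℓ} (h : Vd ℓ x) : c0 ℓ x = (x.1, z0 d ℓ) := by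
  unfold c0
  rw [cl_of_Vd h]

theorem mA : MeasurableSet {a : Con d (Nm d ℓ) | Vd1 (Cor d ℓ) a} := by
  have h : {a : Con d (Nm d ℓ) | Vd1 (Cor d ℓ) a} =
      (fun a : Con d (Nm d ℓ) => (a, z0 d ℓ)) ⁻¹' {x : EE d ℓ | Vd ℓ x} := by
    ext a
    exact (Vd_pair a).symm
  rw [h]
  exact (measurable_id.prodMk measurable_const) measurableSet_Vd

theorem Cn_eq (n : ℕ) (T : Set (Fin d → ℝ)) : Cn (Fin n) T = Cf 1 (Fin n) T := by
  ext x
  simp only [Cn, Cf, ConfinedGas.sq, Set.mem_ofPred_eq, one_pow]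

theorem pad_val {N n : ℕ} (u : Fin n → Fin d → ℝ) (k : Fin N) (hk : k.val < (pad N u).1) :
    (pad N u).2 k = u ⟨k.val, hk⟩ := dif_pos hk

theorem Vd1_pad {N n : ℕ} (hn : n ≤ N) {T : Set (Fin d → ℝ)} {u : Fin n → Fin d → ℝ}
    (hu : u ∈ Cf 1 (Fin n) T) : Vd1 T (pad N u) := by
  refine ⟨hn, fun k hk => ?_, fun k l hk hl hkl => ?_⟩
  · rw [pad_val u k hk]
    exact hu.1 _
  · rw [pad_val u k hk, pad_val u l hl]
    have h := hu.2 ⟨k.val, hk⟩ ⟨l.val, hl⟩ fun h => hkl (Fin.ext (Fin.mk.inj_iff.1 h))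
    rw [one_pow] at h
    exact h

end Pool.Agent.SquareWell.ModM

namespace Pool.Agent.SquareWell.ModD

open MeasureTheory Finset Filter Topology Pool.Agent.StableGas Pool.Agent.SquareWellGas
  Pool.Agent.ConfinedGas Pool.Agent.SquareWell.ModM

variable {d : ℕ} {ℓ : ℝ}

theorem sigmaFinite_pi0 : SigmaFinite (pi0 (d := d) ℓ) := by
  have f1 : IsFiniteMeasure (nu volume 1 (Nm d ℓ) (Cor d ℓ)) := finite_nu Cor_sub
  have f2 : IsFiniteMeasure (nu volume 1 (Nm d ℓ) (Box d ℓ \ Cor d ℓ)) :=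
    finite_nu Set.sdiff_subset
  unfold pi0
  infer_instance

theorem pi0_e00 : pi0 (d := d) ℓ {e00 d ℓ} = 1 := by
  have f1 : IsFiniteMeasure (nu volume 1 (Nm d ℓ) (Cor d ℓ)) := finite_nu Cor_sub
  have f2 : IsFiniteMeasure (nu volume 1 (Nm d ℓ) (Box d ℓ \ Cor d ℓ)) :=
    finite_nu Set.sdiff_subset
  unfold pi0
  rw [Measure.restrict_apply measurableSet_e00]
  have e1 : ({e00 d ℓ} ∩ {x : EE d ℓ | Vd ℓ x} : Set (EE d ℓ)) = {z0 d ℓ} ×ˢ {z0 d ℓ} := by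
    rw [Set.singleton_prod_singleton]
    refine Set.inter_eq_left.2 ?_
    intro x hx
    rw [Set.mem_singleton_iff.1 hx]
    exact (Vd_pair _).2 (Vd1_z0 _)
  rw [e1, Measure.prod_prod]
  have h1 := nu_z0 (d := d) (Nm d ℓ) (Cor d ℓ)
  have h2 := nu_z0 (d := d) (Nm d ℓ) (Box d ℓ \ Cor d ℓ)
  unfold z0
  rw [h1, h2, one_mul]

theorem pi0_univ (hℓ : 2 < ℓ) : pi0 (d := d) ℓ Set.univ ≤ ex (2 * ℓ ^ d) := by
  have f1 : IsFiniteMeasure (nu volume 1 (Nm d ℓ) (Cor d ℓ)) := finite_nu Cor_sub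
  have f2 : IsFiniteMeasure (nu volume 1 (Nm d ℓ) (Box d ℓ \ Cor d ℓ)) :=
    finite_nu Set.sdiff_subset
  have h0 : (0 : ℝ) ≤ ℓ := by linarith
  unfold pi0
  refine (Measure.restrict_apply_le _ _).trans ?_
  rw [← Set.univ_prod_univ, Measure.prod_prod, two_mul, ex_add]
  exact mul_le_mul' (nu_univ h0 _ Cor_sub) (nu_univ h0 _ Set.sdiff_subset)

theorem c_push (hℓ : 2 < ℓ) (F : EE d ℓ → ENNReal) (hF : Measurable F) :
    ∫⁻ x, F (c0 ℓ x) ∂(pi0 (d := d) ℓ) ≤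
      ex (2 * ℓ ^ d) * ∫⁻ x in {x | c0 ℓ x = x}, F x ∂(pi0 (d := d) ℓ) := by
  have f1 : IsFiniteMeasure (nu volume 1 (Nm d ℓ) (Cor d ℓ)) := finite_nu Cor_sub
  have f2 : IsFiniteMeasure (nu volume 1 (Nm d ℓ) (Box d ℓ \ Cor d ℓ)) :=
    finite_nu Set.sdiff_subset
  have h0 : (0 : ℝ) ≤ ℓ := by linarith
  obtain ⟨f, hf⟩ : ∃ f : Con d (Nm d ℓ) → ENNReal, f = {a | Vd1 (Cor d ℓ) a}.indicator
    fun a => F (a, z0 d ℓ) := ⟨_, rfl⟩
  have hfm : Measurable f := by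
    rw [hf]
    exact (hF.comp (measurable_id.prodMk measurable_const)).indicator mA
  have hz : MeasurableSet ({z0 d ℓ} : Set (Con d (Nm d ℓ))) := MeasurableSet.singleton _
  have e1 : ∫⁻ x, F (c0 ℓ x) ∂(pi0 (d := d) ℓ) ≤
      (∫⁻ a, f a ∂(nu volume 1 (Nm d ℓ) (Cor d ℓ))) * ex (ℓ ^ d) := by
    unfold pi0
    rw [← lintegral_indicator measurableSet_Vd]
    have e2 : ∀ x : EE d ℓ, {x : EE d ℓ | Vd ℓ x}.indicator (fun x => F (c0 ℓ x)) x ≤
        f x.1 * 1 := by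
      intro x
      by_cases hx : Vd ℓ x
      · have hx' : x ∈ {x : EE d ℓ | Vd ℓ x} := hx
        have hx1 : x.1 ∈ {a : Con d (Nm d ℓ) | Vd1 (Cor d ℓ) a} := hx.1
        rw [Set.indicator_of_mem hx', c0_of_Vd hx, hf, Set.indicator_of_mem hx1, mul_one]
      · have hx' : x ∉ {x : EE d ℓ | Vd ℓ x} := hx
        rw [Set.indicator_of_notMem hx']
        exact zero_le
    refine (lintegral_mono e2).trans ?_
    rw [lintegral_prod_mul (g := fun _ => 1) hfm.aemeasurable measurable_const.aemeasurable]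
    refine mul_le_mul' le_rfl ?_
    rw [lintegral_one]
    exact nu_univ h0 _ Set.sdiff_subset
  have e3 : ∫⁻ a, f a ∂(nu volume 1 (Nm d ℓ) (Cor d ℓ)) ≤
      ∫⁻ x in {x | c0 ℓ x = x}, F x ∂(pi0 (d := d) ℓ) := by
    unfold pi0
    rw [Measure.restrict_restrict measurableSet_core0,
      ← lintegral_indicator (measurableSet_core0.inter measurableSet_Vd)]
    have e4 : ∀ x : EE d ℓ, f x.1 * ({z0 d ℓ} : Set (Con d (Nm d ℓ))).indicator 1 x.2 ≤
        ({x : EE d ℓ | c0 ℓ x = x} ∩ {x : EE d ℓ | Vd ℓ x}).indicator F x := by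
      rintro ⟨a, b⟩
      by_cases hb : b = z0 d ℓ
      · subst hb
        by_cases ha : Vd1 (Cor d ℓ) a
        · have ha' : a ∈ {a : Con d (Nm d ℓ) | Vd1 (Cor d ℓ) a} := ha
          have hx : ((a, z0 d ℓ) : EE d ℓ) ∈
              {x : EE d ℓ | c0 ℓ x = x} ∩ {x : EE d ℓ | Vd ℓ x} :=
            ⟨c0_pair ha, (Vd_pair a).2 ha⟩
          rw [Set.indicator_of_mem hx, hf, Set.indicator_of_mem ha',
            Set.indicator_of_mem (Set.mem_singleton _)]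
          simp
        · have ha' : a ∉ {a : Con d (Nm d ℓ) | Vd1 (Cor d ℓ) a} := ha
          rw [hf, Set.indicator_of_notMem ha', zero_mul]
          exact zero_le
      · have hb' : b ∉ ({z0 d ℓ} : Set (Con d (Nm d ℓ))) := hb
        rw [Set.indicator_of_notMem hb', mul_zero]
        exact zero_le
    refine le_trans (le_of_eq ?_) (lintegral_mono e4)
    rw [lintegral_prod_mul hfm.aemeasurable (measurable_one.indicator hz).aemeasurable,
      lintegral_indicator_one hz]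
    have h2 : nu volume 1 (Nm d ℓ) (Box d ℓ \ Cor d ℓ) {z0 d ℓ} = 1 :=
      nu_z0 (d := d) (Nm d ℓ) (Box d ℓ \ Cor d ℓ)
    rw [h2, mul_one]
  refine e1.trans ?_
  rw [mul_comm]
  refine mul_le_mul' (ex_le_ex.2 ?_) e3
  have := pow_nonneg h0 d
  linarith

theorem core_measure (hℓ : 2 < ℓ) (n : ℕ) :
    ((n.factorial : ENNReal))⁻¹ * volume (Cn (Fin n) (Cor d ℓ)) ≤
      pi0 (d := d) ℓ {x | c0 ℓ x = x ∧ n0 ℓ x = n} := by
  have f1 : IsFiniteMeasure (nu volume 1 (Nm d ℓ) (Cor d ℓ)) := finite_nu Cor_sub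
  have f2 : IsFiniteMeasure (nu volume 1 (Nm d ℓ) (Box d ℓ \ Cor d ℓ)) :=
    finite_nu Set.sdiff_subset
  rcases le_or_gt n (Nm d ℓ) with hn | hn
  · obtain ⟨A, hA⟩ : ∃ A : Set (Con d (Nm d ℓ)), A = {a | Vd1 (Cor d ℓ) a} ∩ {a | a.1 = n} :=
      ⟨_, rfl⟩
    have hAm : MeasurableSet A := by
      rw [hA]
      exact mA.inter (measurable_fst (measurableSet_singleton n))
    unfold pi0
    refine le_trans ?_ (Measure.le_restrict_apply _ _)
    have h1 : A ×ˢ {z0 d ℓ} ⊆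
        {x : EE d ℓ | c0 ℓ x = x ∧ n0 ℓ x = n} ∩ {x : EE d ℓ | Vd ℓ x} := by
      rintro ⟨a, b⟩ ⟨ha, hb⟩
      have hb' : b = z0 d ℓ := hb
      subst hb'
      rw [hA] at ha
      obtain ⟨ha1, ha2⟩ := ha
      have ha1' : Vd1 (Cor d ℓ) a := ha1
      refine ⟨⟨c0_pair ha1', ?_⟩, (Vd_pair a).2 ha1'⟩
      rw [n0_pair ha1']
      exact ha2
    refine le_trans ?_ (measure_mono h1)
    have h2 : nu volume 1 (Nm d ℓ) (Box d ℓ \ Cor d ℓ) {z0 d ℓ} = 1 :=
      nu_z0 (d := d) (Nm d ℓ) (Box d ℓ \ Cor d ℓ)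
    rw [Measure.prod_prod, h2, mul_one, nu_apply _ _ hAm]
    refine le_trans ?_ (single_le_sum (f := fun n => ((n.factorial : ENNReal))⁻¹ *
      (Measure.pi fun _ : Fin n => (volume : Measure (Fin d → ℝ)))
        (pad (Nm d ℓ) ⁻¹' A ∩ Cf 1 (Fin n) (Cor d ℓ))) (fun _ _ => zero_le)
        (mem_range.2 (Nat.lt_succ_of_le hn)))
    refine mul_le_mul' le_rfl (measure_mono ?_)
    rw [Cn_eq]
    intro u hu
    refine ⟨?_, hu⟩
    rw [hA]
    exact ⟨Vd1_pad hn hu, rfl⟩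
  · have h1 : Cn (Fin n) (Cor d ℓ) = ∅ := by
      by_contra hne
      obtain ⟨x, hx⟩ := Set.nonempty_iff_ne_empty.2 hne
      have h2 : (Cn (Fin n) (Box d ℓ)).Nonempty := ⟨x, fun i => Cor_sub (hx.1 i), hx.2⟩
      exact absurd (le_mx bdd_Box h2) (not_le.2 hn)
    rw [h1, measure_empty, mul_zero]
    exact zero_le

end Pool.Agent.SquareWell.ModD
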