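import Pool.Agent.Lib.MP_09cbbd_sw.ModD

/-!
# The canonical partition functions as configuration integrals
-/

set_option autoImplicit false

namespace Pool.Agent.SquareWell.ModD

open MeasureTheory Finset Filter Topology Pool.Agent.StableGas Pool.Agent.SquareWellGas
  Pool.Agent.SquareWell.ModA

variable {d : ℕ} {R K : ℝ}

namespace ModZ

/-- The configurations of hard spheres in the box. -/
def CS (d : ℕ) (t : ℝ) (n : ℕ) : Set (Fin n → Fin d → ℝ) :=
  {x | (∀ i, x i ∈ Box d t) ∧ ∀ i j, i ≠ j → (2 * (1 / 2 : ℝ)) ^ 2 ≤ ∑ k, (x i k - x j k) ^ 2}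

theorem measurable_dist2 {n : ℕ} (i j : Fin n) :
    Measurable fun x : Fin n → Fin d → ℝ => ∑ k, (x i k - x j k) ^ 2 := by
  fun_prop

theorem measurableSet_Box (t : ℝ) : MeasurableSet (Box d t) := by
  have : Box d t = Set.pi Set.univ fun _ => Set.Ico (0 : ℝ) t := by
    ext x; simp [Box, Set.mem_pi]
  rw [this]
  exact MeasurableSet.univ_pi fun _ => measurableSet_Ico

theorem measurableSet_CS (t : ℝ) (n : ℕ) : MeasurableSet (CS d t n) := by
  have e : CS d t n = (⋂ i, (fun x : Fin n → Fin d → ℝ => x i) ⁻¹' Box d t) ∩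
      ⋂ i, ⋂ j, {x | i ≠ j → (2 * (1 / 2 : ℝ)) ^ 2 ≤ ∑ k, (x i k - x j k) ^ 2} := by
    ext x
    simp [CS]
  rw [e]
  refine (MeasurableSet.iInter fun i => (measurableSet_Box t).preimage (measurable_pi_apply i)).inter
    (MeasurableSet.iInter fun i => MeasurableSet.iInter fun j => ?_)
  by_cases h : i = j
  · simp [h]
  · simp only [ne_eq, h, not_false_eq_true, forall_const]
    exact measurableSet_le measurable_const (measurable_dist2 i j)

theorem volume_CS_lt_top (t : ℝ) (n : ℕ) : volume (CS d t n) < ⊤ := by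
  have h1 : CS d t n ⊆ Set.pi Set.univ fun _ : Fin n => Set.pi Set.univ fun _ : Fin d =>
      Set.Icc (0 : ℝ) t := by
    intro x hx i _ k _
    exact Set.Ico_subset_Icc_self (hx.1 i k)
  refine lt_of_le_of_lt (measure_mono h1) ?_
  exact (isCompact_univ_pi fun _ => isCompact_univ_pi fun _ => isCompact_Icc).measure_lt_top

theorem pairs_eq {n : ℕ} (x : Fin n → Fin d → ℝ) :
    (pairs R x : ℝ) = ∑ p : Fin n × Fin n, Set.indicator
      {y : Fin n → Fin d → ℝ | p.1 < p.2 ∧ ∑ k, (y p.1 k - y p.2 k) ^ 2 ≤ R ^ 2}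
      (fun _ => (1 : ℝ)) x := by
  classical
  unfold pairs
  rw [card_filter]
  push_cast
  refine sum_congr rfl fun p _ => ?_
  simp only [Set.indicator_apply, Set.mem_ofPred_eq]

theorem measurable_pairs (n : ℕ) : Measurable fun x : Fin n → Fin d → ℝ => (pairs R x : ℝ) := by
  simp only [pairs_eq]
  refine Finset.measurable_fun_sum _ fun p _ => measurable_const.indicator ?_
  by_cases h : p.1 < p.2
  · simp only [h, true_and]
    exact measurableSet_le (measurable_dist2 _ _) measurable_const
  · simp [h]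

theorem pairs_le {n : ℕ} (x : Fin n → Fin d → ℝ) : pairs R x ≤ n * n := by
  classical
  unfold pairs
  refine (card_le_univ _).trans ?_
  rw [Fintype.card_prod, Fintype.card_fin]

/-- The product of the attractions over ordered pairs. -/
theorem prod_att {n : ℕ} (x : Fin n → Fin d → ℝ) :
    (∏ i, ∏ j, if i = j then (1 : ENNReal) else att R K (x i) (x j)) = ex (K * pairs R x) := by
  classical
  obtain ⟨P, hP⟩ : ∃ P : Fin n → Fin n → Prop, P = fun i j => ∑ k, (x i k - x j k) ^ 2 ≤ R ^ 2 :=
    ⟨_, rfl⟩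
  have hsym : ∀ i j, P i j ↔ P j i := by
    intro i j
    rw [hP]
    have : ∑ k, (x i k - x j k) ^ 2 = ∑ k, (x j k - x i k) ^ 2 :=
      sum_congr rfl fun k _ => by ring
    simp only [this]
  have h1 : ∀ i j : Fin n, (if i = j then (1 : ENNReal) else att R K (x i) (x j)) =
      ex (K / 2 * ((if i < j ∧ P i j then 1 else 0 : ℝ) + if j < i ∧ P j i then 1 else 0)) := by
    intro i j
    rcases lt_trichotomy i j with h | h | h
    · have h2 : ¬ i = j := h.ne
      have h3 : ¬ j < i := h.asymm
      by_cases hp : P i j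
      · have hp' : ∑ k, (x i k - x j k) ^ 2 ≤ R ^ 2 := by rw [hP] at hp; exact hp
        simp [att, h, h2, h3, hp, hp']
      · have hp' : ¬ ∑ k, (x i k - x j k) ^ 2 ≤ R ^ 2 := by rw [hP] at hp; exact hp
        simp [att, h2, h3, hp, hp', ex_zero]
    · subst h
      simp [ex_zero]
    · have h2 : ¬ i = j := h.ne'
      have h3 : ¬ i < j := h.asymm
      by_cases hp : P i j
      · have hp' : ∑ k, (x i k - x j k) ^ 2 ≤ R ^ 2 := by rw [hP] at hp; exact hp
        have hp2 := (hsym i j).1 hp
        simp [att, h, h2, h3, hp', hp2]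
      · have hp' : ¬ ∑ k, (x i k - x j k) ^ 2 ≤ R ^ 2 := by rw [hP] at hp; exact hp
        have hp2 : ¬ P j i := fun hh => hp ((hsym i j).2 hh)
        simp [att, h2, h3, hp', hp2, ex_zero]
  simp only [h1, prod_ex]
  congr 1
  simp only [← mul_sum, sum_add_distrib]
  have h4 : ∑ i : Fin n, ∑ j : Fin n, (if i < j ∧ P i j then 1 else 0 : ℝ) = pairs R x := by
    unfold pairs
    rw [card_filter]
    push_cast
    rw [← univ_product_univ, sum_product, hP]
  have h5 : ∑ i : Fin n, ∑ j : Fin n, (if j < i ∧ P j i then 1 else 0 : ℝ) = pairs R x := by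
    rw [sum_comm, h4]
  rw [h4, h5]
  ring

theorem Gw_eq (t μ : ℝ) {n : ℕ} (x : Fin n → Fin d → ℝ) :
    Gw (psi R K) (fun a : Fin d → ℝ => ex μ * (Box d t).indicator 1 a) x =
      (CS d t n).indicator (fun x => ex (μ * n) * ENNReal.ofReal (Real.exp (K * pairs R x))) x := by
  classical
  by_cases hx : x ∈ CS d t n
  · rw [Set.indicator_of_mem hx]
    have h1 : ∀ i, ex μ * (Box d t).indicator (1 : (Fin d → ℝ) → ENNReal) (x i) = ex μ := by
      intro i
      rw [Set.indicator_of_mem (hx.1 i), Pi.one_apply, mul_one]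
    have h2 : ∀ i j, (if i = j then (1 : ENNReal) else psi R K (x i) (x j)) =
        if i = j then (1 : ENNReal) else att R K (x i) (x j) := by
      intro i j
      by_cases h : i = j
      · simp [h]
      · have h3 := hx.2 i j h
        have h4 : ¬ ∑ k, (x i k - x j k) ^ 2 < 1 := by
          norm_num at h3
          exact not_lt.2 h3
        simp [h, psi, h4]
    unfold Gw Pr
    simp only [h1, h2, prod_att]
    rw [prod_const, card_univ, Fintype.card_fin, ex_pow, mul_comm (n : ℝ) μ]
    rfl
  · rw [Set.indicator_of_notMem hx]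
    unfold Gw Pr
    by_cases h1 : ∀ i, x i ∈ Box d t
    · have h2 : ∃ i j, i ≠ j ∧ ∑ k, (x i k - x j k) ^ 2 < 1 := by
        by_contra hcon
        refine hx ⟨h1, fun i j hij => ?_⟩
        by_contra h3
        refine hcon ⟨i, j, hij, ?_⟩
        norm_num at h3
        exact h3
      obtain ⟨i, j, hij, h3⟩ := h2
      refine mul_eq_zero_of_right _ (prod_eq_zero (mem_univ i) (prod_eq_zero (mem_univ j) ?_))
      simp [hij, psi, h3]
    · push Not at h1
      obtain ⟨i, hi⟩ := h1
      refine mul_eq_zero_of_left (prod_eq_zero (mem_univ i) ?_) _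
      simp [hi]

theorem ofReal_Z (t : ℝ) (n : ℕ) : ENNReal.ofReal (Z d (1 / 2) R K t n) =
    ((n.factorial : ENNReal))⁻¹ * ∫⁻ x : Fin n → Fin d → ℝ, (CS d t n).indicator
      (fun x => ENNReal.ofReal (Real.exp (K * pairs R x))) x ∂(Measure.pi fun _ => volume) := by
  have hm : Measurable fun x : Fin n → Fin d → ℝ => Real.exp (K * pairs R x) :=
    Real.measurable_exp.comp ((measurable_pairs n).const_mul K)
  unfold Z
  change ENNReal.ofReal (((n.factorial : ℝ))⁻¹ * ∫ x in CS d t n, Real.exp (K * pairs R x)) = _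
  rw [ENNReal.ofReal_mul (by positivity), ENNReal.ofReal_inv_of_pos (by positivity),
    ENNReal.ofReal_natCast]
  congr 1
  rw [lintegral_indicator (measurableSet_CS t n), ← volume_pi]
  refine ofReal_integral_eq_lintegral_ofReal ?_ (Eventually.of_forall fun x => (Real.exp_pos _).le)
  refine Measure.integrableOn_of_bounded (M := Real.exp (|K| * (n * n))) (volume_CS_lt_top t n).ne
    hm.aestronglyMeasurable (Eventually.of_forall fun x => ?_)
  rw [Real.norm_eq_abs, abs_of_pos (Real.exp_pos _), Real.exp_le_exp]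
  have h1 : (pairs R x : ℝ) ≤ n * n := by exact_mod_cast pairs_le x
  calc K * pairs R x ≤ |K| * pairs R x :=
        mul_le_mul_of_nonneg_right (le_abs_self K) (Nat.cast_nonneg _)
    _ ≤ _ := mul_le_mul_of_nonneg_left h1 (abs_nonneg K)

end ModZ

theorem Z_sum (t μ : ℝ) :
    ∑' n : ℕ, ex (μ * n) * ENNReal.ofReal (Z d (1 / 2) R K t n) =
      Xg volume (psi R K) (fun a : Fin d → ℝ => ex μ * (Box d t).indicator 1 a) := by
  unfold Xg
  refine tsum_congr fun n => ?_
  rw [ModZ.ofReal_Z, mul_left_comm, lintegral_congr fun x => ModZ.Gw_eq t μ x]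
  congr 1
  rw [← lintegral_const_mul]
  · refine lintegral_congr fun x => ?_
    by_cases hx : x ∈ ModZ.CS d t n
    · simp only [Set.indicator_of_mem hx]
    · simp only [Set.indicator_of_notMem hx, mul_zero]
  · refine Measurable.indicator ?_ (ModZ.measurableSet_CS t n)
    exact (Real.measurable_exp.comp ((ModZ.measurable_pairs n).const_mul K)).ennreal_ofReal

end Pool.Agent.SquareWell.ModD
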