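import Pool.Agent.Lib.MP_09cbbd_sw.ModI
import Pool.Agent.Lib.MP_09cbbd_sw.ModM
import Pool.Agent.Lib.MP_09cbbd_sw.ModZ

/-!
# The link: the gas in a union of cells as a gas on cells
-/

set_option autoImplicit false

namespace Pool.Agent.SquareWell.ModD

open MeasureTheory Finset Filter Topology Pool.Agent.StableGas Pool.Agent.SquareWellGas
  Pool.Agent.SquareWell.ModA

variable {d : ℕ} {ℓ R K : ℝ}

/-- Translation by the cell `i`. -/
def tr (ℓ : ℝ) (i : Zd d) (a : Fin d → ℝ) : Fin d → ℝ := fun k => a k + ℓ * i k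

theorem tr_tr (i : Zd d) (a : Fin d → ℝ) : tr ℓ (-i) (tr ℓ i a) = a := by
  funext k
  simp [tr]

theorem measurable_tr (i : Zd d) : Measurable (tr ℓ i) := by
  refine measurable_pi_iff.2 fun k => ?_
  exact (measurable_pi_apply k).add_const _

theorem mp_tr (i : Zd d) : MeasurePreserving (tr ℓ i) (volume : Measure (Fin d → ℝ)) volume := by
  have h := measurePreserving_add_right (volume : Measure (Fin d → ℝ)) (fun k => ℓ * (i k : ℝ))
  exact h

theorem psi_tr (p i : Zd d) (a b : Fin d → ℝ) :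
    psi R K (tr ℓ p a) (tr ℓ i b) = psi R K a (fun k => b k + ℓ * ((i - p) k : ℤ)) := by
  have e : ∑ k, (tr ℓ p a k - tr ℓ i b k) ^ 2 =
      ∑ k, (a k - (b k + ℓ * ((i - p) k : ℤ))) ^ 2 := by
    refine sum_congr rfl fun k _ => ?_
    simp only [tr, Pi.sub_apply, Int.cast_sub]
    ring
  unfold psi att
  rw [e]

theorem psi_tr_same (p : Zd d) (a b : Fin d → ℝ) :
    psi R K (tr ℓ p a) (tr ℓ p b) = psi R K a b := by
  rw [psi_tr]
  congr 1
  funext k
  simp

theorem cp_mul {N : ℕ} (e : Con d N) (f g : (Fin d → ℝ) → ENNReal) :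
    cp e (fun a => f a * g a) = cp e f * cp e g := by
  unfold cp
  rw [← prod_mul_distrib]
  refine prod_congr rfl fun k _ => ?_
  by_cases h : k.val < e.1
  · simp only [h, if_true]
  · simp only [h, if_false, mul_one]

theorem cp_comm {N N' : ℕ} (e : Con d N) (e' : Con d N')
    (f : (Fin d → ℝ) → (Fin d → ℝ) → ENNReal) :
    cp e (fun a => cp e' (f a)) = cp e' (fun b => cp e (fun a => f a b)) := by
  unfold cp
  have h1 : ∀ k : Fin N, (if k.val < e.1 then
      ∏ l : Fin N', (if l.val < e'.1 then f (e.2 k) (e'.2 l) else 1) else 1) =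
      ∏ l : Fin N', (if k.val < e.1 then (if l.val < e'.1 then f (e.2 k) (e'.2 l) else 1)
        else 1) := by
    intro k
    by_cases h : k.val < e.1
    · simp only [h, if_true]
    · simp only [h, if_false, prod_const_one]
  have h2 : ∀ l : Fin N', (if l.val < e'.1 then
      ∏ k : Fin N, (if k.val < e.1 then f (e.2 k) (e'.2 l) else 1) else 1) =
      ∏ k : Fin N, (if k.val < e.1 then (if l.val < e'.1 then f (e.2 k) (e'.2 l) else 1)
        else 1) := by
    intro l
    by_cases h : l.val < e'.1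
    · simp only [h, if_true]
    · simp only [h, if_false]
      refine (prod_eq_one fun k _ => ?_).symm
      by_cases h' : k.val < e.1
      · simp only [h', if_true]
      · simp only [h', if_false]
  rw [prod_congr rfl fun k _ => h1 k, prod_congr rfl fun l _ => h2 l, Finset.prod_comm]

theorem pp_mul (x : EE d ℓ) (f g : (Fin d → ℝ) → ENNReal) :
    pp ℓ x (fun a => f a * g a) = pp ℓ x f * pp ℓ x g := by
  unfold pp
  rw [cp_mul, cp_mul]
  ring

theorem pp_comm (x y : EE d ℓ) (f : (Fin d → ℝ) → (Fin d → ℝ) → ENNReal) :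
    pp ℓ x (fun a => pp ℓ y (f a)) = pp ℓ y (fun b => pp ℓ x (fun a => f a b)) := by
  unfold pp
  rw [cp_mul, cp_mul, cp_mul, cp_mul, cp_comm x.1 y.1, cp_comm x.1 y.2, cp_comm x.2 y.1,
    cp_comm x.2 y.2]
  ring

/-- Factor of a particle due to the content `x` of the cell `p`. -/
noncomputable def Q (ℓ R K : ℝ) (p : Zd d) (x : EE d ℓ) (y : Fin d → ℝ) : ENNReal :=
  pp ℓ (cl ℓ x) fun a => psi R K (tr ℓ p a) y * psi R K y (tr ℓ p a)

theorem pp_Q (p i : Zd d) (x y : EE d ℓ) :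
    pp ℓ (cl ℓ y) (fun b => Q ℓ R K p x (tr ℓ i b)) =
      g0 ℓ R K (i - p) x y * g0 ℓ R K (p - i) y x := by
  unfold Q g0
  simp only [psi_tr]
  simp only [pp_mul]
  rw [pp_comm]

/-- The weight of the contents of the cells of `J`. -/
noncomputable def WL (ℓ R K : ℝ) (φ : (Fin d → ℝ) → ENNReal) (J : Finset (Zd d))
    (ω : Zd d → EE d ℓ) : ENNReal :=
  (∏ i ∈ J, pp ℓ (cl ℓ (ω i)) (fun a => φ (tr ℓ i a)) * h0 ℓ R K (ω i)) *
    ∏ i ∈ J, ∏ j ∈ J.erase i, g0 ℓ R K (j - i) (ω i) (ω j)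

theorem WL_insert (φ : (Fin d → ℝ) → ENNReal) {J : Finset (Zd d)} {p : Zd d} (hp : p ∉ J)
    (ω : Zd d → EE d ℓ) : WL ℓ R K φ (insert p J) ω =
      h0 ℓ R K (ω p) * (pp ℓ (cl ℓ (ω p)) (fun a => φ (tr ℓ p a)) *
        WL ℓ R K (fun y => φ y * Q ℓ R K p (ω p) y) J ω) := by
  unfold WL
  rw [prod_insert hp, prod_insert hp, erase_insert hp]
  have h1 : ∏ i ∈ J, ∏ j ∈ (insert p J).erase i, g0 ℓ R K (j - i) (ω i) (ω j) =
      (∏ i ∈ J, g0 ℓ R K (p - i) (ω i) (ω p)) *
        ∏ i ∈ J, ∏ j ∈ J.erase i, g0 ℓ R K (j - i) (ω i) (ω j) := by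
    rw [← prod_mul_distrib]
    refine prod_congr rfl fun i hi => ?_
    have hip : p ≠ i := fun hh => hp (hh ▸ hi)
    rw [erase_insert_of_ne hip, prod_insert fun hh => hp (mem_of_mem_erase hh)]
  have h2 : ∏ i ∈ J, pp ℓ (cl ℓ (ω i)) (fun a => φ (tr ℓ i a) * Q ℓ R K p (ω p) (tr ℓ i a)) *
      h0 ℓ R K (ω i) = (∏ i ∈ J, pp ℓ (cl ℓ (ω i)) (fun a => φ (tr ℓ i a)) * h0 ℓ R K (ω i)) *
        ((∏ i ∈ J, g0 ℓ R K (i - p) (ω p) (ω i)) * ∏ i ∈ J, g0 ℓ R K (p - i) (ω i) (ω p)) := by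
    rw [← prod_mul_distrib, ← prod_mul_distrib]
    refine prod_congr rfl fun i _ => ?_
    rw [pp_mul, pp_Q]
    ring
  rw [h1, h2]
  ring

theorem measurable_pp1 {φ : (Fin d → ℝ) → ENNReal} (hφ : Measurable φ) :
    Measurable fun x : EE d ℓ => pp ℓ x φ := by
  have h0 : Measurable fun p : Unit × (Fin d → ℝ) => (fun _ : Unit => φ) p.1 p.2 :=
    hφ.comp measurable_snd
  have h := measurable_pp (d := d) (ℓ := ℓ) (Y := Unit) (φ := fun _ : Unit => φ) h0
  have h1 : Measurable fun x : EE d ℓ => ((), x) := measurable_const.prodMk measurable_id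
  have h2 := Measurable.comp h h1
  exact h2

theorem measurable_Q (p : Zd d) :
    Measurable fun q : EE d ℓ × (Fin d → ℝ) => Q ℓ R K p q.1 q.2 := by
  have h2 : Measurable fun q : (Fin d → ℝ) × (Fin d → ℝ) => (tr ℓ p q.2, q.1) :=
    ((measurable_tr p).comp measurable_snd).prodMk measurable_fst
  have h3 : Measurable fun q : (Fin d → ℝ) × (Fin d → ℝ) => (q.1, tr ℓ p q.2) :=
    measurable_fst.prodMk ((measurable_tr p).comp measurable_snd)
  have h4 := (measurable_psi (R := R) (K := K)).comp h2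
  have h5 := (measurable_psi (R := R) (K := K)).comp h3
  have h1 : Measurable fun q : (Fin d → ℝ) × (Fin d → ℝ) =>
      (fun y a => psi R K (tr ℓ p a) y * psi R K y (tr ℓ p a)) q.1 q.2 := h4.mul h5
  have h6 := measurable_pp (d := d) (ℓ := ℓ) (Y := Fin d → ℝ)
    (φ := fun y a => psi R K (tr ℓ p a) y * psi R K y (tr ℓ p a)) h1
  have h7 : Measurable fun q : EE d ℓ × (Fin d → ℝ) => (q.2, cl ℓ q.1) :=
    measurable_snd.prodMk (measurable_cl.comp measurable_fst)
  have h8 := Measurable.comp h6 h7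
  exact h8

theorem measurable_WL {φ : (Fin d → ℝ) → ENNReal} (hφ : Measurable φ) (J : Finset (Zd d)) :
    Measurable (WL ℓ R K φ J) := by
  unfold WL
  refine (Finset.measurable_prod _ fun i _ => ?_).mul
    (Finset.measurable_prod _ fun i _ => Finset.measurable_prod _ fun j _ => ?_)
  · have h0 : Measurable fun a => φ (tr ℓ i a) := hφ.comp (measurable_tr i)
    have h1 : Measurable fun x : EE d ℓ => pp ℓ x fun a => φ (tr ℓ i a) := measurable_pp1 h0
    have h2 : Measurable fun ω : Zd d → EE d ℓ => cl ℓ (ω i) :=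
      measurable_cl.comp (measurable_pi_apply i)
    have h3 := Measurable.comp h1 h2
    have h4 := Measurable.comp (measurable_h0 (ℓ := ℓ) (R := R) (K := K))
      (measurable_pi_apply (X := fun _ : Zd d => EE d ℓ) i)
    exact Measurable.mul h3 h4
  · have h1 : Measurable fun ω : Zd d → EE d ℓ => (ω i, ω j) :=
      (measurable_pi_apply i).prodMk (measurable_pi_apply j)
    have h2 := Measurable.comp (measurable_g0 (ℓ := ℓ) (R := R) (K := K) (j - i)) h1
    exact h2

/-- Indicator of the translate of `T`. -/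
noncomputable def cI (ℓ : ℝ) (T : Set (Fin d → ℝ)) (i : Zd d) (a : Fin d → ℝ) : ENNReal :=
  T.indicator 1 (tr ℓ (-i) a)

theorem measurable_cI {T : Set (Fin d → ℝ)} (hT : MeasurableSet T) (i : Zd d) :
    Measurable (cI ℓ T i) :=
  (measurable_one.indicator hT).comp (measurable_tr (-i))

theorem cI_tr (T : Set (Fin d → ℝ)) (i : Zd d) (a : Fin d → ℝ) :
    cI ℓ T i (tr ℓ i a) = T.indicator 1 a := by
  unfold cI
  rw [tr_tr]

theorem cI_split (i : Zd d) (a : Fin d → ℝ) :
    cI ℓ (Box d ℓ) i a = cI ℓ (Cor d ℓ) i a + cI ℓ (Box d ℓ \ Cor d ℓ) i a := by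
  unfold cI
  obtain ⟨y, hy⟩ : ∃ y, y = tr ℓ (-i) a := ⟨_, rfl⟩
  rw [← hy]
  by_cases h1 : y ∈ Cor d ℓ
  · have h2 : y ∈ Box d ℓ := Cor_Box h1
    have h3 : y ∉ Box d ℓ \ Cor d ℓ := fun h => h.2 h1
    rw [Set.indicator_of_mem h1, Set.indicator_of_mem h2, Set.indicator_of_notMem h3, add_zero]
  · by_cases h2 : y ∈ Box d ℓ
    · have h3 : y ∈ Box d ℓ \ Cor d ℓ := ⟨h2, h1⟩
      rw [Set.indicator_of_notMem h1, Set.indicator_of_mem h2, Set.indicator_of_mem h3, zero_add]
    · have h3 : y ∉ Box d ℓ \ Cor d ℓ := fun h => h2 h.1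
      rw [Set.indicator_of_notMem h1, Set.indicator_of_notMem h2, Set.indicator_of_notMem h3,
        add_zero]

theorem Gw_mul {X : Type} (ψ : X → X → ENNReal) {ι : Type} [Fintype ι] [DecidableEq ι]
    (f g : X → ENNReal) (x : ι → X) :
    Gw ψ (fun y => f y * g y) x = (∏ i, f (x i)) * Gw ψ g x := by
  unfold Gw
  rw [prod_mul_distrib, mul_assoc]

theorem Gw_tr (p : Zd d) {ι : Type} [Fintype ι] [DecidableEq ι] (f : (Fin d → ℝ) → ENNReal)
    (x : ι → Fin d → ℝ) :
    Gw (psi R K) f (fun i => tr ℓ p (x i)) = Gw (psi R K) (fun y => f (tr ℓ p y)) x := by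
  unfold Gw Pr
  simp only [psi_tr_same]

theorem Pu_tr (p : Zd d) {ι : Type} [Fintype ι] (u : ι → Fin d → ℝ) (y : Fin d → ℝ) :
    Pu (psi R K) (fun i => tr ℓ p (u i)) (tr ℓ p y) = Pu (psi R K) u y := by
  unfold Pu
  simp only [psi_tr_same]

theorem mp_pi (p : Zd d) (n : ℕ) : MeasurePreserving
    (fun (u : Fin n → Fin d → ℝ) (i : Fin n) => tr ℓ p (u i))
    (Measure.pi fun _ => volume) (Measure.pi fun _ => volume) :=
  measurePreserving_pi (fun _ => volume) (fun _ => volume) fun _ => mp_tr p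

theorem Q_pad {k m : ℕ} (hk : k ≤ Nm d ℓ) (hm : m ≤ Nm d ℓ) (p : Zd d)
    (u : Fin k → Fin d → ℝ) (w : Fin m → Fin d → ℝ)
    (hV : Vd ℓ ((pad (Nm d ℓ) u, pad (Nm d ℓ) w) : EE d ℓ)) (y : Fin d → ℝ) :
    Q ℓ R K p (pad (Nm d ℓ) u, pad (Nm d ℓ) w) y =
      Pu (psi R K) (fun i => tr ℓ p (u i)) y * Pu (psi R K) (fun i => tr ℓ p (w i)) y := by
  unfold Q
  rw [cl_of_Vd hV]
  unfold pp
  rw [cp_pad hk, cp_pad hm]
  rfl

theorem measurable_Pu1 {ι : Type} [Fintype ι] (u : ι → Fin d → ℝ) :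
    Measurable fun y => Pu (psi R K) u y := by
  have h1 := measurable_Pu2 (measurable_psi (d := d) (R := R) (K := K)) (ι := ι)
  have h2 : Measurable fun y : Fin d → ℝ => (u, y) := measurable_const.prodMk measurable_id
  have h3 := Measurable.comp h1 h2
  exact h3

/-- The contribution of a cell, inner part. -/
theorem inner_eq (p : Zd d) {φ f : (Fin d → ℝ) → ENNReal} (hφ : Measurable φ) (hf : Measurable f)
    {k : ℕ} (u : Fin k → Fin d → ℝ) (m : ℕ) (G : EE d ℓ → ENNReal)
    (hG : G = fun x => pp ℓ (cl ℓ x) (fun a => φ (tr ℓ p a)) *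
      Xg volume (psi R K) (fun a => f a * Q ℓ R K p x a)) :
    (∏ i, φ (tr ℓ p (u i))) * Gw (psi R K) ((Cor d ℓ).indicator 1) u *
      ∫⁻ w : Fin m → Fin d → ℝ, Gw (psi R K) (fun y => φ y * cI ℓ (Box d ℓ \ Cor d ℓ) p y *
        Pu (psi R K) (fun i => tr ℓ p (u i)) y) w * Xg volume (psi R K) (fun y =>
          f y * Pu (psi R K) (fun i => tr ℓ p (u i)) y * Pu (psi R K) w y)
            ∂(Measure.pi fun _ => volume) =
    Gw (psi R K) ((Cor d ℓ).indicator 1) u * ∫⁻ w : Fin m → Fin d → ℝ,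
      Gw (psi R K) (fun y => (Box d ℓ \ Cor d ℓ).indicator 1 y * Pu (psi R K) u y) w *
        G (pad (Nm d ℓ) u, pad (Nm d ℓ) w) ∂(Measure.pi fun _ => volume) := by
  have mS : MeasurableSet (Box d ℓ \ Cor d ℓ) := measurableSet_Box.diff measurableSet_Cor
  have m1 : Measurable fun y => φ y * cI ℓ (Box d ℓ \ Cor d ℓ) p y *
      Pu (psi R K) (fun i => tr ℓ p (u i)) y :=
    (hφ.mul (measurable_cI mS p)).mul (measurable_Pu1 _)
  have m2 : Measurable fun w : Fin m → Fin d → ℝ => Gw (psi R K)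
      (fun y => φ y * cI ℓ (Box d ℓ \ Cor d ℓ) p y *
      Pu (psi R K) (fun i => tr ℓ p (u i)) y) w := measurable_Gw measurable_psi m1
  have m3 : Measurable fun q : (Fin m → Fin d → ℝ) × (Fin d → ℝ) =>
      (fun (w : Fin m → Fin d → ℝ) y =>
        f y * Pu (psi R K) (fun i => tr ℓ p (u i)) y * Pu (psi R K) w y) q.1 q.2 :=
    ((hf.comp measurable_snd).mul ((measurable_Pu1 _).comp measurable_snd)).mul
      (measurable_Pu2 measurable_psi)
  have m4 : Measurable fun w : Fin m → Fin d → ℝ => Xg volume (psi R K) (fun y =>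
      f y * Pu (psi R K) (fun i => tr ℓ p (u i)) y * Pu (psi R K) w y) :=
    measurable_Xg volume measurable_psi m3
  have m5 : Measurable fun w : Fin m → Fin d → ℝ => Gw (psi R K)
      (fun y => φ y * cI ℓ (Box d ℓ \ Cor d ℓ) p y *
      Pu (psi R K) (fun i => tr ℓ p (u i)) y) w * Xg volume (psi R K) (fun y =>
      f y * Pu (psi R K) (fun i => tr ℓ p (u i)) y * Pu (psi R K) w y) := Measurable.mul m2 m4
  have m6 : Measurable fun w : Fin m → Fin d → ℝ => Gw (psi R K)
      (fun y => φ y * cI ℓ (Box d ℓ \ Cor d ℓ) p y *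
      Pu (psi R K) (fun i => tr ℓ p (u i)) y) (fun i => tr ℓ p (w i)) *
      Xg volume (psi R K) (fun y => f y * Pu (psi R K) (fun i => tr ℓ p (u i)) y *
      Pu (psi R K) (fun i => tr ℓ p (w i)) y) :=
    Measurable.comp m5 (mp_pi (ℓ := ℓ) p m).measurable
  rw [← (mp_pi (ℓ := ℓ) p m).lintegral_comp m5, ← lintegral_const_mul _ m6]
  have m7 : Measurable fun w : Fin m → Fin d → ℝ => Gw (psi R K)
      (fun y => (Box d ℓ \ Cor d ℓ).indicator 1 y * Pu (psi R K) u y) w :=
    measurable_Gw measurable_psi ((measurable_one.indicator mS).mul (measurable_Pu1 _))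
  have m8 : Measurable G := by
    have h1 : Measurable fun x : EE d ℓ => pp ℓ (cl ℓ x) (fun a => φ (tr ℓ p a)) := by
      have h2 : Measurable fun x : EE d ℓ => pp ℓ x fun a => φ (tr ℓ p a) :=
        measurable_pp1 (hφ.comp (measurable_tr p))
      exact Measurable.comp h2 measurable_cl
    have h3 : Measurable fun q : EE d ℓ × (Fin d → ℝ) =>
        (fun (x : EE d ℓ) y => f y * Q ℓ R K p x y) q.1 q.2 :=
      (hf.comp measurable_snd).mul (measurable_Q p)
    have h4 := measurable_Xg volume (measurable_psi (d := d) (R := R) (K := K))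
      (f := fun (x : EE d ℓ) y => f y * Q ℓ R K p x y) h3
    rw [hG]
    exact Measurable.mul h1 h4
  have m9 : Measurable fun w : Fin m → Fin d → ℝ =>
      G (pad (Nm d ℓ) u, pad (Nm d ℓ) w) := by
    have h1 : Measurable fun w : Fin m → Fin d → ℝ => (pad (Nm d ℓ) u, pad (Nm d ℓ) w) :=
      measurable_const.prodMk (measurable_pad _ _)
    exact Measurable.comp m8 h1
  have m10 : Measurable fun w : Fin m → Fin d → ℝ => Gw (psi R K)
      (fun y => (Box d ℓ \ Cor d ℓ).indicator 1 y * Pu (psi R K) u y) w *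
      G (pad (Nm d ℓ) u, pad (Nm d ℓ) w) := Measurable.mul m7 m9
  rw [← lintegral_const_mul _ m10]
  refine lintegral_congr fun w => ?_
  have e1 : Gw (psi R K) (fun y => φ y * cI ℓ (Box d ℓ \ Cor d ℓ) p y *
      Pu (psi R K) (fun i => tr ℓ p (u i)) y) (fun i => tr ℓ p (w i)) =
      (∏ i, φ (tr ℓ p (w i))) * Gw (psi R K) (fun y => (Box d ℓ \ Cor d ℓ).indicator 1 y *
        Pu (psi R K) u y) w := by
    rw [Gw_tr, ← Gw_mul (psi R K) (fun y => φ (tr ℓ p y))
      (fun y => (Box d ℓ \ Cor d ℓ).indicator 1 y * Pu (psi R K) u y) w]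
    congr 1
    funext y
    rw [cI_tr, Pu_tr, mul_assoc]
  rw [e1]
  obtain ⟨A, hA⟩ : ∃ A, A = Gw (psi R K) ((Cor d ℓ).indicator 1) u := ⟨_, rfl⟩
  obtain ⟨B, hB⟩ : ∃ B, B = Gw (psi R K) (fun y => (Box d ℓ \ Cor d ℓ).indicator 1 y *
        Pu (psi R K) u y) w := ⟨_, rfl⟩
  rw [← hA, ← hB]
  by_cases h0 : A * B = 0
  · rcases mul_eq_zero.1 h0 with h | h
    · rw [h]; simp
    · rw [h]; simp
  · rw [hA, hB] at h0
    obtain ⟨hk, hm, hV⟩ := Vd_of_ne u w h0
    rw [hG]
    simp only [Q_pad hk hm p u w hV]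
    rw [cl_of_Vd hV]
    unfold pp
    rw [cp_pad hk, cp_pad hm]
    simp only [mul_assoc]
    ring

/-- The link, for a union of cells. -/
theorem linkJ (J : Finset (Zd d)) : ∀ φ : (Fin d → ℝ) → ENNReal, Measurable φ →
    ∀ ω0 : Zd d → EE d ℓ,
    Xg volume (psi R K) (fun a => ∑ i ∈ J, φ a * cI ℓ (Box d ℓ) i a) =
      lmarginal (fun _ : Zd d => pi0 (d := d) ℓ) J (WL ℓ R K φ J) ω0 := by
  have := sigmaFinite_pi0 (d := d) (ℓ := ℓ)
  induction J using Finset.induction_on with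
  | empty =>
    intro φ _ ω0
    rw [lmarginal_empty]
    simp only [sum_empty]
    rw [Xg_zero]
    simp [WL]
  | insert p J hp ih =>
    intro φ hφ ω0
    have mS : MeasurableSet (Box d ℓ \ Cor d ℓ) := measurableSet_Box.diff measurableSet_Cor
    obtain ⟨f, hf⟩ : ∃ f : (Fin d → ℝ) → ENNReal,
      f = fun a => ∑ i ∈ J, φ a * cI ℓ (Box d ℓ) i a := ⟨_, rfl⟩
    have mf : Measurable f := by
      rw [hf]
      exact Finset.measurable_sum _ fun i _ => hφ.mul (measurable_cI measurableSet_Box i)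
    have mcor : Measurable fun a => φ a * cI ℓ (Cor d ℓ) p a :=
      hφ.mul (measurable_cI measurableSet_Cor p)
    have mstr : Measurable fun a => φ a * cI ℓ (Box d ℓ \ Cor d ℓ) p a :=
      hφ.mul (measurable_cI mS p)
    have mrest : Measurable fun a => φ a * cI ℓ (Box d ℓ \ Cor d ℓ) p a + f a := mstr.add mf
    have e1 : (fun a => ∑ i ∈ insert p J, φ a * cI ℓ (Box d ℓ) i a) =
        fun a => φ a * cI ℓ (Cor d ℓ) p a + (φ a * cI ℓ (Box d ℓ \ Cor d ℓ) p a + f a) := by
      funext a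
      rw [sum_insert hp, cI_split, mul_add, hf, add_assoc]
    obtain ⟨G, hG⟩ : ∃ G : EE d ℓ → ENNReal, G = fun x => pp ℓ (cl ℓ x) (fun a => φ (tr ℓ p a)) *
      Xg volume (psi R K) (fun a => f a * Q ℓ R K p x a) := ⟨_, rfl⟩
    have mG : Measurable G := by
      have h1 : Measurable fun x : EE d ℓ => pp ℓ (cl ℓ x) (fun a => φ (tr ℓ p a)) := by
        have h2 : Measurable fun x : EE d ℓ => pp ℓ x fun a => φ (tr ℓ p a) :=
          measurable_pp1 (hφ.comp (measurable_tr p))
        exact Measurable.comp h2 measurable_cl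
      have h3 : Measurable fun q : EE d ℓ × (Fin d → ℝ) =>
          (fun (x : EE d ℓ) y => f y * Q ℓ R K p x y) q.1 q.2 :=
        (mf.comp measurable_snd).mul (measurable_Q p)
      have h4 := measurable_Xg volume (measurable_psi (d := d) (R := R) (K := K))
        (f := fun (x : EE d ℓ) y => f y * Q ℓ R K p x y) h3
      rw [hG]
      exact Measurable.mul h1 h4
    have eG : ∀ x, lmarginal (fun _ : Zd d => pi0 (d := d) ℓ) J (WL ℓ R K φ (insert p J))
        (Function.update ω0 p x) = h0 ℓ R K x * G x := by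
      intro x
      have mQ : Measurable fun y => φ y * Q ℓ R K p x y := by
        have h1 : Measurable fun y : Fin d → ℝ => (x, y) := measurable_const.prodMk measurable_id
        have h2 := Measurable.comp (measurable_Q (R := R) (K := K) p) h1
        exact hφ.mul h2
      have h1 := ih (fun y => φ y * Q ℓ R K p x y) mQ (Function.update ω0 p x)
      have h2 : (fun a => ∑ i ∈ J, (φ a * Q ℓ R K p x a) * cI ℓ (Box d ℓ) i a) =
          fun a => f a * Q ℓ R K p x a := by
        funext a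
        rw [hf, sum_mul]
        exact sum_congr rfl fun i _ => by ring
      rw [h2] at h1
      rw [hG]
      simp only
      rw [h1]
      unfold lmarginal
      have mW : Measurable fun y : (∀ _ : J, EE d ℓ) => WL ℓ R K (fun y => φ y * Q ℓ R K p x y) J
          (Function.updateFinset (Function.update ω0 p x) J y) :=
        Measurable.comp (measurable_WL mQ J) measurable_updateFinset
      rw [← lintegral_const_mul _ mW, ← lintegral_const_mul _ (mW.const_mul _)]
      refine lintegral_congr fun y => ?_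
      have hp1 : Function.updateFinset (Function.update ω0 p x) J y p = x := by
        rw [Function.updateFinset_def]; simp [hp]
      rw [WL_insert φ hp, hp1]
    rw [e1, Xg_add volume measurable_psi mcor mrest,
      lmarginal_insert _ (measurable_WL hφ _) hp ω0, lintegral_congr eG, lint_cell G mG]
    refine tsum_congr fun k => ?_
    congr 1
    have m1 : Measurable fun u : Fin k → Fin d → ℝ =>
        Gw (psi R K) (fun a => φ a * cI ℓ (Cor d ℓ) p a) u := measurable_Gw measurable_psi mcor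
    have m2 : Measurable fun q : (Fin k → Fin d → ℝ) × (Fin d → ℝ) =>
        (fun (u : Fin k → Fin d → ℝ) y => (φ y * cI ℓ (Box d ℓ \ Cor d ℓ) p y + f y) *
          Pu (psi R K) u y) q.1 q.2 :=
      (mrest.comp measurable_snd).mul (measurable_Pu2 measurable_psi)
    have m3 : Measurable fun u : Fin k → Fin d → ℝ => Xg volume (psi R K)
        (fun y => (φ y * cI ℓ (Box d ℓ \ Cor d ℓ) p y + f y) * Pu (psi R K) u y) :=
      measurable_Xg volume measurable_psi m2
    have m4 : Measurable fun u : Fin k → Fin d → ℝ =>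
        Gw (psi R K) (fun a => φ a * cI ℓ (Cor d ℓ) p a) u * Xg volume (psi R K)
        (fun y => (φ y * cI ℓ (Box d ℓ \ Cor d ℓ) p y + f y) * Pu (psi R K) u y) :=
      Measurable.mul m1 m3
    rw [← (mp_pi (ℓ := ℓ) p k).lintegral_comp m4]
    refine lintegral_congr fun u => ?_
    have e2 : Gw (psi R K) (fun a => φ a * cI ℓ (Cor d ℓ) p a) (fun i => tr ℓ p (u i)) =
        (∏ i, φ (tr ℓ p (u i))) * Gw (psi R K) ((Cor d ℓ).indicator 1) u := by
      rw [Gw_tr, ← Gw_mul (psi R K) (fun y => φ (tr ℓ p y)) ((Cor d ℓ).indicator 1) u]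
      congr 1
      funext y
      rw [cI_tr]
    have e3 : Xg volume (psi R K) (fun y => (φ y * cI ℓ (Box d ℓ \ Cor d ℓ) p y + f y) *
        Pu (psi R K) (fun i => tr ℓ p (u i)) y) = ∑' m : ℕ, ((m.factorial : ENNReal))⁻¹ *
        ∫⁻ w : Fin m → Fin d → ℝ, Gw (psi R K) (fun y => φ y * cI ℓ (Box d ℓ \ Cor d ℓ) p y *
          Pu (psi R K) (fun i => tr ℓ p (u i)) y) w * Xg volume (psi R K) (fun y =>
            f y * Pu (psi R K) (fun i => tr ℓ p (u i)) y * Pu (psi R K) w y)
              ∂(Measure.pi fun _ => volume) := by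
      have g1 : Measurable fun y => φ y * cI ℓ (Box d ℓ \ Cor d ℓ) p y *
          Pu (psi R K) (fun i => tr ℓ p (u i)) y := mstr.mul (measurable_Pu1 _)
      have g2 : Measurable fun y => f y * Pu (psi R K) (fun i => tr ℓ p (u i)) y :=
        mf.mul (measurable_Pu1 _)
      rw [← Xg_add volume measurable_psi g1 g2]
      congr 1
      funext y
      rw [add_mul]
    rw [e2, e3, ← ENNReal.tsum_mul_left, ← ENNReal.tsum_mul_left]
    refine tsum_congr fun m => ?_
    have h := inner_eq p hφ mf u m G hG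
    calc _ = ((m.factorial : ENNReal))⁻¹ * ((∏ i, φ (tr ℓ p (u i))) *
        Gw (psi R K) ((Cor d ℓ).indicator 1) u * ∫⁻ w : Fin m → Fin d → ℝ,
          Gw (psi R K) (fun y => φ y * cI ℓ (Box d ℓ \ Cor d ℓ) p y *
        Pu (psi R K) (fun i => tr ℓ p (u i)) y) w * Xg volume (psi R K) (fun y =>
          f y * Pu (psi R K) (fun i => tr ℓ p (u i)) y * Pu (psi R K) w y)
            ∂(Measure.pi fun _ => volume)) := by ring
      _ = _ := by rw [h]; ring

/-- The index of the cell of a point. -/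
theorem mem_cell (hℓ : 0 < ℓ) (i : Zd d) (a : Fin d → ℝ) :
    tr ℓ (-i) a ∈ Box d ℓ ↔ ∀ k, i k = ⌊a k / ℓ⌋ := by
  unfold Box tr
  simp only [Set.mem_ofPred_eq]
  refine forall_congr' fun k => ?_
  have h1 : a k = a k / ℓ * ℓ := by field_simp
  obtain ⟨t, ht⟩ : ∃ t, t = a k / ℓ := ⟨_, rfl⟩
  rw [← ht] at h1 ⊢
  rw [eq_comm, Int.floor_eq_iff, Set.mem_Ico]
  simp only [Pi.neg_apply, Int.cast_neg]
  rw [h1]
  constructor
  · rintro ⟨h2, h3⟩
    constructor
    · by_contra h
      push Not at h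
      have := mul_pos hℓ (sub_pos.2 h)
      linarith [this]
    · by_contra h
      push Not at h
      have := mul_nonneg hℓ.le (sub_nonneg.2 h)
      linarith [this]
  · rintro ⟨h2, h3⟩
    constructor
    · have := mul_nonneg hℓ.le (sub_nonneg.2 h2)
      linarith [this]
    · have := mul_pos hℓ (sub_pos.2 h3)
      linarith [this]

theorem cells_box (hℓ : 0 < ℓ) (L : ℕ) (a : Fin d → ℝ) (c : ENNReal) :
    ∑ i ∈ bx d L, c * cI ℓ (Box d ℓ) i a = c * (Box d (L * ℓ)).indicator 1 a := by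
  have h1 : ∀ i : Zd d, cI ℓ (Box d ℓ) i a = if i = (fun k => ⌊a k / ℓ⌋) then 1 else 0 := by
    intro i
    unfold cI
    by_cases h : i = fun k => ⌊a k / ℓ⌋
    · rw [if_pos h, Set.indicator_of_mem]
      · rfl
      · exact (mem_cell hℓ i a).2 fun k => congrFun h k
    · rw [if_neg h, Set.indicator_of_notMem]
      exact fun h' => h (funext ((mem_cell hℓ i a).1 h'))
  have h2 : (fun k => ⌊a k / ℓ⌋) ∈ bx d L ↔ a ∈ Box d (L * ℓ) := by
    unfold bx Box
    simp only [Fintype.mem_piFinset, Set.mem_ofPred_eq, Finset.mem_Ico, Set.mem_Ico]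
    refine forall_congr' fun k => ?_
    rw [Int.floor_lt, Int.floor_nonneg, div_lt_iff₀ hℓ]
    refine and_congr ?_ Iff.rfl
    constructor
    · intro h
      by_contra h'
      push Not at h'
      exact absurd h (not_le.2 (div_neg_of_neg_of_pos h' hℓ))
    · intro h
      exact div_nonneg h hℓ.le
  simp only [h1, mul_ite, mul_one, mul_zero]
  rw [Finset.sum_ite_eq']
  by_cases h3 : a ∈ Box d (L * ℓ)
  · rw [if_pos (h2.2 h3), Set.indicator_of_mem h3, Pi.one_apply, mul_one]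
  · rw [if_neg (fun h => h3 (h2.1 h)), Set.indicator_of_notMem h3, mul_zero]

theorem cp_const {N : ℕ} (e : Con d N) (he : e.1 ≤ N) (c : ENNReal) :
    cp e (fun _ => c) = c ^ e.1 := by
  unfold cp
  rw [prod_ite, prod_const, prod_const_one, mul_one]
  congr 1
  have h : (univ.filter fun k : Fin N => k.val < e.1) = univ.filter fun k : Fin N => k.val < e.1 :=
    rfl
  rw [Fin.card_filter_val_lt]
  omega

theorem pp_const (x : EE d ℓ) (μ : ℝ) : pp ℓ (cl ℓ x) (fun _ => ex μ) = ex (μ * n0 ℓ x) := by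
  have h := Vd_cl x
  unfold pp
  rw [cp_const _ h.1.1, cp_const _ h.2.1.1, ← pow_add, ex_pow]
  congr 1
  unfold n0
  ring

/-- The link. -/
theorem link0 (hℓ : 2 < ℓ) (B : ℕ) (μ : ℝ) (L : ℕ) :
    lmarginal (fun _ : Zd d => pi0 (d := d) ℓ) (bx d L) (fun ω =>
      (∏ i ∈ bx d L, ex (μ * n0 ℓ (ω i)) * h0 ℓ (B * ℓ) K (ω i)) *
        ∏ v ∈ (SS d B).erase 0, ∏ i ∈ (bx d L).filter (fun i => i + v ∈ bx d L),
          g0 ℓ (B * ℓ) K v (ω i) (ω (i + v))) (fun _ => e00 d ℓ) =
      ∑' n : ℕ, ex (μ * n) * ENNReal.ofReal (Z d (1 / 2) (B * ℓ) K (L * ℓ) n) := by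
  rw [Z_sum]
  have h0 : 0 < ℓ := by linarith
  have h1 := linkJ (R := B * ℓ) (K := K) (bx d L) (fun _ : Fin d → ℝ => ex μ) measurable_const
    (fun _ => e00 d ℓ)
  simp only [cells_box h0] at h1
  rw [h1]
  congr 1
  funext ω
  unfold WL
  congr 1
  · refine prod_congr rfl fun i _ => ?_
    rw [pp_const]
  · have h2 : ∀ v ∈ (SS d B).erase 0, ∏ i ∈ (bx d L).filter (fun i => i + v ∈ bx d L),
        g0 ℓ (B * ℓ) K v (ω i) (ω (i + v)) =
        ∏ i ∈ bx d L, if i + v ∈ bx d L then g0 ℓ (B * ℓ) K v (ω i) (ω (i + v)) else 1 := by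
      intro v _
      rw [prod_filter]
    rw [prod_congr rfl h2, Finset.prod_comm]
    refine prod_congr rfl fun i hi => ?_
    rw [← prod_filter]
    have h3 : ∏ j ∈ (bx d L).erase i, g0 ℓ (B * ℓ) K (j - i) (ω i) (ω j) =
        ∏ j ∈ ((bx d L).erase i).filter (fun j => j - i ∈ SS d B),
          g0 ℓ (B * ℓ) K (j - i) (ω i) (ω j) := by
      rw [prod_filter]
      refine prod_congr rfl fun j _ => ?_
      by_cases h : j - i ∈ SS d B
      · rw [if_pos h]
      · rw [if_neg h, g0_one hℓ B _ h]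
    rw [h3]
    refine prod_bij' (fun v _ => i + v) (fun j _ => j - i) ?_ ?_ ?_ ?_ ?_
    · intro v hv
      rw [mem_filter, mem_erase] at hv
      rw [mem_filter, mem_erase, add_sub_cancel_left]
      exact ⟨⟨fun h => hv.1.1 (by simpa using h), hv.2⟩, hv.1.2⟩
    · intro j hj
      rw [mem_filter, mem_erase] at hj
      rw [mem_filter, mem_erase, add_sub_cancel]
      exact ⟨⟨fun h => hj.1.1 (sub_eq_zero.1 h), hj.2⟩, hj.1.2⟩
    · intro v _
      simp
    · intro j _
      simp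
    · intro v _
      simp

end Pool.Agent.SquareWell.ModD
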