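import Pool.Agent.Lib.MP_09cbbd_sw.Tor
import Pool.Agent.Lib.MP_09cbbd_sw.Pres

/-!
# The pressure of the torus
-/

set_option autoImplicit false

namespace Pool.Agent.SquareWell

open MeasureTheory Finset Filter Topology Pool.Agent.StableGas

variable {d : ℕ} {E : Type} [MeasurableSpace E] (M : Md d E)

namespace TorP

/-! ### Products in the extended nonnegative reals -/

theorem one_le_prod {ι : Type} {s : Finset ι} {f : ι → ENNReal} (h : ∀ i ∈ s, 1 ≤ f i) :
    1 ≤ ∏ i ∈ s, f i := by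
  classical
  induction s using Finset.induction_on with
  | empty => simp
  | insert a s ha ih =>
    rw [prod_insert ha]
    calc (1 : ENNReal) = 1 * 1 := (one_mul 1).symm
      _ ≤ f a * ∏ i ∈ s, f i := mul_le_mul' (h a (mem_insert_self a s))
          (ih fun i hi => h i (mem_insert_of_mem hi))

theorem prod_le_of_subset {ι : Type} {s t : Finset ι} (hst : s ⊆ t) {f : ι → ENNReal}
    (h : ∀ i ∈ t, i ∉ s → 1 ≤ f i) : ∏ i ∈ s, f i ≤ ∏ i ∈ t, f i := by
  classical
  rw [← prod_sdiff hst]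
  calc ∏ i ∈ s, f i = 1 * ∏ i ∈ s, f i := (one_mul _).symm
    _ ≤ (∏ i ∈ t \ s, f i) * ∏ i ∈ s, f i :=
      mul_le_mul' (one_le_prod fun i hi => h i (mem_sdiff.1 hi).1 (mem_sdiff.1 hi).2) le_rfl

theorem prod_mono {ι : Type} {s : Finset ι} {f g : ι → ENNReal} (h : ∀ i ∈ s, f i ≤ g i) :
    ∏ i ∈ s, f i ≤ ∏ i ∈ s, g i := Finset.prod_le_prod (fun _ _ => zero_le) h

/-! ### Elementary facts on the model -/

theorem fin_π : IsFiniteMeasure M.π :=
  ⟨lt_of_le_of_lt M.π_univ (lt_top_iff_ne_top.2 (ex_ne_top _))⟩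

theorem g_e0_right (v : Zd d) (x : E) : M.g v x M.e0 = 1 := by
  have h := M.g_symm (-v) M.e0 x
  rw [neg_neg] at h
  rw [h, M.g_e0]

theorem measurable_exn (μ : ℝ) : Measurable fun x : E => ex (μ * M.n x) :=
  (measurable_from_top (f := fun k : ℕ => ex (μ * k))).comp M.measurable_n

theorem measurable_wG {Γ : Type} [AddCommGroup Γ] [DecidableEq Γ] (φ : Zd d → Γ) (μ : ℝ)
    (A : Finset Γ) : Measurable (M.wG φ μ A) := by
  unfold Md.wG
  refine Measurable.mul ?_ ?_
  · refine Finset.measurable_prod _ fun i _ => ?_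
    exact ((measurable_exn M μ).comp (measurable_pi_apply i)).mul
      (M.measurable_h.comp (measurable_pi_apply i))
  · refine Finset.measurable_prod _ fun v _ => Finset.measurable_prod _ fun i _ => ?_
    exact (M.measurable_g v).comp (f := fun ω : Γ → E => (ω i, ω (i + φ v)))
      ((measurable_pi_apply i).prodMk (measurable_pi_apply (i + φ v)))

theorem g_le (v : Zd d) (x y : E) : M.g v x y ≤ ex (M.K / 2 * M.N * M.N) := by
  refine (M.g_up v x y).trans (ex_le_ex.2 ?_)
  have hK := M.hK.le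
  have h1 : (M.n x : ℝ) ≤ M.N := by exact_mod_cast M.n_le x
  have h2 : (M.n y : ℝ) ≤ M.N := by exact_mod_cast M.n_le y
  have h0 : (0 : ℝ) ≤ M.n y := Nat.cast_nonneg _
  have h3 : (M.n x : ℝ) * M.n y ≤ M.N * M.N := mul_le_mul h1 h2 h0 (Nat.cast_nonneg _)
  nlinarith

theorem site_le (μ : ℝ) (x : E) :
    ex (μ * M.n x) * M.h x ≤ ex (|μ| * M.N + M.K / 2 * M.N * M.N) := by
  rw [ex_add]
  have hK := M.hK.le
  have h1 : (M.n x : ℝ) ≤ M.N := by exact_mod_cast M.n_le x
  have h0 : (0 : ℝ) ≤ M.n x := Nat.cast_nonneg _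
  refine mul_le_mul' (ex_le_ex.2 ?_) ((M.h_up x).trans (ex_le_ex.2 ?_))
  · calc μ * M.n x ≤ |μ| * M.n x := mul_le_mul_of_nonneg_right (le_abs_self μ) h0
      _ ≤ |μ| * M.N := mul_le_mul_of_nonneg_left h1 (abs_nonneg μ)
  · have h3 : (M.n x : ℝ) * M.n x ≤ M.N * M.N := mul_le_mul h1 h1 h0 (Nat.cast_nonneg _)
    nlinarith

theorem wG_bound {Γ : Type} [AddCommGroup Γ] [DecidableEq Γ] (φ : Zd d → Γ) (μ : ℝ)
    (A : Finset Γ) : ∃ C : ENNReal, C ≠ ⊤ ∧ ∀ ω, M.wG φ μ A ω ≤ C := by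
  refine ⟨(∏ _i ∈ A, ex (|μ| * M.N + M.K / 2 * M.N * M.N)) *
    ∏ v ∈ M.S.erase 0, ∏ _i ∈ A.filter (fun i => i + φ v ∈ A), ex (M.K / 2 * M.N * M.N), ?_, ?_⟩
  · exact ENNReal.mul_ne_top (ENNReal.prod_ne_top fun _ _ => ex_ne_top _)
      (ENNReal.prod_ne_top fun _ _ => ENNReal.prod_ne_top fun _ _ => ex_ne_top _)
  · intro ω
    exact mul_le_mul' (prod_mono fun i _ => site_le M μ (ω i))
      (prod_mono fun v _ => prod_mono fun i _ => g_le M v _ _)

theorem wG_eq {Γ : Type} [AddCommGroup Γ] [DecidableEq Γ] (φ : Zd d → Γ) (μ : ℝ)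
    (A : Finset Γ) (ω : Γ → E) :
    M.wG φ μ A ω = ex (μ * ∑ i ∈ A, (M.n (ω i) : ℝ)) * M.wG φ 0 A ω := by
  unfold Md.wG
  rw [prod_mul_distrib, prod_mul_distrib, prod_ex, prod_ex, ← mul_sum]
  simp only [zero_mul, sum_const_zero, ex_zero, one_mul]
  rw [mul_assoc]

end TorP

open TorP

theorem ZT_ne_top (L : ℕ) (μ : ℝ) : M.ZT L μ ≠ ⊤ := by
  have := fin_π M
  obtain ⟨C, hC, h⟩ := wG_bound M (cst L) μ univ
  refine ne_top_of_le_ne_top ?_ (lintegral_mono h)
  rw [lintegral_const]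
  exact ENNReal.mul_ne_top hC (measure_ne_top _ _)

theorem one_le_ZT (L : ℕ) (μ : ℝ) : 1 ≤ M.ZT L μ := by
  have := fin_π M
  have h := mul_meas_ge_le_lintegral (μ := Measure.pi fun _ : Tor d L => M.π)
    (measurable_wG M (cst L) μ univ) 1
  refine le_trans ?_ h
  rw [one_mul]
  have h1 : ({fun _ => M.e0} : Set (Tor d L → E)) ⊆ {ω | 1 ≤ M.wG (cst L) μ univ ω} := by
    intro ω hω
    rw [Set.mem_singleton_iff] at hω
    subst hω
    show 1 ≤ M.wG (cst L) μ univ _
    unfold Md.wG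
    simp [M.n_e0, M.h_e0, M.g_e0, ex_zero]
  refine le_trans ?_ (measure_mono h1)
  rw [← Set.univ_pi_singleton, Measure.pi_pi]
  simp [M.π_e0]

theorem ZT_convex (L : ℕ) : ConvexOn ℝ Set.univ fun μ => Real.log (M.ZT L μ).toReal := by
  refine ⟨convex_univ, fun x _ y _ a b ha hb hab => ?_⟩
  simp only [smul_eq_mul]
  have hm := fun μ => measurable_wG M (cst L) μ univ
  have key : M.ZT L (a * x + b * y) ≤ M.ZT L x ^ a * M.ZT L y ^ b := by
    have h := ENNReal.lintegral_mul_norm_pow_le (μ := Measure.pi fun _ : Tor d L => M.π)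
      (hm x).aemeasurable (hm y).aemeasurable ha hb hab
    refine le_trans (le_of_eq ?_) h
    unfold Md.ZT
    refine lintegral_congr fun ω => ?_
    rw [wG_eq M _ (a * x + b * y), wG_eq M _ x, wG_eq M _ y, ENNReal.mul_rpow_of_nonneg _ _ ha,
      ENNReal.mul_rpow_of_nonneg _ _ hb, ex_rpow, ex_rpow]
    have h3 : M.wG (cst L) 0 univ ω ^ a * M.wG (cst L) 0 univ ω ^ b = M.wG (cst L) 0 univ ω := by
      rw [← ENNReal.rpow_add_of_nonneg _ _ ha hb, hab, ENNReal.rpow_one]
    rw [mul_mul_mul_comm, h3, ← ex_add]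
    congr 2
    ring
  have hx0 : 0 < (M.ZT L x).toReal := ENNReal.toReal_pos
    (lt_of_lt_of_le one_pos (one_le_ZT M L x)).ne' (ZT_ne_top M L x)
  have hy0 : 0 < (M.ZT L y).toReal := ENNReal.toReal_pos
    (lt_of_lt_of_le one_pos (one_le_ZT M L y)).ne' (ZT_ne_top M L y)
  have h0 : 0 < (M.ZT L (a * x + b * y)).toReal := ENNReal.toReal_pos
    (lt_of_lt_of_le one_pos (one_le_ZT M L _)).ne' (ZT_ne_top M L _)
  have h1 : (M.ZT L (a * x + b * y)).toReal ≤ (M.ZT L x).toReal ^ a * (M.ZT L y).toReal ^ b := by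
    have h2 := ENNReal.toReal_mono (ENNReal.mul_ne_top
      (ENNReal.rpow_ne_top_of_nonneg ha (ZT_ne_top M L x))
      (ENNReal.rpow_ne_top_of_nonneg hb (ZT_ne_top M L y))) key
    rwa [ENNReal.toReal_mul, ← ENNReal.toReal_rpow, ← ENNReal.toReal_rpow] at h2
  calc Real.log (M.ZT L (a * x + b * y)).toReal
      ≤ Real.log ((M.ZT L x).toReal ^ a * (M.ZT L y).toReal ^ b) := Real.log_le_log h0 h1
    _ = _ := by
      rw [Real.log_mul (Real.rpow_pos_of_pos hx0 a).ne' (Real.rpow_pos_of_pos hy0 b).ne',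
        Real.log_rpow hx0, Real.log_rpow hy0]

namespace TorP

/-! ### Marginals -/

theorem lm_mono {Γ : Type} [DecidableEq Γ] (s : Finset Γ) {f g : (Γ → E) → ENNReal}
    (h : ∀ x, f x ≤ g x) (x : Γ → E) :
    lmarginal (fun _ : Γ => M.π) s f x ≤ lmarginal (fun _ : Γ => M.π) s g x :=
  lintegral_mono fun _ => h _

theorem lm_const_mul {Γ : Type} [DecidableEq Γ] (s : Finset Γ) {f : (Γ → E) → ENNReal}
    (hf : Measurable f) (C : ENNReal) (x : Γ → E) :
    lmarginal (fun _ : Γ => M.π) s (fun ω => C * f ω) x =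
      C * lmarginal (fun _ : Γ => M.π) s f x :=
  lintegral_const_mul C (hf.comp measurable_updateFinset)

/-- Lower bound of a marginal by the empty contents. -/
theorem le_lm {Γ : Type} [DecidableEq Γ] (s : Finset Γ) {f : (Γ → E) → ENNReal}
    (hf : Measurable f) (x : Γ → E) :
    f (fun i => if i ∈ s then M.e0 else x i) ≤ lmarginal (fun _ : Γ => M.π) s f x := by
  have := fin_π M
  have h := mul_meas_ge_le_lintegral (μ := Measure.pi fun _ : s => M.π)
    (hf.comp (measurable_updateFinset (x := x) (s := s)))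
    (f (fun i => if i ∈ s then M.e0 else x i))
  refine le_trans ?_ h
  have h1 : ({fun _ => M.e0} : Set (s → E)) ⊆ {y | f (fun i => if i ∈ s then M.e0 else x i) ≤
      (f ∘ Function.updateFinset x s) y} := by
    intro y hy
    rw [Set.mem_singleton_iff] at hy
    subst hy
    show f _ ≤ f _
    refine le_of_eq ?_
    congr 1
  have h2 : (1 : ENNReal) ≤ (Measure.pi fun _ : s => M.π)
      {y | f (fun i => if i ∈ s then M.e0 else x i) ≤ (f ∘ Function.updateFinset x s) y} := by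
    refine le_trans ?_ (measure_mono h1)
    rw [← Set.univ_pi_singleton, Measure.pi_pi]
    simp [M.π_e0]
  calc _ = f (fun i => if i ∈ s then M.e0 else x i) * 1 := (mul_one _).symm
    _ ≤ _ := mul_le_mul' le_rfl h2

/-- Transfer of marginals between the torus and the lattice. -/
theorem transfer {L : ℕ} {B : Finset (Zd d)} {e : Tor d L → Zd d} (he : Function.Injective e)
    (hB : ∀ i ∈ B, e (cst L i) = i) {F : (Zd d → E) → ENNReal} (hF : Measurable F)
    (hdep : ∀ x y : Zd d → E, (∀ i ∈ B, x i = y i) → F x = F y) :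
    lmarginal (fun _ : Tor d L => M.π) (B.image (cst L)) (fun ω => F fun i => ω (cst L i))
      (fun _ => M.e0) = M.int B F := by
  have := fin_π M
  have h1 : (B.image (cst L)).image e = B := by
    ext i
    constructor
    · intro hi
      obtain ⟨t, ht, rfl⟩ := mem_image.1 hi
      obtain ⟨j, hj, rfl⟩ := mem_image.1 ht
      rw [hB j hj]
      exact hj
    · intro hi
      exact mem_image.2 ⟨cst L i, mem_image_of_mem _ hi, hB i hi⟩
  have hm : Measurable fun ω : Tor d L → E => F fun i => ω (cst L i) :=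
    hF.comp (measurable_pi_iff.2 fun i => measurable_pi_apply _)
  have h := lmarginal_image (μ := fun _ : Zd d => M.π) (X := fun _ => E) he (B.image (cst L))
    hm (fun _ => M.e0)
  refine h.symm.trans ?_
  rw [h1]
  unfold Md.int
  congr 1
  funext ω
  refine hdep _ _ fun i hi => ?_
  show ω (e (cst L i)) = ω i
  rw [hB i hi]

theorem w_eq_wG (μ : ℝ) (A : Finset (Zd d)) : M.w μ A = M.wG id μ A := rfl

theorem w_dep (μ : ℝ) (B : Finset (Zd d)) (x y : Zd d → E) (h : ∀ i ∈ B, x i = y i) :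
    M.w μ B x = M.w μ B y := by
  unfold Md.w
  congr 1
  · exact prod_congr rfl fun i hi => by rw [h i hi]
  · refine prod_congr rfl fun v _ => prod_congr rfl fun i hi => ?_
    rw [mem_filter] at hi
    rw [h i hi.1, h _ hi.2]

theorem cst_add (L : ℕ) (u v : Zd d) : cst L (u + v) = cst L u + cst L v := by
  funext k
  simp [cst]

theorem cst_inj {L : ℕ} {u w : Zd d} (h : cst L u = cst L w) (hb : ∀ k, |u k - w k| ≤ 2 * L) :
    u = w := by
  funext k
  have h1 := congrFun h k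
  simp only [cst] at h1
  rw [ZMod.intCast_eq_intCast_iff_dvd_sub] at h1
  have h2 := Int.eq_zero_of_abs_lt_dvd h1 (by
    have := hb k
    rw [abs_sub_comm] at this
    push_cast
    omega)
  omega

theorem mem_bx {n : ℕ} {i : Zd d} : i ∈ bx d n ↔ ∀ k, 0 ≤ i k ∧ i k < n := by
  simp [bx]

/-- The coordinates in `{0, …, 2 L}`. -/
def vl {L : ℕ} (t : Tor d L) : Zd d := fun k => ((t k).val : ℤ)

theorem vl_inj {L : ℕ} : Function.Injective (vl (d := d) (L := L)) := by
  intro s t h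
  funext k
  have h1 := congrFun h k
  simp only [vl] at h1
  exact ZMod.val_injective _ (by exact_mod_cast h1)

theorem vl_cst {L : ℕ} {i : Zd d} (h : ∀ k, 0 ≤ i k ∧ i k < 2 * L + 1) : vl (cst L i) = i := by
  funext k
  simp only [vl, cst]
  rw [ZMod.val_intCast]
  have := h k
  exact Int.emod_eq_of_lt this.1 (by push_cast; omega)

theorem cst_vl {L : ℕ} (t : Tor d L) : cst L (vl t) = t := by
  funext k
  simp only [vl, cst]
  simp

theorem vl_mem {L : ℕ} (t : Tor d L) : vl t ∈ bx d (2 * L + 1) := by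
  rw [mem_bx]
  intro k
  simp only [vl]
  have := ZMod.val_lt (t k)
  constructor
  · positivity
  · exact_mod_cast this

theorem card_bx (n : ℕ) : (bx d n).card = n ^ d := by
  simp [bx]

theorem xi_le_ZT (L : ℕ) (μ : ℝ) : M.xi μ (bx d (2 * L)) ≤ M.ZT L μ := by
  classical
  have := fin_π M
  set B := bx d (2 * L) with hB
  set A := B.image (cst L) with hA
  have hB1 : ∀ i ∈ B, ∀ k, 0 ≤ i k ∧ i k < 2 * L := fun i hi k => by
    have := mem_bx.1 hi k
    push_cast at this
    exact this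
  have hB2 : ∀ i ∈ B, vl (cst L i) = i := fun i hi => vl_cst fun k => by
    have := hB1 i hi k
    omega
  have hinj : ∀ i ∈ B, ∀ j ∈ B, cst L i = cst L j → i = j := fun i hi j hj h => by
    rw [← hB2 i hi, ← hB2 j hj, h]
  have hm := measurable_wG M (cst L) μ (univ : Finset (Tor d L))
  have e1 : M.ZT L μ = lmarginal (fun _ : Tor d L => M.π) A
      (lmarginal (fun _ : Tor d L => M.π) (univ \ A) (M.wG (cst L) μ univ)) (fun _ => M.e0) := by
    unfold Md.ZT
    rw [lintegral_eq_lmarginal_univ (fun _ => M.e0), ← lmarginal_union _ _ hm disjoint_sdiff,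
      union_sdiff_of_subset (subset_univ A)]
  rw [e1]
  unfold Md.xi
  rw [← transfer M vl_inj hB2 (by rw [w_eq_wG]; exact measurable_wG M id μ B) (w_dep M μ B)]
  refine lm_mono M A (fun ω => ?_) _
  refine le_trans ?_ (le_lm M (univ \ A) hm ω)
  set ω' : Tor d L → E := fun t => if t ∈ univ \ A then M.e0 else ω t with hω'
  have hω1 : ∀ i ∈ B, ω' (cst L i) = ω (cst L i) := fun i hi => by
    have : cst L i ∈ A := mem_image_of_mem _ hi
    simp [hω', this]
  have hω2 : ∀ t, t ∉ A → ω' t = M.e0 := fun t ht => by simp [hω', ht]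
  unfold Md.w Md.wG
  refine mul_le_mul' ?_ (prod_mono fun v hv => ?_)
  · have e2 : ∏ i ∈ B, ex (μ * M.n (ω (cst L i))) * M.h (ω (cst L i)) =
        ∏ t ∈ A, ex (μ * M.n (ω' t)) * M.h (ω' t) := by
      rw [hA, prod_image hinj]
      exact prod_congr rfl fun i hi => by rw [hω1 i hi]
    rw [e2]
    refine prod_le_of_subset (subset_univ A) fun t _ ht => ?_
    rw [hω2 t ht, M.n_e0, M.h_e0]
    simp [ex_zero]
  · have e2 : ∏ i ∈ B.filter (fun i => i + v ∈ B), M.g v (ω (cst L i)) (ω (cst L (i + v))) =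
        ∏ t ∈ (B.filter (fun i => i + v ∈ B)).image (cst L), M.g v (ω' t) (ω' (t + cst L v)) := by
      rw [prod_image fun i hi j hj h => hinj i (mem_filter.1 hi).1 j (mem_filter.1 hj).1 h]
      refine prod_congr rfl fun i hi => ?_
      rw [mem_filter] at hi
      rw [hω1 i hi.1, ← cst_add, hω1 _ hi.2]
    rw [e2]
    refine prod_le_of_subset (fun t _ => by simp) fun t _ ht => ?_
    by_cases h1 : t ∈ A
    · by_cases h2 : t + cst L v ∈ A
      · obtain ⟨i, hi, rfl⟩ := mem_image.1 h1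
        obtain ⟨j, hj, hj2⟩ := mem_image.1 h2
        refine M.one_le_g v _ _ (mem_erase.1 hv).1 (Or.inl fun hNb => ht ?_)
        rw [mem_Nb] at hNb
        rw [← cst_add] at hj2
        have h3 : i + v = j := (cst_inj hj2.symm fun k => by
          have h4 := hB1 i hi k
          have h5 := hB1 j hj k
          have h6 := hNb k
          simp only [Pi.add_apply, Pi.zero_apply] at h6 ⊢
          rw [abs_le]
          constructor <;> omega)
        exact mem_image_of_mem _ (mem_filter.2 ⟨hi, by rw [h3]; exact hj⟩)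
      · rw [hω2 _ h2, g_e0_right]
    · rw [hω2 t h1, M.g_e0]

theorem ZT_le_xi (L : ℕ) (μ : ℝ) : M.ZT L μ ≤
    ex (M.K / 2 * M.N * M.N * cut M.S (bx d (2 * L + 1))) * M.xi μ (bx d (2 * L + 1)) := by
  classical
  have := fin_π M
  set B := bx d (2 * L + 1) with hB
  have hB1 : ∀ i ∈ B, ∀ k, 0 ≤ i k ∧ i k < 2 * L + 1 := fun i hi k => by
    have := mem_bx.1 hi k
    push_cast at this
    exact this
  have hB2 : ∀ i ∈ B, vl (cst L i) = i := fun i hi => vl_cst (hB1 i hi)
  have hinj : ∀ i ∈ B, ∀ j ∈ B, cst L i = cst L j → i = j := fun i hi j hj h => by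
    rw [← hB2 i hi, ← hB2 j hj, h]
  have hA : (univ : Finset (Tor d L)) = B.image (cst L) := by
    ext t
    simp only [mem_univ, true_iff]
    exact mem_image.2 ⟨vl t, vl_mem t, cst_vl t⟩
  have hmw : Measurable (M.w μ B) := by rw [w_eq_wG]; exact measurable_wG M id μ B
  unfold Md.ZT Md.xi
  rw [lintegral_eq_lmarginal_univ (fun _ => M.e0),
    ← transfer M vl_inj hB2 hmw (w_dep M μ B), ← hA,
    ← lm_const_mul M _ (f := fun ω : Tor d L → E => M.w μ B fun i => ω (cst L i))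
      (hmw.comp (measurable_pi_iff.2 fun i => measurable_pi_apply _))]
  refine lm_mono M univ (fun ω => ?_) _
  unfold Md.w Md.wG
  have e1 : ∀ f : Tor d L → ENNReal, ∏ t, f t = ∏ i ∈ B, f (cst L i) := fun f => by
    rw [hA, prod_image hinj]
  have e2 : ∏ v ∈ M.S.erase 0, ∏ t ∈ univ.filter (fun t => t + cst L v ∈ univ),
      M.g v (ω t) (ω (t + cst L v)) ≤ ex (M.K / 2 * M.N * M.N * cut M.S B) *
      ∏ v ∈ M.S.erase 0, ∏ i ∈ B.filter (fun i => i + v ∈ B),
        M.g v (ω (cst L i)) (ω (cst L (i + v))) := by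
    have e3 : ∀ v ∈ M.S.erase 0, ∏ t ∈ univ.filter (fun t : Tor d L => t + cst L v ∈ univ),
        M.g v (ω t) (ω (t + cst L v)) ≤
        ex (((B.filter fun i => i + v ∉ B).card : ℝ) * (M.K / 2 * M.N * M.N)) *
        ∏ i ∈ B.filter (fun i => i + v ∈ B), M.g v (ω (cst L i)) (ω (cst L (i + v))) := by
      intro v _
      rw [filter_true_of_mem (fun _ _ => mem_univ _), e1,
        ← prod_filter_mul_prod_filter_not B (fun i => i + v ∈ B), mul_comm]
      refine mul_le_mul' ?_ (le_of_eq ?_)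
      · calc _ ≤ ∏ _i ∈ B.filter (fun i => i + v ∉ B), ex (M.K / 2 * M.N * M.N) :=
            prod_mono fun i _ => g_le M v _ _
          _ = _ := by rw [prod_const, ex_pow]
      · exact prod_congr rfl fun i _ => by rw [cst_add]
    refine (prod_mono e3).trans ?_
    rw [prod_mul_distrib, prod_ex]
    refine mul_le_mul' (ex_le_ex.2 ?_) le_rfl
    rw [← sum_mul, mul_comm]
    have hK := M.hK.le
    refine mul_le_mul_of_nonneg_left ?_ (by positivity)
    unfold cut
    push_cast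
    exact sum_le_sum_of_subset_of_nonneg (erase_subset _ _) fun _ _ _ => Nat.cast_nonneg _
  rw [e1]
  calc _ ≤ _ := mul_le_mul' le_rfl e2
    _ = _ := by ring

/-- The boundary of a large box is small. -/
theorem cut_bx (n : ℕ) (hn : 2 * M.r ≤ n) :
    (cut M.S (bx d n) : ℝ) ≤ M.S.card * ((n : ℝ) ^ d - ((n : ℝ) - 2 * M.r) ^ d) := by
  classical
  have h1 : ∀ v ∈ M.S, (((bx d n).filter fun i => i + v ∉ bx d n).card : ℝ) ≤
      (n : ℝ) ^ d - ((n : ℝ) - 2 * M.r) ^ d := by
    intro v hv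
    set C : Finset (Zd d) := Fintype.piFinset fun _ => Finset.Ico (M.r : ℤ) ((n : ℤ) - M.r) with hC
    have hCB : C ⊆ bx d n := by
      intro i hi
      rw [hC, Fintype.mem_piFinset] at hi
      rw [mem_bx]
      intro k
      have := Finset.mem_Ico.1 (hi k)
      constructor <;> omega
    have hsub : (bx d n).filter (fun i => i + v ∉ bx d n) ⊆ bx d n \ C := by
      intro i hi
      rw [mem_filter] at hi
      refine Finset.mem_sdiff.2 ⟨hi.1, fun hiC => hi.2 ?_⟩
      rw [mem_bx]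
      intro k
      rw [hC, Fintype.mem_piFinset] at hiC
      have h2 := Finset.mem_Ico.1 (hiC k)
      have h3 := abs_le.1 (M.S_r v hv k)
      simp only [Pi.add_apply]
      constructor <;> omega
    have hcard : (C.card : ℝ) = ((n : ℝ) - 2 * M.r) ^ d := by
      rw [hC, Fintype.card_piFinset]
      simp only [Int.card_Ico, prod_const, card_univ, Fintype.card_fin]
      push_cast
      congr 1
      have h4 : ((((n : ℤ) - M.r - M.r).toNat : ℤ) : ℝ) = (((n : ℤ) - M.r - M.r : ℤ) : ℝ) := by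
        rw [Int.toNat_of_nonneg (by omega)]
      rw [Int.cast_natCast] at h4
      rw [h4]
      push_cast
      ring
    calc (((bx d n).filter fun i => i + v ∉ bx d n).card : ℝ) ≤ ((bx d n \ C).card : ℝ) := by
          exact_mod_cast card_le_card hsub
      _ = (bx d n).card - C.card := by
          rw [card_sdiff_of_subset hCB, Nat.cast_sub (card_le_card hCB)]
      _ = _ := by rw [hcard, card_bx]; push_cast; ring
  unfold cut
  push_cast
  calc _ ≤ ∑ v ∈ M.S, ((n : ℝ) ^ d - ((n : ℝ) - 2 * M.r) ^ d) := sum_le_sum h1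
    _ = _ := by rw [sum_const, nsmul_eq_mul]

end TorP

variable {M} {p : ℝ → ℝ}

theorem Md.IsP.torus (hd : 1 ≤ d) (hp : M.IsP p) (μ : ℝ) :
    Tendsto (fun L : ℕ => Real.log (M.ZT L μ).toReal / (2 * L + 1 : ℝ) ^ d) atTop (𝓝 (p μ)) := by
  have hT : Tendsto (fun L : ℕ => (2 * L + 1 : ℝ)) atTop atTop := by
    refine tendsto_atTop_mono (fun L => ?_) (tendsto_natCast_atTop_atTop (R := ℝ))
    have : (0 : ℝ) ≤ L := Nat.cast_nonneg L
    show (L : ℝ) ≤ 2 * L + 1
    linarith
  have hc : ∀ c : ℝ, Tendsto (fun L : ℕ => (1 - c / (2 * L + 1 : ℝ)) ^ d) atTop (𝓝 1) := fun c => by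
    have h1 := (tendsto_const_nhds (x := (1 : ℝ))).sub ((tendsto_const_nhds (x := c)).div_atTop hT)
    have h2 := h1.pow d
    simpa using h2
  have h2L : Tendsto (fun L : ℕ => 2 * L) atTop atTop :=
    tendsto_atTop_mono (fun L => show L ≤ 2 * L by omega) tendsto_id
  have h2L1 : Tendsto (fun L : ℕ => 2 * L + 1) atTop atTop :=
    tendsto_atTop_mono (fun L => show L ≤ 2 * L + 1 by omega) tendsto_id
  have hlow : Tendsto (fun L : ℕ => Real.log (M.xi μ (bx d (2 * L))).toReal / ((2 * L : ℕ) : ℝ) ^ d *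
      (1 - 1 / (2 * L + 1 : ℝ)) ^ d) atTop (𝓝 (p μ)) := by
    have h1 := ((hp μ).comp h2L).mul (hc 1)
    rw [mul_one] at h1
    exact h1
  have hup : Tendsto (fun L : ℕ => Real.log (M.xi μ (bx d (2 * L + 1))).toReal /
      ((2 * L + 1 : ℕ) : ℝ) ^ d + M.K / 2 * M.N * M.N * M.S.card *
      (1 - (1 - 2 * M.r / (2 * L + 1 : ℝ)) ^ d)) atTop (𝓝 (p μ)) := by
    have h1 := ((hp μ).comp h2L1).add (((tendsto_const_nhds (x := (1 : ℝ))).sub
      (hc (2 * M.r))).const_mul (M.K / 2 * M.N * M.N * M.S.card))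
    rw [sub_self, mul_zero, add_zero] at h1
    exact h1
  have hxi0 : ∀ n : ℕ, 0 < (M.xi μ (bx d n)).toReal := fun n => ENNReal.toReal_pos
    (lt_of_lt_of_le one_pos (one_le_xi M μ _)).ne' (xi_ne_top M μ _)
  have hZ0 : ∀ L : ℕ, 0 < (M.ZT L μ).toReal := fun L => ENNReal.toReal_pos
    (lt_of_lt_of_le one_pos (one_le_ZT M L μ)).ne' (ZT_ne_top M L μ)
  refine tendsto_of_tendsto_of_tendsto_of_le_of_le' hlow hup ?_ ?_
  · filter_upwards [eventually_ge_atTop 1] with L hL
    have hL0 : (0 : ℝ) < L := by exact_mod_cast hL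
    have h1 : Real.log (M.xi μ (bx d (2 * L))).toReal ≤ Real.log (M.ZT L μ).toReal :=
      Real.log_le_log (hxi0 _) (ENNReal.toReal_mono (ZT_ne_top M L μ) (xi_le_ZT M L μ))
    have e1 : (1 - 1 / (2 * L + 1 : ℝ)) = ((2 * L : ℕ) : ℝ) / (2 * L + 1) := by
      push_cast
      field_simp
      ring
    rw [e1, div_pow]
    have h3 : (0 : ℝ) < ((2 * L : ℕ) : ℝ) ^ d := by positivity
    have h4 : (0 : ℝ) < (2 * L + 1 : ℝ) ^ d := by positivity
    rw [div_mul_div_comm, mul_comm (((2 * L : ℕ) : ℝ) ^ d) ((2 * L + 1 : ℝ) ^ d),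
      mul_div_mul_right _ _ h3.ne']
    exact div_le_div_of_nonneg_right h1 h4.le
  · filter_upwards [eventually_ge_atTop M.r] with L hL
    have h4 : (0 : ℝ) < (2 * L + 1 : ℝ) ^ d := by positivity
    have h1 : Real.log (M.ZT L μ).toReal ≤ M.K / 2 * M.N * M.N * cut M.S (bx d (2 * L + 1)) +
        Real.log (M.xi μ (bx d (2 * L + 1))).toReal := by
      have h5 := ENNReal.toReal_mono (ENNReal.mul_ne_top (ex_ne_top _) (xi_ne_top M μ _))
        (ZT_le_xi M L μ)
      rw [ENNReal.toReal_mul, ex_toReal] at h5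
      calc _ ≤ Real.log (Real.exp (M.K / 2 * M.N * M.N * cut M.S (bx d (2 * L + 1))) *
            (M.xi μ (bx d (2 * L + 1))).toReal) := Real.log_le_log (hZ0 L) h5
        _ = _ := by rw [Real.log_mul (Real.exp_pos _).ne' (hxi0 _).ne', Real.log_exp]
    have h2 := cut_bx M (2 * L + 1) (by omega)
    have hK := M.hK.le
    have h3 : M.K / 2 * M.N * M.N * cut M.S (bx d (2 * L + 1)) ≤ M.K / 2 * M.N * M.N *
        (M.S.card * (((2 * L + 1 : ℕ) : ℝ) ^ d - (((2 * L + 1 : ℕ) : ℝ) - 2 * M.r) ^ d)) :=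
      mul_le_mul_of_nonneg_left h2 (by positivity)
    have e1 : (1 - 2 * M.r / (2 * L + 1 : ℝ)) = (((2 * L + 1 : ℕ) : ℝ) - 2 * M.r) / (2 * L + 1) := by
      push_cast
      have : (2 * L + 1 : ℝ) ≠ 0 := by positivity
      field_simp
    rw [e1, div_pow, div_le_iff₀ h4]
    have e2 : (((2 * L + 1 : ℕ) : ℝ)) = 2 * L + 1 := by push_cast; ring
    rw [e2] at h3 ⊢
    have h5 : (Real.log (M.xi μ (bx d (2 * L + 1))).toReal / (2 * L + 1 : ℝ) ^ d +
        M.K / 2 * M.N * M.N * M.S.card * (1 - (2 * L + 1 - 2 * M.r : ℝ) ^ d / (2 * L + 1 : ℝ) ^ d)) *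
        (2 * L + 1 : ℝ) ^ d = Real.log (M.xi μ (bx d (2 * L + 1))).toReal +
        M.K / 2 * M.N * M.N * (M.S.card * ((2 * L + 1 : ℝ) ^ d - (2 * L + 1 - 2 * M.r : ℝ) ^ d)) := by
      field_simp
    rw [h5]
    linarith

end Pool.Agent.SquareWell
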