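import Pool.Agent.Lib.MP_09cbbd_sw.Alg
import Pool.Agent.Lib.MP_09cbbd_sw.Pres

/-!
# Bound for the configurations of a given type
-/

set_option autoImplicit false

namespace Pool.Agent.SquareWell

open MeasureTheory Finset Filter Topology Pool.Agent.StableGas

variable {d : ℕ} {E : Type} [MeasurableSpace E] (M : Md d E)

namespace Typ

theorem g_c' (v : Zd d) (x y : E) : M.g v x y ≤ M.g v x (M.c y) * ex (M.K / 2 * M.Ns * M.N) := by
  rw [← M.g_symm v x y, ← M.g_symm v x (M.c y)]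
  exact M.g_c _ _ _

theorem tr_bd {Y : Finset (Zd d)} {i : Zd d} (h : i ∈ bd Y) (ω : Zd d → E) :
    M.tr Y ω i = M.c (ω i) := by
  unfold Md.tr
  rw [if_pos h]

theorem tr_nbd {Y : Finset (Zd d)} {i : Zd d} (h : i ∉ bd Y) (ω : Zd d → E) :
    M.tr Y ω i = ω i := by
  unfold Md.tr
  rw [if_neg h]

open Classical in
/-- Indicator of the boundary. -/
noncomputable def eb (Y : Finset (Zd d)) (i : Zd d) : ℝ := if i ∈ bd Y then 1 else 0

theorem eb_nonneg (Y : Finset (Zd d)) (i : Zd d) : 0 ≤ eb Y i := by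
  unfold eb; split_ifs <;> norm_num

theorem onsite_le {μ : ℝ} (hμ : μ ≤ 0) (Y : Finset (Zd d)) (ω : Zd d → E) (i : Zd d) :
    ex (μ * M.n (ω i)) * M.h (ω i) ≤
      ex (μ * M.n (M.tr Y ω i)) * M.h (M.tr Y ω i) * ex (M.K * M.Ns * M.N * eb Y i) := by
  unfold eb
  split_ifs with h
  · rw [tr_bd M h, mul_one, mul_assoc]
    refine mul_le_mul' (ex_le_ex.2 ?_) (M.h_c _)
    exact mul_le_mul_of_nonpos_left (by exact_mod_cast M.n_c _) hμ
  · rw [tr_nbd M h, mul_zero, ex_zero, mul_one]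

theorem pair_le (Y : Finset (Zd d)) (ω : Zd d → E) (v i j : Zd d) :
    M.g v (ω i) (ω j) ≤ M.g v (M.tr Y ω i) (M.tr Y ω j) *
      ex (M.K / 2 * M.Ns * M.N * (eb Y i + eb Y j)) := by
  have h1 : M.g v (ω i) (ω j) ≤ M.g v (M.tr Y ω i) (ω j) * ex (M.K / 2 * M.Ns * M.N * eb Y i) := by
    unfold eb
    split_ifs with h
    · rw [tr_bd M h, mul_one]
      exact M.g_c _ _ _
    · rw [tr_nbd M h, mul_zero, ex_zero, mul_one]
  have h2 : M.g v (M.tr Y ω i) (ω j) ≤ M.g v (M.tr Y ω i) (M.tr Y ω j) *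
      ex (M.K / 2 * M.Ns * M.N * eb Y j) := by
    unfold eb
    split_ifs with h
    · rw [tr_bd M h, mul_one]
      exact g_c' M _ _ _
    · rw [tr_nbd M h, mul_zero, ex_zero, mul_one]
  refine h1.trans ((mul_le_mul_left h2 _).trans (le_of_eq ?_))
  rw [mul_assoc, ← ex_add]
  congr 2
  ring

theorem sum_eb (Y : Finset (Zd d)) : ∑ i ∈ Y, eb Y i = (bd Y).card := by
  classical
  unfold eb
  rw [Finset.sum_ite_mem, Finset.sum_const, nsmul_eq_mul, mul_one]
  congr 2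
  refine Finset.inter_eq_right.2 fun i hi => (mem_bd.1 hi).1

end Typ

open Typ

/-- Trimming loses little weight. -/
theorem w_trim {μ : ℝ} (hμ : μ ≤ 0) (Y : Finset (Zd d)) (ω : Zd d → E) :
    M.w μ Y ω ≤ M.w μ Y (M.tr Y ω) * ex (M.K * M.Ns * M.N * M.S.card * (bd Y).card) := by
  classical
  have hC : 0 ≤ M.K * M.Ns * M.N := by
    have := M.hK.le
    positivity
  have h1 : ∏ i ∈ Y, ex (μ * M.n (ω i)) * M.h (ω i) ≤
      (∏ i ∈ Y, ex (μ * M.n (M.tr Y ω i)) * M.h (M.tr Y ω i)) *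
        ex (M.K * M.Ns * M.N * (bd Y).card) := by
    refine (Finset.prod_le_prod' fun i _ => onsite_le M hμ Y ω i).trans (le_of_eq ?_)
    rw [Finset.prod_mul_distrib, prod_ex, ← Finset.mul_sum, sum_eb]
  have h2 : ∀ v : Zd d, ∏ i ∈ Y.filter (fun i => i + v ∈ Y), M.g v (ω i) (ω (i + v)) ≤
      (∏ i ∈ Y.filter (fun i => i + v ∈ Y), M.g v (M.tr Y ω i) (M.tr Y ω (i + v))) *
        ex (M.K * M.Ns * M.N * (bd Y).card) := by
    intro v
    refine (Finset.prod_le_prod' fun i _ => pair_le M Y ω v i (i + v)).trans ?_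
    rw [Finset.prod_mul_distrib, prod_ex, ← Finset.mul_sum, Finset.sum_add_distrib]
    refine mul_le_mul_right (ex_le_ex.2 ?_) _
    have h3 : ∑ i ∈ Y.filter (fun i => i + v ∈ Y), eb Y i ≤ (bd Y).card := by
      rw [← sum_eb]
      exact Finset.sum_le_sum_of_subset_of_nonneg (Finset.filter_subset _ _)
        fun i _ _ => eb_nonneg Y i
    have h4 : ∑ i ∈ Y.filter (fun i => i + v ∈ Y), eb Y (i + v) ≤ (bd Y).card := by
      rw [← sum_eb, ← Finset.sum_image (f := fun j => eb Y j) (g := fun i => i + v)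
        (fun a _ b _ h => add_right_cancel h)]
      refine Finset.sum_le_sum_of_subset_of_nonneg ?_ fun i _ _ => eb_nonneg Y i
      intro j hj
      obtain ⟨i, hi, rfl⟩ := Finset.mem_image.1 hj
      exact (Finset.mem_filter.1 hi).2
    have h5 := mul_le_mul_of_nonneg_left (add_le_add h3 h4) hC
    have e1 : M.K / 2 * M.Ns * M.N * (∑ i ∈ Y.filter (fun i => i + v ∈ Y), eb Y i +
        ∑ i ∈ Y.filter (fun i => i + v ∈ Y), eb Y (i + v)) =
        1 / 2 * (M.K * M.Ns * M.N * (∑ i ∈ Y.filter (fun i => i + v ∈ Y), eb Y i +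
        ∑ i ∈ Y.filter (fun i => i + v ∈ Y), eb Y (i + v))) := by ring
    rw [e1]
    linarith
  have hcard : 1 ≤ M.S.card := Finset.card_pos.2 ⟨0, M.zero_S⟩
  have h3 : ∏ v ∈ M.S.erase 0, ∏ i ∈ Y.filter (fun i => i + v ∈ Y), M.g v (ω i) (ω (i + v)) ≤
      (∏ v ∈ M.S.erase 0, ∏ i ∈ Y.filter (fun i => i + v ∈ Y),
        M.g v (M.tr Y ω i) (M.tr Y ω (i + v))) *
        ex ((M.S.card - 1 : ℕ) * (M.K * M.Ns * M.N * (bd Y).card)) := by
    refine (Finset.prod_le_prod' fun v _ => h2 v).trans (le_of_eq ?_)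
    rw [Finset.prod_mul_distrib]
    congr 1
    rw [Finset.prod_const, ex_pow, Finset.card_erase_of_mem M.zero_S]
  unfold Md.w
  refine (mul_le_mul' h1 h3).trans (le_of_eq ?_)
  rw [mul_mul_mul_comm, ← ex_add]
  congr 2
  push_cast [Nat.cast_sub hcard]
  ring

/-! ### Splitting of the weight -/

namespace Typ

/-- The product over the pairs from `P` to `Q`. -/
noncomputable def pp (P Q : Finset (Zd d)) (ω : Zd d → E) : ENNReal :=
  ∏ v ∈ M.S.erase 0, ∏ i ∈ P.filter (fun i => i + v ∈ Q), M.g v (ω i) (ω (i + v))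

/-- The product over the sites. -/
noncomputable def on (μ : ℝ) (P : Finset (Zd d)) (ω : Zd d → E) : ENNReal :=
  ∏ i ∈ P, ex (μ * M.n (ω i)) * M.h (ω i)

theorem w_eq (μ : ℝ) (P : Finset (Zd d)) (ω : Zd d → E) :
    M.w μ P ω = on M μ P ω * pp M P P ω := rfl

theorem on_union {μ : ℝ} {P Q : Finset (Zd d)} (h : Disjoint P Q) (ω : Zd d → E) :
    on M μ (P ∪ Q) ω = on M μ P ω * on M μ Q ω := Finset.prod_union h

theorem pp_union_left {P P' : Finset (Zd d)} (h : Disjoint P P') (Q : Finset (Zd d))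
    (ω : Zd d → E) : pp M (P ∪ P') Q ω = pp M P Q ω * pp M P' Q ω := by
  unfold pp
  rw [← Finset.prod_mul_distrib]
  refine Finset.prod_congr rfl fun v _ => ?_
  rw [Finset.filter_union, Finset.prod_union]
  exact h.mono (Finset.filter_subset _ _) (Finset.filter_subset _ _)

theorem pp_union_right (P : Finset (Zd d)) {Q Q' : Finset (Zd d)} (h : Disjoint Q Q')
    (ω : Zd d → E) : pp M P (Q ∪ Q') ω = pp M P Q ω * pp M P Q' ω := by
  unfold pp
  rw [← Finset.prod_mul_distrib]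
  refine Finset.prod_congr rfl fun v _ => ?_
  rw [← Finset.prod_union]
  · congr 1
    ext i
    simp only [Finset.mem_filter, Finset.mem_union]
    tauto
  · rw [Finset.disjoint_left]
    intro i hi hi'
    exact Finset.disjoint_left.1 h (Finset.mem_filter.1 hi).2 (Finset.mem_filter.1 hi').2

/-- Product of occupation numbers. -/
def nn (ω : Zd d → E) (i j : Zd d) : ℝ := (M.n (ω i) : ℝ) * M.n (ω j)

theorem nn_comm (ω : Zd d → E) (i j : Zd d) : nn M ω i j = nn M ω j i := mul_comm _ _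

theorem pp_le (P Q : Finset (Zd d)) (ω : Zd d → E) :
    pp M P Q ω ≤ ex (M.K / 2 * ps (M.S.erase 0) P Q (nn M ω)) := by
  unfold pp ps
  rw [Finset.mul_sum, ← prod_ex]
  refine Finset.prod_le_prod' fun v _ => ?_
  rw [Finset.mul_sum, ← prod_ex]
  refine Finset.prod_le_prod' fun i _ => ?_
  refine (M.g_up _ _ _).trans (le_of_eq ?_)
  rw [nn, mul_assoc]

theorem ps_nonneg (S P Q : Finset (Zd d)) (ω : Zd d → E) : 0 ≤ ps S P Q (nn M ω) :=
  Finset.sum_nonneg fun _ _ => Finset.sum_nonneg fun _ _ => by unfold nn; positivity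

theorem ps_erase {P Q : Finset (Zd d)} (h : Disjoint P Q) (f : Zd d → Zd d → ℝ) :
    ps (M.S.erase 0) P Q f = ps M.S P Q f := by
  unfold ps
  rw [← Finset.add_sum_erase _ _ M.zero_S]
  have h1 : P.filter (fun i => i + 0 ∈ Q) = ∅ := by
    rw [Finset.filter_eq_empty_iff]
    intro i hi hi'
    rw [add_zero] at hi'
    exact Finset.disjoint_left.1 h hi hi'
  rw [h1, Finset.sum_empty, zero_add]

theorem ps_erase_self (P : Finset (Zd d)) (f : Zd d → Zd d → ℝ) :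
    ∑ i ∈ P, f i i + ps (M.S.erase 0) P P f = ps M.S P P f := by
  unfold ps
  rw [← Finset.add_sum_erase _ _ M.zero_S]
  congr 1
  have h1 : P.filter (fun i => i + 0 ∈ P) = P := by
    rw [Finset.filter_eq_self]
    intro i hi
    rwa [add_zero]
  rw [h1]
  simp only [add_zero]

theorem ps_symm (P Q : Finset (Zd d)) {f : Zd d → Zd d → ℝ} (hf : ∀ i j, f i j = f j i) :
    ps M.S P Q f = ps M.S Q P f := by
  unfold ps
  refine Finset.sum_bij' (fun v _ => -v) (fun v _ => -v) (fun v hv => M.S_neg v hv)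
    (fun v hv => M.S_neg v hv) (fun v _ => neg_neg v) (fun v _ => neg_neg v) ?_
  intro v _
  refine Finset.sum_bij' (fun i _ => i + v) (fun i _ => i - v) ?_ ?_ ?_ ?_ ?_
  · intro i hi
    rw [Finset.mem_filter] at hi ⊢
    refine ⟨hi.2, ?_⟩
    rw [add_neg_cancel_right]
    exact hi.1
  · intro i hi
    rw [Finset.mem_filter] at hi ⊢
    rw [sub_add_cancel]
    refine ⟨?_, hi.1⟩
    rw [sub_eq_add_neg]
    exact hi.2
  · intro i _
    exact add_sub_cancel_right i v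
  · intro i _
    exact sub_add_cancel i v
  · intro i _
    rw [add_neg_cancel_right]
    exact hf _ _

theorem on_le (μ : ℝ) (P : Finset (Zd d)) (ω : Zd d → E) :
    on M μ P ω ≤ ex (μ * ∑ i ∈ P, (M.n (ω i) : ℝ) + M.K / 2 * ∑ i ∈ P, nn M ω i i) := by
  unfold on
  rw [Finset.mul_sum, Finset.mul_sum, ← Finset.sum_add_distrib, ← prod_ex]
  refine Finset.prod_le_prod' fun i _ => ?_
  rw [ex_add]
  refine mul_le_mul_right ((M.h_up _).trans (le_of_eq ?_)) _
  rw [nn, mul_assoc]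

/-- Bound for the weight of a union of three sets. -/
theorem w_split (μ : ℝ) {Y O W : Finset (Zd d)} (hYO : Disjoint Y O) (hYW : Disjoint Y W)
    (hOW : Disjoint O W) (ω : Zd d → E) :
    M.w μ (Y ∪ O ∪ W) ω ≤ M.w μ Y ω * M.w μ W ω *
      ex (μ * ∑ i ∈ O, (M.n (ω i) : ℝ) + M.K * (1 / 2 * ps M.S O O (nn M ω) +
        ps M.S Y O (nn M ω) + ps M.S Y W (nn M ω) + ps M.S O W (nn M ω))) := by
  have hK := M.hK.le
  have hd1 : Disjoint (Y ∪ O) W := Finset.disjoint_union_left.2 ⟨hYW, hOW⟩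
  rw [w_eq, w_eq, w_eq, on_union M hd1, on_union M hYO, pp_union_left M hd1, pp_union_left M hYO,
    pp_union_right M Y hd1, pp_union_right M Y hYO, pp_union_right M O hd1,
    pp_union_right M O hYO, pp_union_right M W hd1, pp_union_right M W hYO]
  have e1 : on M μ Y ω * on M μ O ω * on M μ W ω *
      (pp M Y Y ω * pp M Y O ω * pp M Y W ω * (pp M O Y ω * pp M O O ω * pp M O W ω) *
        (pp M W Y ω * pp M W O ω * pp M W W ω)) =
      on M μ Y ω * pp M Y Y ω * (on M μ W ω * pp M W W ω) *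
      (on M μ O ω * pp M O O ω * (pp M Y O ω * pp M O Y ω) * (pp M Y W ω * pp M W Y ω) *
        (pp M O W ω * pp M W O ω)) := by ring
  rw [e1]
  refine mul_le_mul_right ?_ _
  have h1 : ∀ {P Q : Finset (Zd d)}, Disjoint P Q →
      pp M P Q ω * pp M Q P ω ≤ ex (M.K * ps M.S P Q (nn M ω)) := by
    intro P Q h
    refine (mul_le_mul' (pp_le M P Q ω) (pp_le M Q P ω)).trans (le_of_eq ?_)
    rw [← ex_add, ps_erase M h, ps_erase M h.symm, ps_symm M Q P (nn_comm M ω)]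
    congr 1
    ring
  have h2 : on M μ O ω * pp M O O ω ≤ ex (μ * ∑ i ∈ O, (M.n (ω i) : ℝ) +
      M.K / 2 * ps M.S O O (nn M ω)) := by
    refine (mul_le_mul' (on_le M μ O ω) (pp_le M O O ω)).trans (le_of_eq ?_)
    rw [← ex_add, ← ps_erase_self M O]
    congr 1
    ring
  refine (mul_le_mul' (mul_le_mul' (mul_le_mul' h2 (h1 hYO)) (h1 hYW)) (h1 hOW)).trans
    (le_of_eq ?_)
  rw [← ex_add, ← ex_add, ← ex_add]
  congr 1
  ring

/-! ### Dependence and measurability -/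

theorem tr_congr (Y : Finset (Zd d)) {ω ω' : Zd d → E} {i : Zd d} (h : ω i = ω' i) :
    M.tr Y ω i = M.tr Y ω' i := by
  classical
  by_cases hi : i ∈ bd Y
  · rw [tr_bd M hi, tr_bd M hi, h]
  · rw [tr_nbd M hi, tr_nbd M hi, h]

theorem w_congr (μ : ℝ) (A : Finset (Zd d)) {ω ω' : Zd d → E} (h : ∀ i ∈ A, ω i = ω' i) :
    M.w μ A ω = M.w μ A ω' := by
  unfold Md.w
  congr 1
  · exact Finset.prod_congr rfl fun i hi => by rw [h i hi]
  · refine Finset.prod_congr rfl fun v _ => Finset.prod_congr rfl fun i hi => ?_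
    rw [Finset.mem_filter] at hi
    rw [h i hi.1, h _ hi.2]

theorem ou_congr (Y : Finset (Zd d)) {ω ω' : Zd d → E} (h : ∀ i ∈ Y, ω i = ω' i) :
    M.ou Y ω = M.ou Y ω' := by
  unfold Md.ou
  refine Finset.sum_congr rfl fun v _ => Finset.sum_congr rfl fun i hi => ?_
  rw [h i (Finset.mem_filter.1 hi).1]

theorem measurable_tr (Y : Finset (Zd d)) : Measurable (M.tr Y) := by
  classical
  rw [measurable_pi_iff]
  intro i
  by_cases hi : i ∈ bd Y
  · simp_rw [tr_bd M hi]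
    exact M.measurable_c.comp (measurable_pi_apply i)
  · simp_rw [tr_nbd M hi]
    exact measurable_pi_apply i

theorem measurable_ou (Y : Finset (Zd d)) : Measurable (M.ou Y) := by
  unfold Md.ou
  refine Finset.measurable_sum _ fun v _ => Finset.measurable_sum _ fun i _ => ?_
  exact M.measurable_n.comp (measurable_pi_apply i)

/-- The integrand of the gluing inequality. -/
noncomputable def GF (μ ρ : ℝ) (Y : Finset (Zd d)) (ω : Zd d → E) : ENNReal :=
  M.w μ Y (M.tr Y ω) * ex (ρ * M.K * M.ou Y (M.tr Y ω))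

theorem measurable_GF (μ ρ : ℝ) (Y : Finset (Zd d)) : Measurable (GF M μ ρ Y) := by
  unfold GF
  refine ((measurable_w M μ Y).comp (measurable_tr M Y)).mul ?_
  refine ENNReal.measurable_ofReal.comp (Real.measurable_exp.comp ?_)
  refine measurable_const.mul ?_
  exact (measurable_from_top (f := fun n : ℕ => (n : ℝ))).comp
    ((measurable_ou M Y).comp (measurable_tr M Y))

theorem GF_congr (μ ρ : ℝ) (Y : Finset (Zd d)) {ω ω' : Zd d → E} (h : ∀ i ∈ Y, ω i = ω' i) :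
    GF M μ ρ Y ω = GF M μ ρ Y ω' := by
  unfold GF
  rw [w_congr M μ Y fun i hi => tr_congr M Y (h i hi),
    ou_congr M Y fun i hi => tr_congr M Y (h i hi)]

theorem w_shift (μ μ' : ℝ) (A : Finset (Zd d)) (ω : Zd d → E) :
    M.w μ A ω = M.w μ' A ω * ex ((μ - μ') * ∑ i ∈ A, (M.n (ω i) : ℝ)) := by
  rw [w_eq, w_eq, mul_right_comm]
  congr 1
  unfold on
  rw [Finset.mul_sum, ← prod_ex, ← Finset.prod_mul_distrib]
  refine Finset.prod_congr rfl fun i _ => ?_
  rw [mul_right_comm, ← ex_add]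
  congr 2
  ring

/-- Integrals of products. -/
theorem int_mul [SigmaFinite M.π] {Y Z : Finset (Zd d)} (h : Disjoint Y Z)
    {F G : (Zd d → E) → ENNReal} (hF : Measurable F) (hG : Measurable G)
    (dF : ∀ ω ω' : Zd d → E, (∀ i ∈ Y, ω i = ω' i) → F ω = F ω')
    (dG : ∀ ω ω' : Zd d → E, (∀ i ∈ Z, ω i = ω' i) → G ω = G ω') :
    M.int (Y ∪ Z) (fun ω => F ω * G ω) = M.int Y F * M.int Z G := by
  classical
  unfold Md.int
  rw [lmarginal_union (fun _ : Zd d => M.π) (fun ω => F ω * G ω) (hF.mul hG) h]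
  have h1 : ∀ x : Zd d → E, lmarginal (fun _ : Zd d => M.π) Z (fun ω => F ω * G ω) x =
      F x * lmarginal (fun _ : Zd d => M.π) Z G (fun _ => M.e0) := by
    intro x
    unfold lmarginal
    refine (lintegral_congr (g := fun y => F x *
      G (Function.updateFinset (fun _ => M.e0) Z y)) fun y => ?_).trans
      (lintegral_const_mul _ (hG.comp measurable_updateFinset))
    change F _ * G _ = F _ * G _
    have k1 : F (Function.updateFinset x Z y) = F x := by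
      refine dF _ _ fun i hi => ?_
      rw [Function.updateFinset, dif_neg (Finset.disjoint_left.1 h hi)]
    have k2 : G (Function.updateFinset x Z y) =
        G (Function.updateFinset (fun _ => M.e0) Z y) := by
      refine dG _ _ fun i hi => ?_
      rw [Function.updateFinset, dif_pos hi, Function.updateFinset, dif_pos hi]
    rw [k1, k2]
  have h2 : lmarginal (fun _ : Zd d => M.π) Z (fun ω => F ω * G ω) =
      fun x => F x * lmarginal (fun _ : Zd d => M.π) Z G (fun _ => M.e0) := funext h1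
  rw [h2]
  unfold lmarginal
  exact lintegral_mul_const _ (hF.comp measurable_updateFinset)

theorem int_mul_const (A : Finset (Zd d)) {F : (Zd d → E) → ENNReal} {c : ENNReal} (hc : c ≠ ⊤) :
    M.int A (fun ω => F ω * c) = M.int A F * c := by
  unfold Md.int lmarginal
  exact lintegral_mul_const' _ _ hc

theorem int_mono (A : Finset (Zd d)) {F G : (Zd d → E) → ENNReal} (h : ∀ ω, F ω ≤ G ω) :
    M.int A F ≤ M.int A G := by
  unfold Md.int lmarginal
  exact lintegral_mono fun y => h _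

instance : IsFiniteMeasure M.π := ⟨M.π_univ.trans_lt (ex_ne_top _).lt_top⟩

/-- The surface inequality for a configuration. -/
theorem surface_app {μ : ℝ} (Y O W : Finset (Zd d)) (ω : Zd d → E)
    (hμ : μ ≤ -(1 / 2) * M.K * M.S.card * M.N * (1 - 1 / 256))
    (hcut : ∀ Y, 511 * cut M.S Y ≤ 512 * cut M.Sm Y) (hNs : 256 * M.Ns ≤ M.N)
    (hYO : Disjoint Y O) (hYW : Disjoint Y W) (hOW : Disjoint O W)
    (c1 : ∀ i ∈ Y, ∀ v ∈ M.S, i + v ∉ Y → M.Dn (ω i))
    (c2 : ∀ i ∈ O, ¬ M.Dn (ω i) ∧ ¬ M.Vc (ω i))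
    (c3 : ∀ i ∈ W, ∀ v ∈ M.S, (i + v ∈ Y ∨ i + v ∈ O) → M.Vc (ω i)) :
    μ * ∑ i ∈ O, (M.n (ω i) : ℝ) + M.K * (1 / 2 * ps M.S O O (nn M ω) +
        ps M.S Y O (nn M ω) + ps M.S Y W (nn M ω) + ps M.S O W (nn M ω)) ≤
      63 / 64 * M.N * M.K * M.ou Y (M.tr Y ω) - 63 / 64 * M.N / 2 * M.K * M.N * cut M.S Y -
        1 / 512 * M.K * M.N ^ 2 * (cut M.S Y + M.S.card * (1 / 16) * O.card) := by
  classical
  have hN : (0 : ℝ) < M.N := by exact_mod_cast M.hN
  have hK := M.hK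
  have hNsR : 256 * (M.Ns : ℝ) ≤ M.N := by exact_mod_cast hNs
  have hS := surface M.S M.Sm Y O W M.zero_S M.Sm_S M.S_neg (hcut Y) hYO hYW hOW
    (fun i => (M.n (ω i) : ℝ) / M.N) (fun i => (M.n (M.tr Y ω i) : ℝ) / M.N) (63 / 64)
    ((M.Ns : ℝ) / M.N) (μ / (M.K * M.N)) rfl (by positivity)
    (by
      rw [div_le_iff₀ hN]
      linarith)
    (by
      rw [div_le_iff₀ (mul_pos hK hN)]
      refine hμ.trans (le_of_eq ?_)
      ring)
    (fun i _ => by positivity)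
    (fun i _ => by
      rw [div_le_one hN]
      exact_mod_cast M.n_le _)
    (fun i _ => by positivity)
    (fun i _ => by
      refine div_le_div_of_nonneg_right ?_ hN.le
      by_cases hi : i ∈ bd Y
      · rw [tr_bd M hi]
        exact_mod_cast M.n_c _
      · rw [tr_nbd M hi])
    (fun i _ => by
      rw [← add_div]
      refine div_le_div_of_nonneg_right ?_ hN.le
      by_cases hi : i ∈ bd Y
      · rw [tr_bd M hi]
        exact_mod_cast M.n_le_c _
      · rw [tr_nbd M hi]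
        have : (0 : ℝ) ≤ M.Ns := Nat.cast_nonneg _
        linarith)
    (fun i hi v hv hiv => by
      have h1 : 7 * M.N ≤ 8 * M.n (M.c (ω i)) := c1 i hi v hv hiv
      have h2 : M.n (M.c (ω i)) ≤ M.n (M.tr Y ω i) := by
        by_cases hi : i ∈ bd Y
        · rw [tr_bd M hi]
        · rw [tr_nbd M hi]
          exact M.n_c _
      have h3 : (7 : ℝ) * M.N ≤ 8 * M.n (M.tr Y ω i) := by
        exact_mod_cast h1.trans (Nat.mul_le_mul_left 8 h2)
      rw [div_le_div_iff₀ (by norm_num) hN]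
      linarith)
    (fun i hi => by
      have h1 := (c2 i hi).1
      unfold Md.Dn at h1
      have h2 := M.n_le_c (ω i)
      have h3 : 16 * M.n (ω i) ≤ 15 * M.N := by omega
      have h4 : (16 : ℝ) * M.n (ω i) ≤ 15 * M.N := by exact_mod_cast h3
      rw [div_le_div_iff₀ hN (by norm_num)]
      linarith)
    (fun i hi v hv hiv => by
      have h1 : 16 * M.n (ω i) ≤ M.N := c3 i hi v hv hiv
      have h4 : (16 : ℝ) * M.n (ω i) ≤ M.N := by exact_mod_cast h1
      rw [div_le_div_iff₀ hN (by norm_num)]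
      linarith)
  -- translation
  have hps : ∀ P Q : Finset (Zd d), ps M.S P Q (fun i j => (M.n (ω i) : ℝ) / M.N *
      ((M.n (ω j) : ℝ) / M.N)) = ps M.S P Q (nn M ω) / M.N ^ 2 := by
    intro P Q
    unfold ps nn
    rw [Finset.sum_div]
    refine Finset.sum_congr rfl fun v _ => ?_
    rw [Finset.sum_div]
    refine Finset.sum_congr rfl fun i _ => ?_
    field_simp
  have hou : ∑ v ∈ M.Sm, ∑ i ∈ Y.filter (fun i => i + v ∉ Y), (M.n (M.tr Y ω i) : ℝ) / M.N =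
      (M.ou Y (M.tr Y ω) : ℝ) / M.N := by
    unfold Md.ou
    push_cast
    rw [Finset.sum_div]
    refine Finset.sum_congr rfl fun v _ => ?_
    rw [Finset.sum_div]
  have hO : ∑ i ∈ O, (M.n (ω i) : ℝ) / M.N = (∑ i ∈ O, (M.n (ω i) : ℝ)) / M.N := by
    rw [Finset.sum_div]
  have hO16 : (1 / 16 : ℝ) * O.card ≤ (∑ i ∈ O, (M.n (ω i) : ℝ)) / M.N := by
    rw [← hO, mul_comm, ← nsmul_eq_mul]
    refine Finset.card_nsmul_le_sum _ _ _ fun i hi => ?_
    have h1 := (c2 i hi).2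
    unfold Md.Vc at h1
    have h4 : (M.N : ℝ) ≤ 16 * M.n (ω i) := by exact_mod_cast (not_le.1 h1).le
    rw [div_le_div_iff₀ (by norm_num) hN]
    linarith
  rw [hps, hps, hps, hps, hou, hO] at hS
  have hKN : 0 < M.K * M.N ^ 2 := by positivity
  have h1 := mul_le_mul_of_nonneg_left hS hKN.le
  have h2 := mul_le_mul_of_nonneg_left hO16 (show 0 ≤ M.K * M.N ^ 2 * (1 / 512) * M.S.card by
    positivity)
  have e1 : M.K * M.N ^ 2 * (-(63 / 64 * ((M.ou Y (M.tr Y ω) : ℝ) / M.N)) +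
      (1 / 2 * (ps M.S O O (nn M ω) / M.N ^ 2) + ps M.S Y O (nn M ω) / M.N ^ 2 +
        ps M.S Y W (nn M ω) / M.N ^ 2 + ps M.S O W (nn M ω) / M.N ^ 2) +
      μ / (M.K * M.N) * ((∑ i ∈ O, (M.n (ω i) : ℝ)) / M.N)) =
      -(63 / 64 * M.N * M.K * M.ou Y (M.tr Y ω)) + M.K * (1 / 2 * ps M.S O O (nn M ω) +
        ps M.S Y O (nn M ω) + ps M.S Y W (nn M ω) + ps M.S O W (nn M ω)) +
        μ * ∑ i ∈ O, (M.n (ω i) : ℝ) := by
    field_simp
  rw [e1] at h1
  have e2 : M.K * M.N ^ 2 * (1 / 512) * M.S.card * (1 / 16 * O.card) =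
      1 / 512 * M.K * M.N ^ 2 * (M.S.card * (1 / 16) * O.card) := by ring
  rw [e2] at h2
  linarith

/-- Bound for one configuration. -/
theorem w_le {μ μa μb ρa : ℝ} (hab1 : μa ≤ μ) (hab2 : μ ≤ μb) (hρa : 0 ≤ ρa)
    (hloc : μb ≤ -(1 / 2) * M.K * M.S.card * M.N * (1 - 1 / 256))
    (hcut : ∀ Y, 511 * cut M.S Y ≤ 512 * cut M.Sm Y) (hNs : 256 * M.Ns ≤ M.N)
    (Y O W : Finset (Zd d)) (hYO : Disjoint Y O) (hYW : Disjoint Y W) (hOW : Disjoint O W)
    (mY mW : ℝ) (ω : Zd d → E)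
    (c1 : ∀ i ∈ Y, ∀ v ∈ M.S, i + v ∉ Y → M.Dn (ω i))
    (c2 : ∀ i ∈ O, ¬ M.Dn (ω i) ∧ ¬ M.Vc (ω i))
    (c3 : ∀ i ∈ W, ∀ v ∈ M.S, (i + v ∈ Y ∨ i + v ∈ O) → M.Vc (ω i))
    (c4 : mY ≤ ∑ i ∈ Y, (M.n (M.tr Y ω i) : ℝ))
    (c5 : ∑ i ∈ W, (M.n (M.tr W ω i) : ℝ) ≤ mW) :
    M.w μ (Y ∪ O ∪ W) ω ≤ GF M μb (63 / 64 * M.N) Y ω * GF M μa ρa W ω *
      ex (-(μb - μ) * mY + (μ - μa) * mW +
        M.K * M.Ns * M.N * M.S.card * ((bd Y).card + (bd W).card) -
        63 / 64 * M.N / 2 * M.K * M.N * cut M.S Y -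
        1 / 512 * M.K * M.N ^ 2 * (cut M.S Y + M.S.card * (1 / 16) * O.card)) := by
  have hK := M.hK.le
  have hμb : μb ≤ 0 := by
    refine hloc.trans ?_
    have : 0 ≤ M.K * M.S.card * M.N := by positivity
    nlinarith
  have hμ0 : μ ≤ 0 := hab2.trans hμb
  have hs := surface_app M Y O W ω (hab2.trans hloc) hcut hNs hYO hYW hOW c1 c2 c3
  have h1 : M.w μ Y ω ≤ GF M μb (63 / 64 * M.N) Y ω * ex (-(μb - μ) * mY +
      M.K * M.Ns * M.N * M.S.card * (bd Y).card -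
      63 / 64 * M.N * M.K * M.ou Y (M.tr Y ω)) := by
    refine (w_trim M hμ0 Y ω).trans ?_
    rw [w_shift M μ μb, GF, mul_assoc (M.w μb Y (M.tr Y ω)), ← ex_add,
      mul_assoc (M.w μb Y (M.tr Y ω)), ← ex_add]
    refine mul_le_mul_right (ex_le_ex.2 ?_) _
    have h3 := mul_le_mul_of_nonneg_left c4 (sub_nonneg.2 hab2)
    linarith
  have h2 : M.w μ W ω ≤ GF M μa ρa W ω * ex ((μ - μa) * mW +
      M.K * M.Ns * M.N * M.S.card * (bd W).card) := by
    refine (w_trim M hμ0 W ω).trans ?_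
    rw [w_shift M μ μa, GF, mul_assoc (M.w μa W (M.tr W ω)), ← ex_add,
      mul_assoc (M.w μa W (M.tr W ω)), ← ex_add]
    refine mul_le_mul_right (ex_le_ex.2 ?_) _
    have h3 := mul_le_mul_of_nonneg_left c5 (sub_nonneg.2 hab1)
    have h4 : 0 ≤ ρa * M.K * M.ou W (M.tr W ω) := by positivity
    linarith
  refine (w_split M μ hYO hYW hOW ω).trans ?_
  refine (mul_le_mul' (mul_le_mul' h1 h2) (ex_le_ex.2 hs)).trans (le_of_eq ?_)
  have e1 : ∀ a b c e f : ENNReal, a * b * (c * e) * f = a * c * (b * e * f) := by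
    intro a b c e f; ring
  rw [e1, ← ex_add, ← ex_add]
  congr 2
  ring

end Typ

theorem type_bound {μ μa μb pa pb ρa : ℝ} (hab1 : μa ≤ μ) (hab2 : μ ≤ μb) (hρa : 0 ≤ ρa)
    (hloc : μb ≤ -(1 / 2) * M.K * M.S.card * M.N * (1 - 1 / 256))
    (hcut : ∀ Y, 511 * cut M.S Y ≤ 512 * cut M.Sm Y) (hNs : 256 * M.Ns ≤ M.N)
    (Ga : M.Glue μa ρa pa) (Gb : M.Glue μb (63 / 64 * M.N) pb)
    (Y O W : Finset (Zd d)) (hYO : Disjoint Y O) (hYW : Disjoint Y W) (hOW : Disjoint O W)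
    (Ω : Set (Zd d → E)) (hΩ : MeasurableSet Ω) (mY mW : ℝ)
    (c1 : ∀ ω ∈ Ω, ∀ i ∈ Y, ∀ v ∈ M.S, i + v ∉ Y → M.Dn (ω i))
    (c2 : ∀ ω ∈ Ω, ∀ i ∈ O, ¬ M.Dn (ω i) ∧ ¬ M.Vc (ω i))
    (c3 : ∀ ω ∈ Ω, ∀ i ∈ W, ∀ v ∈ M.S, (i + v ∈ Y ∨ i + v ∈ O) → M.Vc (ω i))
    (c4 : ∀ ω ∈ Ω, mY ≤ ∑ i ∈ Y, (M.n (M.tr Y ω i) : ℝ))
    (c5 : ∀ ω ∈ Ω, ∑ i ∈ W, (M.n (M.tr W ω i) : ℝ) ≤ mW) :
    M.int (Y ∪ O ∪ W) (Ω.indicator (M.w μ (Y ∪ O ∪ W))) ≤
      ex (pb * Y.card + pa * W.card - (μb - μ) * mY + (μ - μa) * mW +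
        (M.b + M.K * M.Ns * M.N * M.S.card) * ((bd Y).card + (bd W).card) + M.b * O.card +
        ρa / 2 * M.K * M.N * cut M.S W -
        1 / 512 * M.K * M.N ^ 2 * (cut M.S Y + M.S.card * (1 / 16) * O.card)) := by
  classical
  set C : ℝ := -(μb - μ) * mY + (μ - μa) * mW +
    M.K * M.Ns * M.N * M.S.card * ((bd Y).card + (bd W).card) -
    63 / 64 * M.N / 2 * M.K * M.N * cut M.S Y -
    1 / 512 * M.K * M.N ^ 2 * (cut M.S Y + M.S.card * (1 / 16) * O.card) with hC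
  have h1 : M.int (Y ∪ O ∪ W) (Ω.indicator (M.w μ (Y ∪ O ∪ W))) ≤
      M.int (Y ∪ O ∪ W) (fun ω => GF M μb (63 / 64 * M.N) Y ω * GF M μa ρa W ω * ex C) := by
    refine int_mono M _ fun ω => ?_
    by_cases hω : ω ∈ Ω
    · rw [Set.indicator_of_mem hω]
      exact w_le M hab1 hab2 hρa hloc hcut hNs Y O W hYO hYW hOW mY mW ω (c1 ω hω) (c2 ω hω)
        (c3 ω hω) (c4 ω hω) (c5 ω hω)
    · rw [Set.indicator_of_notMem hω]
      exact zero_le
  refine h1.trans ?_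
  rw [int_mul_const M _ (ex_ne_top C), int_mul M (Finset.disjoint_union_left.2 ⟨hYW, hOW⟩)
    (measurable_GF M _ _ Y) (measurable_GF M _ _ W)
    (fun ω ω' h => GF_congr M _ _ Y fun i hi => h i (Finset.mem_union_left _ hi))
    (fun ω ω' h => GF_congr M _ _ W h)]
  have h2 : M.int (Y ∪ O) (GF M μb (63 / 64 * M.N) Y) =
      M.int Y (GF M μb (63 / 64 * M.N) Y) * M.int O (fun _ => 1) := by
    rw [← int_mul M hYO (measurable_GF M _ _ Y) measurable_const
      (fun ω ω' h => GF_congr M _ _ Y h) (fun _ _ _ => rfl)]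
    congr 1
    funext ω
    rw [mul_one]
  rw [h2]
  refine (mul_le_mul' (mul_le_mul' (mul_le_mul' (Gb Y) (int_one_le M O)) (Ga W))
    (le_refl (ex C))).trans (le_of_eq ?_)
  rw [← ex_add, ← ex_add, ← ex_add, hC]
  congr 1
  ring

end Pool.Agent.SquareWell
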